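import Pool.Agent.Lib.MP_026281_co.Num

/-!
# MP_026281_co: the asymptotic requirements hold eventually
-/

set_option autoImplicit false
set_option linter.unusedSectionVars false

namespace Pool.Agent.SQ

open Finset Filter Asymptotics

/-- `C x^(-b) ≤ c` eventually -/
private theorem ev_neg (C : ℝ) {b c : ℝ} (hb : 0 < b) (hc : 0 < c) :
    ∀ᶠ x : ℝ in atTop, C * x ^ (-b) ≤ c := by
  have h1 : Tendsto (fun x : ℝ => C * x ^ (-b)) atTop (nhds (C * 0)) :=
    (tendsto_rpow_neg_atTop hb).const_mul C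
  rw [mul_zero] at h1
  exact (h1.eventually_lt_const hc).mono (fun x hx => hx.le)

/-- `x^n exp(-c x^b) ≤ e` eventually -/
private theorem ev_exp (n : ℕ) {b c e : ℝ} (hb : 0 < b) (hc : 0 < c) (he : 0 < e) :
    ∀ᶠ x : ℝ in atTop, x ^ n * Real.exp (-(c * x ^ b)) ≤ e := by
  have h1 := isLittleO_exp_neg_mul_rpow_atTop hc (-(n / b))
  have h2 := h1.comp_tendsto (tendsto_rpow_atTop hb)
  have h3 := h2.def he
  filter_upwards [h3, eventually_gt_atTop (0 : ℝ)] with x hx hx0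
  simp only [Function.comp_apply, Real.norm_eq_abs, Real.abs_exp] at hx
  rw [← Real.rpow_mul hx0.le, abs_of_pos (Real.rpow_pos_of_pos hx0 _)] at hx
  have h4 : b * -(n / b) = -(n : ℝ) := by field_simp
  rw [h4, Real.rpow_neg hx0.le, Real.rpow_natCast] at hx
  have h5 : x ^ n * Real.exp (-c * x ^ b) ≤ x ^ n * (e * (x ^ n)⁻¹) :=
    mul_le_mul_of_nonneg_left hx (by positivity)
  have h6 : x ^ n * (e * (x ^ n)⁻¹) = e := by
    field_simp
  rw [h6] at h5
  rwa [neg_mul] at h5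

/-- `c (log x + 3) ≤ x^a` eventually -/
private theorem ev_log {c a : ℝ} (hc : 0 < c) (ha : 0 < a) :
    ∀ᶠ x : ℝ in atTop, c * (Real.log x + 3) ≤ x ^ a := by
  have h1 := (isLittleO_log_rpow_atTop ha).def (show 0 < 1 / (2 * c) by positivity)
  have h2 : ∀ᶠ x : ℝ in atTop, 6 * c ≤ x ^ a :=
    (tendsto_rpow_atTop ha).eventually_ge_atTop _
  filter_upwards [h1, h2, eventually_gt_atTop (1 : ℝ)] with x hx hx2 hx1
  have hx0 : 0 < x := by linarith
  rw [Real.norm_of_nonneg (Real.log_nonneg hx1.le),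
    Real.norm_of_nonneg (Real.rpow_nonneg hx0.le _)] at hx
  have h3 : c * Real.log x ≤ x ^ a / 2 := by
    have := mul_le_mul_of_nonneg_left hx hc.le
    refine this.trans (le_of_eq ?_)
    field_simp
  linarith

/-- the requirements hold eventually -/
theorem asy_eventually {ε c β W δ θ : ℝ} {t : ℕ} (T : ℕ) (hε : 0 < ε) (hc : 0 < c) (hβ : 0 < β)
    (hW : 0 < W) (hδ : 0 < δ) (hθ : 0 < θ) (ht : 0 < t) :
    ∀ᶠ x : ℝ in atTop, Asy ε c β W δ θ t T x := by
  have ht0 : (0 : ℝ) < t := by exact_mod_cast ht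
  have e1 : ∀ᶠ x : ℝ in atTop, 8 / ε ≤ x := eventually_ge_atTop _
  have e2 : ∀ᶠ x : ℝ in atTop, (3 : ℝ) ≤ x := eventually_ge_atTop _
  have e3 := ev_log (c := 1) (a := 1 / 100) one_pos (by norm_num)
  have e4 := ev_log (c := c) (a := 1 / (100 * t)) hc (by positivity)
  -- bad
  set κ : ℝ := δ * ε / 64 * Real.log 2 with hκ
  have hκ0 : 0 < κ := by have := Real.log_pos (by norm_num : (1 : ℝ) < 2); positivity
  have e5 : ∀ᶠ x : ℝ in atTop, 3 / κ ≤ Real.log x := Real.tendsto_log_atTop.eventually_ge_atTop _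
  have e6 : ∀ᶠ x : ℝ in atTop, 6 / θ < x := eventually_gt_atTop _
  have e7 := ev_neg (β * (16 * W / ε)) (b := 99 / 100) (c := 1 / 2) (by norm_num) (by norm_num)
  have e8 := ev_neg 2 (b := 2) (c := β / 64) (by norm_num) (by positivity)
  set B : ℝ := β * (16 * W / ε) with hB
  have hB0 : 0 < B := by positivity
  have hl2 := Real.log_pos (by norm_num : (1 : ℝ) < 2)
  have e9 : ∀ᶠ x : ℝ in atTop, 2 * B / Real.log 2 ≤ x ^ (49 / 100 : ℝ) :=
    (tendsto_rpow_atTop (by norm_num)).eventually_ge_atTop _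
  have e10 := ev_exp 4 (b := 3 / 2) (c := Real.log 2 / 2) (e := β / 128) (by norm_num)
    (by positivity) (by positivity)
  have e11 := ev_neg (2 * ((16 * W / ε) ^ 2 * (128 + 16 * T))) (b := 335 / 1000) (c := 1)
    (by norm_num) (by norm_num)
  have e12 := ev_neg (4 * ((16 * W / ε) ^ 2 * (128 + 16 * T)) *
    ((16 * W / ε) ^ 2 * (128 + 8 * (β * W)))) (b := 16 / 100) (c := 1)
    (by norm_num) (by norm_num)
  have e13 := ev_exp (4 * (T + 4)) (b := 99 / 100) (c := ε / (1024 * W))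
    (e := 1 / (8 * 2 ^ (2 * (T + 4)))) (by norm_num) (by positivity) (by positivity)
  have e14 := ev_exp (4 * (T + 4)) (b := 1 / 8) (c := 1 / 8192)
    (e := 1 / (8 * 2 ^ (2 * (T + 4)) * Real.exp 1)) (by norm_num) (by positivity) (by positivity)
  filter_upwards [e1, e2, e3, e4, e5, e6, e7, e8, e9, e10, e11, e12, e13, e14] with x
    h1 h2 h3 h4 h5 h6 h7 h8 h9 h10 h11 h12 h13 h14
  have hx0 : 0 < x := by linarith
  have hx1 : 1 ≤ x := by linarith
  have hx2 : (1 : ℝ) ≤ x ^ 2 := one_le_pow₀ hx1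
  have hpoly : (x ^ 2 + 1) ^ (2 * (T + 4)) ≤ 2 ^ (2 * (T + 4)) * x ^ (4 * (T + 4)) := by
    calc (x ^ 2 + 1) ^ (2 * (T + 4)) ≤ (2 * x ^ 2) ^ (2 * (T + 4)) :=
          pow_le_pow_left₀ (by positivity) (by linarith) _
      _ = _ := by rw [mul_pow, ← pow_mul]; congr 2; ring
  refine ⟨?_, h2, ?_, ?_, ?_, ?_, ?_, ?_, ?_, ?_, ?_, ?_⟩
  · rw [div_le_iff₀ hε] at h1; linarith
  · linarith
  · calc (c * (Real.log x + 3)) ^ t ≤ (x ^ (1 / (100 * t) : ℝ)) ^ t := by
          refine pow_le_pow_left₀ ?_ h4 t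
          have := Real.log_nonneg hx1
          positivity
      _ = x ^ (1 / 100 : ℝ) := by
          rw [← Real.rpow_natCast, ← Real.rpow_mul hx0.le]
          congr 1; field_simp
  · -- bad
    have hL : 0 ≤ Real.log x := Real.log_nonneg hx1
    have a1 : (2 : ℝ) ^ (-(δ * ε / 64 * Real.log x ^ 2)) = Real.exp (-(κ * Real.log x ^ 2)) := by
      rw [Real.rpow_def_of_pos (by norm_num)]
      congr 1; rw [hκ]; ring
    have a2 : κ * Real.log x ^ 2 ≥ 3 * Real.log x := by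
      rw [div_le_iff₀ hκ0] at h5
      calc κ * Real.log x ^ 2 = Real.log x * κ * Real.log x := by ring
        _ ≥ 3 * Real.log x := mul_le_mul_of_nonneg_right h5 hL
    have a3 : Real.exp (-(κ * Real.log x ^ 2)) ≤ (x ^ 3)⁻¹ := by
      calc Real.exp (-(κ * Real.log x ^ 2)) ≤ Real.exp (-(3 * Real.log x)) :=
            Real.exp_le_exp.2 (by linarith)
        _ = (x ^ 3)⁻¹ := by
            rw [Real.exp_neg]
            congr 1
            rw [show (3 : ℝ) * Real.log x = ((3 : ℕ) : ℝ) * Real.log x by norm_num,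
              ← Real.log_pow, Real.exp_log (by positivity)]
    rw [a1]
    have a4 : (2 * x ^ 2 + 1) * Real.exp (-(κ * Real.log x ^ 2)) ≤ 3 * x ^ 2 * (x ^ 3)⁻¹ :=
      mul_le_mul (by linarith) a3 (Real.exp_pos _).le (by positivity)
    have a5 : 3 * x ^ 2 * (x ^ 3)⁻¹ = 3 / x := by field_simp
    rw [a5] at a4
    refine lt_of_le_of_lt a4 ?_
    rw [div_lt_iff₀ hθ] at h6
    rw [div_lt_iff₀ hx0]
    linarith
  · refine le_trans (le_of_eq ?_) h7
    rw [hB]; ring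
  · refine le_trans (le_of_eq ?_) h8
    rw [Real.rpow_neg hx0.le]
    have : x ^ (2 : ℝ) = x ^ (2 : ℕ) := by rw [← Real.rpow_natCast]; norm_num
    rw [this]; field_simp
  · -- err2
    have a1 : (2 : ℝ) ^ (-(x ^ (3 / 2 : ℝ))) = Real.exp (-(Real.log 2 * x ^ (3 / 2 : ℝ))) := by
      rw [Real.rpow_def_of_pos (by norm_num)]
      congr 1; ring
    have a2 : B * x ^ (101 / 100 : ℝ) ≤ Real.log 2 / 2 * x ^ (3 / 2 : ℝ) := by
      have a3 : x ^ (3 / 2 : ℝ) = x ^ (49 / 100 : ℝ) * x ^ (101 / 100 : ℝ) := by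
        rw [← Real.rpow_add hx0]; norm_num
      rw [a3, ← mul_assoc]
      refine mul_le_mul_of_nonneg_right ?_ (by positivity)
      rw [div_le_iff₀ hl2] at h9
      linarith
    rw [a1, ← Real.exp_add]
    have a4 : Real.exp (-(Real.log 2 * x ^ (3 / 2 : ℝ)) + B * x ^ (101 / 100 : ℝ)) ≤
        Real.exp (-(Real.log 2 / 2 * x ^ (3 / 2 : ℝ))) := Real.exp_le_exp.2 (by linarith)
    calc 2 * x ^ 4 * Real.exp (-(Real.log 2 * x ^ (3 / 2 : ℝ)) + B * x ^ (101 / 100 : ℝ))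
        ≤ 2 * x ^ 4 * Real.exp (-(Real.log 2 / 2 * x ^ (3 / 2 : ℝ))) :=
          mul_le_mul_of_nonneg_left a4 (by positivity)
      _ = 2 * (x ^ 4 * Real.exp (-(Real.log 2 / 2 * x ^ (3 / 2 : ℝ)))) := by ring
      _ ≤ 2 * (β / 128) := by linarith
      _ = β / 64 := by ring
  · refine le_trans (le_of_eq ?_) h11
    have a1 : x ^ (-(335 / 1000) : ℝ) = x ^ (1 / 8 : ℝ) * x ^ (-(46 / 100) : ℝ) := by
      rw [← Real.rpow_add hx0]; norm_num
    rw [a1]; ring
  · refine le_trans (le_of_eq ?_) h12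
    have a1 : x ^ (-(16 / 100) : ℝ) =
        x ^ (1 / 4 : ℝ) * x ^ (-(46 / 100) : ℝ) * x ^ (5 / 100 : ℝ) := by
      rw [← Real.rpow_add hx0, ← Real.rpow_add hx0]; norm_num
    rw [a1]; ring
  · have hp2 : (0 : ℝ) < 2 ^ (2 * (T + 4)) := by positivity
    calc (x ^ 2 + 1) ^ (2 * (T + 4)) * Real.exp (-(ε / (1024 * W) * x ^ (99 / 100 : ℝ)))
        ≤ (2 ^ (2 * (T + 4)) * x ^ (4 * (T + 4))) *
          Real.exp (-(ε / (1024 * W) * x ^ (99 / 100 : ℝ))) :=
          mul_le_mul_of_nonneg_right hpoly (Real.exp_pos _).le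
      _ = 2 ^ (2 * (T + 4)) * (x ^ (4 * (T + 4)) *
          Real.exp (-(ε / (1024 * W) * x ^ (99 / 100 : ℝ)))) := by ring
      _ ≤ 2 ^ (2 * (T + 4)) * (1 / (8 * 2 ^ (2 * (T + 4)))) :=
          mul_le_mul_of_nonneg_left h13 hp2.le
      _ = 1 / 8 := by field_simp
  · have hp2 : (0 : ℝ) < 2 ^ (2 * (T + 4)) := by positivity
    have a0 : Real.exp (-(x ^ (1 / 8 : ℝ) / 8192) + 1) =
        Real.exp (-(1 / 8192 * x ^ (1 / 8 : ℝ))) * Real.exp 1 := by
      rw [← Real.exp_add]; congr 1; ring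
    rw [a0]
    calc (x ^ 2 + 1) ^ (2 * (T + 4)) *
          (Real.exp (-(1 / 8192 * x ^ (1 / 8 : ℝ))) * Real.exp 1)
        ≤ (2 ^ (2 * (T + 4)) * x ^ (4 * (T + 4))) *
          (Real.exp (-(1 / 8192 * x ^ (1 / 8 : ℝ))) * Real.exp 1) :=
          mul_le_mul_of_nonneg_right hpoly (by positivity)
      _ = 2 ^ (2 * (T + 4)) * Real.exp 1 * (x ^ (4 * (T + 4)) *
          Real.exp (-(1 / 8192 * x ^ (1 / 8 : ℝ)))) := by ring
      _ ≤ 2 ^ (2 * (T + 4)) * Real.exp 1 * (1 / (8 * 2 ^ (2 * (T + 4)) * Real.exp 1)) :=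
          mul_le_mul_of_nonneg_left h14 (by positivity)
      _ = 1 / 8 := by field_simp

/-- choice of all parameters, for every `ε` and all large `k` -/
theorem exists_allNum {ε : ℝ} (hε : 0 < ε) (hε1 : ε ≤ 1) :
    ∃ k0 : ℕ, ∀ k ≥ k0, ∃ (r m ell M t : ℕ) (δ θ η om K κ3 lam : ℝ) (P : NP),
      AllNum k ⌈ε * (k : ℝ) ^ 2⌉₊ r m ell M t δ θ η om K κ3 lam P := by
  set K : ℝ := 256 * (1 / ε) with hK
  have h1ε : 1 ≤ 1 / ε := by rw [le_div_iff₀ hε]; linarith
  have hK1 : 1 ≤ K := by rw [hK]; linarith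
  set β : ℝ := 16 * Real.log (49152 * K) with hβ
  have hlogpos : 0 < Real.log (49152 * K) := Real.log_pos (by linarith)
  have hβ0 : 0 < β := by positivity
  set T : ℕ := ⌈96 * β * K⌉₊ with hT
  have hK0 : 0 < K := by linarith
  have hTK : 96 * β * K ≤ T := Nat.le_ceil _
  have hT0 : 0 < T := by
    rw [hT]; exact Nat.ceil_pos.2 (by positivity)
  set Y : ℝ := 96 * β * K with hY
  set W : ℝ := Real.exp Y with hW
  have hW0 : 0 < W := Real.exp_pos _
  set κ3 : ℝ := K / (8 * β * W ^ 2) with hκ3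
  have hκ0 : 0 < κ3 := by positivity
  set a0 : ℝ := κ3 * ε ^ 2 / (3 * 24576) with ha0
  have ha0pos : 0 < a0 := by positivity
  set δ : ℝ := min 1 a0 with hδ
  have hδ0 : 0 < δ := lt_min one_pos ha0pos
  have hδ1 : δ ≤ 1 := min_le_left _ _
  have hδa : δ ≤ a0 := min_le_right _ _
  set om : ℝ := δ / 4 with hom
  have hom0 : 0 < om := by positivity
  set θ : ℝ := min 1 (a0 * om) with hθ
  have hθ0 : 0 < θ := lt_min one_pos (by positivity)
  have hθ1 : θ ≤ 1 := min_le_left _ _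
  have hθa : θ / om ≤ a0 := by rw [div_le_iff₀ hom0]; exact min_le_right _ _
  set η : ℝ := δ / 8 with hη
  have hη0 : 0 < η := by positivity
  obtain ⟨t0, ht0⟩ := exists_pow_lt_of_lt_one ha0pos (show 1 - δ / 192 < 1 by linarith)
  set t : ℕ := t0 + 2 with ht
  have htpow : (1 - δ / 192) ^ t ≤ a0 := by
    refine le_trans ?_ ht0.le
    exact pow_le_pow_of_le_one (by linarith) (by linarith) (by omega)
  set M : ℕ := ⌈2 / (η * θ)⌉₊ with hM
  have hM0 : 0 < M := by rw [hM]; exact Nat.ceil_pos.2 (by positivity)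
  have hM1 : 2 / (η * θ) ≤ M := Nat.le_ceil _
  have hMηθ : 2 ≤ (M : ℝ) * η * θ := by
    rw [div_le_iff₀ (by positivity)] at hM1
    linarith
  set c : ℝ := t * (M + 1 : ℕ) with hc
  have hc0 : 0 < c := by
    have : (0 : ℝ) < t := by exact_mod_cast (by omega : 0 < t)
    positivity
  have hκcond : 24576 * ((1 - δ / 192) ^ t + (δ + θ / om)) * (1 / ε) ^ 2 ≤ κ3 := by
    have h1 : (1 - δ / 192) ^ t + (δ + θ / om) ≤ 3 * a0 := by linarith
    calc 24576 * ((1 - δ / 192) ^ t + (δ + θ / om)) * (1 / ε) ^ 2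
        ≤ 24576 * (3 * a0) * (1 / ε) ^ 2 :=
          mul_le_mul_of_nonneg_right (mul_le_mul_of_nonneg_left h1 (by norm_num)) (by positivity)
      _ = κ3 := by rw [ha0]; field_simp
  have hκ3c : 2 * β * W ^ 2 * κ3 ≤ K / 4 := by
    rw [hκ3]
    refine le_of_eq ?_
    field_simp
    ring
  have hleft : 49152 * K ≤ Real.exp (β / 16) := by
    rw [hβ, mul_div_cancel_left₀ _ (by norm_num : (16 : ℝ) ≠ 0), Real.exp_log (by positivity)]
  have hev := asy_eventually (t := t) T hε hc0 hβ0 hW0 hδ0 hθ0 (by omega)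
  have hev2 := tendsto_natCast_atTop_atTop.eventually hev
  obtain ⟨k0, hk0⟩ := eventually_atTop.1 hev2
  refine ⟨k0, fun k hk => ?_⟩
  obtain ⟨r, m, ell, lam, P, hall⟩ := exists_allNum_of_asy hε hε1 hc hβ0 hW hδ0 hδ1 hθ0 hθ1 hη0
    (by omega : 2 ≤ t) hM0 hMηθ hom0 le_rfl le_rfl hK1 hκ0.le hT0 hTK le_rfl hκ3c hleft le_rfl
    hκcond k (hk0 k hk)
  exact ⟨r, m, ell, M, t, δ, θ, η, om, K, κ3, lam, P, hall⟩

end Pool.Agent.SQ
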