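import Pool.Agent.Lib.MP_026281_co.Defs

/-!
# MP_026281_co: basic finite probability
-/

set_option autoImplicit false

namespace Pool.Agent.SQ

open Finset

/-! ## indicators -/

theorem ind_of {P : Prop} (h : P) : ind P = 1 := by simp [ind, h]
theorem ind_of_not {P : Prop} (h : ¬ P) : ind P = 0 := by simp [ind, h]
theorem ind_nonneg (P : Prop) : 0 ≤ ind P := by by_cases h : P <;> simp [ind, h]
theorem ind_le_one (P : Prop) : ind P ≤ 1 := by by_cases h : P <;> simp [ind, h]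
theorem ind_mono {P Q : Prop} (h : P → Q) : ind P ≤ ind Q := by
  by_cases hP : P
  · rw [ind_of hP, ind_of (h hP)]
  · rw [ind_of_not hP]; exact ind_nonneg Q
theorem ind_congr {P Q : Prop} (h : P ↔ Q) : ind P = ind Q := by rw [propext h]
theorem ind_and (P Q : Prop) : ind (P ∧ Q) = ind P * ind Q := by
  by_cases h : P <;> by_cases h' : Q <;> simp [ind, h, h']
theorem ind_not (P : Prop) : ind (¬ P) = 1 - ind P := by
  by_cases h : P <;> simp [ind, h]
theorem ind_or_le (P Q : Prop) : ind (P ∨ Q) ≤ ind P + ind Q := by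
  by_cases h : P <;> by_cases h' : Q <;> simp [ind, h, h']
theorem ind_mul_self (P : Prop) : ind P * ind P = ind P := by
  by_cases h : P <;> simp [ind, h]
theorem ind_exists_le {α : Type} (s : Finset α) (P : α → Prop) :
    ind (∃ a ∈ s, P a) ≤ ∑ a ∈ s, ind (P a) := by
  by_cases h : ∃ a ∈ s, P a
  · obtain ⟨a, ha, hP⟩ := h
    have h1 : ind (P a) ≤ ∑ a ∈ s, ind (P a) :=
      Finset.single_le_sum (f := fun a => ind (P a)) (fun _ _ => ind_nonneg _) ha
    rw [ind_of hP] at h1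
    exact (ind_le_one _).trans h1
  · rw [ind_of_not h]; exact Finset.sum_nonneg (fun _ _ => ind_nonneg _)
theorem ind_forall {α : Type} [DecidableEq α] (s : Finset α) (P : α → Prop) :
    ind (∀ a ∈ s, P a) = ∏ a ∈ s, ind (P a) := by
  by_cases h : ∀ a ∈ s, P a
  · rw [ind_of h, Finset.prod_eq_one (fun a ha => ind_of (h a ha))]
  · rw [ind_of_not h]
    push Not at h
    obtain ⟨a, ha, hP⟩ := h
    exact (Finset.prod_eq_zero ha (ind_of_not hP)).symm

section Basic

variable {Ω : Type} [Fintype Ω]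

theorem card_pos' [Nonempty Ω] : (0 : ℝ) < (Fintype.card Ω : ℝ) := by
  exact_mod_cast Fintype.card_pos

theorem ex_const [Nonempty Ω] (a : ℝ) : ex (fun _ : Ω => a) = a := by
  have := card_pos' (Ω := Ω)
  simp only [ex, Finset.sum_const, Finset.card_univ, nsmul_eq_mul]
  field_simp

theorem ex_add (f g : Ω → ℝ) : ex (fun ω => f ω + g ω) = ex f + ex g := by
  simp only [ex, Finset.sum_add_distrib, add_div]

theorem ex_sub (f g : Ω → ℝ) : ex (fun ω => f ω - g ω) = ex f - ex g := by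
  simp only [ex, Finset.sum_sub_distrib, sub_div]

theorem ex_mul_left (a : ℝ) (f : Ω → ℝ) : ex (fun ω => a * f ω) = a * ex f := by
  simp only [ex, ← Finset.mul_sum, mul_div_assoc]

theorem ex_mul_right (a : ℝ) (f : Ω → ℝ) : ex (fun ω => f ω * a) = ex f * a := by
  simp only [ex, ← Finset.sum_mul]; ring

theorem ex_neg (f : Ω → ℝ) : ex (fun ω => - f ω) = - ex f := by
  simp only [ex, Finset.sum_neg_distrib, neg_div]

theorem ex_sum {α : Type} (s : Finset α) (f : α → Ω → ℝ) :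
    ex (fun ω => ∑ a ∈ s, f a ω) = ∑ a ∈ s, ex (f a) := by
  simp only [ex]
  rw [Finset.sum_comm, Finset.sum_div]

theorem ex_mono {f g : Ω → ℝ} (h : ∀ ω, f ω ≤ g ω) : ex f ≤ ex g := by
  unfold ex
  exact div_le_div_of_nonneg_right (Finset.sum_le_sum (fun ω _ => h ω)) (Nat.cast_nonneg _)

theorem ex_nonneg {f : Ω → ℝ} (h : ∀ ω, 0 ≤ f ω) : 0 ≤ ex f := by
  unfold ex
  exact div_nonneg (Finset.sum_nonneg (fun ω _ => h ω)) (Nat.cast_nonneg _)

theorem ex_le_of_le [Nonempty Ω] {f : Ω → ℝ} {a : ℝ} (h : ∀ ω, f ω ≤ a) : ex f ≤ a := by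
  have := ex_mono (g := fun _ => a) h
  rwa [ex_const] at this

theorem le_ex_of_le [Nonempty Ω] {f : Ω → ℝ} {a : ℝ} (h : ∀ ω, a ≤ f ω) : a ≤ ex f := by
  have := ex_mono (f := fun _ => a) h
  rwa [ex_const] at this

theorem ex_congr {f g : Ω → ℝ} (h : ∀ ω, f ω = g ω) : ex f = ex g := by
  rw [funext h]

theorem exists_le_ex [Nonempty Ω] (f : Ω → ℝ) : ∃ ω, f ω ≤ ex f := by
  by_contra hc
  push Not at hc
  have hp := card_pos' (Ω := Ω)
  have h1 : (∑ _ω : Ω, ex f) < ∑ ω, f ω :=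
    Finset.sum_lt_sum_of_nonempty Finset.univ_nonempty (fun ω _ => hc ω)
  simp only [Finset.sum_const, Finset.card_univ, nsmul_eq_mul] at h1
  rw [ex, mul_div_cancel₀ _ hp.ne'] at h1
  exact lt_irrefl _ h1

theorem exists_ex_le [Nonempty Ω] (f : Ω → ℝ) : ∃ ω, ex f ≤ f ω := by
  obtain ⟨ω, h⟩ := exists_le_ex (fun ω => - f ω)
  rw [ex_neg] at h
  exact ⟨ω, by linarith⟩

theorem ex_equiv {Ω' : Type} [Fintype Ω'] (e : Ω ≃ Ω') (f : Ω' → ℝ) :
    ex (fun ω => f (e ω)) = ex f := by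
  unfold ex
  rw [Fintype.card_congr e, e.sum_comp]

theorem ex_prod {Ω' : Type} [Fintype Ω'] (f : Ω × Ω' → ℝ) :
    ex f = ex (fun a : Ω => ex (fun b : Ω' => f (a, b))) := by
  simp only [ex]
  rw [Fintype.sum_prod_type, Fintype.card_prod, ← Finset.sum_div, div_div]
  push_cast
  rw [mul_comm]

theorem ex_comm {Ω' : Type} [Fintype Ω'] (f : Ω → Ω' → ℝ) :
    ex (fun a => ex (fun b => f a b)) = ex (fun b => ex (fun a => f a b)) := by
  have h1 := ex_prod (fun p : Ω × Ω' => f p.1 p.2)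
  have h2 := ex_prod (fun p : Ω' × Ω => f p.2 p.1)
  have h3 := ex_equiv (Equiv.prodComm Ω Ω') (fun p : Ω' × Ω => f p.2 p.1)
  simp only [Equiv.prodComm_apply, Prod.fst_swap, Prod.snd_swap] at h3
  simp only at h1 h2
  rw [← h1, ← h2, ← h3]

/-! ## probabilities -/

theorem pr_nonneg (P : Ω → Prop) : 0 ≤ pr P := ex_nonneg (fun _ => ind_nonneg _)

theorem pr_le_one [Nonempty Ω] (P : Ω → Prop) : pr P ≤ 1 := ex_le_of_le (fun _ => ind_le_one _)

theorem pr_mono {P Q : Ω → Prop} (h : ∀ ω, P ω → Q ω) : pr P ≤ pr Q :=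
  ex_mono (fun ω => ind_mono (h ω))

theorem pr_congr {P Q : Ω → Prop} (h : ∀ ω, P ω ↔ Q ω) : pr P = pr Q := by
  unfold pr; exact ex_congr (fun ω => ind_congr (h ω))

theorem pr_or_le (P Q : Ω → Prop) : pr (fun ω => P ω ∨ Q ω) ≤ pr P + pr Q := by
  unfold pr; rw [← ex_add]; exact ex_mono (fun ω => ind_or_le _ _)

theorem pr_exists_le {α : Type} (s : Finset α) (P : α → Ω → Prop) :
    pr (fun ω => ∃ a ∈ s, P a ω) ≤ ∑ a ∈ s, pr (P a) := by
  unfold pr; rw [← ex_sum]; exact ex_mono (fun ω => ind_exists_le _ _)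

theorem pr_not [Nonempty Ω] (P : Ω → Prop) : pr (fun ω => ¬ P ω) = 1 - pr P := by
  unfold pr
  rw [ex_congr (fun ω => ind_not (P ω)), ex_sub, ex_const]

theorem pr_equiv {Ω' : Type} [Fintype Ω'] (e : Ω ≃ Ω') (P : Ω' → Prop) :
    pr (fun ω => P (e ω)) = pr P := ex_equiv e (fun ω => ind (P ω))

/-- Markov -/
theorem pr_markov {f : Ω → ℝ} (hf : ∀ ω, 0 ≤ f ω) {a : ℝ} (ha : 0 < a) :
    pr (fun ω => a ≤ f ω) ≤ ex f / a := by
  rw [le_div_iff₀ ha]
  unfold pr
  rw [← ex_mul_right]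
  refine ex_mono (fun ω => ?_)
  by_cases h : a ≤ f ω
  · rw [ind_of h, one_mul]; exact h
  · rw [ind_of_not h, zero_mul]; exact hf ω

theorem exists_not_of_pr_lt_one [Nonempty Ω] {P : Ω → Prop} (h : pr P < 1) : ∃ ω, ¬ P ω := by
  by_contra hc
  push Not at hc
  have : pr P = 1 := by
    unfold pr; rw [ex_congr (fun ω => ind_of (hc ω)), ex_const]
  linarith

end Basic

/-! ## product spaces -/

section Pi

variable {ι X : Type} [Fintype ι] [DecidableEq ι] [Fintype X]

theorem ex_pi_prod (g : ι → X → ℝ) :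
    ex (fun ω : ι → X => ∏ i, g i (ω i)) = ∏ i, ex (g i) := by
  simp only [ex]
  rw [Finset.prod_div_distrib, Fintype.card_fun, Finset.prod_const, Finset.card_univ]
  push_cast
  congr 1
  rw [Finset.prod_univ_sum, Fintype.piFinset_univ]

theorem ex_pi_prod_on [Nonempty X] (A : Finset ι) (g : ι → X → ℝ) :
    ex (fun ω : ι → X => ∏ i ∈ A, g i (ω i)) = ∏ i ∈ A, ex (g i) := by
  have h := ex_pi_prod (fun i x => if i ∈ A then g i x else 1)
  have h1 : ∀ ω : ι → X, (∏ i, if i ∈ A then g i (ω i) else 1) = ∏ i ∈ A, g i (ω i) := by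
    intro ω; rw [Finset.prod_ite_mem, Finset.univ_inter]
  have h2 : (∏ i, ex (fun x => if i ∈ A then g i x else 1)) = ∏ i ∈ A, ex (g i) := by
    rw [← Finset.prod_subset (Finset.subset_univ A)]
    · refine Finset.prod_congr rfl (fun i hi => ?_)
      simp only [hi, if_true]
    · intro i _ hi
      simp only [hi, if_false]
      exact ex_const 1
  rw [← h2, ← h]
  exact ex_congr (fun ω => (h1 ω).symm)

theorem ex_pi_single [Nonempty X] (i : ι) (f : X → ℝ) :
    ex (fun ω : ι → X => f (ω i)) = ex f := by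
  have h := ex_pi_prod_on ({i} : Finset ι) (fun _ => f)
  simpa using h

/-! ## resampling -/

theorem rs_def (A : Finset ι) (f : (ι → X) → ℝ) (ω : ι → X) :
    rs A f ω = ex (fun ω' : ι → X => f (A.piecewise ω' ω)) := rfl

/-- swapping the coordinates in `A` between two configurations -/
def swapEquiv (A : Finset ι) : ((ι → X) × (ι → X)) ≃ ((ι → X) × (ι → X)) where
  toFun p := (A.piecewise p.2 p.1, A.piecewise p.1 p.2)
  invFun p := (A.piecewise p.2 p.1, A.piecewise p.1 p.2)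
  left_inv p := by
    ext i <;> by_cases h : i ∈ A <;> simp [h]
  right_inv p := by
    ext i <;> by_cases h : i ∈ A <;> simp [h]

theorem ex_rs [Nonempty X] (A : Finset ι) (f : (ι → X) → ℝ) : ex (rs A f) = ex f := by
  have h1 : ex (rs A f) = ex (fun p : (ι → X) × (ι → X) => f ((swapEquiv A) p).1) := by
    rw [ex_prod]; rfl
  rw [h1, ex_equiv (swapEquiv A) (fun p : (ι → X) × (ι → X) => f p.1), ex_prod]
  exact ex_congr (fun ω => ex_const (f ω))

theorem rs_mono {A : Finset ι} {f g : (ι → X) → ℝ} (h : ∀ ω, f ω ≤ g ω) (ω : ι → X) :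
    rs A f ω ≤ rs A g ω := ex_mono (fun _ => h _)

theorem rs_add (A : Finset ι) (f g : (ι → X) → ℝ) (ω : ι → X) :
    rs A (fun ω => f ω + g ω) ω = rs A f ω + rs A g ω := ex_add _ _

theorem rs_sub (A : Finset ι) (f g : (ι → X) → ℝ) (ω : ι → X) :
    rs A (fun ω => f ω - g ω) ω = rs A f ω - rs A g ω := ex_sub _ _

theorem rs_sum {α : Type} (A : Finset ι) (s : Finset α) (f : α → (ι → X) → ℝ) (ω : ι → X) :
    rs A (fun ω => ∑ a ∈ s, f a ω) ω = ∑ a ∈ s, rs A (f a) ω := ex_sum _ _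

/-- a factor not depending on the coordinates in `A` can be pulled out -/
theorem rs_mul_left {A : Finset ι} {a : (ι → X) → ℝ}
    (ha : ∀ ω ω', a (A.piecewise ω' ω) = a ω) (f : (ι → X) → ℝ) (ω : ι → X) :
    rs A (fun ω => a ω * f ω) ω = a ω * rs A f ω := by
  unfold rs
  simp only [ha]
  exact ex_mul_left _ _

theorem rs_const [Nonempty X] {A : Finset ι} {a : (ι → X) → ℝ}
    (ha : ∀ ω ω', a (A.piecewise ω' ω) = a ω) (ω : ι → X) : rs A a ω = a ω := by
  unfold rs
  simp only [ha]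
  exact ex_const _

theorem rs_empty [Nonempty X] (f : (ι → X) → ℝ) (ω : ι → X) : rs ∅ f ω = f ω := by
  unfold rs
  simp only [Finset.piecewise_empty]
  exact ex_const _

theorem rs_univ (f : (ι → X) → ℝ) (ω : ι → X) : rs univ f ω = ex f := by
  unfold rs
  simp only [Finset.piecewise_univ]

/-- resampling a set of coordinates and then one more -/
theorem rs_insert [Nonempty X] {A : Finset ι} {i : ι} (hi : i ∉ A) (f : (ι → X) → ℝ)
    (ω : ι → X) : rs (insert i A) f ω = rs {i} (rs A f) ω := by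
  unfold rs
  have h : ∀ ω' ω'' : ι → X, f (A.piecewise ω'' (({i} : Finset ι).piecewise ω' ω)) =
      f ((insert i A).piecewise (({i} : Finset ι).piecewise ω' ω'') ω) := by
    intro ω' ω''
    congr 1
    ext j
    by_cases hj : j = i
    · subst hj; simp [hi]
    · by_cases hA : j ∈ A <;> simp [hj, hA]
  simp only [h]
  have h2 := ex_rs ({i} : Finset ι) (fun ω₁ : ι → X => f ((insert i A).piecewise ω₁ ω))
  rw [← h2]
  unfold rs
  rw [ex_comm]

/-- if `f` only depends on the coordinates in `A` and `g` does not depend on them,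
then they are independent -/
theorem ex_mul_indep [Nonempty X] {A : Finset ι} {f g : (ι → X) → ℝ}
    (hf : ∀ ω ω', f (A.piecewise ω ω') = f ω) (hg : ∀ ω ω', g (A.piecewise ω' ω) = g ω) :
    ex (fun ω => g ω * f ω) = ex g * ex f := by
  rw [← ex_rs A (fun ω => g ω * f ω)]
  have h : ∀ ω, rs A (fun ω => g ω * f ω) ω = g ω * ex f := by
    intro ω
    rw [rs_mul_left hg]
    congr 1
    unfold rs
    exact ex_congr (fun ω' => hf ω' ω)
  rw [ex_congr h, ex_mul_right]

end Pi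

end Pool.Agent.SQ
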