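import Mathlib
import Pool.Agent.Lib.MP_026281_co.Prob

/-!
# MP_026281_co: a Bernstein type inequality on a product space
-/

set_option autoImplicit false

namespace Pool.Agent.SQ

open Finset

private theorem exp_le_quad {y : ℝ} (hy : |y| ≤ 1) : Real.exp y ≤ 1 + y + y ^ 2 := by
  have h := Real.abs_exp_sub_one_sub_id_le hy
  have h1 := (abs_le.1 h).2
  linarith

/-- one coordinate -/
private theorem bern_one {X : Type} [Fintype X] [Nonempty X] (h g : X → ℝ) {G lam : ℝ}
    (hg0 : ∀ x, 0 ≤ g x) (hgG : ∀ x, g x ≤ G) (hF : ∀ x x', |h x - h x'| ≤ g x + g x')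
    (hl : 0 ≤ lam) (hlG : 2 * lam * G ≤ 1) :
    ex (fun x => Real.exp (lam * h x)) ≤
      Real.exp (4 * lam ^ 2 * G * ex g) * Real.exp (lam * ex h) := by
  have hEg0 : 0 ≤ ex g := ex_nonneg hg0
  have hEgG : ex g ≤ G := ex_le_of_le hgG
  have hdev : ∀ x, |h x - ex h| ≤ g x + ex g := by
    intro x
    have h1 : h x - ex h = ex (fun x' => h x - h x') := by
      rw [ex_sub (fun _ => h x) h, ex_const]
    have h2 : ex (fun x' => h x - h x') ≤ ex (fun x' => g x + g x') :=
      ex_mono (fun x' => (abs_le.1 (hF x x')).2)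
    have h3 : ex (fun x' => -(g x + g x')) ≤ ex (fun x' => h x - h x') :=
      ex_mono (fun x' => (abs_le.1 (hF x x')).1)
    rw [ex_add (fun _ => g x) g, ex_const] at h2
    rw [ex_neg, ex_add (fun _ => g x) g, ex_const] at h3
    rw [h1, abs_le]
    exact ⟨h3, h2⟩
  have hpt : ∀ x, Real.exp (lam * (h x - ex h)) ≤
      1 + lam * (h x - ex h) + lam ^ 2 * (2 * G * (g x + ex g)) := by
    intro x
    have h0 : 0 ≤ g x + ex g := add_nonneg (hg0 x) hEg0
    have h0' : g x + ex g ≤ 2 * G := by linarith [hgG x]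
    have h1 : |lam * (h x - ex h)| ≤ 1 := by
      rw [abs_mul, abs_of_nonneg hl]
      calc lam * |h x - ex h| ≤ lam * (2 * G) :=
            mul_le_mul_of_nonneg_left ((hdev x).trans h0') hl
        _ = 2 * lam * G := by ring
        _ ≤ 1 := hlG
    refine (exp_le_quad h1).trans ?_
    have h2 : (h x - ex h) ^ 2 ≤ 2 * G * (g x + ex g) := by
      rw [← sq_abs]
      calc |h x - ex h| ^ 2 ≤ (g x + ex g) ^ 2 :=
            pow_le_pow_left₀ (abs_nonneg _) (hdev x) 2
        _ = (g x + ex g) * (g x + ex g) := by ring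
        _ ≤ 2 * G * (g x + ex g) := mul_le_mul_of_nonneg_right h0' h0
    have h3 : (lam * (h x - ex h)) ^ 2 ≤ lam ^ 2 * (2 * G * (g x + ex g)) := by
      rw [mul_pow]
      exact mul_le_mul_of_nonneg_left h2 (sq_nonneg _)
    linarith
  have hE : ex (fun x => Real.exp (lam * (h x - ex h))) ≤ 1 + 4 * lam ^ 2 * G * ex g := by
    refine (ex_mono hpt).trans ?_
    rw [ex_add (fun x => 1 + lam * (h x - ex h)) (fun x => lam ^ 2 * (2 * G * (g x + ex g))),
      ex_add (fun _ => 1) (fun x => lam * (h x - ex h)), ex_mul_left, ex_mul_left, ex_mul_left,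
      ex_add g (fun _ => ex g), ex_sub h (fun _ => ex h), ex_const, ex_const, ex_const]
    apply le_of_eq
    ring
  have hsplit : ∀ x, Real.exp (lam * h x) =
      Real.exp (lam * ex h) * Real.exp (lam * (h x - ex h)) := by
    intro x
    rw [← Real.exp_add]
    congr 1
    ring
  rw [ex_congr hsplit, ex_mul_left, mul_comm]
  apply mul_le_mul_of_nonneg_right _ (Real.exp_pos _).le
  refine hE.trans ?_
  have := Real.add_one_le_exp (4 * lam ^ 2 * G * ex g)
  linarith

private theorem rs_single {C X : Type} [Fintype C] [DecidableEq C] [Fintype X] [Nonempty X]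
    (c : C) (f : (C → X) → ℝ) (ω : C → X) :
    rs {c} f ω = ex (fun x : X => f (Function.update ω c x)) := by
  rw [← ex_pi_single c (fun x : X => f (Function.update ω c x))]
  unfold rs
  refine ex_congr (fun ω' => ?_)
  congr 1
  ext j
  by_cases hj : j = c
  · subst hj; simp
  · simp [hj]

theorem bern {C X : Type} [Fintype C] [DecidableEq C] [Fintype X] [Nonempty X]
    (F : (C → X) → ℝ) (g : C → X → ℝ) {G lam : ℝ} (t0 : ℝ)
    (hg0 : ∀ c x, 0 ≤ g c x) (hgG : ∀ c x, g c x ≤ G)
    (hF : ∀ c (ω ω' : C → X), (∀ c', c' ≠ c → ω c' = ω' c') →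
      |F ω - F ω'| ≤ g c (ω c) + g c (ω' c))
    (hl : 0 ≤ lam) (hlG : 2 * lam * G ≤ 1) :
    pr (fun ω => ex F + t0 ≤ F ω) ≤
      Real.exp (-(lam * t0) + 4 * lam ^ 2 * G * ∑ c, ex (g c)) := by
  have key : ∀ A : Finset C, ex (fun ω => Real.exp (lam * F ω)) ≤
      Real.exp (∑ c ∈ A, 4 * lam ^ 2 * G * ex (g c)) *
        ex (fun ω => Real.exp (lam * rs A F ω)) := by
    intro A
    induction A using Finset.induction_on with
    | empty =>
      rw [Finset.sum_empty, Real.exp_zero, one_mul]
      exact le_of_eq (ex_congr (fun ω => by rw [rs_empty]))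
    | insert c A hc ih =>
      refine ih.trans ?_
      rw [Finset.sum_insert hc, add_comm, Real.exp_add,
        mul_assoc (Real.exp (∑ c ∈ A, 4 * lam ^ 2 * G * ex (g c)))]
      apply mul_le_mul_of_nonneg_left _ (Real.exp_pos _).le
      rw [← ex_rs {c} (fun ω => Real.exp (lam * rs A F ω)), ← ex_mul_left]
      refine ex_mono (fun ω => ?_)
      rw [rs_insert hc, rs_single, rs_single]
      refine bern_one (fun x => rs A F (Function.update ω c x)) (g c) (hg0 c) (hgG c) ?_ hl hlG
      intro x x'
      have hpt : ∀ ω' : C → X, |F (A.piecewise ω' (Function.update ω c x)) -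
          F (A.piecewise ω' (Function.update ω c x'))| ≤ g c x + g c x' := by
        intro ω'
        have h1 := hF c (A.piecewise ω' (Function.update ω c x))
          (A.piecewise ω' (Function.update ω c x')) (by
            intro c' hc'
            by_cases hA : c' ∈ A
            · simp [hA]
            · simp [hA, hc'])
        simpa [hc] using h1
      have h2 : rs A F (Function.update ω c x) - rs A F (Function.update ω c x') =
          ex (fun ω' => F (A.piecewise ω' (Function.update ω c x)) -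
            F (A.piecewise ω' (Function.update ω c x'))) := by
        rw [ex_sub]; rfl
      rw [h2, abs_le]
      have : Nonempty (C → X) := inferInstance
      exact ⟨le_ex_of_le (fun ω' => (abs_le.1 (hpt ω')).1),
        ex_le_of_le (fun ω' => (abs_le.1 (hpt ω')).2)⟩
  have hk := key univ
  have h1 : ex (fun ω => Real.exp (lam * rs univ F ω)) = Real.exp (lam * ex F) := by
    rw [← ex_const (Ω := C → X) (Real.exp (lam * ex F))]
    exact ex_congr (fun ω => by rw [rs_univ])
  rw [h1] at hk
  have h2 : pr (fun ω => ex F + t0 ≤ F ω) ≤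
      pr (fun ω => Real.exp (lam * (ex F + t0)) ≤ Real.exp (lam * F ω)) := by
    refine pr_mono (fun ω h => ?_)
    exact Real.exp_le_exp.2 (mul_le_mul_of_nonneg_left h hl)
  refine h2.trans ((pr_markov (fun ω => (Real.exp_pos _).le) (Real.exp_pos _)).trans ?_)
  rw [div_le_iff₀ (Real.exp_pos _)]
  refine hk.trans (le_of_eq ?_)
  rw [← Real.exp_add, ← Real.exp_add, ← Finset.mul_sum]
  congr 1
  ring

end Pool.Agent.SQ
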