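import Pool.Agent.Lib.MP_026281_co.Prob

/-!
# MP_026281_co, P10: deterministic facts about the nibble
-/

set_option autoImplicit false
set_option linter.unusedSectionVars false

namespace Pool.Agent.SQ

open Finset

theorem exp_le_one_sub {x : ℝ} (h0 : 0 ≤ x) (h1 : x ≤ 1 / 2) : Real.exp (-(2 * x)) ≤ 1 - x := by
  have h2 : 2 * x + 1 ≤ Real.exp (2 * x) := Real.add_one_le_exp _
  rw [Real.exp_neg]
  rw [inv_le_comm₀ (Real.exp_pos _) (by linarith)]
  refine le_trans ?_ h2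
  rw [inv_le_iff_one_le_mul₀ (by linarith)]
  nlinarith

section NibDet

variable {V : Type} [DecidableEq V] (P : NP) (nb : V → Finset V) (S : Finset V)
  (stg ξ : V → ℕ)

theorem thr_zero : P.thr 0 = 0 := by simp [NP.thr]

theorem xx_nonneg (p : ℝ) : 0 ≤ P.xx p := by unfold NP.xx; positivity

theorem thr_le (hβ : 0 ≤ P.β) {p : ℝ} (hp : 0 ≤ p) : (P.thr p : ℝ) ≤ P.N * (P.β * p) := by
  unfold NP.thr
  exact Nat.floor_le (by positivity)

theorem xx_le (hβ : 0 ≤ P.β) {p : ℝ} (hp : 0 ≤ p) : P.xx p ≤ P.β * p := by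
  unfold NP.xx
  rcases Nat.eq_zero_or_pos P.N with h | h
  · rw [h]; simp; positivity
  · rw [div_le_iff₀ (by exact_mod_cast h)]
    have := thr_le P hβ hp
    linarith

theorem le_xx (hN : 0 < P.N) (p : ℝ) : P.β * p - 1 / P.N ≤ P.xx p := by
  unfold NP.xx
  have hN' : (0 : ℝ) < P.N := by exact_mod_cast hN
  rw [le_div_iff₀ hN']
  have h1 : (P.N : ℝ) * (P.β * p) < P.thr p + 1 := by
    unfold NP.thr; exact Nat.lt_floor_add_one _
  rw [sub_mul, one_div, inv_mul_cancel₀ hN'.ne']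
  nlinarith

theorem np_zero (v : V) : np P nb S stg ξ 0 v = if v ∈ S then P.p0 else 0 := by
  by_cases h : v ∈ S <;> simp [np, nst, h]

theorem ny_zero (v : V) : ny P nb S stg ξ 0 v = 0 := by simp [ny, nst]

open Classical in
theorem np_succ (i : ℕ) (v : V) : np P nb S stg ξ (i + 1) v =
    if (∃ w ∈ nb v, nprop P stg ξ (np P nb S stg ξ i) i w) ∨
        P.Y < ny P nb S stg ξ i v + 2 * ∑ w ∈ nb v, nx P stg (np P nb S stg ξ i) i w
      then 0 else np P nb S stg ξ i v / ∏ w ∈ nb v, (1 - nx P stg (np P nb S stg ξ i) i w) := by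
  show (nst P nb S stg ξ (i + 1) v).1 = _
  rw [nst]
  rfl

theorem ny_succ (i : ℕ) (v : V) : ny P nb S stg ξ (i + 1) v =
    ny P nb S stg ξ i v + 2 * ∑ w ∈ nb v, nx P stg (np P nb S stg ξ i) i w := by
  show (nst P nb S stg ξ (i + 1) v).2 = _
  rw [nst]
  rfl

theorem nx_nonneg (p : V → ℝ) (i : ℕ) (w : V) : 0 ≤ nx P stg p i w := by
  unfold nx; split_ifs
  · exact xx_nonneg P _
  · exact le_rfl

theorem nx_le (hβ : 0 ≤ P.β) {p : V → ℝ} {i : ℕ} {w : V} (hp : 0 ≤ p w) :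
    nx P stg p i w ≤ P.β * p w := by
  unfold nx; split_ifs
  · exact xx_le P hβ hp
  · positivity

/-- the invariant of the process -/
theorem np_inv (hβ : 0 ≤ P.β) (hp : 0 ≤ P.p0) (hY : 0 ≤ P.Y)
    (hx : P.β * (Real.exp P.Y * P.p0) ≤ 1 / 2) (i : ℕ) (v : V) :
    0 ≤ np P nb S stg ξ i v ∧
    np P nb S stg ξ i v ≤ P.p0 * Real.exp (ny P nb S stg ξ i v) ∧
    (np P nb S stg ξ i v ≠ 0 → ny P nb S stg ξ i v ≤ P.Y) := by
  induction i generalizing v with
  | zero =>
    rw [np_zero, ny_zero]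
    refine ⟨by split_ifs <;> simp [hp], ?_, fun _ => hY⟩
    split_ifs <;> simp [hp]
  | succ i ih =>
    have hle : ∀ w, np P nb S stg ξ i w ≤ Real.exp P.Y * P.p0 := by
      intro w
      obtain ⟨h0, h1, h2⟩ := ih w
      by_cases hz : np P nb S stg ξ i w = 0
      · rw [hz]; positivity
      · refine h1.trans ?_
        rw [mul_comm]
        exact mul_le_mul_of_nonneg_right (Real.exp_le_exp.2 (h2 hz)) hp
    have hx2 : ∀ w, nx P stg (np P nb S stg ξ i) i w ≤ 1 / 2 := by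
      intro w
      refine (nx_le P stg hβ (ih w).1).trans (le_trans ?_ hx)
      exact mul_le_mul_of_nonneg_left (hle w) hβ
    have hx0 := nx_nonneg P stg (np P nb S stg ξ i) i
    have hprod : Real.exp (-(2 * ∑ w ∈ nb v, nx P stg (np P nb S stg ξ i) i w)) ≤
        ∏ w ∈ nb v, (1 - nx P stg (np P nb S stg ξ i) i w) := by
      rw [Finset.mul_sum, ← Finset.sum_neg_distrib, Real.exp_sum]
      exact Finset.prod_le_prod (fun _ _ => (Real.exp_pos _).le)
        (fun w _ => exp_le_one_sub (hx0 w) (hx2 w))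
    have hpos : 0 < ∏ w ∈ nb v, (1 - nx P stg (np P nb S stg ξ i) i w) :=
      lt_of_lt_of_le (Real.exp_pos _) hprod
    obtain ⟨h0, h1, h2⟩ := ih v
    rw [np_succ, ny_succ]
    split_ifs with hc
    · refine ⟨le_rfl, by positivity, fun h => absurd rfl h⟩
    · push Not at hc
      refine ⟨by positivity, ?_, fun _ => hc.2⟩
      rw [div_le_iff₀ hpos]
      refine h1.trans ?_
      rw [mul_assoc]
      refine mul_le_mul_of_nonneg_left ?_ hp
      calc Real.exp (ny P nb S stg ξ i v)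
          = Real.exp (ny P nb S stg ξ i v +
              2 * ∑ w ∈ nb v, nx P stg (np P nb S stg ξ i) i w) *
            Real.exp (-(2 * ∑ w ∈ nb v, nx P stg (np P nb S stg ξ i) i w)) := by
            rw [← Real.exp_add]; congr 1; ring
        _ ≤ _ := mul_le_mul_of_nonneg_left hprod (Real.exp_pos _).le

theorem np_nonneg (hβ : 0 ≤ P.β) (hp : 0 ≤ P.p0) (hY : 0 ≤ P.Y)
    (hx : P.β * (Real.exp P.Y * P.p0) ≤ 1 / 2) (i : ℕ) (v : V) : 0 ≤ np P nb S stg ξ i v :=
  (np_inv P nb S stg ξ hβ hp hY hx i v).1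

theorem np_le (hβ : 0 ≤ P.β) (hp : 0 ≤ P.p0) (hY : 0 ≤ P.Y)
    (hx : P.β * (Real.exp P.Y * P.p0) ≤ 1 / 2) (i : ℕ) (v : V) :
    np P nb S stg ξ i v ≤ Real.exp P.Y * P.p0 := by
  obtain ⟨h0, h1, h2⟩ := np_inv P nb S stg ξ hβ hp hY hx i v
  by_cases hz : np P nb S stg ξ i v = 0
  · rw [hz]; positivity
  · refine h1.trans ?_
    rw [mul_comm]
    exact mul_le_mul_of_nonneg_right (Real.exp_le_exp.2 (h2 hz)) hp

theorem ny_nonneg (i : ℕ) (v : V) : 0 ≤ ny P nb S stg ξ i v := by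
  induction i with
  | zero => rw [ny_zero]
  | succ i ih =>
    rw [ny_succ]
    have : 0 ≤ ∑ w ∈ nb v, nx P stg (np P nb S stg ξ i) i w :=
      Finset.sum_nonneg (fun w _ => nx_nonneg P stg _ _ _)
    linarith

theorem np_zero_succ (i : ℕ) (v : V) (hv : np P nb S stg ξ i v = 0) :
    np P nb S stg ξ (i + 1) v = 0 := by
  rw [np_succ, hv]; split_ifs <;> simp

theorem np_zero_mono {i j : ℕ} (hij : i ≤ j) (v : V) (hv : np P nb S stg ξ i v = 0) :
    np P nb S stg ξ j v = 0 := by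
  induction j, hij using Nat.le_induction with
  | base => exact hv
  | succ j _ ih => exact np_zero_succ P nb S stg ξ j v ih

theorem np_zero_of_notMem (i : ℕ) (v : V) (hv : v ∉ S) : np P nb S stg ξ i v = 0 :=
  np_zero_mono P nb S stg ξ (Nat.zero_le i) v (by rw [np_zero, if_neg hv])

theorem np_dead {i : ℕ} {u w : V} (h : w ∈ nb u)
    (hw : nprop P stg ξ (np P nb S stg ξ i) i w) : np P nb S stg ξ (i + 1) u = 0 := by
  rw [np_succ, if_pos (Or.inl ⟨w, h, hw⟩)]

theorem not_nprop_of_zero {i : ℕ} {w : V} (h : np P nb S stg ξ i w = 0) :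
    ¬ nprop P stg ξ (np P nb S stg ξ i) i w := by
  rintro ⟨_, h2⟩
  rw [h, thr_zero] at h2
  exact absurd h2 (Nat.not_lt_zero _)

section withFintype

variable [Fintype V]

theorem mem_nI {v : V} : v ∈ nI P nb S stg ξ ↔
    ∃ i < P.T, nprop P stg ξ (np P nb S stg ξ i) i v ∧
    (∀ w ∈ nb v, ¬ nprop P stg ξ (np P nb S stg ξ i) i w) ∧
    ∀ u ∈ nb v, ((nb u).filter (fun w => @Decidable.decide
      (nprop P stg ξ (np P nb S stg ξ i) i w) (Classical.propDecidable _))).card ≤ P.R := by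
  classical
  unfold nI
  rw [Finset.mem_filter]
  simp only [Finset.mem_univ, true_and]
  refine exists_congr (fun i => and_congr_right (fun _ => and_congr_right (fun _ =>
    and_congr_right (fun _ => forall₂_congr (fun u _ => ?_)))))
  simp

theorem nI_sub (v : V) (hv : v ∈ nI P nb S stg ξ) : v ∈ S := by
  rw [mem_nI] at hv
  obtain ⟨i, _, h1, _⟩ := hv
  by_contra hc
  exact not_nprop_of_zero P nb S stg ξ (np_zero_of_notMem P nb S stg ξ i v hc) h1

theorem nI_indep (hsymm : ∀ u v, v ∈ nb u → u ∈ nb v) (u v : V) (h : v ∈ nb u)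
    (hu : u ∈ nI P nb S stg ξ) : v ∉ nI P nb S stg ξ := by
  intro hv
  rw [mem_nI] at hu hv
  obtain ⟨i, _, h1, h2, _⟩ := hu
  obtain ⟨j, _, h3, h4, _⟩ := hv
  rcases lt_trichotomy i j with hij | hij | hij
  · have := np_dead P nb S stg ξ (hsymm u v h) h1
    have h5 := np_zero_mono P nb S stg ξ hij v this
    exact not_nprop_of_zero P nb S stg ξ h5 h3
  · subst hij
    exact h2 v h h3
  · have := np_dead P nb S stg ξ h h3
    have h5 := np_zero_mono P nb S stg ξ hij u this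
    exact not_nprop_of_zero P nb S stg ξ h5 h1

theorem nI_dead (u v : V) (h : v ∈ nb u)
    (hv : v ∈ nI P nb S stg ξ) : np P nb S stg ξ P.T u = 0 := by
  rw [mem_nI] at hv
  obtain ⟨i, hi, h1, _⟩ := hv
  exact np_zero_mono P nb S stg ξ hi u (np_dead P nb S stg ξ h h1)

theorem nI_card (hsymm : ∀ u v, v ∈ nb u → u ∈ nb v) (u : V) :
    (nb u ∩ nI P nb S stg ξ).card ≤ P.T * P.R := by
  classical
  have h1 : nb u ∩ nI P nb S stg ξ ⊆ (Finset.range P.T).biUnion (fun i =>
      if ((nb u).filter (fun w => nprop P stg ξ (np P nb S stg ξ i) i w)).card ≤ P.R then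
        (nb u).filter (fun w => nprop P stg ξ (np P nb S stg ξ i) i w) else ∅) := by
    intro w hw
    rw [Finset.mem_inter] at hw
    obtain ⟨hw1, hw2⟩ := hw
    unfold nI at hw2
    rw [Finset.mem_filter] at hw2
    obtain ⟨_, i, hi, h2, _, h4⟩ := hw2
    rw [Finset.mem_biUnion]
    refine ⟨i, Finset.mem_range.2 hi, ?_⟩
    have h5 := h4 u (hsymm u w hw1)
    have h6 : ((nb u).filter (fun w => nprop P stg ξ (np P nb S stg ξ i) i w)).card ≤ P.R := by
      convert h5
    rw [if_pos h6, Finset.mem_filter]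
    exact ⟨hw1, h2⟩
  refine (Finset.card_le_card h1).trans (Finset.card_biUnion_le.trans ?_)
  refine (Finset.sum_le_card_nsmul _ _ P.R (fun i _ => ?_)).trans (by simp)
  split_ifs with h
  · exact h
  · simp

end withFintype

end NibDet

end Pool.Agent.SQ
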