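import Pool.Agent.Lib.MP_026281_co.Nib
import Pool.Agent.Lib.MP_026281_co.NibDet

/-!
# MP_026281_co: one colour, all randomness (stages, proposals, random set)
-/

set_option autoImplicit false

namespace Pool.Agent.SQ

open Finset

section Single

/-- separating the three kinds of coordinates -/
def splitEquiv (V A B Z : Type) : (V → A × B × Z) ≃ (V → A) × ((V → Z) × (V → B)) where
  toFun q := (fun v => (q v).1, (fun v => (q v).2.2, fun v => (q v).2.1))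
  invFun p := fun v => (p.1 v, p.2.2 v, p.2.1 v)
  left_inv q := by ext v <;> rfl
  right_inv p := by rfl

theorem ex_split {V A B Z : Type} [Fintype V] [DecidableEq V] [Fintype A] [Fintype B] [Fintype Z]
    (F : (V → A) → (V → B) → (V → Z) → ℝ) :
    ex (fun q : V → A × B × Z => F (fun v => (q v).1) (fun v => (q v).2.1) (fun v => (q v).2.2)) =
      ex (fun st : V → A => ex (fun ζ : V → Z => ex (fun ξ : V → B => F st ξ ζ))) := by
  have h := ex_equiv (splitEquiv V A B Z)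
    (fun p : (V → A) × ((V → Z) × (V → B)) => F p.1 p.2.2 p.2.1)
  rw [ex_prod] at h
  simp only [ex_prod] at h
  rw [← h]
  rfl

theorem sum_inter_eq {V : Type} [DecidableEq V] (A S : Finset V) (g : V → ℝ) :
    ∑ w ∈ A ∩ S, g w = ∑ w ∈ A, ind (w ∈ S) * g w := by
  have h1 : A ∩ S = A.filter (fun w => w ∈ S) := by
    ext w; simp
  rw [h1, Finset.sum_filter]
  refine Finset.sum_congr rfl (fun w _ => ?_)
  by_cases h : w ∈ S
  · rw [if_pos h, ind_of h, one_mul]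
  · rw [if_neg h, ind_of_not h, zero_mul]

theorem card_inter_eq {V : Type} [DecidableEq V] (A S : Finset V) :
    ((A ∩ S).card : ℝ) = ∑ w ∈ A, ind (w ∈ S) := by
  have h := sum_inter_eq A S (fun _ => 1)
  simp only [Finset.sum_const, nsmul_eq_mul, mul_one] at h
  exact h

/-- `nB` weighted by the indicator of both end points -/
theorem ind_mul_nB {V : Type} [DecidableEq V] (P : NP) (nb : V → Finset V) (S : Finset V)
    (u v : V) : ind (u ∈ S ∧ v ∈ S) * nB P nb S u v =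
      Real.exp 1 * P.p0 ^ 2 * ind (u ∈ S ∧ v ∈ S) +
        2 * P.β * Real.exp P.Y ^ 2 * P.p0 ^ 3 * ∑ x ∈ nb u ∩ nb v,
          ind (u ∈ S ∧ v ∈ S ∧ x ∈ S) := by
  have h1 : ∑ x ∈ nb u ∩ nb v, ind (u ∈ S ∧ v ∈ S ∧ x ∈ S) =
      ind (u ∈ S ∧ v ∈ S) * ((nb u ∩ nb v ∩ S).card : ℝ) := by
    rw [card_inter_eq, Finset.mul_sum]
    refine Finset.sum_congr rfl (fun x _ => ?_)
    rw [← ind_and]
    exact ind_congr ⟨fun h => ⟨⟨h.1, h.2.1⟩, h.2.2⟩, fun h => ⟨h.1.1, h.1.2, h.2⟩⟩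
  rw [h1, nB]
  ring

variable {V C Z : Type} [Fintype V] [DecidableEq V] [Fintype C] [DecidableEq C] [Fintype Z]
  [Nonempty Z] {nb : V → Finset V} {D : ℕ} {Ls : V → Finset C} {Sg : C → (V → Z) → Finset V}
  {P : NP} {K κ3 tau cap lam : ℝ} {ell : ℕ}

/-- expectation of the weighted `nB` over the random set -/
theorem ex_ind_nB (P : NP) (nb : V → Finset V) (Sc : (V → Z) → Finset V) (u v : V) :
    ex (fun ζ : V → Z => ind (u ∈ Sc ζ ∧ v ∈ Sc ζ) * nB P nb (Sc ζ) u v) =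
      Real.exp 1 * P.p0 ^ 2 * pr (fun ζ => u ∈ Sc ζ ∧ v ∈ Sc ζ) +
        2 * P.β * Real.exp P.Y ^ 2 * P.p0 ^ 3 * ∑ x ∈ nb u ∩ nb v,
          pr (fun ζ => u ∈ Sc ζ ∧ v ∈ Sc ζ ∧ x ∈ Sc ζ) := by
  rw [ex_congr (fun ζ => ind_mul_nB P nb (Sc ζ) u v), ex_add, ex_mul_left, ex_mul_left, ex_sum]
  rfl

theorem NumB.Y_pos (hB : NumB P D K κ3 tau cap ell lam) : 0 < P.Y := by
  have h1 := hB.hYK
  have h2 := hB.hβ
  have h3 := hB.hK
  have : 0 < 96 * P.β * K := by positivity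
  linarith

theorem nerr_nonneg (P : NP) (D : ℕ) : 0 ≤ nerr P D := by
  unfold nerr
  positivity

theorem sc_mass (h : IFace nb D Ls Sg P K κ3 tau cap ell)
    (hB : NumB P D K κ3 tau cap ell lam) (c : C) (v : V) :
    P.p0 * pr (fun ζ => v ∈ Sg c ζ) - 2 * P.β / P.Y * ∑ w ∈ nb v,
      (Real.exp 1 * P.p0 ^ 2 * pr (fun ζ => v ∈ Sg c ζ ∧ w ∈ Sg c ζ) +
        2 * P.β * Real.exp P.Y ^ 2 * P.p0 ^ 3 * ∑ x ∈ nb v ∩ nb w,
          pr (fun ζ => v ∈ Sg c ζ ∧ w ∈ Sg c ζ ∧ x ∈ Sg c ζ)) ≤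
    ex (fun q : V → Fin P.T × Fin P.N × Z => pw P nb Sg c q P.T v) := by
  haveI : Nonempty (Fin P.T) := ⟨⟨0, hB.hT⟩⟩
  have hs := ex_split (V := V) (A := Fin P.T) (B := Fin P.N) (Z := Z)
    (fun st ξ ζ => np P nb (Sg c ζ) (fun v => (st v : ℕ)) (fun v => (ξ v : ℕ)) P.T v)
  have hs' : ex (fun q : V → Fin P.T × Fin P.N × Z => pw P nb Sg c q P.T v) =
      ex (fun st : V → Fin P.T => ex (fun ζ : V → Z => ex (fun ξ : V → Fin P.N =>
        np P nb (Sg c ζ) (fun v => (st v : ℕ)) (fun v => (ξ v : ℕ)) P.T v))) := hs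
  rw [hs']
  refine le_ex_of_le (fun st => ?_)
  have hl : P.p0 * pr (fun ζ => v ∈ Sg c ζ) - 2 * P.β / P.Y * ∑ w ∈ nb v,
      (Real.exp 1 * P.p0 ^ 2 * pr (fun ζ => v ∈ Sg c ζ ∧ w ∈ Sg c ζ) +
        2 * P.β * Real.exp P.Y ^ 2 * P.p0 ^ 3 * ∑ x ∈ nb v ∩ nb w,
          pr (fun ζ => v ∈ Sg c ζ ∧ w ∈ Sg c ζ ∧ x ∈ Sg c ζ)) =
      ex (fun ζ : V → Z => P.p0 * ind (v ∈ Sg c ζ) - 2 * P.β / P.Y * ∑ w ∈ nb v,
        ind (v ∈ Sg c ζ ∧ w ∈ Sg c ζ) * nB P nb (Sg c ζ) v w) := by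
    rw [ex_sub, ex_mul_left, ex_mul_left, ex_sum]
    congr 2
    refine Finset.sum_congr rfl (fun w _ => ?_)
    exact (ex_ind_nB P nb (Sg c) v w).symm
  rw [hl]
  refine ex_mono (fun ζ => ?_)
  by_cases hv : v ∈ Sg c ζ
  · have h1 := nib_mass P nb (Sg c ζ) (fun v => (st v : ℕ)) hB.hN hB.hβ.le hB.hp0.le hB.Y_pos
      hB.hx P.T v hv
    refine le_trans (le_of_eq ?_) h1
    rw [ind_of hv, mul_one, sum_inter_eq]
    congr 2
    refine Finset.sum_congr rfl (fun w _ => ?_)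
    rw [ind_and, ind_of hv, one_mul]
  · have h1 : ∑ w ∈ nb v, ind (v ∈ Sg c ζ ∧ w ∈ Sg c ζ) * nB P nb (Sg c ζ) v w = 0 := by
      refine Finset.sum_eq_zero (fun w _ => ?_)
      rw [ind_and, ind_of_not hv, zero_mul, zero_mul]
    rw [ind_of_not hv, h1, mul_zero, mul_zero, sub_zero]
    refine ex_nonneg (fun ξ => ?_)
    rw [np_zero_of_notMem P nb (Sg c ζ) _ _ P.T v hv]

theorem sc_pair (h : IFace nb D Ls Sg P K κ3 tau cap ell)
    (hB : NumB P D K κ3 tau cap ell lam) (c : C) (u v : V) :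
    ex (fun q : V → Fin P.T × Fin P.N × Z => pw P nb Sg c q P.T u * pw P nb Sg c q P.T v) ≤
      Real.exp 1 * P.p0 ^ 2 * pr (fun ζ => u ∈ Sg c ζ ∧ v ∈ Sg c ζ) +
        2 * P.β * Real.exp P.Y ^ 2 * P.p0 ^ 3 * ∑ x ∈ nb u ∩ nb v,
          pr (fun ζ => u ∈ Sg c ζ ∧ v ∈ Sg c ζ ∧ x ∈ Sg c ζ) := by
  haveI : Nonempty (Fin P.T) := ⟨⟨0, hB.hT⟩⟩
  have hs := ex_split (V := V) (A := Fin P.T) (B := Fin P.N) (Z := Z)
    (fun st ξ ζ => np P nb (Sg c ζ) (fun v => (st v : ℕ)) (fun v => (ξ v : ℕ)) P.T u *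
      np P nb (Sg c ζ) (fun v => (st v : ℕ)) (fun v => (ξ v : ℕ)) P.T v)
  have hs' : ex (fun q : V → Fin P.T × Fin P.N × Z =>
      pw P nb Sg c q P.T u * pw P nb Sg c q P.T v) =
      ex (fun st : V → Fin P.T => ex (fun ζ : V → Z => ex (fun ξ : V → Fin P.N =>
        np P nb (Sg c ζ) (fun v => (st v : ℕ)) (fun v => (ξ v : ℕ)) P.T u *
        np P nb (Sg c ζ) (fun v => (st v : ℕ)) (fun v => (ξ v : ℕ)) P.T v))) := hs
  rw [hs']
  refine ex_le_of_le (fun st => ?_)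
  rw [← ex_ind_nB P nb (Sg c) u v]
  refine ex_mono (fun ζ => ?_)
  by_cases hu : u ∈ Sg c ζ
  · by_cases hv : v ∈ Sg c ζ
    · have h1 := nib_pair P nb (Sg c ζ) (fun v => (st v : ℕ)) hB.hN hB.hβ.le hB.hp0.le
        hB.Y_pos.le hB.hx P.T u v hu hv
      rw [ind_of (And.intro hu hv), one_mul]
      exact h1
    · rw [ind_of_not (fun hc : u ∈ Sg c ζ ∧ v ∈ Sg c ζ => hv hc.2), zero_mul]
      refine le_of_eq ?_
      rw [ex_congr (g := fun _ => (0 : ℝ)) (fun ξ => by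
        rw [np_zero_of_notMem P nb (Sg c ζ) _ _ P.T v hv, mul_zero])]
      haveI : Nonempty (Fin P.N) := ⟨⟨0, hB.hN⟩⟩
      exact ex_const 0
  · rw [ind_of_not (fun hc : u ∈ Sg c ζ ∧ v ∈ Sg c ζ => hu hc.1), zero_mul]
    refine le_of_eq ?_
    rw [ex_congr (g := fun _ => (0 : ℝ)) (fun ξ => by
      rw [np_zero_of_notMem P nb (Sg c ζ) _ _ P.T u hu, zero_mul])]
    haveI : Nonempty (Fin P.N) := ⟨⟨0, hB.hN⟩⟩
    exact ex_const 0

/-- two different vertices have the same stage with probability `1/T` -/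
theorem ex_same_stage {T : ℕ} (hT : 0 < T) (v w : V) (hvw : v ≠ w) :
    ex (fun st : V → Fin T => ind ((st w : ℕ) = (st v : ℕ))) = 1 / T := by
  haveI : Nonempty (Fin T) := ⟨⟨0, hT⟩⟩
  have h1 : ∀ st : V → Fin T, ind ((st w : ℕ) = (st v : ℕ)) =
      ∑ a : Fin T, ind (st v = a) * ind (st w = a) := by
    intro st
    rw [Finset.sum_eq_single (st v)]
    · rw [ind_of rfl, one_mul]
      exact ind_congr (Fin.val_inj)
    · intro b _ hb
      rw [ind_of_not (fun hc => hb hc.symm), zero_mul]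
    · intro hc; exact absurd (Finset.mem_univ _) hc
  have h3 : ∀ a : Fin T, ex (fun b : Fin T => ind (b = a)) = 1 / T := by
    intro a
    unfold ex
    rw [Finset.sum_eq_single a (fun b _ hb => ind_of_not hb)
      (fun hc => absurd (Finset.mem_univ _) hc), ind_of rfl, Fintype.card_fin]
  have h2 : ∀ a : Fin T, ex (fun st : V → Fin T => ind (st v = a) * ind (st w = a)) =
      1 / T * (1 / T) := by
    intro a
    have h4 := ex_pi_prod_on (ι := V) (X := Fin T) {v, w} (fun _ b => ind (b = a))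
    simp only [Finset.prod_pair hvw] at h4
    rw [h4, h3 a]
  rw [ex_congr h1, ex_sum]
  simp only [h2, Finset.sum_const, Finset.card_univ, Fintype.card_fin, nsmul_eq_mul]
  have hT' : (T : ℝ) ≠ 0 := by exact_mod_cast hT.ne'
  field_simp

theorem sc_I (h : IFace nb D Ls Sg P K κ3 tau cap ell)
    (hB : NumB P D K κ3 tau cap ell lam) (c : C) (v : V) :
    P.β * P.p0 * pr (fun ζ => v ∈ Sg c ζ) - (2 * P.β ^ 2 / P.Y + P.β ^ 2 / P.T) * ∑ w ∈ nb v,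
      (Real.exp 1 * P.p0 ^ 2 * pr (fun ζ => v ∈ Sg c ζ ∧ w ∈ Sg c ζ) +
        2 * P.β * Real.exp P.Y ^ 2 * P.p0 ^ 3 * ∑ x ∈ nb v ∩ nb w,
          pr (fun ζ => v ∈ Sg c ζ ∧ w ∈ Sg c ζ ∧ x ∈ Sg c ζ)) - nerr P D ≤
    pr (fun q : V → Fin P.T × Fin P.N × Z => v ∈ Is P nb Sg c q) := by
  haveI : Nonempty (Fin P.T) := ⟨⟨0, hB.hT⟩⟩
  have hs := ex_split (V := V) (A := Fin P.T) (B := Fin P.N) (Z := Z)
    (fun st ξ ζ => ind (v ∈ nI P nb (Sg c ζ) (fun v => (st v : ℕ)) (fun v => (ξ v : ℕ))))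
  have hs' : pr (fun q : V → Fin P.T × Fin P.N × Z => v ∈ Is P nb Sg c q) =
      ex (fun st : V → Fin P.T => ex (fun ζ : V → Z => pr (fun ξ : V → Fin P.N =>
        v ∈ nI P nb (Sg c ζ) (fun v => (st v : ℕ)) (fun v => (ξ v : ℕ))))) := hs
  rw [hs', ex_comm]
  -- the left side as an expectation over `ζ` and the stages
  have hl : P.β * P.p0 * pr (fun ζ => v ∈ Sg c ζ) -
      (2 * P.β ^ 2 / P.Y + P.β ^ 2 / P.T) * ∑ w ∈ nb v,
      (Real.exp 1 * P.p0 ^ 2 * pr (fun ζ => v ∈ Sg c ζ ∧ w ∈ Sg c ζ) +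
        2 * P.β * Real.exp P.Y ^ 2 * P.p0 ^ 3 * ∑ x ∈ nb v ∩ nb w,
          pr (fun ζ => v ∈ Sg c ζ ∧ w ∈ Sg c ζ ∧ x ∈ Sg c ζ)) - nerr P D =
      ex (fun ζ : V → Z => P.β * P.p0 * ind (v ∈ Sg c ζ) -
        (2 * P.β ^ 2 / P.Y + P.β ^ 2 / P.T) * ∑ w ∈ nb v,
        ind (v ∈ Sg c ζ ∧ w ∈ Sg c ζ) * nB P nb (Sg c ζ) v w - nerr P D) := by
    rw [ex_sub, ex_sub, ex_mul_left, ex_mul_left, ex_sum, ex_const]
    congr 3
    refine Finset.sum_congr rfl (fun w _ => ?_)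
    exact (ex_ind_nB P nb (Sg c) v w).symm
  rw [hl]
  refine ex_mono (fun ζ => ?_)
  by_cases hv : v ∈ Sg c ζ
  · have h1 : ∀ st : V → Fin P.T, P.β * P.p0 - 2 * P.β ^ 2 / P.Y * ∑ w ∈ nb v,
        ind (w ∈ Sg c ζ) * nB P nb (Sg c ζ) v w
        - P.β ^ 2 * ∑ w ∈ nb v, ind ((st w : ℕ) = (st v : ℕ)) *
          (ind (w ∈ Sg c ζ) * nB P nb (Sg c ζ) v w) - nerr P D ≤
        pr (fun ξ : V → Fin P.N =>
          v ∈ nI P nb (Sg c ζ) (fun v => (st v : ℕ)) (fun v => (ξ v : ℕ))) := by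
      intro st
      have h2 := nib_I P nb (Sg c ζ) (fun v => (st v : ℕ)) hB.hN hB.hβ.le hB.hp0.le hB.Y_pos
        hB.hx h.deg v (h.irr v) hv (st v).isLt
      refine le_trans (le_of_eq ?_) h2
      rw [sum_inter_eq]
      congr 3
      rw [Finset.sum_filter, sum_inter_eq]
      refine Finset.sum_congr rfl (fun w _ => ?_)
      by_cases hw : (st w : ℕ) = (st v : ℕ)
      · rw [if_pos hw, ind_of hw, one_mul]
      · rw [if_neg hw, ind_of_not hw, zero_mul, mul_zero]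
    have h3 := ex_mono h1
    refine le_trans (le_of_eq ?_) h3
    rw [ex_sub, ex_sub, ex_const, ex_const, ex_mul_left, ex_sum]
    have h4 : ∑ w ∈ nb v, ex (fun st : V → Fin P.T => ind ((st w : ℕ) = (st v : ℕ)) *
        (ind (w ∈ Sg c ζ) * nB P nb (Sg c ζ) v w)) =
        1 / P.T * ∑ w ∈ nb v, ind (w ∈ Sg c ζ) * nB P nb (Sg c ζ) v w := by
      rw [Finset.mul_sum]
      refine Finset.sum_congr rfl (fun w hw => ?_)
      have hvw : v ≠ w := by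
        rintro rfl; exact h.irr v hw
      rw [ex_mul_right, ex_same_stage hB.hT v w hvw]
    rw [h4, ind_of hv, mul_one]
    have h5 : ∑ w ∈ nb v, ind (v ∈ Sg c ζ ∧ w ∈ Sg c ζ) * nB P nb (Sg c ζ) v w =
        ∑ w ∈ nb v, ind (w ∈ Sg c ζ) * nB P nb (Sg c ζ) v w := by
      refine Finset.sum_congr rfl (fun w _ => ?_)
      rw [ind_and, ind_of hv, one_mul]
    rw [h5]
    ring
  · have h1 : ∑ w ∈ nb v, ind (v ∈ Sg c ζ ∧ w ∈ Sg c ζ) * nB P nb (Sg c ζ) v w = 0 := by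
      refine Finset.sum_eq_zero (fun w _ => ?_)
      rw [ind_and, ind_of_not hv, zero_mul, zero_mul]
    rw [ind_of_not hv, h1, mul_zero, mul_zero, sub_zero]
    have h2 := nerr_nonneg P D
    have h3 : 0 ≤ ex (fun st : V → Fin P.T => pr (fun ξ : V → Fin P.N =>
        v ∈ nI P nb (Sg c ζ) (fun v => (st v : ℕ)) (fun v => (ξ v : ℕ)))) :=
      ex_nonneg (fun st => pr_nonneg _)
    linarith

theorem sc_I_le (h : IFace nb D Ls Sg P K κ3 tau cap ell)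
    (hB : NumB P D K κ3 tau cap ell lam) (c : C) (v : V) :
    pr (fun q : V → Fin P.T × Fin P.N × Z => v ∈ Is P nb Sg c q) ≤
      P.β * (Real.exp P.Y * P.p0) := by
  haveI : Nonempty (Fin P.T) := ⟨⟨0, hB.hT⟩⟩
  have hs := ex_split (V := V) (A := Fin P.T) (B := Fin P.N) (Z := Z)
    (fun st ξ ζ => ind (v ∈ nI P nb (Sg c ζ) (fun v => (st v : ℕ)) (fun v => (ξ v : ℕ))))
  have hs' : pr (fun q : V → Fin P.T × Fin P.N × Z => v ∈ Is P nb Sg c q) =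
      ex (fun st : V → Fin P.T => ex (fun ζ : V → Z => pr (fun ξ : V → Fin P.N =>
        v ∈ nI P nb (Sg c ζ) (fun v => (st v : ℕ)) (fun v => (ξ v : ℕ))))) := hs
  rw [hs']
  refine ex_le_of_le (fun st => ex_le_of_le (fun ζ => ?_))
  exact nib_I_le P nb (Sg c ζ) (fun v => (st v : ℕ)) hB.hN hB.hβ.le hB.hp0.le hB.Y_pos.le hB.hx v

end Single

end Pool.Agent.SQ
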