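import Pool.Agent.Lib.MP_026281_co.Prob
import Pool.Agent.Lib.MP_026281_co.NibDet
import Pool.Agent.Lib.MP_026281_co.Single

/-!
# MP_026281_co, piece P13: expectations over all colours (helper78)
-/

set_option autoImplicit false
set_option linter.unusedSectionVars false

namespace Pool.Agent.SQ

open Finset

section Expect

variable {V C Z : Type} [Fintype V] [DecidableEq V] [Fintype C] [DecidableEq C] [Fintype Z]
  [Nonempty Z] {nb : V → Finset V} {D : ℕ} {Ls : V → Finset C} {Sg : C → (V → Z) → Finset V}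
  {P : NP} {K κ3 tau cap lam : ℝ} {ell : ℕ}

/-- the summed pair bound -/
private theorem sum_pair_le (h : IFace nb D Ls Sg P K κ3 tau cap ell)
    (hB : NumB P D K κ3 tau cap ell lam) (v : V) :
    ∑ c ∈ Ls v, ∑ w ∈ nb v,
      (Real.exp 1 * P.p0 ^ 2 * pr (fun ζ => v ∈ Sg c ζ ∧ w ∈ Sg c ζ) +
        2 * P.β * Real.exp P.Y ^ 2 * P.p0 ^ 3 * ∑ x ∈ nb v ∩ nb w,
          pr (fun ζ => v ∈ Sg c ζ ∧ w ∈ Sg c ζ ∧ x ∈ Sg c ζ)) ≤ 3 * K := by
  have h1 : ∑ c ∈ Ls v, ∑ w ∈ nb v,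
      (Real.exp 1 * P.p0 ^ 2 * pr (fun ζ => v ∈ Sg c ζ ∧ w ∈ Sg c ζ) +
        2 * P.β * Real.exp P.Y ^ 2 * P.p0 ^ 3 * ∑ x ∈ nb v ∩ nb w,
          pr (fun ζ => v ∈ Sg c ζ ∧ w ∈ Sg c ζ ∧ x ∈ Sg c ζ)) =
      Real.exp 1 * (P.p0 ^ 2 * ∑ c ∈ Ls v, ∑ w ∈ nb v, pr (fun ζ => v ∈ Sg c ζ ∧ w ∈ Sg c ζ)) +
      2 * P.β * Real.exp P.Y ^ 2 * (P.p0 ^ 3 * ∑ c ∈ Ls v, ∑ w ∈ nb v, ∑ x ∈ nb v ∩ nb w,
          pr (fun ζ => v ∈ Sg c ζ ∧ w ∈ Sg c ζ ∧ x ∈ Sg c ζ)) := by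
    simp only [Finset.sum_add_distrib, Finset.mul_sum, mul_assoc]
  rw [h1]
  have h2 := h.double v
  have h3 := h.triple v
  have he : Real.exp 1 ≤ 2.7182818286 := Real.exp_one_lt_d9.le
  have he0 : 0 ≤ Real.exp 1 := (Real.exp_pos _).le
  have hK := hB.hK
  have h4 : Real.exp 1 * (P.p0 ^ 2 * ∑ c ∈ Ls v, ∑ w ∈ nb v,
      pr (fun ζ => v ∈ Sg c ζ ∧ w ∈ Sg c ζ)) ≤ Real.exp 1 * K :=
    mul_le_mul_of_nonneg_left h2 he0
  have h5 : Real.exp 1 * K ≤ 2.7182818286 * K := mul_le_mul_of_nonneg_right he (by linarith)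
  have hc0 : 0 ≤ 2 * P.β * Real.exp P.Y ^ 2 := by
    have := hB.hβ
    positivity
  have h6 : 2 * P.β * Real.exp P.Y ^ 2 * (P.p0 ^ 3 * ∑ c ∈ Ls v, ∑ w ∈ nb v, ∑ x ∈ nb v ∩ nb w,
          pr (fun ζ => v ∈ Sg c ζ ∧ w ∈ Sg c ζ ∧ x ∈ Sg c ζ)) ≤
      2 * P.β * Real.exp P.Y ^ 2 * κ3 := mul_le_mul_of_nonneg_left h3 hc0
  have h7 := hB.hκ3
  linarith

theorem ex_mass (h : IFace nb D Ls Sg P K κ3 tau cap ell)
    (hB : NumB P D K κ3 tau cap ell lam) (v : V) :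
    1 / 8 ≤ ∑ c ∈ Ls v, ex (fun q : V → Fin P.T × Fin P.N × Z => pw P nb Sg c q P.T v) := by
  have h1 := Finset.sum_le_sum (fun c (_ : c ∈ Ls v) => sc_mass h hB c v)
  refine le_trans ?_ h1
  rw [Finset.sum_sub_distrib, ← Finset.mul_sum, ← Finset.mul_sum]
  have h2 := sum_pair_le h hB v
  have h3 := h.single v
  have hβ := hB.hβ
  have hK := hB.hK
  have hY := hB.hYK
  have hβK : 0 < P.β * K := mul_pos hβ (by linarith)
  have hY0 : 0 < P.Y := by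
    have : 96 * P.β * K = 96 * (P.β * K) := by ring
    linarith
  have h4 : 2 * P.β / P.Y * ∑ c ∈ Ls v, ∑ w ∈ nb v,
      (Real.exp 1 * P.p0 ^ 2 * pr (fun ζ => v ∈ Sg c ζ ∧ w ∈ Sg c ζ) +
        2 * P.β * Real.exp P.Y ^ 2 * P.p0 ^ 3 * ∑ x ∈ nb v ∩ nb w,
          pr (fun ζ => v ∈ Sg c ζ ∧ w ∈ Sg c ζ ∧ x ∈ Sg c ζ)) ≤ 2 * P.β / P.Y * (3 * K) :=
    mul_le_mul_of_nonneg_left h2 (by positivity)
  have h5 : 2 * P.β / P.Y * (3 * K) ≤ 1 / 16 := by
    rw [div_mul_eq_mul_div, div_le_iff₀ hY0]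
    linarith
  linarith

theorem sum_I (h : IFace nb D Ls Sg P K κ3 tau cap ell)
    (hB : NumB P D K κ3 tau cap ell lam) (v : V) :
    P.β / 16 ≤ ∑ c ∈ Ls v, pr (fun q : V → Fin P.T × Fin P.N × Z => v ∈ Is P nb Sg c q) := by
  have h1 := Finset.sum_le_sum (fun c (_ : c ∈ Ls v) => sc_I h hB c v)
  refine le_trans ?_ h1
  rw [Finset.sum_sub_distrib, Finset.sum_sub_distrib, ← Finset.mul_sum, ← Finset.mul_sum,
    Finset.sum_const, nsmul_eq_mul]
  have h2 := sum_pair_le h hB v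
  have h3 := h.single v
  have hβ := hB.hβ
  have hK := hB.hK
  have hY := hB.hYK
  have hTK := hB.hTK
  have hβK : 0 < P.β * K := mul_pos hβ (by linarith)
  have hY0 : 0 < P.Y := by
    have : 96 * P.β * K = 96 * (P.β * K) := by ring
    linarith
  have hT0 : (0 : ℝ) < P.T := by
    have : 96 * P.β * K = 96 * (P.β * K) := by ring
    linarith
  have h4 : (2 * P.β ^ 2 / P.Y + P.β ^ 2 / P.T) * ∑ c ∈ Ls v, ∑ w ∈ nb v,
      (Real.exp 1 * P.p0 ^ 2 * pr (fun ζ => v ∈ Sg c ζ ∧ w ∈ Sg c ζ) +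
        2 * P.β * Real.exp P.Y ^ 2 * P.p0 ^ 3 * ∑ x ∈ nb v ∩ nb w,
          pr (fun ζ => v ∈ Sg c ζ ∧ w ∈ Sg c ζ ∧ x ∈ Sg c ζ)) ≤
      (2 * P.β ^ 2 / P.Y + P.β ^ 2 / P.T) * (3 * K) :=
    mul_le_mul_of_nonneg_left h2 (by positivity)
  have h5 : 2 * P.β ^ 2 / P.Y * (3 * K) ≤ P.β / 16 := by
    rw [div_mul_eq_mul_div, div_le_iff₀ hY0]
    nlinarith
  have h6 : P.β ^ 2 / P.T * (3 * K) ≤ P.β / 32 := by
    rw [div_mul_eq_mul_div, div_le_iff₀ hT0]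
    nlinarith
  have h7 : ((Ls v).card : ℝ) * nerr P D ≤ P.β / 32 := by
    refine le_trans (mul_le_mul_of_nonneg_right ?_ (nerr_nonneg P D)) hB.herr
    exact_mod_cast h.card v
  have h8 : P.β * (3 / 16) ≤ P.β * (P.p0 * ∑ c ∈ Ls v, pr (fun ζ => v ∈ Sg c ζ)) :=
    mul_le_mul_of_nonneg_left h3 hβ.le
  have h9 : P.β * P.p0 * ∑ c ∈ Ls v, pr (fun ζ => v ∈ Sg c ζ) =
      P.β * (P.p0 * ∑ c ∈ Ls v, pr (fun ζ => v ∈ Sg c ζ)) := by ring
  rw [h9]
  have h10 : (2 * P.β ^ 2 / P.Y + P.β ^ 2 / P.T) * (3 * K) =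
      2 * P.β ^ 2 / P.Y * (3 * K) + P.β ^ 2 / P.T * (3 * K) := by ring
  linarith

/-- factorisation over colours -/
theorem ex_colour_prod {C X : Type} [Fintype C] [DecidableEq C] [Fintype X] [Nonempty X]
    {A : Finset C} {c : C} (hc : c ∉ A) (F : X → ℝ) (g : C → X → ℝ) :
    ex (fun ω : C → X => F (ω c) * ∏ c' ∈ A, g c' (ω c')) = ex F * ∏ c' ∈ A, ex (g c') := by
  have h1 := ex_pi_prod_on (insert c A) (fun c' x => if c' = c then F x else g c' x)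
  have h2 : ∀ ω : C → X, (∏ i ∈ insert c A, if i = c then F (ω i) else g i (ω i)) =
      F (ω c) * ∏ c' ∈ A, g c' (ω c') := by
    intro ω
    rw [Finset.prod_insert hc, if_pos rfl]
    congr 1
    refine Finset.prod_congr rfl fun i hi => ?_
    rw [if_neg]
    rintro rfl
    exact hc hi
  have h3 : (∏ i ∈ insert c A, ex (fun x => if i = c then F x else g i x)) =
      ex F * ∏ c' ∈ A, ex (g c') := by
    rw [Finset.prod_insert hc]
    congr 1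
    · simp
    · refine Finset.prod_congr rfl fun i hi => ?_
      have : i ≠ c := by
        rintro rfl
        exact hc hi
      simp [this]
  rw [← h3, ← h1]
  exact ex_congr fun ω => (h2 ω).symm

private theorem pw_nonneg_E (hB : NumB P D K κ3 tau cap ell lam) (c : C)
    (q : V → Fin P.T × Fin P.N × Z) (i : ℕ) (v : V) : 0 ≤ pw P nb Sg c q i v := by
  have hβ := hB.hβ
  have hK := hB.hK
  have hβK : 0 < P.β * K := mul_pos hβ (by linarith)
  have hY0 : 0 ≤ P.Y := by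
    have := hB.hYK
    have : 96 * P.β * K = 96 * (P.β * K) := by ring
    linarith
  exact np_nonneg P nb _ _ _ hβ.le hB.hp0.le hY0 hB.hx i v

theorem ex_EL (h : IFace nb D Ls Sg P K κ3 tau cap ell)
    (hB : NumB P D K κ3 tau cap ell lam) (u : V) :
    ex (fun ω : C → V → Fin P.T × Fin P.N × Z => EL P nb Sg Ls ω u) ≤ 1 / 8192 := by
  classical
  have : NeZero P.T := ⟨hB.hT.ne'⟩
  have : NeZero P.N := ⟨hB.hN.ne'⟩
  have : Nonempty (V → Fin P.T × Fin P.N × Z) := inferInstance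
  have hβ := hB.hβ
  have hK := hB.hK
  -- one colour, one neighbour
  have hone : ∀ (c : C) (v : V),
      ex (fun ω : C → V → Fin P.T × Fin P.N × Z => pw P nb Sg c (ω c) P.T u *
        (pw P nb Sg c (ω c) P.T v * ind (lft P nb Sg Ls ω v))) ≤
      ex (fun q : V → Fin P.T × Fin P.N × Z => pw P nb Sg c q P.T u * pw P nb Sg c q P.T v) *
        Real.exp (1 / 2 - P.β / 16) := by
    intro c v
    have h1 : ex (fun ω : C → V → Fin P.T × Fin P.N × Z => pw P nb Sg c (ω c) P.T u *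
        (pw P nb Sg c (ω c) P.T v * ind (lft P nb Sg Ls ω v))) ≤
        ex (fun ω : C → V → Fin P.T × Fin P.N × Z =>
          (pw P nb Sg c (ω c) P.T u * pw P nb Sg c (ω c) P.T v) *
          ∏ c' ∈ (Ls v).erase c, ind (v ∉ Is P nb Sg c' (ω c'))) := by
      refine ex_mono fun ω => ?_
      rw [← mul_assoc]
      refine mul_le_mul_of_nonneg_left ?_ (mul_nonneg (pw_nonneg_E hB _ _ _ _) (pw_nonneg_E hB _ _ _ _))
      rw [← ind_forall]
      exact ind_mono fun hl c' hc' => hl c' (Finset.mem_of_mem_erase hc')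
    refine h1.trans ?_
    rw [ex_colour_prod (Finset.notMem_erase c (Ls v))
      (fun q => pw P nb Sg c q P.T u * pw P nb Sg c q P.T v)
      (fun c' q => ind (v ∉ Is P nb Sg c' q))]
    refine mul_le_mul_of_nonneg_left ?_
      (ex_nonneg fun q => mul_nonneg (pw_nonneg_E hB _ _ _ _) (pw_nonneg_E hB _ _ _ _))
    have h2 : ∀ c' ∈ (Ls v).erase c,
        ex (fun q : V → Fin P.T × Fin P.N × Z => ind (v ∉ Is P nb Sg c' q)) ≤
        Real.exp (-(pr (fun q : V → Fin P.T × Fin P.N × Z => v ∈ Is P nb Sg c' q))) := by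
      intro c' _
      have h3 := pr_not (fun q : V → Fin P.T × Fin P.N × Z => v ∈ Is P nb Sg c' q)
      unfold pr at h3 ⊢
      rw [h3]
      exact Real.one_sub_le_exp_neg _
    refine (Finset.prod_le_prod (fun c' _ => ex_nonneg fun q => ind_nonneg _) h2).trans ?_
    rw [← Real.exp_sum, Real.exp_le_exp, Finset.sum_neg_distrib]
    have h3 := sum_I h hB v
    have h4 : ∑ c' ∈ Ls v, pr (fun q : V → Fin P.T × Fin P.N × Z => v ∈ Is P nb Sg c' q) ≤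
        ∑ c' ∈ (Ls v).erase c, pr (fun q : V → Fin P.T × Fin P.N × Z => v ∈ Is P nb Sg c' q) +
        1 / 2 := by
      by_cases hc : c ∈ Ls v
      · rw [← Finset.sum_erase_add _ _ hc]
        have := (sc_I_le h hB c v).trans hB.hx
        linarith
      · rw [Finset.erase_eq_of_notMem hc]
        linarith
    linarith
  have h1 : ex (fun ω : C → V → Fin P.T × Fin P.N × Z => EL P nb Sg Ls ω u) =
      ∑ c ∈ Ls u, ∑ v ∈ nb u,
        ex (fun ω : C → V → Fin P.T × Fin P.N × Z => pw P nb Sg c (ω c) P.T u *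
          (pw P nb Sg c (ω c) P.T v * ind (lft P nb Sg Ls ω v))) := by
    unfold EL
    rw [ex_sum]
    refine Finset.sum_congr rfl fun c _ => ?_
    rw [← ex_sum]
    refine ex_congr fun ω => ?_
    rw [Finset.mul_sum]
  rw [h1]
  have h2 : ∑ c ∈ Ls u, ∑ v ∈ nb u,
        ex (fun ω : C → V → Fin P.T × Fin P.N × Z => pw P nb Sg c (ω c) P.T u *
          (pw P nb Sg c (ω c) P.T v * ind (lft P nb Sg Ls ω v))) ≤
      ∑ c ∈ Ls u, ∑ v ∈ nb u,
      (Real.exp 1 * P.p0 ^ 2 * pr (fun ζ => u ∈ Sg c ζ ∧ v ∈ Sg c ζ) +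
        2 * P.β * Real.exp P.Y ^ 2 * P.p0 ^ 3 * ∑ x ∈ nb u ∩ nb v,
          pr (fun ζ => u ∈ Sg c ζ ∧ v ∈ Sg c ζ ∧ x ∈ Sg c ζ)) * Real.exp (1 / 2 - P.β / 16) :=
    Finset.sum_le_sum fun c _ => Finset.sum_le_sum fun v _ =>
      (hone c v).trans (mul_le_mul_of_nonneg_right (sc_pair h hB c u v) (Real.exp_pos _).le)
  refine h2.trans ?_
  simp only [← Finset.sum_mul]
  refine (mul_le_mul_of_nonneg_right (sum_pair_le h hB u) (Real.exp_pos _).le).trans ?_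
  -- numerics
  have h3 : Real.exp (1 / 2 - P.β / 16) = Real.exp (1 / 2) / Real.exp (P.β / 16) := Real.exp_sub _ _
  rw [h3, mul_div_assoc', div_le_iff₀ (Real.exp_pos _)]
  have h4 := hB.hleft
  have h5 : Real.exp (1 / 2) ≤ 2 := by
    have h6 : Real.exp (1 / 2) ^ 2 = Real.exp 1 := by
      rw [← Real.exp_nat_mul]
      norm_num
    have h7 : Real.exp 1 ≤ 2.7182818286 := Real.exp_one_lt_d9.le
    have h8 : 0 < Real.exp (1 / 2) := Real.exp_pos _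
    nlinarith
  have h6 : 3 * K * Real.exp (1 / 2) ≤ 3 * K * 2 := mul_le_mul_of_nonneg_left h5 (by linarith)
  linarith

end Expect

end Pool.Agent.SQ
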