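import Pool.Agent.Lib.MP_026281_co.Tails
import Pool.Agent.Lib.MP_026281_co.Bern
import Pool.Agent.Lib.MP_026281_co.NibDet
import Pool.Agent.Lib.MP_026281_co.Single
import Pool.Agent.Lib.MP_026281_co.Expect

/-!
# MP_026281_co, P14: concentration of the mass and of the conflicts
-/

set_option autoImplicit false
set_option linter.unusedSectionVars false

namespace Pool.Agent.SQ

open Finset

section Conc

variable {V C Z : Type} [Fintype V] [DecidableEq V] [Fintype C] [DecidableEq C] [Fintype Z]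
  [Nonempty Z] {nb : V → Finset V} {D : ℕ} {Ls : V → Finset C} {Sg : C → (V → Z) → Finset V}
  {P : NP} {K κ3 tau cap lam : ℝ} {ell : ℕ}

private theorem hY0 (hB : NumB P D K κ3 tau cap ell lam) : 0 ≤ P.Y := by
  have h1 := hB.hYK
  have h2 : 0 ≤ 96 * P.β * K := mul_nonneg (mul_nonneg (by norm_num) hB.hβ.le)
    (le_trans zero_le_one hB.hK)
  linarith

private theorem pw_nonneg (hB : NumB P D K κ3 tau cap ell lam) (c : C)
    (q : V → Fin P.T × Fin P.N × Z) (i : ℕ) (v : V) : 0 ≤ pw P nb Sg c q i v :=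
  np_nonneg P nb _ _ _ hB.hβ.le hB.hp0.le (hY0 hB) hB.hx i v

private theorem pw_le (hB : NumB P D K κ3 tau cap ell lam) (c : C)
    (q : V → Fin P.T × Fin P.N × Z) (i : ℕ) (v : V) :
    pw P nb Sg c q i v ≤ Real.exp P.Y * P.p0 :=
  np_le P nb _ _ _ hB.hβ.le hB.hp0.le (hY0 hB) hB.hx i v

private theorem pw_zero (h : IFace nb D Ls Sg P K κ3 tau cap ell) (c : C)
    (q : V → Fin P.T × Fin P.N × Z) (i : ℕ) (v : V) (hc : c ∉ Ls v) :
    pw P nb Sg c q i v = 0 :=
  np_zero_of_notMem P nb _ _ _ i v (fun hv => hc (h.sub c _ v hv))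

private theorem Wp_pos (hB : NumB P D K κ3 tau cap ell lam) : 0 < Real.exp P.Y * P.p0 :=
  mul_pos (Real.exp_pos _) hB.hp0

private theorem nonempty_q (hB : NumB P D K κ3 tau cap ell lam) :
    Nonempty (V → Fin P.T × Fin P.N × Z) := by
  have h1 : Nonempty (Fin P.T) := ⟨⟨0, hB.hT⟩⟩
  have h2 : Nonempty (Fin P.N) := ⟨⟨0, hB.hN⟩⟩
  infer_instance

theorem pr_mass (h : IFace nb D Ls Sg P K κ3 tau cap ell)
    (hB : NumB P D K κ3 tau cap ell lam) (v : V) :
    pr (fun ω : C → V → Fin P.T × Fin P.N × Z => mass P nb Sg Ls ω v ≤ 1 / 16) ≤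
      Real.exp (-(1 / (64 * (Real.exp P.Y * P.p0)))) := by
  classical
  have : Nonempty (V → Fin P.T × Fin P.N × Z) := nonempty_q hB
  have hW := Wp_pos hB
  have key := tail_low (C := C) (X := V → Fin P.T × Fin P.N × Z)
    (fun c q => if c ∈ Ls v then pw P nb Sg c q P.T v else 0)
    (cap := Real.exp P.Y * P.p0) (μ := 1 / 8) hW
    (fun c q => by
      by_cases hc : c ∈ Ls v
      · simp only [hc, if_true]; exact pw_nonneg hB c q _ v
      · simp only [hc, if_false]; exact le_refl _)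
    (fun c q => by
      by_cases hc : c ∈ Ls v
      · simp only [hc, if_true]; exact pw_le hB c q _ v
      · simp only [hc, if_false]; exact hW.le)
    (by
      refine le_trans (ex_mass h hB v) (le_of_eq ?_)
      rw [← Finset.sum_subset (Finset.subset_univ (Ls v))]
      · refine Finset.sum_congr rfl fun c hc => ?_
        simp only [hc, if_true]
      · intro c _ hc
        simp only [hc, if_false]
        exact ex_const 0)
  have e1 : ∀ ω : C → V → Fin P.T × Fin P.N × Z,
      (∑ c, if c ∈ Ls v then pw P nb Sg c (ω c) P.T v else 0) = mass P nb Sg Ls ω v := by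
    intro ω
    unfold mass
    rw [← Finset.sum_subset (Finset.subset_univ (Ls v))]
    · refine Finset.sum_congr rfl fun c hc => ?_
      simp only [hc, if_true]
    · intro c _ hc
      simp only [hc, if_false]
  simp only [e1] at key
  have e2 : (1 : ℝ) / 8 / 2 = 1 / 16 := by norm_num
  have e3 : (1 : ℝ) / 8 / (8 * (Real.exp P.Y * P.p0)) = 1 / (64 * (Real.exp P.Y * P.p0)) := by
    field_simp
    norm_num
  rw [e2, e3] at key
  exact key

/-- the Lipschitz bound for `EL` in the colour `c` -/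
private noncomputable def gEL (P : NP) (nb : V → Finset V) (Ls : V → Finset C)
    (Sg : C → (V → Z) → Finset V) (tau cap : ℝ) (u : V) (c : C)
    (q : V → Fin P.T × Fin P.N × Z) : ℝ :=
  (Real.exp P.Y * P.p0) ^ 2 * ((if c ∈ Ls u then cap else 0) +
    tau * ((nb u ∩ Is P nb Sg c q).card : ℝ))

private theorem lft_congr {ω ω' : C → V → Fin P.T × Fin P.N × Z} {c : C}
    (hω : ∀ c', c' ≠ c → ω c' = ω' c') {v : V} (h1 : v ∉ Is P nb Sg c (ω c))
    (h2 : v ∉ Is P nb Sg c (ω' c)) : lft P nb Sg Ls ω v ↔ lft P nb Sg Ls ω' v := by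
  unfold lft
  refine forall_congr' fun c' => forall_congr' fun _ => ?_
  by_cases hc : c' = c
  · subst hc
    exact ⟨fun _ => h2, fun _ => h1⟩
  · rw [hω c' hc]

private theorem EL_lip (h : IFace nb D Ls Sg P K κ3 tau cap ell)
    (hB : NumB P D K κ3 tau cap ell lam) (u : V) (c : C)
    (ω ω' : C → V → Fin P.T × Fin P.N × Z) (hω : ∀ c', c' ≠ c → ω c' = ω' c') :
    |EL P nb Sg Ls ω u - EL P nb Sg Ls ω' u| ≤
      gEL P nb Ls Sg tau cap u c (ω c) + gEL P nb Ls Sg tau cap u c (ω' c) := by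
  classical
  set W : ℝ := Real.exp P.Y * P.p0 with hWdef
  have hW : 0 < W := Wp_pos hB
  have hpw0 : ∀ (ω : C → V → Fin P.T × Fin P.N × Z) c v, 0 ≤ pw P nb Sg c (ω c) P.T v :=
    fun ω c v => pw_nonneg hB c (ω c) P.T v
  have hpwW : ∀ (ω : C → V → Fin P.T × Fin P.N × Z) c v, pw P nb Sg c (ω c) P.T v ≤ W :=
    fun ω c v => pw_le hB c (ω c) P.T v
  -- the term of colour `c`
  have hterm : ∀ (ω : C → V → Fin P.T × Fin P.N × Z), c ∈ Ls u →
      0 ≤ pw P nb Sg c (ω c) P.T u * ∑ v ∈ nb u, pw P nb Sg c (ω c) P.T v *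
        ind (lft P nb Sg Ls ω v) ∧
      pw P nb Sg c (ω c) P.T u * ∑ v ∈ nb u, pw P nb Sg c (ω c) P.T v *
        ind (lft P nb Sg Ls ω v) ≤ W ^ 2 * cap := by
    intro ω hc
    have h0 : 0 ≤ ∑ v ∈ nb u, pw P nb Sg c (ω c) P.T v * ind (lft P nb Sg Ls ω v) :=
      Finset.sum_nonneg fun v _ => mul_nonneg (hpw0 ω c v) (ind_nonneg _)
    refine ⟨mul_nonneg (hpw0 ω c u) h0, ?_⟩
    have h1 : ∑ v ∈ nb u, pw P nb Sg c (ω c) P.T v * ind (lft P nb Sg Ls ω v) ≤ W * cap := by
      calc ∑ v ∈ nb u, pw P nb Sg c (ω c) P.T v * ind (lft P nb Sg Ls ω v)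
          ≤ ∑ v ∈ nb u, (if c ∈ Ls v then W else 0) := by
            refine Finset.sum_le_sum fun v _ => ?_
            by_cases hcv : c ∈ Ls v
            · simp only [hcv, if_true]
              calc _ ≤ W * 1 := mul_le_mul (hpwW ω c v) (ind_le_one _) (ind_nonneg _) hW.le
                _ = W := mul_one _
            · simp only [hcv, if_false]
              rw [pw_zero h c (ω c) P.T v hcv, zero_mul]
        _ = W * (((nb u).filter (fun v => c ∈ Ls v)).card : ℝ) := by
            rw [← Finset.sum_filter, Finset.sum_const, nsmul_eq_mul, mul_comm]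
        _ ≤ W * cap := mul_le_mul_of_nonneg_left (h.cdeg u c hc) hW.le
    calc _ ≤ W * (W * cap) := mul_le_mul (hpwW ω c u) h1 h0 hW.le
      _ = W ^ 2 * cap := by ring
  set I := Is P nb Sg c (ω c) with hI
  set I' := Is P nb Sg c (ω' c) with hI'
  -- the other colours
  have hother : ∀ c' ∈ Ls u, c' ≠ c →
      |pw P nb Sg c' (ω c') P.T u * (∑ v ∈ nb u, pw P nb Sg c' (ω c') P.T v *
          ind (lft P nb Sg Ls ω v)) -
        pw P nb Sg c' (ω' c') P.T u * ∑ v ∈ nb u, pw P nb Sg c' (ω' c') P.T v *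
          ind (lft P nb Sg Ls ω' v)| ≤
      ∑ v ∈ nb u ∩ (I ∪ I'), (if c' ∈ Ls v then W ^ 2 else 0) := by
    intro c' _ hc'
    rw [← hω c' hc', ← mul_sub, ← Finset.sum_sub_distrib, Finset.mul_sum]
    refine (Finset.abs_sum_le_sum_abs _ _).trans ?_
    rw [← Finset.sum_subset (Finset.inter_subset_left : nb u ∩ (I ∪ I') ⊆ nb u)]
    · refine Finset.sum_le_sum fun v _ => ?_
      rw [← mul_sub, abs_mul, abs_mul, abs_of_nonneg (hpw0 ω c' u), abs_of_nonneg (hpw0 ω c' v)]
      have hi : |ind (lft P nb Sg Ls ω v) - ind (lft P nb Sg Ls ω' v)| ≤ 1 := by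
        rw [abs_le]
        constructor
        · linarith [ind_nonneg (lft P nb Sg Ls ω v), ind_le_one (lft P nb Sg Ls ω' v)]
        · linarith [ind_nonneg (lft P nb Sg Ls ω' v), ind_le_one (lft P nb Sg Ls ω v)]
      by_cases hcv : c' ∈ Ls v
      · simp only [hcv, if_true]
        calc _ ≤ W * (W * 1) := mul_le_mul (hpwW ω c' u)
              (mul_le_mul (hpwW ω c' v) hi (abs_nonneg _) hW.le)
              (mul_nonneg (hpw0 ω c' v) (abs_nonneg _)) hW.le
          _ = W ^ 2 := by ring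
      · simp only [hcv, if_false]
        rw [pw_zero h c' (ω c') P.T v hcv, zero_mul, mul_zero]
    · intro v hv hv'
      have h1 : v ∉ I := fun hvI => hv' (Finset.mem_inter.2 ⟨hv, Finset.mem_union_left _ hvI⟩)
      have h2 : v ∉ I' := fun hvI => hv' (Finset.mem_inter.2 ⟨hv, Finset.mem_union_right _ hvI⟩)
      have h3 : lft P nb Sg Ls ω v ↔ lft P nb Sg Ls ω' v := lft_congr hω h1 h2
      rw [ind_congr h3, sub_self, mul_zero, abs_zero]
  have hsumI : ∑ c' ∈ Ls u, ∑ v ∈ nb u ∩ (I ∪ I'), (if c' ∈ Ls v then W ^ 2 else 0) ≤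
      W ^ 2 * (tau * (((nb u ∩ I).card : ℝ) + ((nb u ∩ I').card : ℝ))) := by
    rw [Finset.sum_comm]
    calc ∑ v ∈ nb u ∩ (I ∪ I'), ∑ c' ∈ Ls u, (if c' ∈ Ls v then W ^ 2 else 0)
        ≤ ∑ v ∈ nb u ∩ (I ∪ I'), W ^ 2 * tau := by
          refine Finset.sum_le_sum fun v hv => ?_
          rw [← Finset.sum_filter, Finset.sum_const, nsmul_eq_mul, mul_comm]
          refine mul_le_mul_of_nonneg_left ?_ (sq_nonneg W)
          have e1 : (Ls u).filter (fun c' => c' ∈ Ls v) = Ls u ∩ Ls v := by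
            ext x; simp [Finset.mem_filter, Finset.mem_inter]
          rw [e1]
          exact h.pair u v (Finset.mem_inter.1 hv).1
      _ = ((nb u ∩ (I ∪ I')).card : ℝ) * (W ^ 2 * tau) := by
          rw [Finset.sum_const, nsmul_eq_mul]
      _ ≤ (((nb u ∩ I).card : ℝ) + ((nb u ∩ I').card : ℝ)) * (W ^ 2 * tau) := by
          refine mul_le_mul_of_nonneg_right ?_ (mul_nonneg (sq_nonneg W) hB.htau)
          rw [Finset.inter_union_distrib_left]
          exact_mod_cast Finset.card_union_le _ _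
      _ = _ := by ring
  -- combine
  have hmain : |EL P nb Sg Ls ω u - EL P nb Sg Ls ω' u| ≤
      ∑ c' ∈ Ls u, ((if c' = c then W ^ 2 * cap else 0) +
        ∑ v ∈ nb u ∩ (I ∪ I'), (if c' ∈ Ls v then W ^ 2 else 0)) := by
    unfold EL
    rw [← Finset.sum_sub_distrib]
    refine (Finset.abs_sum_le_sum_abs _ _).trans (Finset.sum_le_sum fun c' hc' => ?_)
    by_cases hcc : c' = c
    · subst hcc
      simp only [if_true]
      have h1 := hterm ω hc'
      have h2 := hterm ω' hc'
      have h3 : 0 ≤ ∑ v ∈ nb u ∩ (I ∪ I'), (if c' ∈ Ls v then W ^ 2 else 0) :=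
        Finset.sum_nonneg fun v _ => by split_ifs <;> positivity
      rw [abs_le]
      constructor <;> linarith [h1.1, h1.2, h2.1, h2.2]
    · simp only [hcc, if_false, zero_add]
      exact hother c' hc' hcc
  refine hmain.trans ?_
  rw [Finset.sum_add_distrib, Finset.sum_ite_eq']
  unfold gEL
  rw [← hWdef, ← hI, ← hI']
  by_cases hc : c ∈ Ls u
  · simp only [hc, if_true]
    have h0 : 0 ≤ W ^ 2 * cap := mul_nonneg (sq_nonneg W) hB.hcap
    nlinarith [hsumI, h0]
  · simp only [hc, if_false]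
    nlinarith [hsumI]

theorem pr_EL (h : IFace nb D Ls Sg P K κ3 tau cap ell)
    (hB : NumB P D K κ3 tau cap ell lam) (u : V) :
    pr (fun ω : C → V → Fin P.T × Fin P.N × Z => 1 / 4096 ≤ EL P nb Sg Ls ω u) ≤
      Real.exp (-(lam * (1 / 8192)) + 4 * lam ^ 2 *
        ((Real.exp P.Y * P.p0) ^ 2 * (cap + tau * (P.T * P.R))) *
        ((Real.exp P.Y * P.p0) ^ 2 *
          (cap * ell + tau * (D * (ell * (P.β * (Real.exp P.Y * P.p0))))))) := by
  classical
  have : Nonempty (V → Fin P.T × Fin P.N × Z) := nonempty_q hB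
  have hW := Wp_pos hB
  set W : ℝ := Real.exp P.Y * P.p0 with hWdef
  have hG0 : 0 ≤ W ^ 2 * (cap + tau * (P.T * P.R)) :=
    mul_nonneg (sq_nonneg W) (add_nonneg hB.hcap (mul_nonneg hB.htau (by positivity)))
  have key := bern (C := C) (X := V → Fin P.T × Fin P.N × Z)
    (fun ω => EL P nb Sg Ls ω u) (gEL P nb Ls Sg tau cap u)
    (G := W ^ 2 * (cap + tau * (P.T * P.R))) (lam := lam) (1 / 8192)
    (fun c q => by
      unfold gEL
      refine mul_nonneg (sq_nonneg _) (add_nonneg ?_ (mul_nonneg hB.htau (Nat.cast_nonneg _)))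
      split_ifs
      · exact hB.hcap
      · exact le_refl _)
    (fun c q => by
      unfold gEL
      refine mul_le_mul_of_nonneg_left (add_le_add ?_ (mul_le_mul_of_nonneg_left ?_ hB.htau))
        (sq_nonneg _)
      · split_ifs
        · exact le_refl _
        · exact hB.hcap
      · exact_mod_cast nI_card P nb _ _ _ h.symm u)
    (fun c ω ω' hω => EL_lip h hB u c ω ω' hω)
    hB.hlam.le hB.hG
  have hsum : ∑ c, ex (gEL P nb Ls Sg tau cap u c) ≤
      W ^ 2 * (cap * ell + tau * (D * (ell * (P.β * W)))) := by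
    have e1 : ∀ c, ex (gEL P nb Ls Sg tau cap u c) =
        W ^ 2 * ((if c ∈ Ls u then cap else 0) + tau *
          ex (fun q : V → Fin P.T × Fin P.N × Z => ((nb u ∩ Is P nb Sg c q).card : ℝ))) := by
      intro c
      have : gEL P nb Ls Sg tau cap u c = fun q => W ^ 2 * ((if c ∈ Ls u then cap else 0) +
          tau * ((nb u ∩ Is P nb Sg c q).card : ℝ)) := by
        funext q; rfl
      rw [this, ex_mul_left, ex_add, ex_const, ex_mul_left]
    simp only [e1]
    rw [← Finset.mul_sum, Finset.sum_add_distrib, ← Finset.mul_sum]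
    refine mul_le_mul_of_nonneg_left (add_le_add ?_ (mul_le_mul_of_nonneg_left ?_ hB.htau))
      (sq_nonneg _)
    · rw [Finset.sum_ite_mem, Finset.univ_inter, Finset.sum_const, nsmul_eq_mul, mul_comm]
      exact mul_le_mul_of_nonneg_left (by exact_mod_cast h.card u) hB.hcap
    · have e2 : ∀ c, ex (fun q : V → Fin P.T × Fin P.N × Z =>
          ((nb u ∩ Is P nb Sg c q).card : ℝ)) =
          ∑ v ∈ nb u, pr (fun q : V → Fin P.T × Fin P.N × Z => v ∈ Is P nb Sg c q) := by
        intro c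
        unfold pr
        rw [← ex_sum]
        refine ex_congr fun q => ?_
        have e3 : nb u ∩ Is P nb Sg c q = (nb u).filter (fun v => v ∈ Is P nb Sg c q) := by
          ext x; simp [Finset.mem_filter, Finset.mem_inter]
        rw [e3, Finset.card_filter]
        push_cast
        refine Finset.sum_congr rfl fun v _ => ?_
        unfold ind
        by_cases hv : v ∈ Is P nb Sg c q <;> simp [hv]
      simp only [e2]
      rw [Finset.sum_comm]
      have e4 : ∀ v ∈ nb u, ∑ c, pr (fun q : V → Fin P.T × Fin P.N × Z =>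
          v ∈ Is P nb Sg c q) ≤ ell * (P.β * W) := by
        intro v _
        rw [← Finset.sum_subset (Finset.subset_univ (Ls v))]
        · calc ∑ c ∈ Ls v, pr (fun q : V → Fin P.T × Fin P.N × Z => v ∈ Is P nb Sg c q)
              ≤ ∑ c ∈ Ls v, P.β * W := Finset.sum_le_sum fun c _ => sc_I_le h hB c v
            _ = ((Ls v).card : ℝ) * (P.β * W) := by rw [Finset.sum_const, nsmul_eq_mul]
            _ ≤ ell * (P.β * W) := mul_le_mul_of_nonneg_right (by exact_mod_cast h.card v)
                (mul_nonneg hB.hβ.le hW.le)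
        · intro c _ hc
          have : ∀ q : V → Fin P.T × Fin P.N × Z, ¬ v ∈ Is P nb Sg c q := by
            intro q hq
            exact hc (h.sub c _ v (nI_sub P nb _ _ _ v hq))
          unfold pr
          rw [ex_congr (fun q => ind_of_not (this q))]
          exact ex_const 0
      calc _ ≤ ∑ v ∈ nb u, ell * (P.β * W) := Finset.sum_le_sum e4
        _ = ((nb u).card : ℝ) * (ell * (P.β * W)) := by rw [Finset.sum_const, nsmul_eq_mul]
        _ ≤ D * (ell * (P.β * W)) := mul_le_mul_of_nonneg_right (by exact_mod_cast h.deg u)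
            (mul_nonneg (Nat.cast_nonneg _) (mul_nonneg hB.hβ.le hW.le))
  refine (pr_mono (fun ω hω => ?_)).trans (key.trans (Real.exp_le_exp.2 ?_))
  · have := ex_EL h hB u
    linarith
  · refine add_le_add (le_refl _) (mul_le_mul_of_nonneg_left hsum ?_)
    exact mul_nonneg (mul_nonneg (by norm_num) (sq_nonneg _)) hG0

end Conc

end Pool.Agent.SQ
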