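import Mathlib

/-!
# MP_026281_co: definitions

`ex` uniform expectation on a finite type, `pr` uniform probability, `rs` resampling of coordinates;
`nst` the nibble process for one colour; `Str` the output of the level construction.
-/

set_option autoImplicit false

namespace Pool.Agent.SQ

open Finset

/-! ## finite probability -/

/-- uniform expectation on a finite type -/
noncomputable def ex {Ω : Type} [Fintype Ω] (f : Ω → ℝ) : ℝ := (∑ ω, f ω) / (Fintype.card Ω : ℝ)

open Classical in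
/-- indicator of a proposition -/
noncomputable def ind (P : Prop) : ℝ := if P then 1 else 0

/-- uniform probability -/
noncomputable def pr {Ω : Type} [Fintype Ω] (P : Ω → Prop) : ℝ := ex (fun ω => ind (P ω))

/-- resampling of the coordinates in `A` -/
noncomputable def rs {ι X : Type} [Fintype ι] [DecidableEq ι] [Fintype X] (A : Finset ι)
    (f : (ι → X) → ℝ) : (ι → X) → ℝ :=
  fun ω => ex (fun ω' : ι → X => f (A.piecewise ω' ω))

/-- probability for a product of finite weighted spaces -/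
noncomputable def wpr {ι X : Type} [Fintype ι] [DecidableEq ι] [Fintype X] (w : ι → X → ℝ)
    (P : (ι → X) → Prop) : ℝ :=
  ∑ ω : ι → X, (∏ i, w i (ω i)) * ind (P ω)

/-! ## the nibble for one colour -/

/-- parameters of the nibble: number of stages `T`, resolution `N`, cleaning threshold `R`,
activity `β`, initial weight `p0`, cap `Y` of the exponent -/
structure NP where
  T : ℕ
  N : ℕ
  R : ℕ
  β : ℝ
  p0 : ℝ
  Y : ℝ

/-- number of values of `ξ` for which a vertex of weight `p` proposes -/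
noncomputable def NP.thr (P : NP) (p : ℝ) : ℕ := ⌊(P.N : ℝ) * (P.β * p)⌋₊

/-- proposal probability of a vertex of weight `p` -/
noncomputable def NP.xx (P : NP) (p : ℝ) : ℝ := (P.thr p : ℝ) / (P.N : ℝ)

section Nibble

variable {V : Type} [DecidableEq V]

/-- proposal probability at stage `i` -/
noncomputable def nx (P : NP) (stg : V → ℕ) (p : V → ℝ) (i : ℕ) (w : V) : ℝ :=
  if stg w = i then P.xx (p w) else 0

/-- `w` proposes at stage `i` -/
def nprop (P : NP) (stg ξ : V → ℕ) (p : V → ℝ) (i : ℕ) (w : V) : Prop :=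
  stg w = i ∧ ξ w < P.thr (p w)

open Classical in
/-- state (weight, exponent) after `i` stages of the nibble for one colour, on the vertex set `S` -/
noncomputable def nst (P : NP) (nb : V → Finset V) (S : Finset V) (stg ξ : V → ℕ) :
    ℕ → V → ℝ × ℝ
  | 0 => fun v => (if v ∈ S then P.p0 else 0, 0)
  | i + 1 => fun v =>
    ((if (∃ w ∈ nb v, nprop P stg ξ (fun w => (nst P nb S stg ξ i w).1) i w) ∨
          P.Y < (nst P nb S stg ξ i v).2 +
            2 * ∑ w ∈ nb v, nx P stg (fun w => (nst P nb S stg ξ i w).1) i w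
        then 0
        else (nst P nb S stg ξ i v).1 /
          ∏ w ∈ nb v, (1 - nx P stg (fun w => (nst P nb S stg ξ i w).1) i w)),
      (nst P nb S stg ξ i v).2 +
        2 * ∑ w ∈ nb v, nx P stg (fun w => (nst P nb S stg ξ i w).1) i w)

/-- the weight of `v` after `i` stages -/
noncomputable def np (P : NP) (nb : V → Finset V) (S : Finset V) (stg ξ : V → ℕ) (i : ℕ)
    (v : V) : ℝ := (nst P nb S stg ξ i v).1

/-- the exponent of `v` after `i` stages -/
noncomputable def ny (P : NP) (nb : V → Finset V) (S : Finset V) (stg ξ : V → ℕ) (i : ℕ)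
    (v : V) : ℝ := (nst P nb S stg ξ i v).2

open Classical in
/-- the independent set produced by the nibble -/
noncomputable def nI [Fintype V] (P : NP) (nb : V → Finset V) (S : Finset V) (stg ξ : V → ℕ) :
    Finset V :=
  univ.filter (fun v => ∃ i < P.T, nprop P stg ξ (np P nb S stg ξ i) i v ∧
    (∀ w ∈ nb v, ¬ nprop P stg ξ (np P nb S stg ξ i) i w) ∧
    ∀ u ∈ nb v, ((nb u).filter (fun w => nprop P stg ξ (np P nb S stg ξ i) i w)).card ≤ P.R)

/-- the bound `B(u,v)` for `E p(u) p(v)` -/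
noncomputable def nB (P : NP) (nb : V → Finset V) (S : Finset V) (u v : V) : ℝ :=
  Real.exp 1 * P.p0 ^ 2 +
    2 * P.β * Real.exp P.Y ^ 2 * P.p0 ^ 3 * ((nb u ∩ nb v ∩ S).card : ℝ)

end Nibble

/-! ## the interface of part B: `Z` randomness per vertex and colour for the set `S_c` -/

section PB

variable {V C Z : Type} [Fintype V] [DecidableEq V]

/-- weight of `v` in colour `c` after `i` stages -/
noncomputable def pw (P : NP) (nb : V → Finset V) (Sg : C → (V → Z) → Finset V) (c : C)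
    (q : V → Fin P.T × Fin P.N × Z) (i : ℕ) (v : V) : ℝ :=
  np P nb (Sg c (fun v => (q v).2.2)) (fun v => ((q v).1 : ℕ)) (fun v => ((q v).2.1 : ℕ)) i v

/-- the independent set of colour `c` -/
noncomputable def Is (P : NP) (nb : V → Finset V) (Sg : C → (V → Z) → Finset V) (c : C)
    (q : V → Fin P.T × Fin P.N × Z) : Finset V :=
  nI P nb (Sg c (fun v => (q v).2.2)) (fun v => ((q v).1 : ℕ)) (fun v => ((q v).2.1 : ℕ))

variable (P : NP) (nb : V → Finset V) (Sg : C → (V → Z) → Finset V) (Ls : V → Finset C)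
  (ω : C → V → Fin P.T × Fin P.N × Z)

/-- remaining mass at `v` -/
noncomputable def mass (v : V) : ℝ := ∑ c ∈ Ls v, pw P nb Sg c (ω c) P.T v

/-- `v` is left over -/
def lft (v : V) : Prop := ∀ c ∈ Ls v, v ∉ Is P nb Sg c (ω c)

/-- conflict at `u` among the left vertices -/
noncomputable def EL (u : V) : ℝ :=
  ∑ c ∈ Ls u, pw P nb Sg c (ω c) P.T u *
    ∑ v ∈ nb u, pw P nb Sg c (ω c) P.T v * ind (lft P nb Sg Ls ω v)

end PB

/-! ## roles -/

/-- roles: off iff the first coordinate is nonzero -/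
abbrev Role (t M1 r : ℕ) : Type := Fin t × Fin M1 × Fin r

/-- per vertex, colour and round: (mark, role, coin) -/
abbrev RC (D t M1 r : ℕ) : Type := Fin D × Role t M1 r × Role t M1 r

section Roles

variable {V : Type} [LinearOrder V] {D t M1 r : ℕ} [NeZero D] [NeZero t] [NeZero M1] [NeZero r]

/-- marked elements of `A` -/
def mks (mu : V → Fin D) (A : Finset V) : Finset V := A.filter (fun z => mu z = 0)

/-- `v` passes the test of its main centres -/
def passOn (Mn : V → Finset V) (targ : V → V → Fin M1 × Fin r) (ρ : V → RC D t M1 r) (v : V) :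
    Prop :=
  (∃ h : (mks (fun z => (ρ z).1) (Mn v)).Nonempty,
    (ρ ((mks (fun z => (ρ z).1) (Mn v)).min' h)).2.1 =
      (0, targ v ((mks (fun z => (ρ z).1) (Mn v)).min' h))) ∨
  (mks (fun z => (ρ z).1) (Mn v) = ∅ ∧ (ρ v).2.2 = (0, 0, 0))

/-- `v` passes the test of its off centres -/
def passOff (Off : V → Finset V) (ρ : V → RC D t M1 r) (v : V) : Prop :=
  ∀ h : (mks (fun z => (ρ z).1) (Off v)).Nonempty,
    (ρ ((mks (fun z => (ρ z).1) (Off v)).min' h)).2.1.1 ≠ 0

open Classical in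
/-- the random set of one colour -/
noncomputable def Sset (Mn Off : V → Finset V) (targ : V → V → Fin M1 × Fin r) (S0 : Finset V)
    (ζ : V → Fin t → RC D t M1 r) : Finset V :=
  S0.filter (fun v => ∀ j, passOn Mn targ (fun z => ζ z j) v ∧ passOff Off (fun z => ζ z j) v)

end Roles

/-! ## output of the level construction -/

section PartA

variable {V C : Type} [Fintype V] [DecidableEq V] [DecidableEq C]

/-- the bound for truncated triangle sums -/
noncomputable def tbd (nb : V → Finset V) (D s m : ℕ) (δ : ℝ) (u v : V) : ℝ :=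
  8 * (((nb u ∩ nb v).card : ℝ) + δ * D) * s / m ^ 3

/-- output of the level construction: levels `o` of vertices as objects, `h` of vertices as centres,
lists `L'`; pair overlaps at most `4 s / m^2`, truncation at `128 D / m` -/
structure Str (nb : V → Finset V) (D s m r ell M : ℕ) (b : V → Fin r) (L : V → Finset C)
    (δ θ η : ℝ) where
  o : V → ℕ
  h : V → ℕ
  L' : V → Finset C
  sub : ∀ v, L' v ⊆ L v
  card : ∀ v, (L' v).card = ell
  disj : ∀ u v, v ∈ nb u → o u = o v → b u = b v → Disjoint (L' u) (L' v)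
  pair : ∀ u v, v ∈ nb u → ((L' u ∩ L' v).card : ℝ) ≤ 4 * s / m ^ 2
  trip : ∀ u v, v ∈ nb u → o u ≤ o v →
    ∑ c ∈ L' v ∩ L' u, min (128 * (D : ℝ) / m)
      (((nb u ∩ nb v).filter (fun x => o x ≤ o v ∧ c ∈ L' x)).card : ℝ) ≤ tbd nb D s m δ u v
  off : ∀ z, (((nb z).filter (fun v => h z < o v)).card : ℝ) ≤ θ * D
  poor : ∀ v, (((nb v).filter (fun z => o v < h z ∧
    (((nb z).filter (fun w => o w = o v)).card : ℝ) < D / M)).card : ℝ) ≤ η * D

section Str

variable {nb : V → Finset V} {D s m r ell M : ℕ} {b : V → Fin r} {L : V → Finset C} {δ θ η : ℝ}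

/-- lists without expensive colours -/
noncomputable def Str.Ls (st : Str nb D s m r ell M b L δ θ η) (v : V) : Finset C :=
  (st.L' v).filter (fun c => (((nb v).filter (fun w => c ∈ st.L' w)).card : ℝ) ≤ 128 * (D : ℝ) / m)

/-- off centres -/
def Str.Off (st : Str nb D s m r ell M b L δ θ η) (v : V) : Finset V :=
  (nb v).filter (fun z => st.h z < st.o v)

open Classical in
/-- main centres -/
noncomputable def Str.Main (st : Str nb D s m r ell M b L δ θ η) (v : V) : Finset V :=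
  (nb v).filter (fun z => st.o v = st.h z ∨ (st.o v < st.h z ∧
    (D : ℝ) / M ≤ (((nb z).filter (fun w => st.o w = st.o v)).card : ℝ)))

/-- controlled (dense, not heavy) pairs -/
def Str.ctl (st : Str nb D s m r ell M b L δ θ η) (om : ℝ) (u v : V) : Prop :=
  δ * D ≤ ((nb u ∩ nb v).card : ℝ) ∧ ((st.Off u ∩ st.Off v).card : ℝ) < om * D

end Str

/-! ### one level -/

/-- colours of `v` matched by the order `J` -/
def LJ {r m : ℕ} (L : V → Finset C) (b : V → Fin r) (a : V → Fin m) (J : C → Fin r → Fin m)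
    (v : V) : Finset C := (L v).filter (fun c => J c (b v) = a v)

/-- current or candidate lists -/
def Lg {r m : ℕ} (L : V → Finset C) (b : V → Fin r) (a : V → Fin m) (U : Finset V)
    (L' : V → Finset C) (J : C → Fin r → Fin m) (v : V) : Finset C :=
  if v ∈ U then LJ L b a J v else L' v

/-- `v` is bad for the order `J` -/
def BadJ {r m : ℕ} (nb : V → Finset V) (D s ell : ℕ) (L : V → Finset C) (b : V → Fin r)
    (a : V → Fin m) (δ : ℝ) (U : Finset V) (L' : V → Finset C) (J : C → Fin r → Fin m) (v : V) :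
    Prop :=
  (LJ L b a J v).card < ell ∨
  ∃ u ∈ nb v, (4 * (s : ℝ) / m ^ 2 < ((LJ L b a J v ∩ Lg L b a U L' J u).card : ℝ)) ∨
    (tbd nb D s m δ u v < ∑ c ∈ LJ L b a J v ∩ Lg L b a U L' J u,
      min (128 * (D : ℝ) / m)
        (((nb u ∩ nb v).filter (fun x => c ∈ Lg L b a U L' J x)).card : ℝ))

end PartA

/-! ## hypotheses of part B -/

/-- interface of part B -/
structure IFace {V C Z : Type} [Fintype V] [DecidableEq V] [Fintype C] [DecidableEq C]
    [Fintype Z] (nb : V → Finset V) (D : ℕ) (Ls : V → Finset C) (Sg : C → (V → Z) → Finset V)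
    (P : NP) (K κ3 tau cap : ℝ) (ell : ℕ) : Prop where
  symm : ∀ u v, v ∈ nb u → u ∈ nb v
  irr : ∀ v, v ∉ nb v
  deg : ∀ v, (nb v).card ≤ D
  sub : ∀ c ζ v, v ∈ Sg c ζ → c ∈ Ls v
  loc : ∀ c ζ ζ' v, (∀ w, w = v ∨ w ∈ nb v → ζ w = ζ' w) → v ∈ Sg c ζ → v ∈ Sg c ζ'
  single : ∀ v, 3 / 16 ≤ P.p0 * ∑ c ∈ Ls v, pr (fun ζ => v ∈ Sg c ζ)
  double : ∀ v, P.p0 ^ 2 * ∑ c ∈ Ls v, ∑ w ∈ nb v, pr (fun ζ => v ∈ Sg c ζ ∧ w ∈ Sg c ζ) ≤ K
  triple : ∀ v, P.p0 ^ 3 * ∑ c ∈ Ls v, ∑ w ∈ nb v, ∑ x ∈ nb v ∩ nb w,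
    pr (fun ζ => v ∈ Sg c ζ ∧ w ∈ Sg c ζ ∧ x ∈ Sg c ζ) ≤ κ3
  card : ∀ v, (Ls v).card ≤ ell
  pair : ∀ u v, v ∈ nb u → ((Ls u ∩ Ls v).card : ℝ) ≤ tau
  cdeg : ∀ v, ∀ c ∈ Ls v, (((nb v).filter (fun w => c ∈ Ls w)).card : ℝ) ≤ cap

/-- error term of the nibble -/
noncomputable def nerr (P : NP) (D : ℕ) : ℝ :=
  1 / P.N + D * ((2 : ℝ) ^ (-(P.R : ℝ)) * Real.exp (D * (P.β * (Real.exp P.Y * P.p0))))

/-- numerical hypotheses of part B -/
structure NumB (P : NP) (D : ℕ) (K κ3 tau cap : ℝ) (ell : ℕ) (lam : ℝ) : Prop where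
  hT : 0 < P.T
  hN : 0 < P.N
  hβ : 0 < P.β
  hp0 : 0 < P.p0
  hK : 1 ≤ K
  hκ : 0 ≤ κ3
  htau : 0 ≤ tau
  hcap : 0 ≤ cap
  hlam : 0 < lam
  hTK : 96 * P.β * K ≤ P.T
  hYK : 96 * P.β * K ≤ P.Y
  hκ3 : 2 * P.β * Real.exp P.Y ^ 2 * κ3 ≤ K / 4
  hx : P.β * (Real.exp P.Y * P.p0) ≤ 1 / 2
  hleft : 49152 * K ≤ Real.exp (P.β / 16)
  herr : ell * nerr P D ≤ P.β / 32
  hG : 2 * lam * ((Real.exp P.Y * P.p0) ^ 2 * (cap + tau * (P.T * P.R))) ≤ 1
  hLLL : ((D : ℝ) + 1) ^ (2 * (P.T + 4)) *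
    (Real.exp (-(1 / (64 * (Real.exp P.Y * P.p0)))) +
      Real.exp (-(lam * (1 / 8192)) + 4 * lam ^ 2 *
        ((Real.exp P.Y * P.p0) ^ 2 * (cap + tau * (P.T * P.R))) *
        ((Real.exp P.Y * P.p0) ^ 2 *
          (cap * ell + tau * (D * (ell * (P.β * (Real.exp P.Y * P.p0)))))))) ≤ 1 / 4

end Pool.Agent.SQ
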