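import Pool.Agent.Lib.MP_026281_co.LLL
import Pool.Agent.Lib.MP_026281_co.NibDet

/-!
# MP_026281_co, P16: the second local lemma
-/

set_option autoImplicit false

namespace Pool.Agent.SQ

open Finset

section WprTwo

variable {ι X : Type} [Fintype ι] [DecidableEq ι] [Fintype X] {w : ι → X → ℝ}

theorem wpr_single (hw1 : ∀ i, ∑ x, w i x = 1) (u : ι) (c : X) :
    wpr w (fun ω => ω u = c) = w u c := by
  classical
  have h := Finset.prod_univ_sum (fun _ : ι => (univ : Finset X))
    (fun i x => w i x * (if i = u then ind (x = c) else 1))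
  rw [Fintype.piFinset_univ] at h
  have h1 : wpr w (fun ω => ω u = c) = ∑ ω : ι → X,
      ∏ i, w i (ω i) * (if i = u then ind (ω i = c) else 1) := by
    unfold wpr
    refine Finset.sum_congr rfl fun ω _ => ?_
    rw [Finset.prod_mul_distrib]
    congr 1
    rw [Finset.prod_ite_eq' univ u (fun i => ind (ω i = c)), if_pos (Finset.mem_univ u)]
  rw [h1, ← h]
  rw [Finset.prod_eq_single u]
  · simp only [if_true]
    rw [Finset.sum_eq_single c]
    · rw [ind_of rfl, mul_one]
    · intro x _ hx
      rw [ind_of_not hx, mul_zero]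
    · intro h2
      exact absurd (Finset.mem_univ c) h2
  · intro i _ hi
    simp only [hi, if_false, mul_one]
    exact hw1 i
  · intro h2
    exact absurd (Finset.mem_univ u) h2

theorem wpr_eq_le (hw0 : ∀ i x, 0 ≤ w i x) (hw1 : ∀ i, ∑ x, w i x = 1) {u v : ι} (huv : u ≠ v) :
    wpr w (fun ω => ω u = ω v) ≤ ∑ c, w u c * w v c := by
  have h := wpr_le_add_sum (κ := X) hw0 (P := fun ω : ι → X => ω u = ω v) (Q := fun _ => False)
    univ (fun c ω => ω u = c ∧ ω v = c) (fun ω h => Or.inr ⟨ω v, Finset.mem_univ _, h, rfl⟩)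
  rw [wpr_false (w := w) (fun _ h => h), zero_add] at h
  refine h.trans (Finset.sum_le_sum fun c _ => ?_)
  rw [wpr_indep hw1 {u} (P := fun ω : ι → X => ω u = c) (Q := fun ω : ι → X => ω v = c),
    wpr_single hw1, wpr_single hw1]
  · intro ω ω' h1 h2
    rw [← h1 u (Finset.mem_singleton_self u)]
    exact h2
  · intro ω ω' h1 h2
    rw [← h1 v (fun h3 => huv (Finset.mem_singleton.1 h3).symm)]
    exact h2

end WprTwo

section Final

variable {V C Z : Type} [Fintype V] [DecidableEq V] [Fintype C] [DecidableEq C] [Fintype Z]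
  [Nonempty Z] {nb : V → Finset V} {D : ℕ} {Ls : V → Finset C} {Sg : C → (V → Z) → Finset V}
  {P : NP} {K κ3 tau cap lam : ℝ} {ell : ℕ}

set_option linter.unusedSectionVars false in
theorem color_of_good (h : IFace nb D Ls Sg P K κ3 tau cap ell)
    (hB : NumB P D K κ3 tau cap ell lam) (ω : C → V → Fin P.T × Fin P.N × Z)
    (hω : ∀ v, 1 / 16 < mass P nb Sg Ls ω v ∧ EL P nb Sg Ls ω v < 1 / 4096) :
    ∃ σ : V → C, (∀ v, σ v ∈ Ls v) ∧ ∀ u v, v ∈ nb u → σ u ≠ σ v := by
  classical
  have hY : 0 ≤ P.Y := by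
    have h1 := hB.hYK
    have h2 := hB.hβ
    have h3 := hB.hK
    have : 0 ≤ 96 * P.β * K := by positivity
    linarith
  have hpw : ∀ c v, 0 ≤ pw P nb Sg c (ω c) P.T v := fun c v =>
    np_nonneg _ _ _ _ _ hB.hβ.le hB.hp0.le hY hB.hx _ _
  have hm : ∀ v, 0 < mass P nb Sg Ls ω v := fun v => by have := (hω v).1; linarith
  -- the fixed colours
  have hcol : ∀ v, ∃ c, ¬ lft P nb Sg Ls ω v → c ∈ Ls v ∧ v ∈ Is P nb Sg c (ω c) := by
    intro v
    by_cases hl : lft P nb Sg Ls ω v
    · have : (Ls v).Nonempty := by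
        rw [Finset.nonempty_iff_ne_empty]
        intro he
        have := hm v
        unfold mass at this
        rw [he, Finset.sum_empty] at this
        exact lt_irrefl _ this
      obtain ⟨c, _⟩ := this
      exact ⟨c, fun hn => absurd hl hn⟩
    · have hl' := hl
      unfold lft at hl'
      push Not at hl'
      obtain ⟨c, hc1, hc2⟩ := hl'
      exact ⟨c, fun _ => ⟨hc1, hc2⟩⟩
  choose cc hcc using hcol
  -- the weights
  set W : V → C → ℝ := fun v c =>
    if lft P nb Sg Ls ω v then
      (if c ∈ Ls v then pw P nb Sg c (ω c) P.T v / mass P nb Sg Ls ω v else 0)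
    else (if c = cc v then 1 else 0) with hW
  have hW0 : ∀ v c, 0 ≤ W v c := by
    intro v c
    simp only [hW]
    split_ifs
    · exact div_nonneg (hpw c v) (hm v).le
    · exact le_rfl
    · exact zero_le_one
    · exact le_rfl
  have hW1 : ∀ v, ∑ c, W v c = 1 := by
    intro v
    by_cases hl : lft P nb Sg Ls ω v
    · simp only [hW, hl, if_true]
      rw [Finset.sum_ite_mem, Finset.univ_inter, ← Finset.sum_div]
      exact div_self (hm v).ne'
    · simp only [hW, hl, if_false]
      rw [Finset.sum_ite_eq' univ (cc v) (fun _ => (1 : ℝ)), if_pos (Finset.mem_univ _)]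
  -- the events
  set E : V × V → (V → C) → Prop := fun k σ =>
    k.2 ∈ nb k.1 ∧ lft P nb Sg Ls ω k.1 ∧ lft P nb Sg Ls ω k.2 ∧ σ k.1 = σ k.2 with hE
  have hEb : ∀ u v, wpr W (E (u, v)) ≤ if v ∈ nb u then
      256 * ∑ c ∈ Ls u, pw P nb Sg c (ω c) P.T u * (pw P nb Sg c (ω c) P.T v *
        ind (lft P nb Sg Ls ω v)) else 0 := by
    intro u v
    split_ifs with huv
    · by_cases hl : lft P nb Sg Ls ω u ∧ lft P nb Sg Ls ω v
      · obtain ⟨hu, hv⟩ := hl
        have hne : u ≠ v := fun he => h.irr v (by rw [he] at huv; exact huv)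
        have h1 : wpr W (E (u, v)) ≤ wpr W (fun σ => σ u = σ v) :=
          wpr_mono hW0 fun σ hσ => hσ.2.2.2
        refine h1.trans ((wpr_eq_le hW0 hW1 hne).trans ?_)
        rw [Finset.mul_sum, ← Finset.sum_subset (Finset.subset_univ (Ls u))]
        · refine Finset.sum_le_sum fun c hc => ?_
          simp only [hW, hu, hv, if_true, hc]
          rw [ind_of trivial, mul_one]
          have hmu := (hω u).1
          have hmv := (hω v).1
          have e1 : pw P nb Sg c (ω c) P.T u / mass P nb Sg Ls ω u ≤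
              16 * pw P nb Sg c (ω c) P.T u := by
            rw [div_le_iff₀ (hm u)]
            nlinarith [hpw c u]
          have e2 : (if c ∈ Ls v then pw P nb Sg c (ω c) P.T v / mass P nb Sg Ls ω v else 0) ≤
              16 * pw P nb Sg c (ω c) P.T v := by
            split_ifs
            · rw [div_le_iff₀ (hm v)]
              nlinarith [hpw c v]
            · have := hpw c v
              linarith
          have e3 : 0 ≤ (if c ∈ Ls v then pw P nb Sg c (ω c) P.T v / mass P nb Sg Ls ω v
              else 0) := by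
            split_ifs
            · exact div_nonneg (hpw c v) (hm v).le
            · exact le_rfl
          calc pw P nb Sg c (ω c) P.T u / mass P nb Sg Ls ω u *
                (if c ∈ Ls v then pw P nb Sg c (ω c) P.T v / mass P nb Sg Ls ω v else 0)
              ≤ (16 * pw P nb Sg c (ω c) P.T u) * (16 * pw P nb Sg c (ω c) P.T v) :=
                mul_le_mul e1 e2 e3 (by have := hpw c u; linarith)
            _ = _ := by ring
        · intro c _ hc
          simp only [hW, hu, if_true, hc, if_false, zero_mul]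
      · rw [wpr_false]
        · refine mul_nonneg (by norm_num) (Finset.sum_nonneg fun c _ => ?_)
          exact mul_nonneg (hpw c u) (mul_nonneg (hpw c v) (ind_nonneg _))
        · intro σ hσ
          exact hl ⟨hσ.2.1, hσ.2.2.1⟩
    · rw [wpr_false]
      intro σ hσ
      exact huv hσ.1
  have hrow : ∀ u, ∑ v, wpr W (E (u, v)) ≤ 1 / 16 := by
    intro u
    refine (Finset.sum_le_sum fun v _ => hEb u v).trans ?_
    rw [Finset.sum_ite_mem, Finset.univ_inter, ← Finset.mul_sum, Finset.sum_comm]
    have h1 := (hω u).2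
    unfold EL at h1
    simp only [← Finset.mul_sum]
    linarith
  have hcol2 : ∀ u, ∑ v, wpr W (E (v, u)) ≤ 1 / 16 := by
    intro u
    refine le_trans (Finset.sum_le_sum fun v _ => ?_) (hrow u)
    refine wpr_mono hW0 fun σ hσ => ?_
    exact ⟨h.symm _ _ hσ.1, hσ.2.2.1, hσ.2.1, hσ.2.2.2.symm⟩
  have hsum : ∀ k : V × V, ∑ l ∈ univ.filter (fun l : V × V => l = k ∨
      ¬ Disjoint ({l.1, l.2} : Finset V) {k.1, k.2}), wpr W (E l) ≤ 1 / 4 := by
    rintro ⟨u, v⟩
    have hnn : ∀ l, 0 ≤ wpr W (E l) := fun l => wpr_nonneg hW0 _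
    have hsub : (univ.filter (fun l : V × V => l = (u, v) ∨
        ¬ Disjoint ({l.1, l.2} : Finset V) {u, v})) ⊆
        (univ.image (fun x : V => (u, x)) ∪ univ.image (fun x : V => (x, u))) ∪
        (univ.image (fun x : V => (v, x)) ∪ univ.image (fun x : V => (x, v))) := by
      rintro ⟨a, b⟩ hl
      simp only [Finset.mem_filter, Finset.mem_univ, true_and, Prod.mk.injEq,
        Finset.disjoint_insert_left, Finset.disjoint_singleton_left, Finset.mem_insert,
        Finset.mem_singleton] at hl
      simp only [Finset.mem_union, Finset.mem_image, Finset.mem_univ, true_and, Prod.mk.injEq]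
      have : (u = a ∨ u = b) ∨ (v = a ∨ v = b) := by
        by_contra hc
        push Not at hc
        obtain ⟨⟨h1, h2⟩, h3, h4⟩ := hc
        rcases hl with ⟨h5, _⟩ | h5
        · exact h1 h5.symm
        · apply h5
          exact ⟨fun h6 => h6.elim (fun h7 => h1 h7.symm) (fun h7 => h3 h7.symm),
            fun h6 => h6.elim (fun h7 => h2 h7.symm) (fun h7 => h4 h7.symm)⟩
      rcases this with (h1 | h1) | (h1 | h1)
      · exact Or.inl (Or.inl ⟨b, h1, rfl⟩)
      · exact Or.inl (Or.inr ⟨a, rfl, h1⟩)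
      · exact Or.inr (Or.inl ⟨b, h1, rfl⟩)
      · exact Or.inr (Or.inr ⟨a, rfl, h1⟩)
    have hun : ∀ s t : Finset (V × V), ∑ l ∈ s ∪ t, wpr W (E l) ≤
        ∑ l ∈ s, wpr W (E l) + ∑ l ∈ t, wpr W (E l) := by
      intro s t
      have h1 := Finset.sum_union_inter (s₁ := s) (s₂ := t) (f := fun l => wpr W (E l))
      have h2 : 0 ≤ ∑ l ∈ s ∩ t, wpr W (E l) := Finset.sum_nonneg (fun a _ => hnn a)
      linarith
    have him : ∀ u, ∑ l ∈ univ.image (fun x : V => (u, x)), wpr W (E l) ≤ 1 / 16 := by
      intro u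
      rw [Finset.sum_image (fun x _ y _ hxy => by simpa using hxy)]
      exact hrow u
    have him' : ∀ u, ∑ l ∈ univ.image (fun x : V => (x, u)), wpr W (E l) ≤ 1 / 16 := by
      intro u
      rw [Finset.sum_image (fun x _ y _ hxy => by simpa using hxy)]
      exact hcol2 u
    have h1 := Finset.sum_le_sum_of_subset_of_nonneg (f := fun l => wpr W (E l)) hsub
      (fun l _ _ => hnn l)
    have h2 := hun (univ.image (fun x : V => (u, x)) ∪ univ.image (fun x : V => (x, u)))
      (univ.image (fun x : V => (v, x)) ∪ univ.image (fun x : V => (x, v)))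
    have h3 := hun (univ.image (fun x : V => (u, x))) (univ.image (fun x : V => (x, u)))
    have h4 := hun (univ.image (fun x : V => (v, x))) (univ.image (fun x : V => (x, v)))
    have h5 := him u
    have h6 := him v
    have h7 := him' u
    have h8 := him' v
    simp only at h1 ⊢
    linarith
  obtain ⟨σ, hσ1, hσ2⟩ := lll W hW0 hW1 E (fun k => {k.1, k.2}) (by
    rintro k τ τ' hag ⟨h1, h2, h3, h4⟩
    refine ⟨h1, h2, h3, ?_⟩
    rw [← hag k.1 (by simp), ← hag k.2 (by simp)]
    exact h4) hsum
  -- properties of the colouring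
  have hfix : ∀ v, ¬ lft P nb Sg Ls ω v → σ v = cc v := by
    intro v hl
    by_contra hne
    have h1 := hσ1 v
    simp only [hW, hl, if_false, hne] at h1
    exact lt_irrefl _ h1
  have hleft : ∀ v, lft P nb Sg Ls ω v → σ v ∈ Ls v ∧ 0 < pw P nb Sg (σ v) (ω (σ v)) P.T v := by
    intro v hl
    have h1 := hσ1 v
    simp only [hW, hl, if_true] at h1
    by_cases h2 : σ v ∈ Ls v
    · rw [if_pos h2] at h1
      refine ⟨h2, ?_⟩
      rcases (hpw (σ v) v).lt_or_eq with h3 | h3
      · exact h3
      · rw [← h3, zero_div] at h1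
        exact absurd h1 (lt_irrefl _)
    · rw [if_neg h2] at h1
      exact absurd h1 (lt_irrefl _)
  -- a left vertex never uses a colour of a fixed neighbour
  have hmix : ∀ u v, v ∈ nb u → lft P nb Sg Ls ω u → ¬ lft P nb Sg Ls ω v → σ u ≠ σ v := by
    intro u v huv hu hv he
    have h1 := (hleft u hu).2
    have h2 := (hcc v hv).2
    rw [← hfix v hv, ← he] at h2
    have h3 : pw P nb Sg (σ u) (ω (σ u)) P.T u = 0 := nI_dead _ _ _ _ _ u v huv h2
    rw [h3] at h1
    exact lt_irrefl _ h1
  refine ⟨σ, fun v => ?_, fun u v huv => ?_⟩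
  · by_cases hl : lft P nb Sg Ls ω v
    · exact (hleft v hl).1
    · rw [hfix v hl]
      exact (hcc v hl).1
  · by_cases hu : lft P nb Sg Ls ω u
    · by_cases hv : lft P nb Sg Ls ω v
      · intro he
        exact hσ2 (u, v) ⟨huv, hu, hv, he⟩
      · exact hmix u v huv hu hv
    · by_cases hv : lft P nb Sg Ls ω v
      · exact (hmix v u (h.symm _ _ huv) hv hu).symm
      · intro he
        have h1 := (hcc u hu).2
        have h2 := (hcc v hv).2
        rw [← hfix u hu, he] at h1
        rw [← hfix v hv] at h2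
        exact nI_indep _ _ _ _ _ h.symm u v huv h1 h2

end Final

end Pool.Agent.SQ
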