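import Mathlib
import Pool.Agent.Lib.MP_026281_co.Defs

/-!
# MP_026281_co, piece P12: combinatorics of the structure `Str`
-/

set_option autoImplicit false

namespace Pool.Agent.SQ

open Finset

section GSum

variable {V C : Type} [Fintype V] [DecidableEq V] [DecidableEq C] {nb : V → Finset V}
  {D s m r ell M : ℕ} {b : V → Fin r} {L : V → Finset C} {δ θ η : ℝ}

theorem gs_Ls_sub (st : Str nb D s m r ell M b L δ θ η) (v : V) : st.Ls v ⊆ st.L' v :=
  filter_subset _ _

/-- double counting of a sum of cardinalities of intersections -/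
theorem gs_sum_card_inter (A : Finset V) (B : Finset C) (f : V → Finset C) :
    ∑ w ∈ A, ((B ∩ f w).card : ℝ) = ∑ c ∈ B, ((A.filter (fun w => c ∈ f w)).card : ℝ) := by
  have h1 : ∀ w ∈ A, ((B ∩ f w).card : ℝ) = ∑ c ∈ B, if c ∈ f w then (1 : ℝ) else 0 := by
    intro w _
    rw [← Finset.filter_mem_eq_inter, Finset.card_filter]
    push_cast
    rfl
  have h2 : ∀ c ∈ B, ((A.filter (fun w => c ∈ f w)).card : ℝ) =
      ∑ w ∈ A, if c ∈ f w then (1 : ℝ) else 0 := by
    intro c _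
    rw [Finset.card_filter]
    push_cast
    rfl
  rw [sum_congr rfl h1, sum_congr rfl h2, sum_comm]

theorem gs_L'_double (st : Str nb D s m r ell M b L δ θ η)
    (hdeg : ∀ v, (nb v).card ≤ D) (v : V) :
    ∑ w ∈ nb v, ((st.L' v ∩ st.L' w).card : ℝ) ≤ D * (4 * s / m ^ 2) := by
  have hpos : (0 : ℝ) ≤ 4 * s / m ^ 2 := by positivity
  calc ∑ w ∈ nb v, ((st.L' v ∩ st.L' w).card : ℝ) ≤ ∑ _w ∈ nb v, (4 * (s : ℝ) / m ^ 2) :=
        sum_le_sum fun w hw => st.pair v w hw
    _ = (nb v).card * (4 * (s : ℝ) / m ^ 2) := by rw [sum_const, nsmul_eq_mul]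
    _ ≤ D * (4 * s / m ^ 2) :=
        mul_le_mul_of_nonneg_right (by exact_mod_cast hdeg v) hpos

theorem g_single (st : Str nb D s m r ell M b L δ θ η) (hD : 0 < D) (hm : 0 < m)
    (hell : (s : ℝ) ≤ 8 * m * ell) (hsymm : ∀ u v, v ∈ nb u → u ∈ nb v)
    (hdeg : ∀ v, (nb v).card ≤ D) (v : V) :
    3 / 4 * (ell : ℝ) ≤ ((st.Ls v).card : ℝ) := by
  have _ := hsymm
  have hD' : (0 : ℝ) < D := by exact_mod_cast hD
  have hm' : (0 : ℝ) < m := by exact_mod_cast hm
  have h1 := gs_L'_double st hdeg v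
  rw [gs_sum_card_inter] at h1
  set E := (st.L' v).filter (fun c =>
    ¬ (((nb v).filter (fun w => c ∈ st.L' w)).card : ℝ) ≤ 128 * (D : ℝ) / m) with hE
  have h2 : (E.card : ℝ) * (128 * (D : ℝ) / m) ≤ D * (4 * s / m ^ 2) := by
    refine le_trans ?_ h1
    calc (E.card : ℝ) * (128 * (D : ℝ) / m) = ∑ _c ∈ E, (128 * (D : ℝ) / m) := by
          rw [sum_const, nsmul_eq_mul]
      _ ≤ ∑ c ∈ E, (((nb v).filter (fun w => c ∈ st.L' w)).card : ℝ) :=
          sum_le_sum fun c hc => by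
            have := (mem_filter.1 hc).2
            exact (not_le.1 this).le
      _ ≤ ∑ c ∈ st.L' v, (((nb v).filter (fun w => c ∈ st.L' w)).card : ℝ) :=
          sum_le_sum_of_subset_of_nonneg (filter_subset _ _) fun _ _ _ => Nat.cast_nonneg _
  have h3 : (E.card : ℝ) * (32 * m) ≤ s := by
    have e1 : (E.card : ℝ) * (128 * (D : ℝ) / m) = (E.card * (32 * m)) * (4 * D / m ^ 2) := by
      field_simp
      ring
    have e2 : (D : ℝ) * (4 * s / m ^ 2) = s * (4 * D / m ^ 2) := by ring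
    rw [e1, e2] at h2
    exact le_of_mul_le_mul_right h2 (by positivity)
  have h4 : (E.card : ℝ) ≤ ell / 4 := by
    have : (E.card : ℝ) * (32 * m) ≤ (ell / 4) * (32 * m) := by
      refine h3.trans (hell.trans (le_of_eq ?_))
      ring
    exact le_of_mul_le_mul_right this (by positivity)
  have h5' : (st.Ls v).card + E.card = ell :=
    (card_filter_add_card_filter_not (s := st.L' v)
      (fun c => (((nb v).filter (fun w => c ∈ st.L' w)).card : ℝ) ≤ 128 * (D : ℝ) / m)).trans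
      (st.card v)
  have h5 : ((st.Ls v).card : ℝ) + E.card = ell := by exact_mod_cast h5'
  linarith

theorem g_double (st : Str nb D s m r ell M b L δ θ η)
    (hsymm : ∀ u v, v ∈ nb u → u ∈ nb v)
    (hdeg : ∀ v, (nb v).card ≤ D) (v : V) :
    ∑ w ∈ nb v, ((st.Ls v ∩ st.Ls w).card : ℝ) ≤ D * (4 * s / m ^ 2) := by
  have _ := hsymm
  refine le_trans (sum_le_sum fun w _ => ?_) (gs_L'_double st hdeg v)
  exact_mod_cast card_le_card (inter_subset_inter (gs_Ls_sub st v) (gs_Ls_sub st w))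

/-- triangles charged to the pair `(u, v)` -/
theorem gs_pair (st : Str nb D s m r ell M b L δ θ η) (u v : V) (huv : v ∈ nb u)
    (ho : st.o u ≤ st.o v) :
    ∑ x ∈ (nb u ∩ nb v).filter (fun x => st.o x ≤ st.o v),
      ((st.Ls v ∩ st.Ls u ∩ st.Ls x).card : ℝ) ≤ tbd nb D s m δ u v := by
  refine le_trans ?_ (st.trip u v huv ho)
  rw [gs_sum_card_inter]
  refine le_trans (sum_le_sum fun c hc => ?_)
    (sum_le_sum_of_subset_of_nonneg (inter_subset_inter (gs_Ls_sub st v) (gs_Ls_sub st u))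
      fun c _ _ => le_min (by positivity) (Nat.cast_nonneg _))
  have hcv := (mem_filter.1 (mem_inter.1 hc).1).2
  refine le_min (le_trans ?_ hcv) ?_
  · exact_mod_cast card_le_card fun x hx => by
      rw [mem_filter, mem_filter, mem_inter] at hx
      rw [mem_filter]
      exact ⟨hx.1.1.2, gs_Ls_sub st x hx.2⟩
  · exact_mod_cast card_le_card fun x hx => by
      rw [mem_filter, mem_filter] at hx
      rw [mem_filter]
      exact ⟨hx.1.1, hx.1.2, gs_Ls_sub st x hx.2⟩

omit [Fintype V] in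
theorem gs_tbd_symm (u v : V) : tbd nb D s m δ u v = tbd nb D s m δ v u := by
  unfold tbd
  rw [inter_comm]

omit [Fintype V] in
theorem gs_tbd_nonneg (hδ : 0 ≤ δ) (u v : V) : 0 ≤ tbd nb D s m δ u v := by
  unfold tbd
  positivity

/-- all triangles at `v` both of whose edges at `v` satisfy `Q` -/
theorem gs_master (st : Str nb D s m r ell M b L δ θ η) (hδ : 0 ≤ δ)
    (hsymm : ∀ u v, v ∈ nb u → u ∈ nb v) (v : V) (Q : V → Prop) [DecidablePred Q] :
    ∑ w ∈ (nb v).filter Q, ∑ x ∈ (nb v ∩ nb w).filter Q,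
      ((st.Ls v ∩ st.Ls w ∩ st.Ls x).card : ℝ) ≤
      3 * ∑ w ∈ (nb v).filter Q, tbd nb D s m δ v w := by
  set F : V → V → ℝ := fun w x => ((st.Ls v ∩ st.Ls w ∩ st.Ls x).card : ℝ) with hF
  have hF0 : ∀ w x, 0 ≤ F w x := fun w x => Nat.cast_nonneg _
  have hFs : ∀ w x, F w x = F x w := fun w x => by
    simp only [hF]
    rw [inter_assoc, inter_comm (st.Ls w), ← inter_assoc]
  -- the three kinds of triangles
  have h1 : ∑ w ∈ (nb v).filter Q, ∑ x ∈ ((nb v ∩ nb w).filter Q).filter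
      (fun x => st.o w ≤ st.o v ∧ st.o x ≤ st.o v), F w x ≤
      ∑ w ∈ (nb v).filter Q, tbd nb D s m δ v w := by
    refine sum_le_sum fun w hw => ?_
    have hw' := (mem_filter.1 hw).1
    by_cases ho : st.o w ≤ st.o v
    · rw [gs_tbd_symm]
      refine le_trans ?_ (gs_pair st w v (hsymm _ _ hw') ho)
      refine sum_le_sum_of_subset_of_nonneg (fun x hx => ?_) (fun _ _ _ => Nat.cast_nonneg _)
      rw [mem_filter, mem_filter, mem_inter] at hx
      rw [mem_filter, mem_inter]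
      exact ⟨⟨hx.1.1.2, hx.1.1.1⟩, hx.2.2⟩
    · rw [sum_eq_zero]
      · exact gs_tbd_nonneg hδ _ _
      · intro x hx
        exact absurd (mem_filter.1 hx).2.1 ho
  have h2 : ∀ w ∈ (nb v).filter Q, ∑ x ∈ ((nb v ∩ nb w).filter Q).filter
      (fun x => st.o v ≤ st.o w ∧ st.o x ≤ st.o w), F w x ≤ tbd nb D s m δ v w := by
    intro w hw
    have hw' := (mem_filter.1 hw).1
    by_cases ho : st.o v ≤ st.o w
    · refine le_trans ?_ (gs_pair st v w hw' ho)
      have : ∀ x ∈ (nb v ∩ nb w).filter (fun x => st.o x ≤ st.o w),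
          ((st.Ls w ∩ st.Ls v ∩ st.Ls x).card : ℝ) = F w x := fun x _ => by
        simp only [hF]
        rw [inter_comm (st.Ls w) (st.Ls v)]
      rw [sum_congr rfl this]
      refine sum_le_sum_of_subset_of_nonneg (fun x hx => ?_) (fun _ _ _ => hF0 _ _)
      rw [mem_filter, mem_filter] at hx
      rw [mem_filter]
      exact ⟨hx.1.1, hx.2.2⟩
    · rw [sum_eq_zero]
      · exact gs_tbd_nonneg hδ _ _
      · intro x hx
        exact absurd (mem_filter.1 hx).2.1 ho
  have h2' := sum_le_sum h2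
  -- third kind, by symmetry
  have h3 : ∑ w ∈ (nb v).filter Q, ∑ x ∈ ((nb v ∩ nb w).filter Q).filter
      (fun x => st.o v ≤ st.o x ∧ st.o w ≤ st.o x), F w x ≤
      ∑ w ∈ (nb v).filter Q, tbd nb D s m δ v w := by
    refine le_trans (le_of_eq ?_) h2'
    rw [sum_sigma', sum_sigma']
    refine sum_nbij' (fun p => ⟨p.2, p.1⟩) (fun p => ⟨p.2, p.1⟩) ?_ ?_ ?_ ?_ ?_
    · rintro ⟨w, x⟩ hp
      simp only [mem_sigma, mem_filter, mem_inter] at hp ⊢
      exact ⟨⟨hp.2.1.1.1, hp.2.1.2⟩, ⟨⟨hp.1.1, hsymm _ _ hp.2.1.1.2⟩, hp.1.2⟩, hp.2.2⟩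
    · rintro ⟨w, x⟩ hp
      simp only [mem_sigma, mem_filter, mem_inter] at hp ⊢
      exact ⟨⟨hp.2.1.1.1, hp.2.1.2⟩, ⟨⟨hp.1.1, hsymm _ _ hp.2.1.1.2⟩, hp.1.2⟩, hp.2.2⟩
    · rintro ⟨w, x⟩ _; rfl
    · rintro ⟨w, x⟩ _; rfl
    · rintro ⟨w, x⟩ _
      exact hFs w x
  -- total
  have key : ∑ w ∈ (nb v).filter Q, ∑ x ∈ (nb v ∩ nb w).filter Q, F w x ≤
      (∑ w ∈ (nb v).filter Q, ∑ x ∈ ((nb v ∩ nb w).filter Q).filter
        (fun x => st.o w ≤ st.o v ∧ st.o x ≤ st.o v), F w x) +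
      (∑ w ∈ (nb v).filter Q, ∑ x ∈ ((nb v ∩ nb w).filter Q).filter
        (fun x => st.o v ≤ st.o w ∧ st.o x ≤ st.o w), F w x) +
      (∑ w ∈ (nb v).filter Q, ∑ x ∈ ((nb v ∩ nb w).filter Q).filter
        (fun x => st.o v ≤ st.o x ∧ st.o w ≤ st.o x), F w x) := by
    rw [← sum_add_distrib, ← sum_add_distrib]
    refine sum_le_sum fun w _ => ?_
    rw [sum_filter (s := (nb v ∩ nb w).filter Q), sum_filter (s := (nb v ∩ nb w).filter Q),
      sum_filter (s := (nb v ∩ nb w).filter Q), ← sum_add_distrib, ← sum_add_distrib]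
    refine sum_le_sum fun x _ => ?_
    have hx := hF0 w x
    rcases le_total (st.o w) (st.o v) with hwv | hwv
    · rcases le_total (st.o x) (st.o v) with hxv | hxv
      · rw [if_pos ⟨hwv, hxv⟩]
        have e1 : 0 ≤ (if st.o v ≤ st.o w ∧ st.o x ≤ st.o w then F w x else 0) := by
          split_ifs <;> simp [hx]
        have e2 : 0 ≤ (if st.o v ≤ st.o x ∧ st.o w ≤ st.o x then F w x else 0) := by
          split_ifs <;> simp [hx]
        linarith
      · rw [if_pos (⟨hxv, hwv.trans hxv⟩ : st.o v ≤ st.o x ∧ st.o w ≤ st.o x)]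
        have e1 : 0 ≤ (if st.o v ≤ st.o w ∧ st.o x ≤ st.o w then F w x else 0) := by
          split_ifs <;> simp [hx]
        have e2 : 0 ≤ (if st.o w ≤ st.o v ∧ st.o x ≤ st.o v then F w x else 0) := by
          split_ifs <;> simp [hx]
        linarith
    · rcases le_total (st.o x) (st.o w) with hxw | hxw
      · rw [if_pos (⟨hwv, hxw⟩ : st.o v ≤ st.o w ∧ st.o x ≤ st.o w)]
        have e1 : 0 ≤ (if st.o w ≤ st.o v ∧ st.o x ≤ st.o v then F w x else 0) := by
          split_ifs <;> simp [hx]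
        have e2 : 0 ≤ (if st.o v ≤ st.o x ∧ st.o w ≤ st.o x then F w x else 0) := by
          split_ifs <;> simp [hx]
        linarith
      · rw [if_pos (⟨hwv.trans hxw, hxw⟩ : st.o v ≤ st.o x ∧ st.o w ≤ st.o x)]
        have e1 : 0 ≤ (if st.o v ≤ st.o w ∧ st.o x ≤ st.o w then F w x else 0) := by
          split_ifs <;> simp [hx]
        have e2 : 0 ≤ (if st.o w ≤ st.o v ∧ st.o x ≤ st.o v then F w x else 0) := by
          split_ifs <;> simp [hx]
        linarith
  linarith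

theorem g_triple (st : Str nb D s m r ell M b L δ θ η) (hδ : 0 ≤ δ) (hδ1 : δ ≤ 1)
    (hsymm : ∀ u v, v ∈ nb u → u ∈ nb v) (hdeg : ∀ v, (nb v).card ≤ D) (v : V) :
    ∑ w ∈ nb v, ∑ x ∈ nb v ∩ nb w, ((st.Ls v ∩ st.Ls w ∩ st.Ls x).card : ℝ) ≤
      48 * ((D : ℝ) ^ 2 * s / m ^ 3) := by
  classical
  have h := gs_master st hδ hsymm v (fun _ => True)
  simp only [filter_true] at h
  refine h.trans ?_
  have h1 : ∀ w ∈ nb v, tbd nb D s m δ v w ≤ 16 * ((D : ℝ) * s / (m : ℝ) ^ 3) := by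
    intro w _
    unfold tbd
    have hc : ((nb v ∩ nb w).card : ℝ) ≤ D := by
      exact_mod_cast (card_le_card inter_subset_left).trans (hdeg v)
    have hD0 : (0 : ℝ) ≤ D := Nat.cast_nonneg D
    have h2 : δ * D ≤ D := by nlinarith
    have h3 : (0 : ℝ) ≤ (s : ℝ) / (m : ℝ) ^ 3 := by positivity
    calc 8 * (((nb v ∩ nb w).card : ℝ) + δ * D) * (s : ℝ) / (m : ℝ) ^ 3
        = 8 * (((nb v ∩ nb w).card : ℝ) + δ * D) * ((s : ℝ) / (m : ℝ) ^ 3) := by ring
      _ ≤ 8 * ((D : ℝ) + D) * ((s : ℝ) / (m : ℝ) ^ 3) := by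
          apply mul_le_mul_of_nonneg_right _ h3
          linarith
      _ = 16 * ((D : ℝ) * s / (m : ℝ) ^ 3) := by ring
  have h2 := sum_le_sum h1
  rw [sum_const, nsmul_eq_mul] at h2
  have h3 : ((nb v).card : ℝ) * (16 * ((D : ℝ) * s / (m : ℝ) ^ 3)) ≤
      D * (16 * ((D : ℝ) * s / (m : ℝ) ^ 3)) :=
    mul_le_mul_of_nonneg_right (by exact_mod_cast hdeg v) (by positivity)
  calc 3 * ∑ w ∈ nb v, tbd nb D s m δ v w ≤ 3 * (D * (16 * ((D : ℝ) * s / (m : ℝ) ^ 3))) := by
        linarith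
    _ = 48 * ((D : ℝ) ^ 2 * s / m ^ 3) := by ring

/-- few heavy neighbours -/
theorem gs_heavy_card (st : Str nb D s m r ell M b L δ θ η) {om : ℝ} (hom : 0 < om)
    (hθ : 0 ≤ θ) (hD : 0 < D) (hsymm : ∀ u v, v ∈ nb u → u ∈ nb v)
    (hdeg : ∀ v, (nb v).card ≤ D) (v : V) :
    (((nb v).filter (fun w => om * D ≤ ((st.Off v ∩ st.Off w).card : ℝ))).card : ℝ) ≤
      θ / om * D := by
  have _ := hsymm
  have hD' : (0 : ℝ) < D := by exact_mod_cast hD
  set H := (nb v).filter (fun w => om * D ≤ ((st.Off v ∩ st.Off w).card : ℝ)) with hH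
  have h1 : (H.card : ℝ) * (om * D) ≤ ∑ w ∈ nb v, ((st.Off v ∩ st.Off w).card : ℝ) := by
    calc (H.card : ℝ) * (om * D) = ∑ _w ∈ H, (om * D) := by rw [sum_const, nsmul_eq_mul]
      _ ≤ ∑ w ∈ H, ((st.Off v ∩ st.Off w).card : ℝ) := sum_le_sum fun w hw => (mem_filter.1 hw).2
      _ ≤ _ := sum_le_sum_of_subset_of_nonneg (filter_subset _ _) fun _ _ _ => Nat.cast_nonneg _
  have h2 : ∑ w ∈ nb v, ((st.Off v ∩ st.Off w).card : ℝ) ≤ D * (θ * D) := by
    rw [gs_sum_card_inter (nb v) (st.Off v) st.Off]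
    calc ∑ z ∈ st.Off v, (((nb v).filter (fun w => z ∈ st.Off w)).card : ℝ)
        ≤ ∑ _z ∈ st.Off v, (θ * D) := by
          refine sum_le_sum fun z _ => le_trans ?_ (st.off z)
          exact_mod_cast card_le_card fun w hw => by
            rw [mem_filter] at hw ⊢
            have h3 := mem_filter.1 hw.2
            exact ⟨hsymm _ _ h3.1, h3.2⟩
      _ = (st.Off v).card * (θ * D) := by rw [sum_const, nsmul_eq_mul]
      _ ≤ D * (θ * D) := by
          apply mul_le_mul_of_nonneg_right _ (by positivity)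
          exact_mod_cast (card_le_card (filter_subset _ _)).trans (hdeg v)
  have h3 : (H.card : ℝ) * (om * D) ≤ (θ / om * D) * (om * D) := by
    refine h1.trans (h2.trans (le_of_eq ?_))
    field_simp
  exact le_of_mul_le_mul_right h3 (by positivity)

open Classical in
theorem g_triple_unc (st : Str nb D s m r ell M b L δ θ η) {om : ℝ} (hom : 0 < om)
    (hδ : 0 ≤ δ) (hδ1 : δ ≤ 1) (hθ : 0 ≤ θ)
    (hsymm : ∀ u v, v ∈ nb u → u ∈ nb v) (hdeg : ∀ v, (nb v).card ≤ D) (v : V) :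
    ∑ w ∈ nb v, ∑ x ∈ (nb v ∩ nb w).filter (fun x => ¬ st.ctl om v w ∧ ¬ st.ctl om v x),
      ((st.Ls v ∩ st.Ls w ∩ st.Ls x).card : ℝ) ≤
      48 * (δ + θ / om) * ((D : ℝ) ^ 2 * s / m ^ 3) := by
  rcases Nat.eq_zero_or_pos D with hD | hD
  · have : nb v = ∅ := by
      have := hdeg v
      rw [hD] at this
      exact card_eq_zero.1 (Nat.le_zero.1 this)
    rw [this, sum_empty]
    positivity
  have hD' : (0 : ℝ) < D := by exact_mod_cast hD
  have h := gs_master st hδ hsymm v (fun w => ¬ st.ctl om v w)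
  have h0 : ∑ w ∈ nb v, ∑ x ∈ (nb v ∩ nb w).filter (fun x => ¬ st.ctl om v w ∧ ¬ st.ctl om v x),
      ((st.Ls v ∩ st.Ls w ∩ st.Ls x).card : ℝ) =
      ∑ w ∈ (nb v).filter (fun w => ¬ st.ctl om v w),
        ∑ x ∈ (nb v ∩ nb w).filter (fun w => ¬ st.ctl om v w),
          ((st.Ls v ∩ st.Ls w ∩ st.Ls x).card : ℝ) := by
    refine Eq.symm ((sum_filter (s := nb v) (fun w => ¬ st.ctl om v w) _).trans
      (sum_congr rfl fun w _ => ?_))
    by_cases hw : st.ctl om v w
    · rw [if_neg (not_not.2 hw), sum_eq_zero]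
      intro x hx
      exact absurd hw (mem_filter.1 hx).2.1
    · rw [if_pos hw]
      refine sum_congr ?_ fun _ _ => rfl
      exact filter_congr fun x _ => by simp [hw]
  rw [h0]
  refine h.trans ?_
  set H := (nb v).filter (fun w => om * D ≤ ((st.Off v ∩ st.Off w).card : ℝ)) with hH
  set X : ℝ := (D : ℝ) * s / (m : ℝ) ^ 3 with hX
  have hX0 : 0 ≤ X := by positivity
  have hs : (0 : ℝ) ≤ (s : ℝ) / (m : ℝ) ^ 3 := by positivity
  have h1 : ∀ w ∈ (nb v).filter (fun w => ¬ st.ctl om v w), tbd nb D s m δ v w ≤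
      16 * δ * X + (if om * D ≤ ((st.Off v ∩ st.Off w).card : ℝ) then
        16 * X else 0) := by
    intro w hw
    have hw' := (mem_filter.1 hw).2
    have hc : ((nb v ∩ nb w).card : ℝ) ≤ D := by
      exact_mod_cast (card_le_card inter_subset_left).trans (hdeg v)
    unfold tbd
    have e0 : 8 * (((nb v ∩ nb w).card : ℝ) + δ * D) * (s : ℝ) / (m : ℝ) ^ 3 =
        8 * (((nb v ∩ nb w).card : ℝ) + δ * D) * ((s : ℝ) / (m : ℝ) ^ 3) := by ring
    rw [e0]
    split_ifs with hh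
    · have h2 : δ * D ≤ D := by nlinarith
      calc 8 * (((nb v ∩ nb w).card : ℝ) + δ * D) * ((s : ℝ) / (m : ℝ) ^ 3)
          ≤ 8 * ((D : ℝ) + D) * ((s : ℝ) / (m : ℝ) ^ 3) := by
            apply mul_le_mul_of_nonneg_right _ hs
            linarith
        _ = 0 + 16 * X := by rw [hX]; ring
        _ ≤ 16 * δ * X + 16 * X := by
            have : 0 ≤ 16 * δ * X := by positivity
            linarith
    · have hlt : ((nb v ∩ nb w).card : ℝ) < δ * D := by
        by_contra hcon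
        exact hw' ⟨not_lt.1 hcon, not_le.1 hh⟩
      calc 8 * (((nb v ∩ nb w).card : ℝ) + δ * D) * ((s : ℝ) / (m : ℝ) ^ 3)
          ≤ 8 * (δ * D + δ * D) * ((s : ℝ) / (m : ℝ) ^ 3) := by
            apply mul_le_mul_of_nonneg_right _ hs
            linarith
        _ = 16 * δ * X + 0 := by rw [hX]; ring
  have h2 := sum_le_sum h1
  rw [sum_add_distrib, sum_const, nsmul_eq_mul] at h2
  have h3 : (((nb v).filter (fun w => ¬ st.ctl om v w)).card : ℝ) * (16 * δ * X) ≤
      D * (16 * δ * X) := by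
    apply mul_le_mul_of_nonneg_right _ (by positivity)
    exact_mod_cast (card_le_card (filter_subset _ _)).trans (hdeg v)
  have h4 : ∑ w ∈ (nb v).filter (fun w => ¬ st.ctl om v w),
      (if om * D ≤ ((st.Off v ∩ st.Off w).card : ℝ) then 16 * X else (0 : ℝ)) ≤
      (θ / om * D) * (16 * X) := by
    calc _ ≤ ∑ w ∈ nb v, (if om * D ≤ ((st.Off v ∩ st.Off w).card : ℝ) then
          16 * X else (0 : ℝ)) :=
          sum_le_sum_of_subset_of_nonneg (filter_subset _ _) fun w _ _ => by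
            split_ifs
            · positivity
            · exact le_rfl
      _ = (H.card : ℝ) * (16 * X) := by
          rw [← sum_filter, sum_const, nsmul_eq_mul]
      _ ≤ _ := mul_le_mul_of_nonneg_right (gs_heavy_card st hom hθ hD hsymm hdeg v) (by positivity)
  calc 3 * ∑ w ∈ (nb v).filter (fun w => ¬ st.ctl om v w), tbd nb D s m δ v w
      ≤ 3 * (D * (16 * δ * X) + (θ / om * D) * (16 * X)) := by
        linarith
    _ = 48 * (δ + θ / om) * ((D : ℝ) ^ 2 * s / m ^ 3) := by rw [hX]; ring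

theorem ctl_dense (st : Str nb D s m r ell M b L δ θ η) {om : ℝ} (hom : om ≤ δ / 4)
    (hη : η ≤ δ / 8) (hsymm : ∀ u v, v ∈ nb u → u ∈ nb v) (u v : V) (h : st.ctl om u v) :
    δ / 6 * D ≤ ((st.Main u ∩ st.Main v).card : ℝ) ∨
    δ / 6 * D ≤ ((st.Main u ∩ st.Off v).card : ℝ) ∨
    δ / 6 * D ≤ ((st.Off u ∩ st.Main v).card : ℝ) := by
  classical
  have _ := hsymm
  obtain ⟨h1, h2⟩ := h
  have hD0 : (0 : ℝ) ≤ D := Nat.cast_nonneg D
  set Pu := (nb u).filter (fun z => st.o u < st.h z ∧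
    (((nb z).filter (fun w => st.o w = st.o u)).card : ℝ) < D / M) with hPu
  set Pv := (nb v).filter (fun z => st.o v < st.h z ∧
    (((nb z).filter (fun w => st.o w = st.o v)).card : ℝ) < D / M) with hPv
  have hp1 : (Pu.card : ℝ) ≤ η * D := st.poor u
  have hp2 : (Pv.card : ℝ) ≤ η * D := st.poor v
  have hcov : nb u ∩ nb v ⊆ (st.Main u ∩ st.Main v) ∪ (st.Main u ∩ st.Off v) ∪
      (st.Off u ∩ st.Main v) ∪ (st.Off u ∩ st.Off v) ∪ Pu ∪ Pv := by
    intro z hz
    rw [mem_inter] at hz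
    have tri : ∀ w, z ∈ nb w → z ∈ st.Main w ∨ z ∈ st.Off w ∨
        z ∈ (nb w).filter (fun z => st.o w < st.h z ∧
          (((nb z).filter (fun x => st.o x = st.o w)).card : ℝ) < D / M) := by
      intro w hw
      rcases lt_trichotomy (st.h z) (st.o w) with h3 | h3 | h3
      · exact Or.inr (Or.inl (mem_filter.2 ⟨hw, h3⟩))
      · exact Or.inl (mem_filter.2 ⟨hw, Or.inl h3.symm⟩)
      · rcases lt_or_ge (((nb z).filter (fun x => st.o x = st.o w)).card : ℝ) (D / M) with h4 | h4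
        · exact Or.inr (Or.inr (mem_filter.2 ⟨hw, h3, h4⟩))
        · exact Or.inl (mem_filter.2 ⟨hw, Or.inr ⟨h3, h4⟩⟩)
    simp only [mem_union, mem_inter]
    rcases tri u hz.1 with a | a | a <;> rcases tri v hz.2 with c | c | c <;> tauto
  have hcard : ((nb u ∩ nb v).card : ℝ) ≤ ((st.Main u ∩ st.Main v).card : ℝ) +
      (st.Main u ∩ st.Off v).card + (st.Off u ∩ st.Main v).card + (st.Off u ∩ st.Off v).card +
      Pu.card + Pv.card := by
    have h3 := card_le_card hcov
    have h4 : ((st.Main u ∩ st.Main v) ∪ (st.Main u ∩ st.Off v) ∪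
      (st.Off u ∩ st.Main v) ∪ (st.Off u ∩ st.Off v) ∪ Pu ∪ Pv).card ≤
      (st.Main u ∩ st.Main v).card + (st.Main u ∩ st.Off v).card +
      (st.Off u ∩ st.Main v).card + (st.Off u ∩ st.Off v).card + Pu.card + Pv.card := by
      refine (card_union_le _ _).trans (Nat.add_le_add_right ?_ _)
      refine (card_union_le _ _).trans (Nat.add_le_add_right ?_ _)
      refine (card_union_le _ _).trans (Nat.add_le_add_right ?_ _)
      refine (card_union_le _ _).trans (Nat.add_le_add_right ?_ _)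
      exact card_union_le _ _
    exact_mod_cast h3.trans h4
  by_contra hcon
  push Not at hcon
  obtain ⟨c1, c2, c3⟩ := hcon
  have e1 : om * D ≤ δ / 4 * D := mul_le_mul_of_nonneg_right hom hD0
  have e2 : η * D ≤ δ / 8 * D := mul_le_mul_of_nonneg_right hη hD0
  linarith

theorem slot_exists (st : Str nb D s m r ell M b L δ θ η) (hD : 0 < D) (hM : 0 < M)
    (hdeg : ∀ v, (nb v).card ≤ D) :
    ∃ slot : V → ℕ → Fin (M + 1), ∀ z u v, z ∈ st.Main u → z ∈ st.Main v →
      slot z (st.o u) = slot z (st.o v) → st.o u = st.o v := by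
  classical
  have hD' : (0 : ℝ) < D := by exact_mod_cast hD
  have hM' : (0 : ℝ) < M := by exact_mod_cast hM
  -- the rich levels
  have key : ∀ z : V, ∃ f : ℕ → Fin (M + 1), ∀ i j : ℕ,
      (i = st.h z ∨ (D : ℝ) / M ≤ (((nb z).filter (fun w => st.o w = i)).card : ℝ)) →
      (j = st.h z ∨ (D : ℝ) / M ≤ (((nb z).filter (fun w => st.o w = j)).card : ℝ)) →
      f i = f j → i = j := by
    intro z
    set T : Finset ℕ := ((nb z).image st.o).filter
      (fun i => (D : ℝ) / M ≤ (((nb z).filter (fun w => st.o w = i)).card : ℝ)) with hT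
    have hTc : T.card ≤ M := by
      have h1 : (T.card : ℝ) * (D / M) ≤ D := by
        calc (T.card : ℝ) * (D / M) = ∑ _i ∈ T, ((D : ℝ) / M) := by
              rw [sum_const, nsmul_eq_mul]
          _ ≤ ∑ i ∈ T, (((nb z).filter (fun w => st.o w = i)).card : ℝ) :=
              sum_le_sum fun i hi => (mem_filter.1 hi).2
          _ ≤ ∑ i ∈ (nb z).image st.o, (((nb z).filter (fun w => st.o w = i)).card : ℝ) :=
              sum_le_sum_of_subset_of_nonneg (filter_subset _ _) fun _ _ _ => Nat.cast_nonneg _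
          _ = ((nb z).card : ℝ) := by
              have h3 := card_eq_sum_card_image st.o (nb z)
              rw [h3]
              push_cast
              rfl
          _ ≤ D := by exact_mod_cast hdeg z
      have h2 : (T.card : ℝ) ≤ M := by
        have : (T.card : ℝ) * (D / M) ≤ M * (D / M) := by
          refine h1.trans (le_of_eq ?_)
          field_simp
        exact le_of_mul_le_mul_right this (by positivity)
      exact_mod_cast h2
    have hTc' : (insert (st.h z) T).card ≤ M + 1 :=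
      (card_insert_le _ _).trans (Nat.add_le_add_right hTc 1)
    obtain ⟨e⟩ : Nonempty ((insert (st.h z) T : Finset ℕ) ↪ Fin (M + 1)) := by
      rw [Function.Embedding.nonempty_iff_card_le]
      simpa using hTc'
    refine ⟨fun i => if hi : i ∈ insert (st.h z) T then e ⟨i, hi⟩ else 0, fun i j hi hj hij => ?_⟩
    have mem : ∀ i, (i = st.h z ∨
        (D : ℝ) / M ≤ (((nb z).filter (fun w => st.o w = i)).card : ℝ)) →
        i ∈ insert (st.h z) T := by
      intro i hi
      rcases hi with rfl | hi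
      · exact mem_insert_self _ _
      · refine mem_insert_of_mem (mem_filter.2 ⟨?_, hi⟩)
        have h3 : 0 < ((nb z).filter (fun w => st.o w = i)).card := by
          have : (0 : ℝ) < (((nb z).filter (fun w => st.o w = i)).card : ℝ) :=
            lt_of_lt_of_le (by positivity) hi
          exact_mod_cast this
        obtain ⟨w, hw⟩ := card_pos.1 h3
        exact mem_image.2 ⟨w, (mem_filter.1 hw).1, (mem_filter.1 hw).2⟩
    have hi' := mem i hi
    have hj' := mem j hj
    simp only [dif_pos hi', dif_pos hj'] at hij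
    exact congrArg Subtype.val (e.injective hij)
  choose slot hslot using key
  refine ⟨slot, fun z u v hu hv h => hslot z _ _ ?_ ?_ h⟩
  · rcases (mem_filter.1 hu).2 with h1 | h1
    · exact Or.inl h1
    · exact Or.inr h1.2
  · rcases (mem_filter.1 hv).2 with h1 | h1
    · exact Or.inl h1
    · exact Or.inr h1.2

theorem main_off_disj (st : Str nb D s m r ell M b L δ θ η) (v : V) :
    Disjoint (st.Main v) (st.Off v) := by
  rw [disjoint_left]
  intro z h1 h2
  have h3 := (mem_filter.1 h1).2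
  have h4 := (mem_filter.1 h2).2
  rcases h3 with h3 | h3
  · omega
  · omega

end GSum

end Pool.Agent.SQ
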