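import Pool.Agent.Lib.MP_026281_co.Prob

/-!
# MP_026281_co, P8: the random sets of one colour
-/

set_option autoImplicit false

namespace Pool.Agent.SQ

open Finset

namespace Roles

section Gen

variable {ι X : Type} [Fintype ι] [DecidableEq ι] [Fintype X] [Nonempty X]

theorem pr_eq_single (a : X) : pr (fun x : X => x = a) = 1 / (Fintype.card X : ℝ) := by
  classical
  unfold pr ex ind
  congr 1
  simp

theorem pr_ind_single (i : ι) (P : X → Prop) : pr (fun σ : ι → X => P (σ i)) = pr P := by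
  unfold pr
  exact ex_pi_single i (fun x => ind (P x))

theorem pr_ind_two {i j : ι} (hij : i ≠ j) (P Q : X → Prop) :
    pr (fun σ : ι → X => P (σ i) ∧ Q (σ j)) = pr P * pr Q := by
  classical
  have h := ex_pi_prod_on ({i, j} : Finset ι)
    (fun k x => if k = i then ind (P x) else ind (Q x))
  rw [Finset.prod_pair hij] at h
  simp only [if_true, if_neg hij.symm] at h
  rw [← show ex (fun x => ind (P x)) = pr P from rfl, ← show ex (fun x => ind (Q x)) = pr Q from rfl,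
    ← h]
  unfold pr
  refine ex_congr (fun σ => ?_)
  rw [Finset.prod_pair hij, ind_and]
  simp [if_neg hij.symm]

theorem pr_ind_three {i j k : ι} (hij : i ≠ j) (hik : i ≠ k) (hjk : j ≠ k) (P Q R : X → Prop) :
    pr (fun σ : ι → X => P (σ i) ∧ Q (σ j) ∧ R (σ k)) = pr P * (pr Q * pr R) := by
  classical
  have h := ex_pi_prod_on ({i, j, k} : Finset ι)
    (fun l x => if l = i then ind (P x) else if l = j then ind (Q x) else ind (R x))
  have hi : i ∉ ({j, k} : Finset ι) := by simp [hij, hik]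
  rw [Finset.prod_insert hi, Finset.prod_pair hjk] at h
  simp only [if_true, if_neg hij.symm, if_neg hik.symm, if_neg hjk.symm] at h
  rw [← show ex (fun x => ind (P x)) = pr P from rfl, ← show ex (fun x => ind (Q x)) = pr Q from rfl,
    ← show ex (fun x => ind (R x)) = pr R from rfl, ← h]
  unfold pr
  refine ex_congr (fun σ => ?_)
  rw [Finset.prod_insert hi, Finset.prod_pair hjk, ind_and, ind_and]
  simp [if_neg hij.symm, if_neg hik.symm, if_neg hjk.symm]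

theorem pr_forall_ne (A : Finset ι) (P : X → Prop) :
    pr (fun σ : ι → X => ∀ i ∈ A, P (σ i)) = pr P ^ A.card := by
  have h := ex_pi_prod_on A (fun _ x => ind (P x))
  rw [Finset.prod_const] at h
  rw [← show ex (fun x => ind (P x)) = pr P from rfl, ← h]
  unfold pr
  refine ex_congr (fun σ => ?_)
  rw [ind_forall]

/-- probability that nothing in `W` and something in `Z` is marked -/
theorem pr_coll {W Z : Finset ι} (hWZ : Disjoint W Z) (P : X → Prop) :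
    pr (fun σ : ι → X => (∀ i ∈ W, P (σ i)) ∧ ∃ i ∈ Z, ¬ P (σ i)) =
      pr P ^ W.card * (1 - pr P ^ Z.card) := by
  have h1 : pr (fun σ : ι → X => (∀ i ∈ W, P (σ i)) ∧ ∃ i ∈ Z, ¬ P (σ i)) =
      pr (fun σ : ι → X => ∀ i ∈ W, P (σ i)) - pr (fun σ : ι → X => ∀ i ∈ W ∪ Z, P (σ i)) := by
    unfold pr
    rw [← ex_sub]
    refine ex_congr (fun σ => ?_)
    by_cases hW : ∀ i ∈ W, P (σ i)
    · by_cases hZ : ∀ i ∈ Z, P (σ i)
      · have h2 : ∀ i ∈ W ∪ Z, P (σ i) := fun i hi =>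
          (mem_union.1 hi).elim (hW i) (hZ i)
        rw [ind_of hW, ind_of h2, ind_of_not, sub_self]
        rintro ⟨-, i, hi, h3⟩
        exact h3 (hZ i hi)
      · have h2 : ¬ ∀ i ∈ W ∪ Z, P (σ i) := fun h3 => hZ fun i hi => h3 i (mem_union_right _ hi)
        rw [ind_of hW, ind_of_not h2, ind_of, sub_zero]
        push Not at hZ
        exact ⟨hW, hZ⟩
    · have h2 : ¬ ∀ i ∈ W ∪ Z, P (σ i) := fun h3 => hW fun i hi => h3 i (mem_union_left _ hi)
      rw [ind_of_not hW, ind_of_not h2, ind_of_not (fun h3 => hW h3.1), sub_self]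
  rw [h1, pr_forall_ne, pr_forall_ne, card_union_of_disjoint hWZ, pow_add]
  ring

end Gen

section Num

theorem quarter_le (t : ℕ) (ht : 2 ≤ t) : (1 : ℝ) / 4 ≤ (1 - 1 / t) ^ t := by
  have ht0 : (0 : ℝ) < t := by exact_mod_cast (by omega : 0 < t)
  have ht2 : (2 : ℝ) ≤ t := by exact_mod_cast ht
  have h2t : 2 / (t : ℝ) ≤ 1 := by rw [div_le_one ht0]; exact ht2
  have h1 := Real.geom_mean_le_arith_mean2_weighted (w₁ := 1 - 2 / (t : ℝ)) (w₂ := 2 / (t : ℝ))
    (p₁ := 1) (p₂ := 1 / 2) (by linarith) (by positivity) zero_le_one (by norm_num) (by ring)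
  rw [Real.one_rpow, one_mul] at h1
  have h2 : (1 - 2 / (t : ℝ)) * 1 + 2 / (t : ℝ) * (1 / 2) = 1 - 1 / t := by
    field_simp; ring
  rw [h2] at h1
  have h3 : ((1 / 2 : ℝ) ^ (2 / (t : ℝ))) ^ t = 1 / 4 := by
    rw [← Real.rpow_natCast, ← Real.rpow_mul (by norm_num), div_mul_cancel₀ _ ht0.ne']
    norm_num
  rw [← h3]
  exact pow_le_pow_left₀ (by positivity) h1 t

theorem coll_bound {D w n : ℕ} (hD : 2 ≤ D) (hw : w ≤ 2 * D) {ζ0 : ℝ} (hζ0 : 0 < ζ0)
    (hζ1 : ζ0 ≤ 1) (hn : ζ0 * D ≤ n) :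
    ζ0 / 32 ≤ (1 - 1 / (D : ℝ)) ^ w * (1 - (1 - 1 / (D : ℝ)) ^ n) := by
  have hD0 : (0 : ℝ) < D := by exact_mod_cast (by omega : 0 < D)
  have hD1 : (1 : ℝ) ≤ D := by exact_mod_cast (by omega : 1 ≤ D)
  have hd0 : 0 ≤ 1 - 1 / (D : ℝ) := by
    have : 1 / (D : ℝ) ≤ 1 := by rw [div_le_one hD0]; exact hD1
    linarith
  have hd1 : 1 - 1 / (D : ℝ) ≤ 1 := by
    have : 0 ≤ 1 / (D : ℝ) := by positivity
    linarith
  have h1 : (1 : ℝ) / 16 ≤ (1 - 1 / (D : ℝ)) ^ w := by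
    have h2 : (1 : ℝ) / 16 ≤ (1 - 1 / (D : ℝ)) ^ (2 * D) := by
      rw [mul_comm, pow_mul]
      have h3 := pow_le_pow_left₀ (by norm_num) (quarter_le D hD) 2
      calc (1 : ℝ) / 16 = (1 / 4) ^ 2 := by norm_num
        _ ≤ _ := h3
    exact h2.trans (pow_le_pow_of_le_one hd0 hd1 hw)
  have h4 : (1 - 1 / (D : ℝ)) ^ n ≤ 1 - ζ0 / 2 := by
    have h5 : (1 - 1 / (D : ℝ)) ≤ Real.exp (-(1 / (D : ℝ))) := by
      have := Real.add_one_le_exp (-(1 / (D : ℝ)))
      linarith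
    have h6 : (1 - 1 / (D : ℝ)) ^ n ≤ Real.exp (-(1 / (D : ℝ))) ^ n := pow_le_pow_left₀ hd0 h5 n
    rw [← Real.exp_nat_mul] at h6
    have h7 : (n : ℝ) * (-(1 / (D : ℝ))) ≤ -ζ0 := by
      have : ζ0 ≤ n * (1 / (D : ℝ)) := by
        rw [mul_one_div, le_div_iff₀ hD0]; exact hn
      linarith
    refine h6.trans ((Real.exp_le_exp.2 h7).trans ?_)
    have h8 : 1 + ζ0 ≤ Real.exp ζ0 := by
      have := Real.add_one_le_exp ζ0
      linarith
    rw [Real.exp_neg, inv_eq_one_div, div_le_iff₀ (Real.exp_pos _)]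
    nlinarith
  have h9 : ζ0 / 2 ≤ 1 - (1 - 1 / (D : ℝ)) ^ n := by linarith
  calc ζ0 / 32 = 1 / 16 * (ζ0 / 2) := by ring
    _ ≤ _ := mul_le_mul h1 h9 (by positivity) (by positivity)

end Num

section Ro

variable {V : Type} [Fintype V] [LinearOrder V] {D t M1 r : ℕ} [NeZero D] [NeZero t] [NeZero M1]
  [NeZero r]

/-- rounds are independent -/
theorem pr_rounds (P : (V → RC D t M1 r) → Prop) :
    pr (fun ζ : V → Fin t → RC D t M1 r => ∀ j, P (fun z => ζ z j)) = pr P ^ t := by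
  have h1 := pr_equiv (Equiv.piComm (fun (_ : V) (_ : Fin t) => RC D t M1 r))
    (fun ζ : Fin t → V → RC D t M1 r => ∀ j, P (ζ j))
  have h2 : pr (fun ζ : Fin t → V → RC D t M1 r => ∀ j, P (ζ j)) = pr P ^ t := by
    have h3 := pr_forall_ne (ι := Fin t) univ P
    rw [Finset.card_univ, Fintype.card_fin] at h3
    rw [← h3]
    exact pr_congr (fun ζ => by simp)
  rw [← h2, ← h1]
  rfl

/-- one round: marks and (roles, coins) are independent -/
theorem pr_one (Q : (V → Fin D) → (V ⊕ V → Role t M1 r) → Prop) :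
    pr (fun ρ : V → RC D t M1 r => Q (fun z => (ρ z).1)
      (Sum.elim (fun z => (ρ z).2.1) (fun z => (ρ z).2.2))) =
    ex (fun μ : V → Fin D => pr (fun σ : V ⊕ V → Role t M1 r => Q μ σ)) := by
  let e1 : (V → RC D t M1 r) ≃ (V → Fin D) × (V → Role t M1 r × Role t M1 r) :=
    Equiv.arrowProdEquivProdArrow V (fun _ => Fin D) (fun _ => Role t M1 r × Role t M1 r)
  let e2 : (V → Role t M1 r × Role t M1 r) ≃ (V ⊕ V → Role t M1 r) :=
    (Equiv.arrowProdEquivProdArrow V (fun _ => Role t M1 r) (fun _ => Role t M1 r)).trans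
      (Equiv.sumArrowEquivProdArrow V V (Role t M1 r)).symm
  let e : (V → RC D t M1 r) ≃ (V → Fin D) × (V ⊕ V → Role t M1 r) :=
    e1.trans (Equiv.prodCongr (Equiv.refl _) e2)
  have h1 := pr_equiv e (fun p : (V → Fin D) × (V ⊕ V → Role t M1 r) => Q p.1 p.2)
  have h2 : pr (fun p : (V → Fin D) × (V ⊕ V → Role t M1 r) => Q p.1 p.2) =
      ex (fun μ : V → Fin D => pr (fun σ : V ⊕ V → Role t M1 r => Q μ σ)) := by
    unfold pr
    rw [ex_prod]
  rw [← h2, ← h1]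
  refine pr_congr (fun ρ => ?_)
  have h3 : (e ρ).1 = fun z => (ρ z).1 := rfl
  have h4 : (e ρ).2 = Sum.elim (fun z => (ρ z).2.1) (fun z => (ρ z).2.2) := by
    funext x
    rcases x with x | x <;> rfl
  rw [h3, h4]

/-- the source of the role which `v` looks at -/
def src (Mn : V → Finset V) (μ : V → Fin D) (v : V) : V ⊕ V :=
  if h : (mks μ (Mn v)).Nonempty then .inl ((mks μ (Mn v)).min' h) else .inr v

/-- the role which `v` wants to see -/
def tgt (Mn : V → Finset V) (targ : V → V → Fin M1 × Fin r) (μ : V → Fin D) (v : V) :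
    Role t M1 r :=
  if h : (mks μ (Mn v)).Nonempty then (0, targ v ((mks μ (Mn v)).min' h)) else (0, 0, 0)

/-- the test of the main centres, given the marks -/
def on (Mn : V → Finset V) (targ : V → V → Fin M1 × Fin r) (μ : V → Fin D)
    (σ : V ⊕ V → Role t M1 r) (v : V) : Prop := σ (src Mn μ v) = tgt Mn targ μ v

/-- the test of the off centres, given the marks -/
def of (Off : V → Finset V) (μ : V → Fin D) (σ : V ⊕ V → Role t M1 r) (v : V) : Prop :=
  ∀ h : (mks μ (Off v)).Nonempty, (σ (.inl ((mks μ (Off v)).min' h))).1 ≠ 0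

theorem passOn_iff (Mn : V → Finset V) (targ : V → V → Fin M1 × Fin r) (ρ : V → RC D t M1 r)
    (v : V) : passOn Mn targ ρ v ↔ on Mn targ (fun z => (ρ z).1)
      (Sum.elim (fun z => (ρ z).2.1) (fun z => (ρ z).2.2)) v := by
  unfold passOn on src tgt
  by_cases h : (mks (fun z => (ρ z).1) (Mn v)).Nonempty
  · simp only [dif_pos h, Sum.elim_inl]
    constructor
    · rintro (⟨_, h1⟩ | ⟨h1, -⟩)
      · exact h1
      · rw [h1] at h; exact absurd h not_nonempty_empty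
    · intro h1
      exact Or.inl ⟨h, h1⟩
  · simp only [dif_neg h, Sum.elim_inr]
    constructor
    · rintro (⟨h1, -⟩ | ⟨-, h1⟩)
      · exact absurd h1 h
      · exact h1
    · intro h1
      exact Or.inr ⟨not_nonempty_iff_eq_empty.1 h, h1⟩

theorem passOff_iff (Off : V → Finset V) (ρ : V → RC D t M1 r)
    (v : V) : passOff Off ρ v ↔ of Off (fun z => (ρ z).1)
      (Sum.elim (fun z => (ρ z).2.1) (fun z => (ρ z).2.2)) v := Iff.rfl

/-- the probability of a role -/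
theorem pr_role (a : Role t M1 r) :
    pr (fun x : Role t M1 r => x = a) = (1 : ℝ) / (t * M1 * r) := by
  rw [pr_eq_single]
  congr 1
  rw [Fintype.card_prod, Fintype.card_prod, Fintype.card_fin, Fintype.card_fin, Fintype.card_fin]
  push_cast
  ring

theorem pr_on (Mn : V → Finset V) (targ : V → V → Fin M1 × Fin r) (μ : V → Fin D) (v : V) :
    pr (fun σ : V ⊕ V → Role t M1 r => on Mn targ μ σ v) = (1 : ℝ) / (t * M1 * r) := by
  unfold on
  rw [pr_ind_single (src Mn μ v) (fun x => x = tgt Mn targ μ v), pr_role]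

theorem pi_nonneg : (0 : ℝ) ≤ (1 : ℝ) / (t * M1 * r) := by positivity

/-- same source: the tests contradict each other -/
theorem src_ne (Mn : V → Finset V) (targ : V → V → Fin M1 × Fin r) (μ : V → Fin D) {u v : V}
    (huv : u ≠ v) (hc : ∀ z, z ∈ Mn u → z ∈ Mn v → targ u z ≠ targ v z)
    (h : src Mn μ u = src Mn μ v) (σ : V ⊕ V → Role t M1 r) (hu : on Mn targ μ σ u)
    (hv : on Mn targ μ σ v) : False := by
  unfold on at hu hv
  rw [h, hv] at hu
  unfold src at h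
  unfold tgt at hu
  by_cases h1 : (mks μ (Mn u)).Nonempty
  · by_cases h2 : (mks μ (Mn v)).Nonempty
    · rw [dif_pos h1, dif_pos h2] at h
      rw [dif_pos h1, dif_pos h2] at hu
      have h3 := Sum.inl.inj h
      have h4 := (Prod.ext_iff.1 hu).2
      simp only at h4
      rw [h3] at h4
      have h5 := min'_mem _ h2
      have h6 := min'_mem _ h1
      rw [h3] at h6
      unfold mks at h5 h6
      exact hc _ (mem_filter.1 h6).1 (mem_filter.1 h5).1 h4.symm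
    · rw [dif_pos h1, dif_neg h2] at h
      exact absurd h (by simp)
  · by_cases h2 : (mks μ (Mn v)).Nonempty
    · rw [dif_neg h1, dif_pos h2] at h
      exact absurd h (by simp)
    · rw [dif_neg h1, dif_neg h2] at h
      exact huv (Sum.inr.inj h)

theorem pr_false {Ω : Type} [Fintype Ω] {P : Ω → Prop} (h : ∀ ω, ¬ P ω) : pr P = 0 := by
  unfold pr ex
  rw [sum_eq_zero (fun ω _ => ind_of_not (h ω)), zero_div]

theorem pr_on2 (Mn : V → Finset V) (targ : V → V → Fin M1 × Fin r) (μ : V → Fin D) {u v : V}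
    (huv : u ≠ v) (hc : ∀ z, z ∈ Mn u → z ∈ Mn v → targ u z ≠ targ v z) :
    pr (fun σ : V ⊕ V → Role t M1 r => on Mn targ μ σ u ∧ on Mn targ μ σ v) ≤
      ((1 : ℝ) / (t * M1 * r)) ^ 2 := by
  by_cases h : src Mn μ u = src Mn μ v
  · rw [pr_false (fun σ h1 => src_ne Mn targ μ huv hc h σ h1.1 h1.2)]
    positivity
  · unfold on
    rw [pr_ind_two h (fun x => x = tgt Mn targ μ u) (fun x => x = tgt Mn targ μ v), pr_role,
      pr_role, sq]

theorem pr_on3 (Mn : V → Finset V) (targ : V → V → Fin M1 × Fin r) (μ : V → Fin D) {u v w : V}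
    (huv : u ≠ v) (huw : u ≠ w) (hvw : v ≠ w)
    (hc1 : ∀ z, z ∈ Mn u → z ∈ Mn v → targ u z ≠ targ v z)
    (hc2 : ∀ z, z ∈ Mn u → z ∈ Mn w → targ u z ≠ targ w z)
    (hc3 : ∀ z, z ∈ Mn v → z ∈ Mn w → targ v z ≠ targ w z) :
    pr (fun σ : V ⊕ V → Role t M1 r => on Mn targ μ σ u ∧ on Mn targ μ σ v ∧
      on Mn targ μ σ w) ≤ ((1 : ℝ) / (t * M1 * r)) ^ 3 := by
  by_cases h1 : src Mn μ u = src Mn μ v
  · rw [pr_false (fun σ h => src_ne Mn targ μ huv hc1 h1 σ h.1 h.2.1)]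
    positivity
  by_cases h2 : src Mn μ u = src Mn μ w
  · rw [pr_false (fun σ h => src_ne Mn targ μ huw hc2 h2 σ h.1 h.2.2)]
    positivity
  by_cases h3 : src Mn μ v = src Mn μ w
  · rw [pr_false (fun σ h => src_ne Mn targ μ hvw hc3 h3 σ h.2.1 h.2.2)]
    positivity
  unfold on
  rw [pr_ind_three h1 h2 h3 (fun x => x = tgt Mn targ μ u) (fun x => x = tgt Mn targ μ v)
    (fun x => x = tgt Mn targ μ w), pr_role, pr_role, pr_role]
  apply le_of_eq
  ring

theorem pr_fst_ne : pr (fun x : Role t M1 r => x.1 ≠ 0) = 1 - 1 / (t : ℝ) := by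
  have h1 : pr (fun x : Role t M1 r => x.1 = 0) = 1 / (t : ℝ) := by
    have h2 : pr (fun x : Role t M1 r => x.1 = 0) = pr (fun a : Fin t => a = 0) := by
      unfold pr
      rw [ex_prod]
      exact ex_congr (fun a => ex_const (Ω := Fin M1 × Fin r) (ind (a = 0)))
    rw [h2, pr_eq_single, Fintype.card_fin]
  rw [← h1]
  exact pr_not _

theorem pr_on_of (Mn Off : V → Finset V) (targ : V → V → Fin M1 × Fin r) (μ : V → Fin D) (v : V)
    (hdisj : Disjoint (Mn v) (Off v)) :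
    (1 : ℝ) / (t * M1 * r) * (1 - 1 / (t : ℝ)) ≤
      pr (fun σ : V ⊕ V → Role t M1 r => on Mn targ μ σ v ∧ of Off μ σ v) := by
  by_cases h : (mks μ (Off v)).Nonempty
  · have h1 : ∀ σ : V ⊕ V → Role t M1 r, (on Mn targ μ σ v ∧ of Off μ σ v) ↔
        ((fun x => x = tgt Mn targ μ v) (σ (src Mn μ v)) ∧
          (fun x : Role t M1 r => x.1 ≠ 0) (σ (.inl ((mks μ (Off v)).min' h)))) := by
      intro σ
      unfold on of
      exact ⟨fun h2 => ⟨h2.1, h2.2 h⟩, fun h2 => ⟨h2.1, fun _ => h2.2⟩⟩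
    have h2 : src Mn μ v ≠ .inl ((mks μ (Off v)).min' h) := by
      unfold src
      by_cases h3 : (mks μ (Mn v)).Nonempty
      · rw [dif_pos h3]
        intro h4
        have h5 := Sum.inl.inj h4
        have h6 := min'_mem _ h3
        have h7 := min'_mem _ h
        rw [h5] at h6
        unfold mks at h6 h7
        exact disjoint_left.1 hdisj (mem_filter.1 h6).1 (mem_filter.1 h7).1
      · rw [dif_neg h3]
        simp
    rw [pr_congr h1, pr_ind_two h2 (fun x => x = tgt Mn targ μ v)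
      (fun x : Role t M1 r => x.1 ≠ 0), pr_role, pr_fst_ne]
  · have h1 : ∀ σ : V ⊕ V → Role t M1 r, (on Mn targ μ σ v ∧ of Off μ σ v) ↔
        on Mn targ μ σ v := by
      intro σ
      unfold of
      exact ⟨fun h2 => h2.1, fun h2 => ⟨h2, fun h3 => absurd h3 h⟩⟩
    rw [pr_congr h1, pr_on]
    have h2 : (0 : ℝ) ≤ 1 / (t : ℝ) := by positivity
    have h3 : (0 : ℝ) ≤ (1 : ℝ) / (t * M1 * r) := by positivity
    nlinarith

theorem mem_Sset (Mn Off : V → Finset V) (targ : V → V → Fin M1 × Fin r) (S0 : Finset V)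
    (ζ : V → Fin t → RC D t M1 r) (v : V) : v ∈ Sset Mn Off targ S0 ζ ↔
      v ∈ S0 ∧ ∀ j, passOn Mn targ (fun z => ζ z j) v ∧ passOff Off (fun z => ζ z j) v := by
  unfold Sset
  classical
  rw [mem_filter]

/-- the marks put the minima of `A` and `B` at the same place -/
theorem min_eq {μ : V → Fin D} {A B : Finset V}
    (h1 : ∀ z ∈ (A ∪ B) \ (A ∩ B), μ z ≠ 0) : mks μ A = mks μ B := by
  ext z
  unfold mks
  rw [mem_filter, mem_filter]
  constructor
  · rintro ⟨h2, h3⟩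
    refine ⟨?_, h3⟩
    by_contra h4
    exact h1 z (mem_sdiff.2 ⟨mem_union_left _ h2, fun h5 => h4 (mem_inter.1 h5).2⟩) h3
  · rintro ⟨h2, h3⟩
    refine ⟨?_, h3⟩
    by_contra h4
    exact h1 z (mem_sdiff.2 ⟨mem_union_right _ h2, fun h5 => h4 (mem_inter.1 h5).1⟩) h3

/-- the collision event -/
def coll (A B : Finset V) (μ : V → Fin D) : Prop :=
  (∀ z ∈ (A ∪ B) \ (A ∩ B), μ z ≠ 0) ∧ ∃ z ∈ A ∩ B, ¬ μ z ≠ 0

theorem coll_ne {A B : Finset V} {μ : V → Fin D} (h : coll A B μ) : (mks μ A).Nonempty := by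
  obtain ⟨-, z, hz, h1⟩ := h
  rw [not_not] at h1
  exact ⟨z, mem_filter.2 ⟨(mem_inter.1 hz).1, h1⟩⟩

theorem pr_coll_ge (hD : 2 ≤ D) {A B : Finset V} (hA : A.card ≤ D) (hB : B.card ≤ D)
    {ζ0 : ℝ} (hζ0 : 0 < ζ0) (hζ1 : ζ0 ≤ 1) (hn : ζ0 * D ≤ ((A ∩ B).card : ℝ)) :
    pr (fun μ : V → Fin D => ¬ coll A B μ) ≤ 1 - ζ0 / 32 := by
  have h1 : pr (coll A B : (V → Fin D) → Prop) =
      pr (fun x : Fin D => x ≠ 0) ^ ((A ∪ B) \ (A ∩ B)).card *
        (1 - pr (fun x : Fin D => x ≠ 0) ^ (A ∩ B).card) :=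
    pr_coll (ι := V) (X := Fin D) (sdiff_disjoint) (fun x => x ≠ 0)
  have h2 : pr (fun x : Fin D => x ≠ 0) = 1 - 1 / (D : ℝ) := by
    rw [← show pr (fun x : Fin D => x = 0) = 1 / (D : ℝ) by
      rw [pr_eq_single, Fintype.card_fin]]
    exact pr_not _
  have h3 : ((A ∪ B) \ (A ∩ B)).card ≤ 2 * D := by
    have h4 := card_le_card (sdiff_subset (s := A ∪ B) (t := A ∩ B))
    have h5 := card_union_le A B
    omega
  have h6 := coll_bound hD h3 hζ0 hζ1 hn
  rw [pr_not, h1, h2]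
  linarith

/-- one round, with a collision event -/
theorem pr_ctl (Mn Off : V → Finset V) (targ : V → V → Fin M1 × Fin r)
    (u v w : V) (huv : u ≠ v) (huw : u ≠ w) (hvw : v ≠ w)
    (hc1 : ∀ z, z ∈ Mn u → z ∈ Mn v → targ u z ≠ targ v z)
    (hc2 : ∀ z, z ∈ Mn u → z ∈ Mn w → targ u z ≠ targ w z)
    (hc3 : ∀ z, z ∈ Mn v → z ∈ Mn w → targ v z ≠ targ w z)
    (K : (V → Fin D) → Prop) {κ : ℝ} (hK : pr (fun μ => ¬ K μ) ≤ κ)
    (hKn : ∀ μ (σ : V ⊕ V → Role t M1 r), K μ → on Mn targ μ σ u → on Mn targ μ σ v →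
      of Off μ σ u → of Off μ σ v → False) :
    pr (fun ρ : V → RC D t M1 r => (passOn Mn targ ρ u ∧ passOff Off ρ u) ∧
      (passOn Mn targ ρ v ∧ passOff Off ρ v) ∧ (passOn Mn targ ρ w ∧ passOff Off ρ w)) ≤
      κ * ((1 : ℝ) / (t * M1 * r)) ^ 3 := by
  have h1 := pr_one (D := D) (fun (μ : V → Fin D) (σ : V ⊕ V → Role t M1 r) =>
    (on Mn targ μ σ u ∧ of Off μ σ u) ∧ (on Mn targ μ σ v ∧ of Off μ σ v) ∧
      (on Mn targ μ σ w ∧ of Off μ σ w))
  have h2 : pr (fun ρ : V → RC D t M1 r => (passOn Mn targ ρ u ∧ passOff Off ρ u) ∧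
      (passOn Mn targ ρ v ∧ passOff Off ρ v) ∧ (passOn Mn targ ρ w ∧ passOff Off ρ w)) =
      ex (fun μ : V → Fin D => pr (fun σ : V ⊕ V → Role t M1 r =>
        (on Mn targ μ σ u ∧ of Off μ σ u) ∧ (on Mn targ μ σ v ∧ of Off μ σ v) ∧
        (on Mn targ μ σ w ∧ of Off μ σ w))) := by
    rw [← h1]
    exact pr_congr (fun ρ => by
      rw [passOn_iff, passOn_iff, passOn_iff, passOff_iff, passOff_iff, passOff_iff])
  rw [h2]
  calc ex (fun μ : V → Fin D => pr (fun σ : V ⊕ V → Role t M1 r =>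
        (on Mn targ μ σ u ∧ of Off μ σ u) ∧ (on Mn targ μ σ v ∧ of Off μ σ v) ∧
        (on Mn targ μ σ w ∧ of Off μ σ w)))
      ≤ ex (fun μ : V → Fin D => ind (¬ K μ) * ((1 : ℝ) / (t * M1 * r)) ^ 3) := by
        refine ex_mono (fun μ => ?_)
        by_cases h : K μ
        · rw [ind_of_not (not_not.2 h), zero_mul]
          exact (pr_false (fun σ h3 => hKn μ σ h h3.1.1 h3.2.1.1 h3.1.2 h3.2.1.2)).le
        · rw [ind_of h, one_mul]
          refine le_trans (pr_mono ?_) (pr_on3 Mn targ μ huv huw hvw hc1 hc2 hc3)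
          exact fun σ h3 => ⟨h3.1.1, h3.2.1.1, h3.2.2.1⟩
    _ = pr (fun μ => ¬ K μ) * ((1 : ℝ) / (t * M1 * r)) ^ 3 := by
        rw [ex_mul_right]; rfl
    _ ≤ _ := mul_le_mul_of_nonneg_right hK (by positivity)

theorem nc_of {A B : Finset V} {μ : V → Fin D} (h : coll A B μ) :
    mks μ A = mks μ B := min_eq h.1

theorem coll_main {Mn : V → Finset V} {targ : V → V → Fin M1 × Fin r} {μ : V → Fin D}
    {u v : V} (huv : u ≠ v) (hc1 : ∀ z, z ∈ Mn u → z ∈ Mn v → targ u z ≠ targ v z)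
    (h : coll (Mn u) (Mn v) μ) (σ : V ⊕ V → Role t M1 r) (hu : on Mn targ μ σ u)
    (hv : on Mn targ μ σ v) : False := by
  refine src_ne Mn targ μ huv hc1 ?_ σ hu hv
  unfold src
  have h1 := nc_of h
  have h2 := coll_ne h
  have h3 : (mks μ (Mn v)).Nonempty := h1 ▸ h2
  rw [dif_pos h2, dif_pos h3]
  congr 1
  simp only [h1]

theorem coll_off {Mn Off : V → Finset V} {targ : V → V → Fin M1 × Fin r} {μ : V → Fin D}
    {u v : V} (h : coll (Mn u) (Off v) μ) (σ : V ⊕ V → Role t M1 r) (hu : on Mn targ μ σ u)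
    (hv : of Off μ σ v) : False := by
  have h1 := nc_of h
  have h2 := coll_ne h
  have h3 : (mks μ (Off v)).Nonempty := h1 ▸ h2
  unfold on src tgt at hu
  rw [dif_pos h2, dif_pos h2] at hu
  have h4 := hv h3
  have h5 : (mks μ (Off v)).min' h3 = (mks μ (Mn u)).min' h2 := by
    simp only [h1]
  rw [h5, hu] at h4
  exact h4 rfl

end Ro

end Roles

section Ro

variable {V : Type} [Fintype V] [LinearOrder V] {D t M1 r : ℕ} [NeZero D] [NeZero t] [NeZero M1]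
  [NeZero r]

open Roles

/-- R1 -/
theorem role_single (ht : 2 ≤ t) (Mn Off : V → Finset V) (hdisj : ∀ v, Disjoint (Mn v) (Off v))
    (targ : V → V → Fin M1 × Fin r) (S0 : Finset V) (v : V) (hv : v ∈ S0) :
    1 / 4 * ((1 : ℝ) / (t * M1 * r)) ^ t ≤
      pr (fun ζ : V → Fin t → RC D t M1 r => v ∈ Sset Mn Off targ S0 ζ) := by
  have h1 : pr (fun ζ : V → Fin t → RC D t M1 r => v ∈ Sset Mn Off targ S0 ζ) =
      pr (fun ρ : V → RC D t M1 r => passOn Mn targ ρ v ∧ passOff Off ρ v) ^ t := by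
    rw [← pr_rounds (fun ρ : V → RC D t M1 r => passOn Mn targ ρ v ∧ passOff Off ρ v)]
    exact pr_congr (fun ζ => by rw [mem_Sset]; simp only [hv, true_and])
  have h2 : (1 : ℝ) / (t * M1 * r) * (1 - 1 / (t : ℝ)) ≤
      pr (fun ρ : V → RC D t M1 r => passOn Mn targ ρ v ∧ passOff Off ρ v) := by
    have h3 := pr_one (D := D) (fun (μ : V → Fin D) (σ : V ⊕ V → Role t M1 r) =>
      on Mn targ μ σ v ∧ of Off μ σ v)
    rw [show pr (fun ρ : V → RC D t M1 r => passOn Mn targ ρ v ∧ passOff Off ρ v) =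
      ex (fun μ : V → Fin D => pr (fun σ : V ⊕ V → Role t M1 r =>
        on Mn targ μ σ v ∧ of Off μ σ v)) by
      rw [← h3]
      exact pr_congr (fun ρ => by rw [passOn_iff, passOff_iff])]
    exact le_ex_of_le (fun μ => pr_on_of Mn Off targ μ v (hdisj v))
  have h4 : (0 : ℝ) ≤ 1 - 1 / (t : ℝ) := by
    have ht0 : (0 : ℝ) < t := by exact_mod_cast (by omega : 0 < t)
    have : 1 / (t : ℝ) ≤ 1 := by
      rw [div_le_one ht0]; exact_mod_cast (by omega : 1 ≤ t)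
    linarith
  rw [h1]
  refine le_trans ?_ (pow_le_pow_left₀ (mul_nonneg pi_nonneg h4) h2 t)
  rw [mul_pow, mul_comm (1 / 4 : ℝ)]
  exact mul_le_mul_of_nonneg_left (quarter_le t ht) (pow_nonneg pi_nonneg t)

/-- R2 -/
theorem role_pair (Mn Off : V → Finset V) (targ : V → V → Fin M1 × Fin r) (S0 : Finset V)
    (u v : V) (huv : u ≠ v) (hc : ∀ z, z ∈ Mn u → z ∈ Mn v → targ u z ≠ targ v z) :
    pr (fun ζ : V → Fin t → RC D t M1 r => u ∈ Sset Mn Off targ S0 ζ ∧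
      v ∈ Sset Mn Off targ S0 ζ) ≤ (((1 : ℝ) / (t * M1 * r)) ^ t) ^ 2 := by
  have h1 : pr (fun ζ : V → Fin t → RC D t M1 r => u ∈ Sset Mn Off targ S0 ζ ∧
      v ∈ Sset Mn Off targ S0 ζ) ≤
      pr (fun ρ : V → RC D t M1 r => passOn Mn targ ρ u ∧ passOn Mn targ ρ v) ^ t := by
    rw [← pr_rounds (fun ρ : V → RC D t M1 r => passOn Mn targ ρ u ∧ passOn Mn targ ρ v)]
    refine pr_mono (fun ζ h => ?_)
    rw [mem_Sset, mem_Sset] at h
    exact fun j => ⟨(h.1.2 j).1, (h.2.2 j).1⟩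
  have h2 : pr (fun ρ : V → RC D t M1 r => passOn Mn targ ρ u ∧ passOn Mn targ ρ v) ≤
      ((1 : ℝ) / (t * M1 * r)) ^ 2 := by
    have h3 := pr_one (D := D) (fun (μ : V → Fin D) (σ : V ⊕ V → Role t M1 r) =>
      on Mn targ μ σ u ∧ on Mn targ μ σ v)
    rw [show pr (fun ρ : V → RC D t M1 r => passOn Mn targ ρ u ∧ passOn Mn targ ρ v) =
      ex (fun μ : V → Fin D => pr (fun σ : V ⊕ V → Role t M1 r =>
        on Mn targ μ σ u ∧ on Mn targ μ σ v)) by
      rw [← h3]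
      exact pr_congr (fun ρ => by rw [passOn_iff, passOn_iff])]
    exact ex_le_of_le (fun μ => pr_on2 Mn targ μ huv hc)
  refine h1.trans ((pow_le_pow_left₀ (pr_nonneg _) h2 t).trans ?_)
  rw [← pow_mul, ← pow_mul, mul_comm 2 t]

/-- R3 -/
theorem role_triple (Mn Off : V → Finset V) (targ : V → V → Fin M1 × Fin r) (S0 : Finset V)
    (u v w : V) (huv : u ≠ v) (huw : u ≠ w) (hvw : v ≠ w)
    (hc1 : ∀ z, z ∈ Mn u → z ∈ Mn v → targ u z ≠ targ v z)
    (hc2 : ∀ z, z ∈ Mn u → z ∈ Mn w → targ u z ≠ targ w z)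
    (hc3 : ∀ z, z ∈ Mn v → z ∈ Mn w → targ v z ≠ targ w z) :
    pr (fun ζ : V → Fin t → RC D t M1 r => u ∈ Sset Mn Off targ S0 ζ ∧
      v ∈ Sset Mn Off targ S0 ζ ∧ w ∈ Sset Mn Off targ S0 ζ) ≤
      (((1 : ℝ) / (t * M1 * r)) ^ t) ^ 3 := by
  have h1 : pr (fun ζ : V → Fin t → RC D t M1 r => u ∈ Sset Mn Off targ S0 ζ ∧
      v ∈ Sset Mn Off targ S0 ζ ∧ w ∈ Sset Mn Off targ S0 ζ) ≤
      pr (fun ρ : V → RC D t M1 r => (passOn Mn targ ρ u ∧ passOff Off ρ u) ∧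
      (passOn Mn targ ρ v ∧ passOff Off ρ v) ∧ (passOn Mn targ ρ w ∧ passOff Off ρ w)) ^ t := by
    rw [← pr_rounds]
    refine pr_mono (fun ζ h => ?_)
    rw [mem_Sset, mem_Sset, mem_Sset] at h
    exact fun j => ⟨h.1.2 j, h.2.1.2 j, h.2.2.2 j⟩
  have h2 := pr_ctl (D := D) (t := t) Mn Off targ u v w huv huw hvw hc1 hc2 hc3
    (fun _ => False) (κ := 1) (pr_le_one _) (fun _ _ h => h.elim)
  rw [one_mul] at h2
  refine h1.trans ((pow_le_pow_left₀ (pr_nonneg _) h2 t).trans ?_)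
  rw [← pow_mul, ← pow_mul, mul_comm 3 t]

/-- R3' -/
theorem role_triple_ctl (hD : 2 ≤ D) (Mn Off : V → Finset V) (targ : V → V → Fin M1 × Fin r)
    (S0 : Finset V) (u v w : V) (huv : u ≠ v) (huw : u ≠ w) (hvw : v ≠ w)
    (hc1 : ∀ z, z ∈ Mn u → z ∈ Mn v → targ u z ≠ targ v z)
    (hc2 : ∀ z, z ∈ Mn u → z ∈ Mn w → targ u z ≠ targ w z)
    (hc3 : ∀ z, z ∈ Mn v → z ∈ Mn w → targ v z ≠ targ w z)
    (hMn : ∀ x, (Mn x).card ≤ D) (hOff : ∀ x, (Off x).card ≤ D)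
    {ζ0 : ℝ} (hζ0 : 0 < ζ0) (hζ1 : ζ0 ≤ 1)
    (hdense : ζ0 * D ≤ ((Mn u ∩ Mn v).card : ℝ) ∨ ζ0 * D ≤ ((Mn u ∩ Off v).card : ℝ) ∨
      ζ0 * D ≤ ((Off u ∩ Mn v).card : ℝ)) :
    pr (fun ζ : V → Fin t → RC D t M1 r => u ∈ Sset Mn Off targ S0 ζ ∧
      v ∈ Sset Mn Off targ S0 ζ ∧ w ∈ Sset Mn Off targ S0 ζ) ≤
      (1 - ζ0 / 32) ^ t * (((1 : ℝ) / (t * M1 * r)) ^ t) ^ 3 := by
  have h1 : pr (fun ζ : V → Fin t → RC D t M1 r => u ∈ Sset Mn Off targ S0 ζ ∧
      v ∈ Sset Mn Off targ S0 ζ ∧ w ∈ Sset Mn Off targ S0 ζ) ≤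
      pr (fun ρ : V → RC D t M1 r => (passOn Mn targ ρ u ∧ passOff Off ρ u) ∧
      (passOn Mn targ ρ v ∧ passOff Off ρ v) ∧ (passOn Mn targ ρ w ∧ passOff Off ρ w)) ^ t := by
    rw [← pr_rounds]
    refine pr_mono (fun ζ h => ?_)
    rw [mem_Sset, mem_Sset, mem_Sset] at h
    exact fun j => ⟨h.1.2 j, h.2.1.2 j, h.2.2.2 j⟩
  have h2 : pr (fun ρ : V → RC D t M1 r => (passOn Mn targ ρ u ∧ passOff Off ρ u) ∧
      (passOn Mn targ ρ v ∧ passOff Off ρ v) ∧ (passOn Mn targ ρ w ∧ passOff Off ρ w)) ≤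
      (1 - ζ0 / 32) * ((1 : ℝ) / (t * M1 * r)) ^ 3 := by
    rcases hdense with h | h | h
    · exact pr_ctl (D := D) (t := t) Mn Off targ u v w huv huw hvw hc1 hc2 hc3
        (coll (Mn u) (Mn v)) (pr_coll_ge hD (hMn u) (hMn v) hζ0 hζ1 h)
        (fun μ σ hK hu hv _ _ => coll_main huv hc1 hK σ hu hv)
    · exact pr_ctl (D := D) (t := t) Mn Off targ u v w huv huw hvw hc1 hc2 hc3
        (coll (Mn u) (Off v)) (pr_coll_ge hD (hMn u) (hOff v) hζ0 hζ1 h)
        (fun μ σ hK hu _ _ hv => coll_off hK σ hu hv)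
    · rw [inter_comm] at h
      exact pr_ctl (D := D) (t := t) Mn Off targ u v w huv huw hvw hc1 hc2 hc3
        (coll (Mn v) (Off u)) (pr_coll_ge hD (hMn v) (hOff u) hζ0 hζ1 h)
        (fun μ σ hK _ hv hu _ => coll_off hK σ hv hu)
  refine h1.trans ((pow_le_pow_left₀ (pr_nonneg _) h2 t).trans ?_)
  rw [mul_pow, ← pow_mul, ← pow_mul, mul_comm 3 t]

theorem Sset_sub (Mn Off : V → Finset V) (targ : V → V → Fin M1 × Fin r) (S0 : Finset V)
    (ζ : V → Fin t → RC D t M1 r) (v : V) (h : v ∈ Sset Mn Off targ S0 ζ) : v ∈ S0 :=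
  ((mem_Sset Mn Off targ S0 ζ v).1 h).1

theorem Sset_loc (Mn Off : V → Finset V) (targ : V → V → Fin M1 × Fin r) (S0 : Finset V)
    (ζ ζ' : V → Fin t → RC D t M1 r) (v : V)
    (h : ∀ w, w = v ∨ w ∈ Mn v ∨ w ∈ Off v → ζ w = ζ' w) (hv : v ∈ Sset Mn Off targ S0 ζ) :
    v ∈ Sset Mn Off targ S0 ζ' := by
  rw [mem_Sset] at hv ⊢
  refine ⟨hv.1, fun j => ?_⟩
  have hm : ∀ A : Finset V, (∀ z ∈ A, ζ z = ζ' z) →
      mks (fun z => (ζ z j).1) A = mks (fun z => (ζ' z j).1) A := by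
    intro A hA
    unfold mks
    refine filter_congr (fun z hz => ?_)
    simp only [hA z hz]
  have h1 := hm (Mn v) (fun z hz => h z (Or.inr (Or.inl hz)))
  have h2 := hm (Off v) (fun z hz => h z (Or.inr (Or.inr hz)))
  obtain ⟨p1, p2⟩ := hv.2 j
  constructor
  · unfold passOn at p1 ⊢
    simp only at p1 ⊢
    rw [← h1]
    rcases p1 with ⟨hn, p1⟩ | p1
    · left
      refine ⟨hn, ?_⟩
      have h3 := min'_mem _ hn
      rw [← h _ (Or.inr (Or.inl (mem_filter.1 h3).1))]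
      exact p1
    · right
      rw [← h v (Or.inl rfl)]
      exact p1
  · unfold passOff at p2 ⊢
    simp only at p2 ⊢
    rw [← h2]
    intro hn
    have h3 := min'_mem _ hn
    rw [← h _ (Or.inr (Or.inr (mem_filter.1 h3).1))]
    exact p2 hn

end Ro

end Pool.Agent.SQ
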