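import Pool.Agent.Lib.MP_026281_co.Prob
import Pool.Agent.Lib.MP_026281_co.Roles
import Pool.Agent.Lib.MP_026281_co.GSum

/-!
# MP_026281_co: from the level structure to the interface of part B
-/

set_option autoImplicit false
set_option linter.unusedSectionVars false

namespace Pool.Agent.SQ

open Finset

variable {V C : Type} [Fintype V] [LinearOrder V] [Fintype C] [DecidableEq C]
  {nb : V → Finset V} {D s m r ell M t : ℕ} {b : V → Fin r} {L : V → Finset C} {δ θ η : ℝ}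

private theorem sum_ind_eq (A B : Finset C) :
    ∑ c ∈ A, ind (c ∈ B) = ((A ∩ B).card : ℝ) := by
  have h : ∀ c ∈ A, ind (c ∈ B) = if c ∈ B then (1 : ℝ) else 0 := by
    intro c _
    by_cases hc : c ∈ B
    · rw [ind_of hc, if_pos hc]
    · rw [ind_of_not hc, if_neg hc]
  rw [Finset.sum_congr rfl h, Finset.sum_boole, Finset.filter_mem_eq_inter]

theorem Ls_sub (st : Str nb D s m r ell M b L δ θ η) (v : V) : st.Ls v ⊆ st.L' v :=
  Finset.filter_subset _ _

theorem iface_of_str [NeZero D] [NeZero t] [NeZero r] (st : Str nb D s m r ell M b L δ θ η)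
    (P : NP) {om K κ3 : ℝ} (hD2 : 2 ≤ D) (ht2 : 2 ≤ t) (hm : 0 < m) (hM : 0 < M) (hell : 0 < ell)
    (hs : 0 < s)
    (hsl : (s : ℝ) ≤ 8 * m * ell) (hsymm : ∀ u v, v ∈ nb u → u ∈ nb v) (hirr : ∀ v, v ∉ nb v)
    (hdeg : ∀ v, (nb v).card ≤ D) (hδ : 0 < δ) (hδ1 : δ ≤ 1) (hθ : 0 ≤ θ) (hom : 0 < om)
    (hom4 : om ≤ δ / 4) (hη8 : η ≤ δ / 8)
    (hp0 : P.p0 = 1 / (ell * ((1 : ℝ) / (t * (M + 1 : ℕ) * r)) ^ t))
    (hK : 256 * ((D : ℝ) / s) ≤ K)
    (hκ : 24576 * ((1 - δ / 192) ^ t + (δ + θ / om)) * ((D : ℝ) / s) ^ 2 ≤ κ3) :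
    ∃ Sg : C → (V → Fin t → RC D t (M + 1) r) → Finset V,
      IFace nb D st.Ls Sg P K κ3 (4 * s / m ^ 2) (128 * (D : ℝ) / m) ell := by
  classical
  obtain ⟨slot, hslot⟩ := slot_exists st (by omega) hM hdeg
  set targ : V → V → Fin (M + 1) × Fin r := fun v z => (slot z (st.o v), b v) with htarg
  set S0 : C → Finset V := fun c => univ.filter (fun v => c ∈ st.Ls v) with hS0
  have hMsub : ∀ v, st.Main v ⊆ nb v := fun v => Finset.filter_subset _ _
  have hOsub : ∀ v, st.Off v ⊆ nb v := fun v => Finset.filter_subset _ _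
  have hMc : ∀ v, (st.Main v).card ≤ D := fun v => (Finset.card_le_card (hMsub v)).trans (hdeg v)
  have hOc : ∀ v, (st.Off v).card ≤ D := fun v => (Finset.card_le_card (hOsub v)).trans (hdeg v)
  set Pi : ℝ := ((1 : ℝ) / (t * (M + 1 : ℕ) * r)) ^ t with hPi
  have ht0 : (0 : ℝ) < t := by exact_mod_cast (by omega : 0 < t)
  have hr0 : (0 : ℝ) < r := by exact_mod_cast Nat.pos_of_ne_zero (NeZero.ne r)
  have hPi0 : 0 < Pi := by positivity
  have hell0 : (0 : ℝ) < ell := by exact_mod_cast hell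
  have hm0 : (0 : ℝ) < m := by exact_mod_cast hm
  have hs0 : (0 : ℝ) < s := by exact_mod_cast hs
  have hD0 : (0 : ℝ) < D := by exact_mod_cast (by omega : 0 < D)
  have hp0pos : 0 < P.p0 := by rw [hp0]; positivity
  have hpPi : P.p0 * Pi = 1 / ell := by rw [hp0]; field_simp
  -- compatibility
  have hcomp : ∀ c u v, v ∈ nb u → c ∈ st.Ls u → c ∈ st.Ls v →
      ∀ z, z ∈ st.Main u → z ∈ st.Main v → targ u z ≠ targ v z := by
    intro c u v huv hcu hcv z hzu hzv h
    rw [htarg] at h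
    simp only [Prod.mk.injEq] at h
    have h1 := hslot z u v hzu hzv h.1
    have h2 := st.disj u v huv h1 h.2
    exact Finset.disjoint_left.1 h2 (Ls_sub st u hcu) (Ls_sub st v hcv)
  have hne : ∀ u v, v ∈ nb u → u ≠ v := fun u v h h' => hirr u (h' ▸ h)
  refine ⟨fun c ζ => Sset st.Main st.Off targ (S0 c) ζ, ?_⟩
  have hsub : ∀ c (ζ : V → Fin t → RC D t (M + 1) r) v,
      v ∈ Sset st.Main st.Off targ (S0 c) ζ → c ∈ st.Ls v := by
    intro c ζ v hv
    have := Sset_sub _ _ _ _ _ _ hv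
    rw [hS0] at this
    simpa using this
  -- bounds
  have hb2 : ∀ c v w, w ∈ nb v → pr (fun ζ : V → Fin t → RC D t (M + 1) r =>
      v ∈ Sset st.Main st.Off targ (S0 c) ζ ∧ w ∈ Sset st.Main st.Off targ (S0 c) ζ) ≤
      ind (c ∈ st.Ls v ∧ c ∈ st.Ls w) * Pi ^ 2 := by
    intro c v w hw
    by_cases hc : c ∈ st.Ls v ∧ c ∈ st.Ls w
    · rw [ind_of hc, one_mul]
      exact role_pair _ _ _ _ v w (hne v w hw) (hcomp c v w hw hc.1 hc.2)
    · rw [ind_of_not hc, zero_mul]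
      refine le_of_eq ((ex_congr (fun ζ => ind_of_not ?_)).trans (ex_const 0))
      exact fun h => hc ⟨hsub c ζ v h.1, hsub c ζ w h.2⟩
  have hb3 : ∀ c v w x, w ∈ nb v → x ∈ nb v ∩ nb w →
      pr (fun ζ : V → Fin t → RC D t (M + 1) r =>
      v ∈ Sset st.Main st.Off targ (S0 c) ζ ∧ w ∈ Sset st.Main st.Off targ (S0 c) ζ ∧
        x ∈ Sset st.Main st.Off targ (S0 c) ζ) ≤
      ind (c ∈ st.Ls v ∩ st.Ls w ∩ st.Ls x) *
        (((1 - δ / 192) ^ t + if ¬ st.ctl om v w ∧ ¬ st.ctl om v x then 1 else 0) * Pi ^ 3) := by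
    intro c v w x hw hx
    rw [Finset.mem_inter] at hx
    have hrho : 0 ≤ (1 - δ / 192) ^ t := pow_nonneg (by linarith) _
    by_cases hc : c ∈ st.Ls v ∩ st.Ls w ∩ st.Ls x
    · rw [ind_of hc, one_mul]
      rw [Finset.mem_inter, Finset.mem_inter] at hc
      obtain ⟨⟨hcv, hcw⟩, hcx⟩ := hc
      have h1 := hcomp c v w hw hcv hcw
      have h2 := hcomp c v x hx.1 hcv hcx
      have h3 := hcomp c w x hx.2 hcw hcx
      have hvw := hne v w hw
      have hvx := hne v x hx.1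
      have hwx := hne w x hx.2
      have hζ1 : δ / 6 ≤ 1 := by linarith
      by_cases hcd : ¬ st.ctl om v w ∧ ¬ st.ctl om v x
      · rw [if_pos hcd]
        refine (role_triple _ _ _ _ v w x hvw hvx hwx h1 h2 h3).trans ?_
        have : 0 ≤ (1 - δ / 192) ^ t * Pi ^ 3 := by positivity
        rw [add_mul, one_mul]
        exact le_add_of_nonneg_left this
      · rw [if_neg hcd, add_zero]
        have hcd' : st.ctl om v w ∨ st.ctl om v x := by
          by_contra h; push Not at h; exact hcd h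
        have e1 : (1 - δ / 6 / 32) ^ t = (1 - δ / 192) ^ t := by congr 1; ring
        rcases hcd' with hk | hk
        · have := role_triple_ctl (t := t) hD2 _ _ targ (S0 c) v w x hvw hvx hwx h1 h2 h3 hMc hOc
            (by positivity : 0 < δ / 6) hζ1 (ctl_dense st hom4 hη8 hsymm v w hk)
          rw [e1] at this
          exact this
        · have h3' : ∀ z, z ∈ st.Main x → z ∈ st.Main w → targ x z ≠ targ w z :=
            fun z hz hz' h => h3 z hz' hz h.symm
          have := role_triple_ctl (t := t) hD2 _ _ targ (S0 c) v x w hvx hvw hwx.symm h2 h1 h3' hMc hOc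
            (by positivity : 0 < δ / 6) hζ1 (ctl_dense st hom4 hη8 hsymm v x hk)
          rw [e1] at this
          refine le_trans (pr_mono (Q := fun ζ : V → Fin t → RC D t (M + 1) r =>
            v ∈ Sset st.Main st.Off targ (S0 c) ζ ∧ x ∈ Sset st.Main st.Off targ (S0 c) ζ ∧
              w ∈ Sset st.Main st.Off targ (S0 c) ζ) (fun ζ h => ⟨h.1, h.2.2, h.2.1⟩)) this
    · rw [ind_of_not hc, zero_mul]
      refine le_of_eq ((ex_congr (fun ζ => ind_of_not ?_)).trans (ex_const 0))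
      intro h
      exact hc (Finset.mem_inter.2 ⟨Finset.mem_inter.2 ⟨hsub c ζ v h.1, hsub c ζ w h.2.1⟩,
        hsub c ζ x h.2.2⟩)
  have hinv : (1 : ℝ) / ell ≤ 8 * m / s := by
    rw [div_le_div_iff₀ hell0 hs0]; linarith
  refine ⟨hsymm, hirr, hdeg, hsub, ?_, ?_, ?_, ?_, ?_, ?_, ?_⟩
  · -- loc
    intro c ζ ζ' v hζ hv
    refine Sset_loc _ _ _ _ ζ ζ' v (fun w hw => hζ w ?_) hv
    rcases hw with h | h | h
    · exact Or.inl h
    · exact Or.inr (hMsub v h)
    · exact Or.inr (hOsub v h)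
  · -- single
    intro v
    have h1 : ∑ c ∈ st.Ls v, (1 / 4 * Pi) ≤ ∑ c ∈ st.Ls v,
        pr (fun ζ : V → Fin t → RC D t (M + 1) r => v ∈ Sset st.Main st.Off targ (S0 c) ζ) := by
      refine Finset.sum_le_sum (fun c hc => ?_)
      exact role_single ht2 _ _ (main_off_disj st) targ (S0 c) v (by simpa [hS0] using hc)
    rw [Finset.sum_const, nsmul_eq_mul] at h1
    have h2 := g_single st (by omega) hm hsl hsymm hdeg v
    have h3 : 3 / 4 * (ell : ℝ) * (1 / 4 * Pi) ≤ ∑ c ∈ st.Ls v,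
        pr (fun ζ : V → Fin t → RC D t (M + 1) r => v ∈ Sset st.Main st.Off targ (S0 c) ζ) :=
      le_trans (mul_le_mul_of_nonneg_right h2 (by positivity)) h1
    refine le_trans (le_of_eq ?_) (mul_le_mul_of_nonneg_left h3 hp0pos.le)
    have : P.p0 * (3 / 4 * (ell : ℝ) * (1 / 4 * Pi)) = 3 / 16 * ell * (P.p0 * Pi) := by ring
    rw [this, hpPi]; field_simp
  · -- double
    intro v
    have h1 : ∑ c ∈ st.Ls v, ∑ w ∈ nb v, pr (fun ζ : V → Fin t → RC D t (M + 1) r =>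
        v ∈ Sset st.Main st.Off targ (S0 c) ζ ∧ w ∈ Sset st.Main st.Off targ (S0 c) ζ) ≤
        (∑ w ∈ nb v, ((st.Ls v ∩ st.Ls w).card : ℝ)) * Pi ^ 2 := by
      rw [Finset.sum_comm, Finset.sum_mul]
      refine Finset.sum_le_sum (fun w hw => ?_)
      rw [← sum_ind_eq, Finset.sum_mul]
      refine Finset.sum_le_sum (fun c hc => (hb2 c v w hw).trans (le_of_eq ?_))
      congr 1
      exact ind_congr ⟨fun h => h.2, fun h => ⟨hc, h⟩⟩
    have h2 := g_double st hsymm hdeg v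
    have h3 := h1.trans (mul_le_mul_of_nonneg_right h2 (by positivity : (0 : ℝ) ≤ Pi ^ 2))
    refine (mul_le_mul_of_nonneg_left h3 (by positivity : (0 : ℝ) ≤ P.p0 ^ 2)).trans ?_
    have h4 : P.p0 ^ 2 * ((D : ℝ) * (4 * s / m ^ 2) * Pi ^ 2) =
        (1 / ell) ^ 2 * (D * (4 * s / m ^ 2)) := by rw [← hpPi]; ring
    rw [h4]
    refine le_trans ?_ hK
    have h5 : ((1 : ℝ) / ell) ^ 2 ≤ (8 * m / s) ^ 2 := pow_le_pow_left₀ (by positivity) hinv 2
    refine (mul_le_mul_of_nonneg_right h5 (by positivity)).trans (le_of_eq ?_)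
    field_simp
    ring
  · -- triple
    intro v
    set rho : ℝ := (1 - δ / 192) ^ t with hrho
    have hrho0 : 0 ≤ rho := pow_nonneg (by linarith) _
    have h1 : ∑ c ∈ st.Ls v, ∑ w ∈ nb v, ∑ x ∈ nb v ∩ nb w,
        pr (fun ζ : V → Fin t → RC D t (M + 1) r =>
        v ∈ Sset st.Main st.Off targ (S0 c) ζ ∧ w ∈ Sset st.Main st.Off targ (S0 c) ζ ∧
          x ∈ Sset st.Main st.Off targ (S0 c) ζ) ≤
        (rho * (∑ w ∈ nb v, ∑ x ∈ nb v ∩ nb w,
            ((st.Ls v ∩ st.Ls w ∩ st.Ls x).card : ℝ)) +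
          ∑ w ∈ nb v, ∑ x ∈ (nb v ∩ nb w).filter
            (fun x => ¬ st.ctl om v w ∧ ¬ st.ctl om v x),
            ((st.Ls v ∩ st.Ls w ∩ st.Ls x).card : ℝ)) * Pi ^ 3 := by
      rw [Finset.sum_comm, Finset.mul_sum, ← Finset.sum_add_distrib, Finset.sum_mul]
      refine Finset.sum_le_sum (fun w hw => ?_)
      rw [Finset.sum_comm, Finset.mul_sum, Finset.sum_filter, ← Finset.sum_add_distrib,
        Finset.sum_mul]
      refine Finset.sum_le_sum (fun x hx => ?_)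
      have h2 : ∑ c ∈ st.Ls v, pr (fun ζ : V → Fin t → RC D t (M + 1) r =>
          v ∈ Sset st.Main st.Off targ (S0 c) ζ ∧ w ∈ Sset st.Main st.Off targ (S0 c) ζ ∧
            x ∈ Sset st.Main st.Off targ (S0 c) ζ) ≤
          ∑ c ∈ st.Ls v, ind (c ∈ st.Ls v ∩ st.Ls w ∩ st.Ls x) *
            ((rho + if ¬ st.ctl om v w ∧ ¬ st.ctl om v x then 1 else 0) * Pi ^ 3) :=
        Finset.sum_le_sum (fun c _ => hb3 c v w x hw hx)
      refine h2.trans (le_of_eq ?_)
      rw [← Finset.sum_mul, sum_ind_eq]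
      have h3 : st.Ls v ∩ (st.Ls v ∩ st.Ls w ∩ st.Ls x) = st.Ls v ∩ st.Ls w ∩ st.Ls x := by
        ext c; simp only [Finset.mem_inter]; tauto
      rw [h3]
      split_ifs <;> ring
    have h2 := g_triple st hδ.le hδ1 hsymm hdeg v
    have h3 := g_triple_unc st hom hδ.le hδ1 hθ hsymm hdeg v
    have h4 : rho * (∑ w ∈ nb v, ∑ x ∈ nb v ∩ nb w,
            ((st.Ls v ∩ st.Ls w ∩ st.Ls x).card : ℝ)) +
          ∑ w ∈ nb v, ∑ x ∈ (nb v ∩ nb w).filter
            (fun x => ¬ st.ctl om v w ∧ ¬ st.ctl om v x),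
            ((st.Ls v ∩ st.Ls w ∩ st.Ls x).card : ℝ) ≤
        48 * (rho + (δ + θ / om)) * ((D : ℝ) ^ 2 * s / m ^ 3) := by
      have := mul_le_mul_of_nonneg_left h2 hrho0
      linarith
    have h5 := h1.trans (mul_le_mul_of_nonneg_right h4 (by positivity : (0 : ℝ) ≤ Pi ^ 3))
    refine (mul_le_mul_of_nonneg_left h5 (by positivity : (0 : ℝ) ≤ P.p0 ^ 3)).trans ?_
    refine le_trans ?_ hκ
    have h6 : P.p0 ^ 3 * (48 * (rho + (δ + θ / om)) * ((D : ℝ) ^ 2 * s / m ^ 3) * Pi ^ 3) =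
        (1 / ell) ^ 3 * (48 * (rho + (δ + θ / om)) * ((D : ℝ) ^ 2 * s / m ^ 3)) := by
      rw [← hpPi]; ring
    rw [h6]
    have h7 : ((1 : ℝ) / ell) ^ 3 ≤ (8 * m / s) ^ 3 := pow_le_pow_left₀ (by positivity) hinv 3
    refine (mul_le_mul_of_nonneg_right h7 (by positivity)).trans (le_of_eq ?_)
    field_simp
    ring
  · intro v
    exact (Finset.card_le_card (Ls_sub st v)).trans (st.card v).le
  · intro u v huv
    refine le_trans ?_ (st.pair u v huv)
    exact_mod_cast Finset.card_le_card (Finset.inter_subset_inter (Ls_sub st u) (Ls_sub st v))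
  · intro v c hc
    unfold Str.Ls at hc
    rw [Finset.mem_filter] at hc
    refine le_trans ?_ hc.2
    have : (nb v).filter (fun w => c ∈ st.Ls w) ⊆ (nb v).filter (fun w => c ∈ st.L' w) := by
      intro w hw
      rw [Finset.mem_filter] at hw ⊢
      exact ⟨hw.1, Ls_sub st w hw.2⟩
    exact_mod_cast Finset.card_le_card this

end Pool.Agent.SQ
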