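import Pool.Agent.Lib.MP_026281_co.Prob

/-!
# MP_026281_co, P4: the asymmetric local lemma on a product of finite weighted spaces
-/

set_option autoImplicit false

namespace Pool.Agent.SQ

open Finset

section Wpr

variable {ι X : Type} [Fintype ι] [DecidableEq ι] [Fintype X] {w : ι → X → ℝ}

theorem wpr_nonneg (hw0 : ∀ i x, 0 ≤ w i x) (P : (ι → X) → Prop) : 0 ≤ wpr w P :=
  Finset.sum_nonneg fun _ _ => mul_nonneg (Finset.prod_nonneg fun _ _ => hw0 _ _) (ind_nonneg _)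

theorem wpr_mono (hw0 : ∀ i x, 0 ≤ w i x) {P Q : (ι → X) → Prop} (h : ∀ ω, P ω → Q ω) :
    wpr w P ≤ wpr w Q :=
  Finset.sum_le_sum fun ω _ =>
    mul_le_mul_of_nonneg_left (ind_mono (h ω)) (Finset.prod_nonneg fun _ _ => hw0 _ _)

theorem wpr_total (hw1 : ∀ i, ∑ x, w i x = 1) : ∑ ω : ι → X, ∏ i, w i (ω i) = 1 := by
  have h := Finset.prod_univ_sum (fun _ : ι => (univ : Finset X)) w
  rw [Fintype.piFinset_univ] at h
  rw [← h]
  exact Finset.prod_eq_one fun i _ => hw1 i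

theorem wpr_true (hw1 : ∀ i, ∑ x, w i x = 1) {P : (ι → X) → Prop} (h : ∀ ω, P ω) :
    wpr w P = 1 := by
  unfold wpr
  rw [← wpr_total hw1]
  exact Finset.sum_congr rfl fun ω _ => by rw [ind_of (h ω), mul_one]

theorem wpr_false {P : (ι → X) → Prop} (h : ∀ ω, ¬ P ω) : wpr w P = 0 := by
  unfold wpr
  exact Finset.sum_eq_zero fun ω _ => by rw [ind_of_not (h ω), mul_zero]

/-- `P` implies `Q` or one of the `R l` -/
theorem wpr_le_add_sum {κ : Type} (hw0 : ∀ i x, 0 ≤ w i x) {P Q : (ι → X) → Prop} (G : Finset κ)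
    (R : κ → (ι → X) → Prop) (h : ∀ ω, P ω → Q ω ∨ ∃ l ∈ G, R l ω) :
    wpr w P ≤ wpr w Q + ∑ l ∈ G, wpr w (R l) := by
  unfold wpr
  rw [Finset.sum_comm, ← Finset.sum_add_distrib]
  refine Finset.sum_le_sum fun ω _ => ?_
  rw [← Finset.mul_sum, ← mul_add]
  refine mul_le_mul_of_nonneg_left ?_ (Finset.prod_nonneg fun _ _ => hw0 _ _)
  exact (ind_mono (h ω)).trans ((ind_or_le _ _).trans
    (add_le_add le_rfl (ind_exists_le G (fun l => R l ω))))

/-- events depending on disjoint sets of coordinates are independent -/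
theorem wpr_indep (hw1 : ∀ i, ∑ x, w i x = 1) (A : Finset ι) {P Q : (ι → X) → Prop}
    (hP : ∀ ω ω', (∀ i ∈ A, ω i = ω' i) → P ω → P ω')
    (hQ : ∀ ω ω', (∀ i, i ∉ A → ω i = ω' i) → Q ω → Q ω') :
    wpr w (fun ω => P ω ∧ Q ω) = wpr w P * wpr w Q := by
  have h1 : wpr w P * wpr w Q = ∑ p : (ι → X) × (ι → X),
      ((∏ i, w i (p.1 i)) * ind (P p.1)) * ((∏ i, w i (p.2 i)) * ind (Q p.2)) := by
    rw [Fintype.sum_prod_type]
    unfold wpr
    rw [Finset.sum_mul_sum]
  have h2 : ∑ p : (ι → X) × (ι → X),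
      ((∏ i, w i (p.1 i)) * ((∏ i, w i (p.2 i)) * ind (P p.2 ∧ Q p.2))) =
      wpr w (fun ω => P ω ∧ Q ω) := by
    rw [Fintype.sum_prod_type]
    simp only
    rw [← Finset.sum_mul_sum, wpr_total hw1, one_mul]
    rfl
  rw [h1, ← h2, ← Equiv.sum_comp (swapEquiv (X := X) A)]
  refine Finset.sum_congr rfl fun p _ => ?_
  obtain ⟨ω, ω'⟩ := p
  simp only [swapEquiv, Equiv.coe_fn_mk]
  have h3 : (∏ i, w i (A.piecewise ω' ω i)) * (∏ i, w i (A.piecewise ω ω' i)) =
      (∏ i, w i (ω i)) * (∏ i, w i (ω' i)) := by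
    rw [← Finset.prod_mul_distrib, ← Finset.prod_mul_distrib]
    refine Finset.prod_congr rfl fun i _ => ?_
    by_cases hi : i ∈ A
    · simp only [hi, Finset.piecewise_eq_of_mem]
      ring
    · simp only [hi, not_false_eq_true, Finset.piecewise_eq_of_notMem]
  have h4 : P (A.piecewise ω ω') ↔ P ω :=
    ⟨hP _ _ fun i hi => Finset.piecewise_eq_of_mem _ _ _ hi,
      hP _ _ fun i hi => (Finset.piecewise_eq_of_mem _ _ _ hi).symm⟩
  have h5 : Q (A.piecewise ω ω') ↔ Q ω' :=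
    ⟨hQ _ _ fun i hi => Finset.piecewise_eq_of_notMem _ _ _ hi,
      hQ _ _ fun i hi => (Finset.piecewise_eq_of_notMem _ _ _ hi).symm⟩
  rw [ind_and, ind_congr h4, ind_congr h5]
  calc (∏ i, w i (A.piecewise ω' ω i)) * ((∏ i, w i (A.piecewise ω ω' i)) *
        (ind (P ω) * ind (Q ω')))
      = ((∏ i, w i (A.piecewise ω' ω i)) * (∏ i, w i (A.piecewise ω ω' i))) *
        (ind (P ω) * ind (Q ω')) := by ring
    _ = _ := by rw [h3]; ring

theorem exists_of_wpr_pos (hw0 : ∀ i x, 0 ≤ w i x) {P : (ι → X) → Prop} (h : 0 < wpr w P) :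
    ∃ ω : ι → X, (∀ i, 0 < w i (ω i)) ∧ P ω := by
  by_contra hc
  push Not at hc
  refine h.ne' (Finset.sum_eq_zero fun ω _ => ?_)
  by_cases h1 : ∀ i, 0 < w i (ω i)
  · rw [ind_of_not (hc ω h1), mul_zero]
  · push Not at h1
    obtain ⟨i, hi⟩ := h1
    rw [Finset.prod_eq_zero (Finset.mem_univ i) (le_antisymm hi (hw0 _ _)), zero_mul]

end Wpr

theorem lll {ι X κ : Type} [Fintype ι] [DecidableEq ι] [Fintype X] [Fintype κ] [DecidableEq κ]
    (w : ι → X → ℝ) (hw0 : ∀ i x, 0 ≤ w i x) (hw1 : ∀ i, ∑ x, w i x = 1)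
    (E : κ → (ι → X) → Prop) (S : κ → Finset ι)
    (hdep : ∀ k ω ω', (∀ i ∈ S k, ω i = ω' i) → E k ω → E k ω')
    (hsum : ∀ k, ∑ l ∈ univ.filter (fun l => l = k ∨ ¬ Disjoint (S l) (S k)), wpr w (E l) ≤ 1 / 4) :
    ∃ ω : ι → X, (∀ i, 0 < w i (ω i)) ∧ ∀ k, ¬ E k ω := by
  -- the main estimate
  have two : ∀ G : Finset κ, ∀ k, wpr w (fun ω => E k ω ∧ ∀ l ∈ G, ¬ E l ω) ≤
      2 * wpr w (E k) * wpr w (fun ω => ∀ l ∈ G, ¬ E l ω) := by
    intro G
    induction G using Finset.strongInduction with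
    | H G ih =>
      intro k
      set G1 := G.filter (fun l => l = k ∨ ¬ Disjoint (S l) (S k)) with hG1
      set G2 := G.filter (fun l => ¬ (l = k ∨ ¬ Disjoint (S l) (S k))) with hG2
      have hG2s : G2 ⊆ G := Finset.filter_subset _ _
      have hone : wpr w (fun ω => E k ω ∧ ∀ l ∈ G2, ¬ E l ω) =
          wpr w (E k) * wpr w (fun ω => ∀ l ∈ G2, ¬ E l ω) := by
        refine wpr_indep hw1 (S k) (hdep k) ?_
        intro ω ω' hag h l hl hE
        refine h l hl (hdep l ω' ω (fun i hi => (hag i ?_).symm) hE)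
        rw [hG2, Finset.mem_filter] at hl
        have h1 : Disjoint (S l) (S k) := by
          by_contra hd
          exact hl.2 (Or.inr hd)
        exact fun hi' => (Finset.disjoint_left.1 h1) hi hi'
      have hmono : wpr w (fun ω => E k ω ∧ ∀ l ∈ G, ¬ E l ω) ≤
          wpr w (fun ω => E k ω ∧ ∀ l ∈ G2, ¬ E l ω) :=
        wpr_mono hw0 fun ω h => ⟨h.1, fun l hl => h.2 l (hG2s hl)⟩
      have hp := wpr_nonneg hw0 (E k)
      have hpG := wpr_nonneg hw0 (fun ω => ∀ l ∈ G, ¬ E l ω)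
      have hpG2 := wpr_nonneg hw0 (fun ω => ∀ l ∈ G2, ¬ E l ω)
      rcases Finset.eq_empty_or_nonempty G1 with he | hne1
      · have hGG : G2 = G := by
          rw [hG2]
          refine Finset.filter_true_of_mem (fun l hl hc => ?_)
          have : l ∈ G1 := by rw [hG1, Finset.mem_filter]; exact ⟨hl, hc⟩
          rw [he] at this; simp at this
        rw [hGG] at hone
        rw [hone]
        nlinarith [mul_nonneg hp hpG]
      · have hss : G2 ⊂ G := by
          refine ⟨hG2s, fun hc => ?_⟩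
          obtain ⟨l, hl⟩ := hne1
          rw [hG1, Finset.mem_filter] at hl
          have := hc hl.1
          rw [hG2, Finset.mem_filter] at this
          exact this.2 hl.2
        have hcov : wpr w (fun ω => ∀ l ∈ G2, ¬ E l ω) ≤ wpr w (fun ω => ∀ l ∈ G, ¬ E l ω) +
            ∑ l ∈ G1, wpr w (fun ω => E l ω ∧ ∀ l' ∈ G2, ¬ E l' ω) := by
          refine wpr_le_add_sum hw0 G1 _ fun ω h => ?_
          by_cases h5 : ∃ l ∈ G1, E l ω
          · obtain ⟨l, hl, h6⟩ := h5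
            exact Or.inr ⟨l, hl, h6, h⟩
          · left
            push Not at h5
            intro l hl
            by_cases h7 : l = k ∨ ¬ Disjoint (S l) (S k)
            · exact h5 l (by rw [hG1, Finset.mem_filter]; exact ⟨hl, h7⟩)
            · exact h l (by rw [hG2, Finset.mem_filter]; exact ⟨hl, h7⟩)
        have hc2 : ∑ l ∈ G1, wpr w (fun ω => E l ω ∧ ∀ l' ∈ G2, ¬ E l' ω) ≤
            (2 * wpr w (fun ω => ∀ l ∈ G2, ¬ E l ω)) * ∑ l ∈ G1, wpr w (E l) := by
          rw [Finset.mul_sum]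
          refine Finset.sum_le_sum (fun l _ => ?_)
          have := ih G2 hss l
          linarith
        have hc3 : ∑ l ∈ G1, wpr w (E l) ≤ 1 / 4 := by
          refine le_trans ?_ (hsum k)
          refine Finset.sum_le_sum_of_subset_of_nonneg ?_ fun _ _ _ => wpr_nonneg hw0 _
          exact Finset.filter_subset_filter _ (Finset.subset_univ _)
        have hc4 : (2 * wpr w (fun ω => ∀ l ∈ G2, ¬ E l ω)) * ∑ l ∈ G1, wpr w (E l) ≤
            (2 * wpr w (fun ω => ∀ l ∈ G2, ¬ E l ω)) * (1 / 4) :=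
          mul_le_mul_of_nonneg_left hc3 (by positivity)
        have hc5 : wpr w (fun ω => ∀ l ∈ G2, ¬ E l ω) ≤
            2 * wpr w (fun ω => ∀ l ∈ G, ¬ E l ω) := by linarith
        calc wpr w (fun ω => E k ω ∧ ∀ l ∈ G, ¬ E l ω)
            ≤ wpr w (fun ω => E k ω ∧ ∀ l ∈ G2, ¬ E l ω) := hmono
          _ = wpr w (E k) * wpr w (fun ω => ∀ l ∈ G2, ¬ E l ω) := hone
          _ ≤ wpr w (E k) * (2 * wpr w (fun ω => ∀ l ∈ G, ¬ E l ω)) :=
              mul_le_mul_of_nonneg_left hc5 hp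
          _ = _ := by ring
  -- each probability is at most 1/4
  have hsmall : ∀ k, wpr w (E k) ≤ 1 / 4 := by
    intro k
    refine le_trans ?_ (hsum k)
    exact Finset.single_le_sum (f := fun l => wpr w (E l)) (fun _ _ => wpr_nonneg hw0 _)
      (Finset.mem_filter.2 ⟨Finset.mem_univ k, Or.inl rfl⟩)
  -- positivity
  have hpos : ∀ G : Finset κ, 0 < wpr w (fun ω => ∀ l ∈ G, ¬ E l ω) := by
    intro G
    induction G using Finset.induction_on with
    | empty =>
      rw [wpr_true hw1 (fun ω l hl => absurd hl (Finset.notMem_empty l))]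
      norm_num
    | insert k G _ ih =>
      have h4 := two G k
      have h5 : wpr w (fun ω => ∀ l ∈ G, ¬ E l ω) ≤
          wpr w (fun ω => ∀ l ∈ insert k G, ¬ E l ω) +
          ∑ l ∈ {k}, wpr w (fun ω => E l ω ∧ ∀ l' ∈ G, ¬ E l' ω) := by
        refine wpr_le_add_sum hw0 {k} _ fun ω h => ?_
        by_cases h6 : E k ω
        · exact Or.inr ⟨k, Finset.mem_singleton_self k, h6, h⟩
        · left
          intro l hl
          rcases Finset.mem_insert.1 hl with rfl | h7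
          · exact h6
          · exact h l h7
      rw [Finset.sum_singleton] at h5
      have h7 := hsmall k
      have h8 : 2 * wpr w (E k) * wpr w (fun ω => ∀ l ∈ G, ¬ E l ω) ≤
          (1 / 2) * wpr w (fun ω => ∀ l ∈ G, ¬ E l ω) :=
        mul_le_mul_of_nonneg_right (by linarith) ih.le
      linarith
  obtain ⟨ω, h1, h2⟩ := exists_of_wpr_pos hw0 (hpos univ)
  exact ⟨ω, h1, fun k => h2 k (Finset.mem_univ k)⟩

theorem lll_unif {ι X κ : Type} [Fintype ι] [DecidableEq ι] [Fintype X] [Nonempty X] [Fintype κ]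
    [DecidableEq κ] (E : κ → (ι → X) → Prop) (S : κ → Finset ι)
    (hdep : ∀ k ω ω', (∀ i ∈ S k, ω i = ω' i) → E k ω → E k ω')
    (hsum : ∀ k, ∑ l ∈ univ.filter (fun l => l = k ∨ ¬ Disjoint (S l) (S k)), pr (E l) ≤ 1 / 4) :
    ∃ ω : ι → X, ∀ k, ¬ E k ω := by
  have hX := card_pos' (Ω := X)
  have hpr : ∀ P : (ι → X) → Prop, wpr (fun (_ : ι) (_ : X) => 1 / (Fintype.card X : ℝ)) P =
      pr P := by
    intro P
    unfold wpr pr ex
    simp only [Finset.prod_const, Finset.card_univ]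
    rw [Fintype.card_fun, ← Finset.mul_sum]
    push_cast
    rw [one_div, inv_pow, inv_mul_eq_div]
  obtain ⟨ω, -, h⟩ := lll (fun (_ : ι) (_ : X) => 1 / (Fintype.card X : ℝ))
    (fun _ _ => by positivity) (fun _ => by
      rw [Finset.sum_const, Finset.card_univ, nsmul_eq_mul]
      field_simp) E S hdep (fun k => by
      simp only [hpr]
      exact hsum k)
  exact ⟨ω, h⟩

end Pool.Agent.SQ
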