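import Pool.Agent.Lib.MP_026281_co.Prob
import Pool.Agent.Lib.MP_026281_co.LLL
import Pool.Agent.Lib.MP_026281_co.Conc

/-!
# MP_026281_co, P15: locality of the process and the first local lemma
-/

set_option autoImplicit false
set_option linter.unusedSectionVars false

namespace Pool.Agent.SQ

open Finset

/-! ## balls -/

section Balls

variable {V : Type} [DecidableEq V]

/-- the ball of radius `n` around `v` -/
def bl (nb : V → Finset V) : ℕ → V → Finset V
  | 0, v => {v}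
  | n + 1, v => bl nb n v ∪ (nb v).biUnion (bl nb n)

variable (nb : V → Finset V)

theorem self_mem_bl (n : ℕ) (v : V) : v ∈ bl nb n v := by
  induction n with
  | zero => simp [bl]
  | succ n ih => exact Finset.mem_union_left _ ih

theorem bl_sub_succ (n : ℕ) (v : V) : bl nb n v ⊆ bl nb (n + 1) v :=
  Finset.subset_union_left

theorem bl_mono {n m : ℕ} (h : n ≤ m) (v : V) : bl nb n v ⊆ bl nb m v := by
  induction m, h using Nat.le_induction with
  | base => exact Finset.Subset.refl _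
  | succ m _ ih => exact ih.trans (bl_sub_succ nb m v)

theorem bl_nb {n : ℕ} {v w : V} (h : w ∈ nb v) : bl nb n w ⊆ bl nb (n + 1) v := by
  intro x hx
  exact Finset.mem_union_right _ (Finset.mem_biUnion.2 ⟨w, h, hx⟩)

theorem bl_trans {n m : ℕ} {v w x : V} (hw : w ∈ bl nb n v) (hx : x ∈ bl nb m w) :
    x ∈ bl nb (n + m) v := by
  induction n generalizing v with
  | zero =>
    simp only [bl, Finset.mem_singleton] at hw
    subst hw
    rwa [Nat.zero_add]
  | succ n ih =>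
    have e : n + 1 + m = (n + m) + 1 := by omega
    rw [e]
    rcases Finset.mem_union.1 hw with h | h
    · exact bl_sub_succ nb _ v (ih h)
    · obtain ⟨u, hu, hwu⟩ := Finset.mem_biUnion.1 h
      exact bl_nb nb hu (ih hwu)

theorem bl_symm (hsymm : ∀ u v, v ∈ nb u → u ∈ nb v) {n : ℕ} {v x : V} (hx : x ∈ bl nb n v) :
    v ∈ bl nb n x := by
  induction n generalizing v with
  | zero =>
    simp only [bl, Finset.mem_singleton] at hx ⊢
    exact hx.symm
  | succ n ih =>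
    rcases Finset.mem_union.1 hx with h | h
    · exact bl_sub_succ nb _ x (ih h)
    · obtain ⟨u, hu, hxu⟩ := Finset.mem_biUnion.1 h
      have h1 : v ∈ bl nb 1 u := bl_nb nb (n := 0) (hsymm v u hu) (by simp [bl])
      exact bl_trans nb (ih hxu) h1

theorem bl_card {D : ℕ} (hdeg : ∀ v, (nb v).card ≤ D) (n : ℕ) (v : V) :
    (bl nb n v).card ≤ (D + 1) ^ n := by
  induction n generalizing v with
  | zero => simp [bl]
  | succ n ih =>
    refine (Finset.card_union_le _ _).trans ?_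
    have h1 : ((nb v).biUnion (bl nb n)).card ≤ (nb v).card * (D + 1) ^ n :=
      Finset.card_biUnion_le_card_mul _ _ _ (fun u _ => ih u)
    have h2 : (nb v).card * (D + 1) ^ n ≤ D * (D + 1) ^ n := Nat.mul_le_mul_right _ (hdeg v)
    calc (bl nb n v).card + ((nb v).biUnion (bl nb n)).card
        ≤ (D + 1) ^ n + D * (D + 1) ^ n := Nat.add_le_add (ih v) (h1.trans h2)
      _ = (D + 1) ^ (n + 1) := by ring

end Balls

/-! ## locality of the nibble -/

section Loc

variable {V : Type} [DecidableEq V] (P : NP) (nb : V → Finset V)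

theorem nst_loc {S S' : Finset V} {stg stg' ξ ξ' : V → ℕ} (i : ℕ) (v : V)
    (h : ∀ w ∈ bl nb i v, (w ∈ S ↔ w ∈ S') ∧ stg w = stg' w ∧ ξ w = ξ' w) :
    nst P nb S stg ξ i v = nst P nb S' stg' ξ' i v := by
  induction i generalizing v with
  | zero =>
    have h1 := (h v (self_mem_bl nb 0 v)).1
    simp only [nst, h1]
  | succ i ih =>
    have hv : nst P nb S stg ξ i v = nst P nb S' stg' ξ' i v :=
      ih v (fun w hw => h w (bl_sub_succ nb i v hw))
    have hw : ∀ w ∈ nb v, nst P nb S stg ξ i w = nst P nb S' stg' ξ' i w :=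
      fun w hw => ih w (fun x hx => h x (bl_nb nb hw hx))
    have hs : ∀ w ∈ nb v, stg w = stg' w ∧ ξ w = ξ' w := fun w hw =>
      (h w (bl_nb nb hw (self_mem_bl nb i w))).2
    have hnx : ∀ w ∈ nb v, nx P stg (fun w => (nst P nb S stg ξ i w).1) i w =
        nx P stg' (fun w => (nst P nb S' stg' ξ' i w).1) i w := by
      intro w hw'
      simp only [nx, hw w hw', (hs w hw').1]
    have e1 : (∃ w ∈ nb v, nprop P stg ξ (fun w => (nst P nb S stg ξ i w).1) i w) =
        (∃ w ∈ nb v, nprop P stg' ξ' (fun w => (nst P nb S' stg' ξ' i w).1) i w) := by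
      apply propext
      constructor
      · rintro ⟨w, hw', h1, h2⟩
        refine ⟨w, hw', ?_, ?_⟩
        · rw [← (hs w hw').1]; exact h1
        · simp only [(hs w hw').2, hw w hw'] at h2
          exact h2
      · rintro ⟨w, hw', h1, h2⟩
        refine ⟨w, hw', ?_, ?_⟩
        · rw [(hs w hw').1]; exact h1
        · simp only [(hs w hw').2, hw w hw']
          exact h2
    have e2 : ∑ w ∈ nb v, nx P stg (fun w => (nst P nb S stg ξ i w).1) i w =
        ∑ w ∈ nb v, nx P stg' (fun w => (nst P nb S' stg' ξ' i w).1) i w :=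
      Finset.sum_congr rfl hnx
    have e3 : ∏ w ∈ nb v, (1 - nx P stg (fun w => (nst P nb S stg ξ i w).1) i w) =
        ∏ w ∈ nb v, (1 - nx P stg' (fun w => (nst P nb S' stg' ξ' i w).1) i w) :=
      Finset.prod_congr rfl (fun w hw' => by rw [hnx w hw'])
    have e4 : ((∃ w ∈ nb v, nprop P stg ξ (fun w => (nst P nb S stg ξ i w).1) i w) ∨
          P.Y < (nst P nb S stg ξ i v).2 +
            2 * ∑ w ∈ nb v, nx P stg (fun w => (nst P nb S stg ξ i w).1) i w) =
        ((∃ w ∈ nb v, nprop P stg' ξ' (fun w => (nst P nb S' stg' ξ' i w).1) i w) ∨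
          P.Y < (nst P nb S' stg' ξ' i v).2 +
            2 * ∑ w ∈ nb v, nx P stg' (fun w => (nst P nb S' stg' ξ' i w).1) i w) := by
      rw [e1, e2, hv]
    rw [nst, nst]
    refine Prod.ext ?_ ?_
    · classical
      exact ite_congr e4 (fun _ => rfl) (fun _ => by rw [e3, hv])
    · change (nst P nb S stg ξ i v).2 + 2 * ∑ w ∈ nb v, nx P stg (fun w =>
        (nst P nb S stg ξ i w).1) i w = (nst P nb S' stg' ξ' i v).2 + 2 * ∑ w ∈ nb v,
        nx P stg' (fun w => (nst P nb S' stg' ξ' i w).1) i w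
      rw [e2, hv]

theorem np_loc {S S' : Finset V} {stg stg' ξ ξ' : V → ℕ} (i : ℕ) (v : V)
    (h : ∀ w ∈ bl nb i v, (w ∈ S ↔ w ∈ S') ∧ stg w = stg' w ∧ ξ w = ξ' w) :
    np P nb S stg ξ i v = np P nb S' stg' ξ' i v := by
  unfold np
  rw [nst_loc P nb i v h]

theorem nprop_loc {S S' : Finset V} {stg stg' ξ ξ' : V → ℕ} (i : ℕ) (v : V)
    (h : ∀ w ∈ bl nb i v, (w ∈ S ↔ w ∈ S') ∧ stg w = stg' w ∧ ξ w = ξ' w) :
    nprop P stg ξ (np P nb S stg ξ i) i v = nprop P stg' ξ' (np P nb S' stg' ξ' i) i v := by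
  have h1 := (h v (self_mem_bl nb i v)).2
  unfold nprop
  rw [np_loc P nb i v h, h1.1, h1.2]

theorem nI_loc [Fintype V] {S S' : Finset V} {stg stg' ξ ξ' : V → ℕ} (v : V)
    (h : ∀ w ∈ bl nb (P.T + 1) v, (w ∈ S ↔ w ∈ S') ∧ stg w = stg' w ∧ ξ w = ξ' w)
    (hv : v ∈ nI P nb S stg ξ) : v ∈ nI P nb S' stg' ξ' := by
  classical
  unfold nI at hv ⊢
  rw [Finset.mem_filter] at hv ⊢
  obtain ⟨-, i, hi, h1, h2, h3⟩ := hv
  have hp : ∀ w ∈ bl nb 2 v, nprop P stg ξ (np P nb S stg ξ i) i w =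
      nprop P stg' ξ' (np P nb S' stg' ξ' i) i w := by
    intro w hw
    refine nprop_loc P nb i w (fun x hx => h x ?_)
    exact bl_mono nb (by omega) v (bl_trans nb hw hx)
  have hv0 : v ∈ bl nb 2 v := self_mem_bl nb 2 v
  have hv1 : ∀ w ∈ nb v, w ∈ bl nb 2 v := fun w hw => bl_nb nb hw (self_mem_bl nb 1 w)
  have hv2 : ∀ u ∈ nb v, ∀ w ∈ nb u, w ∈ bl nb 2 v := fun u hu w hw =>
    bl_nb nb hu (bl_nb nb hw (self_mem_bl nb 0 w))
  refine ⟨Finset.mem_univ _, i, hi, ?_, ?_, ?_⟩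
  · rw [← hp v hv0]; exact h1
  · intro w hw
    rw [← hp w (hv1 w hw)]
    exact h2 w hw
  · intro u hu
    have h4 := h3 u hu
    refine le_trans (le_of_eq ?_) h4
    congr 1
    apply Finset.filter_congr
    intro w hw
    rw [hp w (hv2 u hu w hw)]

end Loc

section Good

variable {V C Z : Type} [Fintype V] [DecidableEq V] [Fintype C] [DecidableEq C] [Fintype Z]
  [Nonempty Z] {nb : V → Finset V} {D : ℕ} {Ls : V → Finset C} {Sg : C → (V → Z) → Finset V}
  {P : NP} {K κ3 tau cap lam : ℝ} {ell : ℕ}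

private theorem agree (h : IFace nb D Ls Sg P K κ3 tau cap ell) (c : C)
    (q q' : V → Fin P.T × Fin P.N × Z) (n : ℕ) (v : V)
    (hq : ∀ w ∈ bl nb (n + 1) v, q w = q' w) :
    ∀ w ∈ bl nb n v, (w ∈ Sg c (fun v => (q v).2.2) ↔ w ∈ Sg c (fun v => (q' v).2.2)) ∧
      ((q w).1 : ℕ) = ((q' w).1 : ℕ) ∧ ((q w).2.1 : ℕ) = ((q' w).2.1 : ℕ) := by
  intro w hw
  have hx : ∀ x, x = w ∨ x ∈ nb w → q x = q' x := by
    intro x hx
    apply hq
    rcases hx with rfl | hx
    · exact bl_sub_succ nb n v hw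
    · exact bl_trans nb hw (bl_nb nb (n := 0) hx (by simp [bl]))
  refine ⟨⟨fun hS => h.loc c _ _ w (fun x hx' => ?_) hS, fun hS => h.loc c _ _ w
    (fun x hx' => ?_) hS⟩, ?_, ?_⟩
  · rw [hx x hx']
  · rw [hx x hx']
  · rw [hx w (Or.inl rfl)]
  · rw [hx w (Or.inl rfl)]

private theorem pw_loc (h : IFace nb D Ls Sg P K κ3 tau cap ell) (c : C)
    (q q' : V → Fin P.T × Fin P.N × Z) (i : ℕ) (v : V)
    (hq : ∀ w ∈ bl nb (i + 1) v, q w = q' w) : pw P nb Sg c q i v = pw P nb Sg c q' i v := by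
  unfold pw
  exact np_loc P nb i v (agree h c q q' i v hq)

private theorem Is_loc (h : IFace nb D Ls Sg P K κ3 tau cap ell) (c : C)
    (q q' : V → Fin P.T × Fin P.N × Z) (v : V)
    (hq : ∀ w ∈ bl nb (P.T + 2) v, q w = q' w) (hv : v ∈ Is P nb Sg c q) :
    v ∈ Is P nb Sg c q' := by
  unfold Is at hv ⊢
  exact nI_loc P nb v (agree h c q q' (P.T + 1) v hq) hv

private theorem mass_loc (h : IFace nb D Ls Sg P K κ3 tau cap ell)
    (ω ω' : C → V → Fin P.T × Fin P.N × Z) (v : V)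
    (hq : ∀ w ∈ bl nb (P.T + 3) v, ∀ c, ω c w = ω' c w) :
    mass P nb Sg Ls ω v = mass P nb Sg Ls ω' v := by
  unfold mass
  refine Finset.sum_congr rfl (fun c _ => pw_loc h c _ _ _ _ (fun w hw => ?_))
  exact hq w (bl_mono nb (by omega) v hw) c

private theorem lft_loc (h : IFace nb D Ls Sg P K κ3 tau cap ell)
    (ω ω' : C → V → Fin P.T × Fin P.N × Z) (v : V)
    (hq : ∀ w ∈ bl nb (P.T + 2) v, ∀ c, ω c w = ω' c w) (hv : lft P nb Sg Ls ω v) :
    lft P nb Sg Ls ω' v := by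
  intro c hc hI
  exact hv c hc (Is_loc h c _ _ v (fun w hw => (hq w hw c).symm) hI)

private theorem EL_loc (h : IFace nb D Ls Sg P K κ3 tau cap ell)
    (ω ω' : C → V → Fin P.T × Fin P.N × Z) (u : V)
    (hq : ∀ w ∈ bl nb (P.T + 3) u, ∀ c, ω c w = ω' c w) :
    EL P nb Sg Ls ω u = EL P nb Sg Ls ω' u := by
  unfold EL
  refine Finset.sum_congr rfl (fun c _ => ?_)
  rw [pw_loc h c (ω c) (ω' c) P.T u (fun w hw => hq w (bl_mono nb (by omega) u hw) c)]
  congr 1
  refine Finset.sum_congr rfl (fun v hv => ?_)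
  have hsub : ∀ n ≤ P.T + 2, bl nb n v ⊆ bl nb (P.T + 3) u := fun n hn =>
    (bl_nb nb hv).trans (bl_mono nb (by omega) u)
  rw [pw_loc h c (ω c) (ω' c) P.T v (fun w hw => hq w (hsub _ (by omega) hw) c)]
  congr 1
  apply ind_congr
  exact ⟨lft_loc h ω ω' v (fun w hw c => hq w (hsub _ le_rfl hw) c),
    lft_loc h ω' ω v (fun w hw c => (hq w (hsub _ le_rfl hw) c).symm)⟩

theorem exists_good (h : IFace nb D Ls Sg P K κ3 tau cap ell)
    (hB : NumB P D K κ3 tau cap ell lam) :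
    ∃ ω : C → V → Fin P.T × Fin P.N × Z,
      ∀ v, 1 / 16 < mass P nb Sg Ls ω v ∧ EL P nb Sg Ls ω v < 1 / 4096 := by
  classical
  have : Nonempty (Fin P.T) := ⟨⟨0, hB.hT⟩⟩
  have : Nonempty (Fin P.N) := ⟨⟨0, hB.hN⟩⟩
  let tr : (V → C → Fin P.T × Fin P.N × Z) → (C → V → Fin P.T × Fin P.N × Z) :=
    fun ω c v => ω v c
  let Ev : V → (V → C → Fin P.T × Fin P.N × Z) → Prop := fun v ω =>
    mass P nb Sg Ls (tr ω) v ≤ 1 / 16 ∨ 1 / 4096 ≤ EL P nb Sg Ls (tr ω) v
  set b : ℝ := Real.exp (-(1 / (64 * (Real.exp P.Y * P.p0)))) +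
      Real.exp (-(lam * (1 / 8192)) + 4 * lam ^ 2 *
        ((Real.exp P.Y * P.p0) ^ 2 * (cap + tau * (P.T * P.R))) *
        ((Real.exp P.Y * P.p0) ^ 2 *
          (cap * ell + tau * (D * (ell * (P.β * (Real.exp P.Y * P.p0))))))) with hb
  have hb0 : 0 ≤ b := add_nonneg (Real.exp_pos _).le (Real.exp_pos _).le
  have hpr : ∀ v, pr (Ev v) ≤ b := by
    intro v
    have e := pr_equiv (Equiv.piComm (fun (_ : V) (_ : C) => Fin P.T × Fin P.N × Z))
      (fun ω : C → V → Fin P.T × Fin P.N × Z =>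
        mass P nb Sg Ls ω v ≤ 1 / 16 ∨ 1 / 4096 ≤ EL P nb Sg Ls ω v)
    have e' : pr (Ev v) = pr (fun ω : C → V → Fin P.T × Fin P.N × Z =>
        mass P nb Sg Ls ω v ≤ 1 / 16 ∨ 1 / 4096 ≤ EL P nb Sg Ls ω v) := by
      rw [← e]
      rfl
    rw [e']
    exact (pr_or_le _ _).trans (add_le_add (pr_mass h hB v) (pr_EL h hB v))
  obtain ⟨ω, hω⟩ := lll_unif Ev (bl nb (P.T + 3))
    (by
      intro k ω ω' hag hE
      have hq : ∀ w ∈ bl nb (P.T + 3) k, ∀ c, tr ω c w = tr ω' c w := fun w hw c => by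
        simp only [tr, hag w hw]
      simp only [Ev] at hE ⊢
      rwa [mass_loc h (tr ω) (tr ω') k hq, EL_loc h (tr ω) (tr ω') k hq] at hE)
    (by
      intro k
      have hsub : univ.filter (fun l => l = k ∨
          ¬ Disjoint (bl nb (P.T + 3) l) (bl nb (P.T + 3) k)) ⊆ bl nb (2 * (P.T + 4)) k := by
        intro l hl
        rw [Finset.mem_filter] at hl
        rcases hl.2 with rfl | hl
        · exact self_mem_bl nb _ _
        · rw [Finset.not_disjoint_iff] at hl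
          obtain ⟨x, hx1, hx2⟩ := hl
          exact bl_mono nb (by omega) k (bl_trans nb hx2 (bl_symm nb h.symm hx1))
      calc ∑ l ∈ univ.filter (fun l => l = k ∨
            ¬ Disjoint (bl nb (P.T + 3) l) (bl nb (P.T + 3) k)), pr (Ev l)
          ≤ ∑ l ∈ bl nb (2 * (P.T + 4)) k, pr (Ev l) :=
            Finset.sum_le_sum_of_subset_of_nonneg hsub (fun _ _ _ => pr_nonneg _)
        _ ≤ ∑ _l ∈ bl nb (2 * (P.T + 4)) k, b := Finset.sum_le_sum (fun l _ => hpr l)
        _ = ((bl nb (2 * (P.T + 4)) k).card : ℝ) * b := by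
            rw [Finset.sum_const, nsmul_eq_mul]
        _ ≤ ((D : ℝ) + 1) ^ (2 * (P.T + 4)) * b := by
            apply mul_le_mul_of_nonneg_right _ hb0
            have := bl_card nb h.deg (2 * (P.T + 4)) k
            exact_mod_cast this
        _ ≤ 1 / 4 := hB.hLLL)
  refine ⟨tr ω, fun v => ?_⟩
  have h1 := hω v
  simp only [Ev, not_or, not_le] at h1
  exact h1

end Good

end Pool.Agent.SQ
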