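import Mathlib

/-!
# MP_026281_co, piece P5: one level of the recursion (helper78)
-/

set_option autoImplicit false

namespace Pool.Agent.SQ

open Finset

/-- invariants of the state `(A', R, Q)` of the level procedure -/
private structure LSInv {V : Type} [DecidableEq V] (nb : V → Finset V) (D : ℕ) (θ η M : ℝ)
    (A U Bad : Finset V) (s : Finset V × Finset V × Finset (V × V)) : Prop where
  hA : s.1 ⊆ A
  hR : s.2.1 ⊆ U \ Bad
  hQ1 : ∀ p ∈ s.2.2, p.1 ∈ (U \ Bad) \ s.2.1
  hQ2 : ∀ p ∈ s.2.2, p.2 ∈ s.1
  hQ3 : ∀ v ∈ (U \ Bad) \ s.2.1, η * D ≤ ((s.2.2.filter (fun p => p.1 = v)).card : ℝ)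
  hQ4 : ∀ z, (∃ p ∈ s.2.2, p.2 = z) →
    ((nb z ∩ s.2.1).card : ℝ) + ((s.2.2.filter (fun p => p.2 = z)).card : ℝ) < D / M
  hS : (s.1.card : ℝ) * (θ * D) ≤ ∑ x ∈ s.1, ((nb x ∩ (U \ s.2.1)).card : ℝ)

theorem levelstep {V : Type} [Fintype V] [DecidableEq V] (nb : V → Finset V) {D : ℕ}
    (hD : 0 < D) (hsymm : ∀ u v, v ∈ nb u → u ∈ nb v) (hdeg : ∀ v, (nb v).card ≤ D)
    {θ η M : ℝ} (hθ : 0 < θ) (hη : 0 < η) (hM : 0 < M) (hMηθ : 2 ≤ M * η * θ)
    (A U Bad : Finset V) :
    ∃ A' ⊆ A, ∃ R ⊆ U \ Bad,
      (∀ v ∈ R, (((nb v ∩ A').filter (fun z => ((nb z ∩ R).card : ℝ) < D / M)).card : ℝ) ≤ η * D) ∧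
      (∀ x ∈ A \ A', ((nb x ∩ (U \ R)).card : ℝ) < θ * D) ∧
      ((A'.card : ℝ) * (θ * D) ≤ 2 * ∑ x ∈ A, ((nb x ∩ (U ∩ Bad)).card : ℝ)) := by
  classical
  have hDM : (0 : ℝ) < D / M := div_pos (by exact_mod_cast hD) hM
  have hDR : (0 : ℝ) < D := by exact_mod_cast hD
  obtain ⟨⟨A', R, Q⟩, hinv, hmin⟩ := WellFounded.has_min
    (measure (fun s : Finset V × Finset V × Finset (V × V) => (A \ s.1).card + s.2.1.card)).wf
    {s | LSInv nb D θ η M A U Bad s} ⟨(∅, U \ Bad, ∅), by
      refine ⟨by simp, by simp, by simp, by simp, ?_, ?_, ?_⟩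
      · intro v hv
        simp at hv
      · rintro z ⟨p, hp, -⟩
        simp at hp
      · simp⟩
  have hmin' : ∀ s, LSInv nb D θ η M A U Bad s → (A \ A').card + R.card ≤ (A \ s.1).card + s.2.1.card := by
    intro s hs
    exact not_lt.1 (hmin s hs)
  clear hmin
  obtain ⟨hA, hR, hQ1, hQ2, hQ3, hQ4, hS⟩ := hinv
  dsimp only at hA hR hQ1 hQ2 hQ3 hQ4 hS
  refine ⟨A', hA, R, hR, ?_, ?_, ?_⟩
  · -- no vertex of `R` can be removed
    intro v hv
    by_contra hcon
    push Not at hcon
    set Zv := (nb v ∩ A').filter (fun z => ((nb z ∩ R).card : ℝ) < D / M) with hZv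
    have hvQ : ∀ p ∈ Q, p.1 ≠ v := by
      intro p hp hpv
      have := hQ1 p hp
      rw [hpv] at this
      exact (mem_sdiff.1 this).2 hv
    have h1 := hmin' (A', R.erase v, Q ∪ Zv.image (fun z => (v, z))) ?_
    · dsimp only at h1
      rw [card_erase_of_mem hv] at h1
      have : 0 < R.card := card_pos.2 ⟨v, hv⟩
      omega
    · have hdisj : Disjoint Q (Zv.image (fun z => (v, z))) := by
        rw [Finset.disjoint_left]
        intro p hp hp'
        obtain ⟨z, -, rfl⟩ := mem_image.1 hp'
        exact hvQ _ hp rfl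
      have hinj : Function.Injective (fun z : V => (v, z)) := fun a b h => (Prod.mk.inj h).2
      refine ⟨hA, (erase_subset _ _).trans hR, ?_, ?_, ?_, ?_, ?_⟩
      · intro p hp
        dsimp only
        rcases mem_union.1 hp with hp | hp
        · have := mem_sdiff.1 (hQ1 p hp)
          exact mem_sdiff.2 ⟨this.1, fun h => this.2 (mem_of_mem_erase h)⟩
        · obtain ⟨z, -, rfl⟩ := mem_image.1 hp
          exact mem_sdiff.2 ⟨hR hv, notMem_erase _ _⟩
      · intro p hp
        rcases mem_union.1 hp with hp | hp
        · exact hQ2 p hp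
        · obtain ⟨z, hz, rfl⟩ := mem_image.1 hp
          exact (mem_inter.1 (mem_filter.1 hz).1).2
      · intro w hw
        dsimp only at hw ⊢
        by_cases hwv : w = v
        · subst hwv
          refine le_trans (le_of_lt hcon) ?_
          have h2 : Zv.card ≤ ((Q ∪ Zv.image (fun z => (w, z))).filter (fun p => p.1 = w)).card := by
            rw [← card_image_of_injective Zv hinj]
            refine card_le_card ?_
            intro p hp
            refine mem_filter.2 ⟨mem_union_right _ hp, ?_⟩
            obtain ⟨z, -, rfl⟩ := mem_image.1 hp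
            rfl
          exact_mod_cast h2
        · have hw' : w ∈ (U \ Bad) \ R := by
            have := mem_sdiff.1 hw
            exact mem_sdiff.2 ⟨this.1, fun h => this.2 (mem_erase.2 ⟨hwv, h⟩)⟩
          refine le_trans (hQ3 w hw') ?_
          have h2 : (Q.filter (fun p => p.1 = w)).card ≤
              ((Q ∪ Zv.image (fun z => (v, z))).filter (fun p => p.1 = w)).card :=
            card_le_card (filter_subset_filter _ subset_union_left)
          exact_mod_cast h2
      · rintro z ⟨p, hp, hpz⟩
        dsimp only at hp ⊢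
        -- pairs at `z`
        have hcard : ((Q ∪ Zv.image (fun z => (v, z))).filter (fun p => p.2 = z)).card =
            (Q.filter (fun p => p.2 = z)).card + (if z ∈ Zv then 1 else 0) := by
          rw [filter_union, card_union_of_disjoint
            (disjoint_filter_filter hdisj)]
          congr 1
          split_ifs with hz
          · rw [card_eq_one]
            refine ⟨(v, z), ?_⟩
            ext q
            constructor
            · intro hq
              obtain ⟨hq1, hq2⟩ := mem_filter.1 hq
              obtain ⟨z', -, rfl⟩ := mem_image.1 hq1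
              dsimp only at hq2
              subst hq2
              exact mem_singleton_self _
            · intro hq
              rw [mem_singleton] at hq
              subst hq
              exact mem_filter.2 ⟨mem_image_of_mem _ hz, rfl⟩
          · rw [card_eq_zero, filter_eq_empty_iff]
            intro q hq hq2
            obtain ⟨z', hz', rfl⟩ := mem_image.1 hq
            dsimp only at hq2
            subst hq2
            exact hz hz'
        rw [hcard]
        by_cases hzZ : z ∈ Zv
        · rw [if_pos hzZ]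
          obtain ⟨hz1, hz2⟩ := mem_filter.1 hzZ
          have hvz : v ∈ nb z ∩ R := mem_inter.2 ⟨hsymm v z (mem_inter.1 hz1).1, hv⟩
          have h3 : (nb z ∩ R.erase v).card + 1 = (nb z ∩ R).card := by
            rw [inter_erase, card_erase_add_one hvz]
          have h3' : ((nb z ∩ R.erase v).card : ℝ) + 1 = ((nb z ∩ R).card : ℝ) := by
            exact_mod_cast h3
          push_cast
          by_cases hex : ∃ p ∈ Q, p.2 = z
          · have := hQ4 z hex
            linarith
          · have h4 : (Q.filter (fun p => p.2 = z)).card = 0 := by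
              rw [card_eq_zero, filter_eq_empty_iff]
              intro q hq hq2
              exact hex ⟨q, hq, hq2⟩
            rw [h4]
            push_cast
            linarith
        · rw [if_neg hzZ, add_zero]
          have hex : ∃ p ∈ Q, p.2 = z := by
            rcases mem_union.1 hp with hp | hp
            · exact ⟨p, hp, hpz⟩
            · obtain ⟨z', hz', rfl⟩ := mem_image.1 hp
              dsimp only at hpz
              subst hpz
              exact absurd hz' hzZ
          have h5 := hQ4 z hex
          refine lt_of_le_of_lt ?_ h5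
          have h6 : (nb z ∩ R.erase v).card ≤ (nb z ∩ R).card :=
            card_le_card (inter_subset_inter_left (erase_subset _ _))
          have h6' : ((nb z ∩ R.erase v).card : ℝ) ≤ ((nb z ∩ R).card : ℝ) := by exact_mod_cast h6
          linarith
      · dsimp only
        refine hS.trans (sum_le_sum fun x _ => ?_)
        have h6 : (nb x ∩ (U \ R)).card ≤ (nb x ∩ (U \ R.erase v)).card :=
          card_le_card (inter_subset_inter_left (sdiff_subset_sdiff (Subset.refl _) (erase_subset _ _)))
        exact_mod_cast h6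
  · -- no centre can be added
    intro x hx
    by_contra hcon
    push Not at hcon
    obtain ⟨hxA, hxA'⟩ := mem_sdiff.1 hx
    have h1 := hmin' (insert x A', R, Q) ?_
    · dsimp only at h1
      have h2 : A \ insert x A' = (A \ A').erase x := by
        ext y
        simp only [mem_sdiff, mem_insert, mem_erase]
        tauto
      rw [h2, card_erase_of_mem hx] at h1
      have : 0 < (A \ A').card := card_pos.2 ⟨x, hx⟩
      omega
    · refine ⟨?_, hR, hQ1, ?_, hQ3, hQ4, ?_⟩
      · intro y hy
        rcases mem_insert.1 hy with rfl | hy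
        · exact hxA
        · exact hA hy
      · intro p hp
        exact mem_insert_of_mem (hQ2 p hp)
      · dsimp only
        rw [card_insert_of_notMem hxA', sum_insert hxA']
        push_cast
        nlinarith
  · -- counting
    set N := (U \ Bad) \ R with hN
    have h1 : (N.card : ℝ) * (η * D) ≤ (Q.card : ℝ) := by
      have h2 : Q.card = ∑ v ∈ N, (Q.filter (fun p => p.1 = v)).card :=
        card_eq_sum_card_fiberwise (fun p hp => hQ1 p hp)
      rw [h2]
      push_cast
      rw [← nsmul_eq_mul]
      exact card_nsmul_le_sum _ _ _ hQ3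
    have h2 : (Q.card : ℝ) ≤ (A'.card : ℝ) * (D / M) := by
      have h3 : Q.card = ∑ z ∈ A', (Q.filter (fun p => p.2 = z)).card :=
        card_eq_sum_card_fiberwise (fun p hp => hQ2 p hp)
      rw [h3]
      push_cast
      rw [← nsmul_eq_mul]
      refine sum_le_card_nsmul _ _ _ ?_
      intro z _
      by_cases hex : ∃ p ∈ Q, p.2 = z
      · have := hQ4 z hex
        have h4 : (0 : ℝ) ≤ ((nb z ∩ R).card : ℝ) := Nat.cast_nonneg _
        linarith
      · have h4 : (Q.filter (fun p => p.2 = z)).card = 0 := by
          rw [card_eq_zero, filter_eq_empty_iff]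
          intro q hq hq2
          exact hex ⟨q, hq, hq2⟩
        rw [h4]
        push_cast
        exact hDM.le
    -- double counting
    have h3 : (∑ x ∈ A', ((nb x ∩ N).card : ℝ)) ≤ (N.card : ℝ) * D := by
      have h4 : ∑ x ∈ A', (nb x ∩ N).card = ∑ v ∈ N, (nb v ∩ A').card := by
        have h5 : ∀ x ∈ A', (nb x ∩ N).card = ∑ v ∈ N, if v ∈ nb x then 1 else 0 := by
          intro x _
          rw [inter_comm, ← filter_mem_eq_inter, card_filter]
        have h6 : ∀ v ∈ N, (nb v ∩ A').card = ∑ x ∈ A', if x ∈ nb v then 1 else 0 := by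
          intro x _
          rw [inter_comm, ← filter_mem_eq_inter, card_filter]
        rw [sum_congr rfl h5, sum_congr rfl h6, sum_comm]
        refine sum_congr rfl fun v _ => sum_congr rfl fun x _ => ?_
        by_cases hvx : v ∈ nb x
        · rw [if_pos hvx, if_pos (hsymm _ _ hvx)]
        · rw [if_neg hvx, if_neg (fun h => hvx (hsymm _ _ h))]
      have h5 : ∑ x ∈ A', (nb x ∩ N).card ≤ N.card * D := by
        rw [h4, ← smul_eq_mul]
        refine sum_le_card_nsmul _ _ _ ?_
        intro v _
        exact (card_le_card inter_subset_left).trans (hdeg v)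
      exact_mod_cast h5
    have h4 : ∀ x ∈ A', ((nb x ∩ (U \ R)).card : ℝ) ≤
        ((nb x ∩ (U ∩ Bad)).card : ℝ) + ((nb x ∩ N).card : ℝ) := by
      intro x _
      have h5 : nb x ∩ (U \ R) ⊆ (nb x ∩ (U ∩ Bad)) ∪ (nb x ∩ N) := by
        intro y hy
        simp only [hN, mem_inter, mem_sdiff, mem_union] at hy ⊢
        tauto
      have h6 : (nb x ∩ (U \ R)).card ≤ (nb x ∩ (U ∩ Bad)).card + (nb x ∩ N).card :=
        (card_le_card h5).trans (card_union_le _ _)
      exact_mod_cast h6
    have h5 : (A'.card : ℝ) * (θ * D) ≤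
        ∑ x ∈ A', ((nb x ∩ (U ∩ Bad)).card : ℝ) + (N.card : ℝ) * D := by
      refine hS.trans ((sum_le_sum h4).trans ?_)
      rw [sum_add_distrib]
      linarith
    have h6 : ∑ x ∈ A', ((nb x ∩ (U ∩ Bad)).card : ℝ) ≤ ∑ x ∈ A, ((nb x ∩ (U ∩ Bad)).card : ℝ) :=
      sum_le_sum_of_subset_of_nonneg hA (fun _ _ _ => Nat.cast_nonneg _)
    -- `|N| ≤ |A'| θ / 2`
    have h7 : (N.card : ℝ) ≤ (A'.card : ℝ) * θ / 2 := by
      have h8 : (N.card : ℝ) * (η * D) ≤ (A'.card : ℝ) * (D / M) := h1.trans h2
      have h9 : (N.card : ℝ) * (M * η) ≤ (A'.card : ℝ) := by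
        have h10 : (N.card : ℝ) * (M * η) * D ≤ (A'.card : ℝ) * D := by
          have h11 := mul_le_mul_of_nonneg_left h8 hM.le
          have h12 : M * ((A'.card : ℝ) * (D / M)) = (A'.card : ℝ) * D := by
            field_simp
          rw [h12] at h11
          linarith
        exact le_of_mul_le_mul_right h10 hDR
      have hN0 : (0 : ℝ) ≤ (N.card : ℝ) := Nat.cast_nonneg _
      have h13 : (N.card : ℝ) * 2 ≤ (N.card : ℝ) * (M * η * θ) :=
        mul_le_mul_of_nonneg_left hMηθ hN0
      have h14 : (N.card : ℝ) * (M * η * θ) ≤ (A'.card : ℝ) * θ := by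
        have := mul_le_mul_of_nonneg_right h9 hθ.le
        linarith
      linarith
    have h8 : (N.card : ℝ) * D ≤ (A'.card : ℝ) * (θ * D) / 2 := by
      have := mul_le_mul_of_nonneg_right h7 hDR.le
      linarith
    linarith

end Pool.Agent.SQ
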