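import Pool.Agent.Lib.MP_026281_co.PartA
import Pool.Agent.Lib.MP_026281_co.Iface
import Pool.Agent.Lib.MP_026281_co.LLL1
import Pool.Agent.Lib.MP_026281_co.Final
import Pool.Agent.Lib.MP_026281_co.AsyEv

/-!
# MP_026281_co: Theorem A and the bound for squares
-/

set_option autoImplicit false
set_option linter.unusedSectionVars false

namespace Pool.Agent.SQ

open Finset

/-- Theorem A for given parameters: lists of size exactly `s` -/
theorem core {V C : Type} [Fintype V] [LinearOrder V] [Fintype C] [DecidableEq C]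
    (nb : V → Finset V) (hsymm : ∀ u v, v ∈ nb u → u ∈ nb v) {k s : ℕ}
    {r m ell M t : ℕ} {δ θ η om K κ3 lam : ℝ} {P : NP}
    (hA : AllNum k s r m ell M t δ θ η om K κ3 lam P)
    (hdeg : ∀ v, (nb v).card ≤ k ^ 2) (φ : V → ℕ) (hφ : ∀ v, φ v < k)
    (hprop : ∀ u v, v ∈ nb u → φ u ≠ φ v) (L : V → Finset C) (hL : ∀ v, (L v).card = s) :
    ∃ σ : V → C, (∀ v, σ v ∈ L v) ∧ ∀ u v, v ∈ nb u → σ u ≠ σ v := by
  classical
  have hm := hA.hm
  have hkrm := hA.hkrm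
  have hbr : ∀ v, φ v / m < r := fun v => by
    rw [Nat.div_lt_iff_lt_mul hm]
    exact lt_of_lt_of_le (hφ v) hkrm
  have har : ∀ v, φ v % m < m := fun v => Nat.mod_lt _ hm
  set b : V → Fin r := fun v => ⟨φ v / m, hbr v⟩ with hb
  set a : V → Fin m := fun v => ⟨φ v % m, har v⟩ with ha
  have hirr : ∀ v, v ∉ nb v := fun v h => hprop v v h rfl
  have hprop' : ∀ u v, v ∈ nb u → b u = b v → a u ≠ a v := by
    intro u v huv h1 h2
    rw [hb] at h1
    rw [ha] at h2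
    simp only [Fin.mk.injEq] at h1 h2
    refine hprop u v huv ?_
    rw [← Nat.div_add_mod (φ u) m, ← Nat.div_add_mod (φ v) m, h1, h2]
  have hk2 := hA.hk
  obtain ⟨st⟩ := partA nb (D := k ^ 2) (s := s) (m := m) (r := r) (ell := ell) (M := M) L b a
    (δ := δ) (θ := θ) (η := η) (by omega) hA.hm hA.hs hA.hM hA.hδ hA.hδ1 hA.hθ hA.hθ1 hA.hη
    hA.hMηθ hA.hsu hsymm hdeg hprop' hL (by exact_mod_cast hA.hq)
  have i1 : NeZero (k ^ 2) := ⟨by omega⟩
  have i2 : NeZero t := ⟨by have := hA.ht; omega⟩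
  have i3 : NeZero r := ⟨by have := hA.hr; omega⟩
  obtain ⟨Sg, hI⟩ := iface_of_str (t := t) st P hk2 hA.ht hA.hm hA.hM hA.hell hA.hs hA.hsl hsymm
    hirr hdeg hA.hδ hA.hδ1 hA.hθ.le hA.hom hA.hom4 hA.hη8 hA.hp0 hA.hK hA.hκ
  obtain ⟨ω, hω⟩ := exists_good hI hA.hB
  obtain ⟨σ, hσ1, hσ2⟩ := color_of_good hI hA.hB ω hω
  exact ⟨σ, fun v => st.sub v (Ls_sub st v (hσ1 v)), hσ2⟩

/-- Theorem A: a graph of maximum degree at most `k ^ 2` with a proper `k`-colouring can be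
coloured from lists of size `⌈ε k ^ 2⌉`, for `k` large in terms of `ε` -/
theorem theoremA {ε : ℝ} (hε : 0 < ε) (hε1 : ε ≤ 1) :
    ∃ k0 : ℕ, ∀ k ≥ k0, ∀ (V : Type) [Fintype V] (H : SimpleGraph V)
      (_ : ∀ v (s : Finset V), (∀ w ∈ s, H.Adj v w) → s.card ≤ k ^ 2)
      (φ : V → ℕ) (_ : ∀ v, φ v < k) (_ : ∀ u v, H.Adj u v → φ u ≠ φ v)
      (L : V → Finset ℕ) (_ : ∀ v, ⌈ε * (k : ℝ) ^ 2⌉₊ ≤ (L v).card),
      ∃ σ : V → ℕ, (∀ v, σ v ∈ L v) ∧ ∀ u v, H.Adj u v → σ u ≠ σ v := by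
  obtain ⟨k0, hk0⟩ := exists_allNum hε hε1
  refine ⟨k0, fun k hk V _ H hdeg φ hφ hprop L hL => ?_⟩
  classical
  obtain ⟨r, m, ell, M, t, δ, θ, η, om, K, κ3, lam, P, hA⟩ := hk0 k hk
  let lo : LinearOrder V := LinearOrder.lift' (Fintype.equivFin V) (Fintype.equivFin V).injective
  -- trim the lists
  have hsub : ∀ v, ∃ A ⊆ L v, A.card = ⌈ε * (k : ℝ) ^ 2⌉₊ := fun v =>
    Finset.exists_subset_card_eq (hL v)
  choose A hA1 hA2 using hsub
  set Cs : Finset ℕ := univ.biUnion A with hCs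
  have hAC : ∀ v, A v ⊆ Cs := fun v => Finset.subset_biUnion_of_mem A (Finset.mem_univ v)
  set L' : V → Finset Cs := fun v => (A v).subtype (fun c => c ∈ Cs) with hL'
  have hcard : ∀ v, (L' v).card = ⌈ε * (k : ℝ) ^ 2⌉₊ := by
    intro v
    rw [← hA2 v, hL', Finset.card_subtype]
    congr 1
    rw [Finset.filter_eq_self]
    exact fun c hc => hAC v hc
  set nb : V → Finset V := fun v => univ.filter (fun w => H.Adj v w) with hnb
  have hmem : ∀ u v, v ∈ nb u ↔ H.Adj u v := by intro u v; simp [hnb]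
  obtain ⟨σ, h1, h2⟩ := core nb (fun u v h => (hmem v u).2 ((hmem u v).1 h).symm) hA
    (fun v => hdeg v (nb v) (fun w hw => (hmem v w).1 hw)) φ hφ
    (fun u v h => hprop u v ((hmem u v).1 h)) L' hcard
  refine ⟨fun v => (σ v : ℕ), fun v => ?_, fun u v huv h => ?_⟩
  · have := h1 v
    rw [hL', Finset.mem_subtype] at this
    exact hA1 v this
  · exact h2 u v ((hmem u v).2 huv) (Subtype.ext h)

end Pool.Agent.SQ
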