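import Pool.Agent.Lib.MP_026281_co.NibDet

/-!
# MP_026281_co, P9: expectations for the nibble with fixed `S` and stages
-/

set_option autoImplicit false
set_option linter.unusedSectionVars false

namespace Pool.Agent.SQ

open Finset

section Fin

theorem ex_ind_lt {N : ℕ} {n : ℕ} (hn : n ≤ N) :
    ex (fun x : Fin N => ind ((x : ℕ) < n)) = (n : ℝ) / N := by
  unfold ex
  rw [Fintype.card_fin]
  congr 1
  have h : ∀ x : Fin N, ind ((x : ℕ) < n) = if (x : ℕ) < n then (1 : ℝ) else 0 := by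
    intro x
    by_cases hx : (x : ℕ) < n
    · rw [ind_of hx, if_pos hx]
    · rw [ind_of_not hx, if_neg hx]
  rw [Finset.sum_congr rfl (fun x _ => h x), Finset.sum_boole]
  norm_cast
  rw [Fin.card_filter_val_lt, min_eq_right hn]

theorem ex_ind_not_lt {N : ℕ} (hN : 0 < N) {n : ℕ} (hn : n ≤ N) :
    ex (fun x : Fin N => ind (¬ (x : ℕ) < n)) = 1 - (n : ℝ) / N := by
  have : Nonempty (Fin N) := ⟨⟨0, hN⟩⟩
  rw [ex_congr (fun x : Fin N => ind_not ((x : ℕ) < n)), ex_sub, ex_const, ex_ind_lt hn]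

end Fin

section Nib

variable {V : Type} [Fintype V] [DecidableEq V] (P : NP) (nb : V → Finset V) (S : Finset V)
  (stg : V → ℕ)

/-- coordinates of stage `i` -/
def stA (i : ℕ) : Finset V := univ.filter (fun w => stg w = i)

theorem mem_stA {i : ℕ} {w : V} : w ∈ stA stg i ↔ stg w = i := by simp [stA]

theorem nst_congr {i : ℕ} {ξ ξ' : V → ℕ} (h : ∀ w, stg w < i → ξ w = ξ' w) (v : V) :
    nst P nb S stg ξ i v = nst P nb S stg ξ' i v := by
  induction i generalizing v with
  | zero => rfl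
  | succ i ih =>
    have ih' : nst P nb S stg ξ i = nst P nb S stg ξ' i :=
      funext (ih (fun w hw => h w (hw.trans (Nat.lt_succ_self i))))
    have hnp : ∀ (p : V → ℝ) (w : V), nprop P stg ξ p i w ↔ nprop P stg ξ' p i w := by
      intro p w
      unfold nprop
      refine and_congr_right (fun hw => ?_)
      rw [h w (by omega)]
    rw [nst, nst, ih']
    classical
    refine Prod.ext ?_ rfl
    exact if_congr (or_congr_left (exists_congr fun w => and_congr_right fun _ => hnp _ w)) rfl rfl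

theorem np_congr {i : ℕ} {ξ ξ' : V → ℕ} (h : ∀ w, stg w < i → ξ w = ξ' w) (v : V) :
    np P nb S stg ξ i v = np P nb S stg ξ' i v := by
  unfold np; rw [nst_congr P nb S stg h v]

theorem ny_congr {i : ℕ} {ξ ξ' : V → ℕ} (h : ∀ w, stg w < i → ξ w = ξ' w) (v : V) :
    ny P nb S stg ξ i v = ny P nb S stg ξ' i v := by
  unfold ny; rw [nst_congr P nb S stg h v]

/-- weight as a function of the random variables -/
noncomputable abbrev pf (i : ℕ) (v : V) (ω : V → Fin P.N) : ℝ :=
  np P nb S stg (fun w => (ω w : ℕ)) i v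

/-- exponent as a function of the random variables -/
noncomputable abbrev yf (i : ℕ) (v : V) (ω : V → Fin P.N) : ℝ :=
  ny P nb S stg (fun w => (ω w : ℕ)) i v

/-- proposals as a function of the random variables -/
abbrev prf (i : ℕ) (w : V) (ω : V → Fin P.N) : Prop :=
  nprop P stg (fun w => (ω w : ℕ)) (np P nb S stg (fun w => (ω w : ℕ)) i) i w

/-- proposal probabilities as a function of the random variables -/
noncomputable abbrev xf (i : ℕ) (w : V) (ω : V → Fin P.N) : ℝ :=
  nx P stg (np P nb S stg (fun w => (ω w : ℕ)) i) i w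

theorem pw_agree (i : ℕ) (ω ω' : V → Fin P.N) (w : V) (hw : stg w < i) :
    (((stA stg i).piecewise ω' ω w : Fin P.N) : ℕ) = (ω w : ℕ) := by
  rw [Finset.piecewise_eq_of_notMem]
  rw [mem_stA]; omega

theorem pf_pw (i : ℕ) (v : V) (ω ω' : V → Fin P.N) :
    pf P nb S stg i v ((stA stg i).piecewise ω' ω) = pf P nb S stg i v ω :=
  np_congr P nb S stg (fun w hw => pw_agree P stg i ω ω' w hw) v

theorem np_pw (i : ℕ) (ω ω' : V → Fin P.N) :
    np P nb S stg (fun w => ((stA stg i).piecewise ω' ω w : ℕ)) i =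
      np P nb S stg (fun w => (ω w : ℕ)) i :=
  funext (fun v => pf_pw P nb S stg i v ω ω')

theorem yf_pw (i : ℕ) (v : V) (ω ω' : V → Fin P.N) :
    yf P nb S stg i v ((stA stg i).piecewise ω' ω) = yf P nb S stg i v ω :=
  ny_congr P nb S stg (fun w hw => pw_agree P stg i ω ω' w hw) v

theorem xf_pw (i : ℕ) (w : V) (ω ω' : V → Fin P.N) :
    xf P nb S stg i w ((stA stg i).piecewise ω' ω) = xf P nb S stg i w ω := by
  unfold xf; rw [np_pw]

theorem yf_succ (i : ℕ) (v : V) (ω : V → Fin P.N) :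
    yf P nb S stg (i + 1) v ω = yf P nb S stg i v ω + 2 * ∑ w ∈ nb v, xf P nb S stg i w ω :=
  ny_succ P nb S stg _ i v

theorem yf_succ_pw (i : ℕ) (v : V) (ω ω' : V → Fin P.N) :
    yf P nb S stg (i + 1) v ((stA stg i).piecewise ω' ω) = yf P nb S stg (i + 1) v ω := by
  rw [yf_succ, yf_succ, yf_pw]
  simp only [xf_pw]

theorem prf_pw (i : ℕ) (w : V) (ω ω' : V → Fin P.N) :
    prf P nb S stg i w ((stA stg i).piecewise ω' ω) ↔
      stg w = i ∧ (ω' w : ℕ) < P.thr (pf P nb S stg i w ω) := by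
  unfold prf nprop
  rw [np_pw]
  refine and_congr_right (fun hw => ?_)
  show (((stA stg i).piecewise ω' ω w : Fin P.N) : ℕ) < _ ↔ _
  rw [Finset.piecewise_eq_of_mem _ _ _ ((mem_stA stg).2 hw)]

/-- the factor by which a neighbour `w` changes the weight -/
noncomputable def psi (i : ℕ) (w : V) (ω : V → Fin P.N) : ℝ :=
  ind (¬ prf P nb S stg i w ω) / (1 - xf P nb S stg i w ω)

theorem pf_succ_eq (i : ℕ) (v : V) (ω : V → Fin P.N) :
    pf P nb S stg (i + 1) v ω = pf P nb S stg i v ω * ind (¬ P.Y < yf P nb S stg (i + 1) v ω) *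
      ∏ w ∈ nb v, psi P nb S stg i w ω := by
  classical
  have h := np_succ P nb S stg (fun w => (ω w : ℕ)) i v
  rw [← ny_succ P nb S stg (fun w => (ω w : ℕ)) i v] at h
  unfold pf
  rw [h]
  unfold psi
  rw [Finset.prod_div_distrib]
  by_cases h1 : ∃ w ∈ nb v, nprop P stg (fun w => (ω w : ℕ))
      (np P nb S stg (fun w => (ω w : ℕ)) i) i w
  · rw [if_pos (Or.inl h1)]
    obtain ⟨w, hw, hw2⟩ := h1
    have : ∏ w ∈ nb v, ind (¬ prf P nb S stg i w ω) = 0 :=
      Finset.prod_eq_zero hw (ind_of_not (not_not.2 hw2))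
    rw [this]; simp
  · have h2 : ∏ w ∈ nb v, ind (¬ prf P nb S stg i w ω) = 1 := by
      refine Finset.prod_eq_one (fun w hw => ind_of ?_)
      push Not at h1
      exact h1 w hw
    rw [h2]
    by_cases h3 : P.Y < ny P nb S stg (fun w => (ω w : ℕ)) (i + 1) v
    · rw [if_pos (Or.inr h3), ind_of_not (not_not.2 h3)]; simp
    · rw [if_neg (not_or.2 ⟨h1, h3⟩), ind_of h3, mul_one, mul_one_div]

section hyp

variable (hN : 0 < P.N) (hβ : 0 ≤ P.β) (hp : 0 ≤ P.p0) (hY : 0 ≤ P.Y)
    (hx : P.β * (Real.exp P.Y * P.p0) ≤ 1 / 2)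

include hN hβ hp hY hx

theorem thr_le_N (i : ℕ) (w : V) (ω : V → Fin P.N) : P.thr (pf P nb S stg i w ω) ≤ P.N := by
  have h1 := thr_le P hβ (np_nonneg P nb S stg (fun w => (ω w : ℕ)) hβ hp hY hx i w)
  have h2 := np_le P nb S stg (fun w => (ω w : ℕ)) hβ hp hY hx i w
  have h3 : (P.thr (pf P nb S stg i w ω) : ℝ) ≤ P.N := by
    refine h1.trans ?_
    have h4 : P.β * np P nb S stg (fun w => (ω w : ℕ)) i w ≤ 1 := by
      have := mul_le_mul_of_nonneg_left h2 hβ
      linarith
    have h5 : (0 : ℝ) ≤ P.N := Nat.cast_nonneg _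
    nlinarith
  exact_mod_cast h3

theorem xf_nonneg (i : ℕ) (w : V) (ω : V → Fin P.N) : 0 ≤ xf P nb S stg i w ω :=
  nx_nonneg P stg _ _ _

theorem xf_le_pf (i : ℕ) (w : V) (ω : V → Fin P.N) :
    xf P nb S stg i w ω ≤ P.β * pf P nb S stg i w ω :=
  nx_le P stg hβ (np_nonneg P nb S stg _ hβ hp hY hx i w)

theorem xf_le (i : ℕ) (w : V) (ω : V → Fin P.N) :
    xf P nb S stg i w ω ≤ P.β * (Real.exp P.Y * P.p0) :=
  (xf_le_pf P nb S stg hN hβ hp hY hx i w ω).trans
    (mul_le_mul_of_nonneg_left (np_le P nb S stg _ hβ hp hY hx i w) hβ)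

theorem xf_le_half (i : ℕ) (w : V) (ω : V → Fin P.N) : xf P nb S stg i w ω ≤ 1 / 2 :=
  (xf_le P nb S stg hN hβ hp hY hx i w ω).trans hx

omit hN hβ hp hY hx in
theorem xf_zero_of_notMem (i : ℕ) (w : V) (hw : w ∉ S) (ω : V → Fin P.N) :
    xf P nb S stg i w ω = 0 := by
  unfold xf nx
  split_ifs
  · rw [np_zero_of_notMem P nb S stg _ i w hw]; simp [NP.xx, thr_zero]
  · rfl

omit hN hβ hp hY hx in
theorem xf_zero_of_ne (i : ℕ) (w : V) (hw : stg w ≠ i) (ω : V → Fin P.N) :
    xf P nb S stg i w ω = 0 := by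
  unfold xf nx
  rw [if_neg hw]

omit hN hβ hp hY hx in
theorem xf_eq (i : ℕ) (w : V) (hw : stg w = i) (ω : V → Fin P.N) :
    xf P nb S stg i w ω = (P.thr (pf P nb S stg i w ω) : ℝ) / P.N := by
  unfold xf nx
  rw [if_pos hw]; rfl

/-- average of the indicator of a proposal -/
theorem ex_prop (i : ℕ) (w : V) (hw : stg w = i) (ω : V → Fin P.N) :
    ex (fun x : Fin P.N => ind (stg w = i ∧ (x : ℕ) < P.thr (pf P nb S stg i w ω))) =
      xf P nb S stg i w ω := by
  rw [xf_eq P nb S stg i w hw,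
    ← ex_ind_lt (thr_le_N P nb S stg hN hβ hp hY hx i w ω)]
  exact ex_congr (fun x => ind_congr (by simp [hw]))

theorem ex_not_prop (i : ℕ) (w : V) (ω : V → Fin P.N) :
    ex (fun x : Fin P.N => ind (¬ (stg w = i ∧ (x : ℕ) < P.thr (pf P nb S stg i w ω)))) =
      1 - xf P nb S stg i w ω := by
  have : Nonempty (Fin P.N) := ⟨⟨0, hN⟩⟩
  by_cases hw : stg w = i
  · rw [ex_congr (fun x : Fin P.N => ind_not _), ex_sub, ex_const,
      ex_prop P nb S stg hN hβ hp hY hx i w hw ω]
  · rw [xf_zero_of_ne P nb S stg i w hw, sub_zero]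
    have : ∀ x : Fin P.N, ind (¬ (stg w = i ∧ (x : ℕ) < P.thr (pf P nb S stg i w ω))) = 1 :=
      fun x => ind_of (fun h => hw h.1)
    rw [ex_congr this, ex_const]

/-- resampling a stage: a neighbourhood product has mean one -/
theorem rs_psi_prod (i : ℕ) (T : Finset V) (ω : V → Fin P.N) :
    rs (stA stg i) (fun ω => ∏ w ∈ T, psi P nb S stg i w ω) ω = 1 := by
  have : Nonempty (Fin P.N) := ⟨⟨0, hN⟩⟩
  unfold rs psi
  simp only [xf_pw, prf_pw]
  rw [ex_pi_prod_on T (fun w (x : Fin P.N) => ind (¬ (stg w = i ∧ (x : ℕ) < P.thr (pf P nb S stg i w ω))) /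
    (1 - xf P nb S stg i w ω))]
  refine Finset.prod_eq_one (fun w _ => ?_)
  have h1 : ex (fun x : Fin P.N => ind (¬ (stg w = i ∧ (x : ℕ) < P.thr (pf P nb S stg i w ω))) /
      (1 - xf P nb S stg i w ω)) = (1 - xf P nb S stg i w ω) / (1 - xf P nb S stg i w ω) := by
    simp only [div_eq_mul_inv]
    rw [ex_mul_right, ex_not_prop P nb S stg hN hβ hp hY hx]
  rw [h1]
  have := xf_le_half P nb S stg hN hβ hp hY hx i w ω
  exact div_self (by linarith)

/-- resampling a stage: the product over two neighbourhoods -/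
theorem rs_psi_prod2 (i : ℕ) (T T' : Finset V) (ω : V → Fin P.N) :
    rs (stA stg i) (fun ω => (∏ w ∈ T, psi P nb S stg i w ω) *
      ∏ w ∈ T', psi P nb S stg i w ω) ω ≤
      Real.exp (2 * (P.β * (Real.exp P.Y * P.p0)) *
        (((T ∩ T' ∩ S).filter (fun w => stg w = i)).card : ℝ)) := by
  classical
  have : Nonempty (Fin P.N) := ⟨⟨0, hN⟩⟩
  have hone : ∀ w, 0 < 1 - xf P nb S stg i w ω := fun w => by
    have := xf_le_half P nb S stg hN hβ hp hY hx i w ω
    linarith
  -- rewrite as a product over all vertices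
  set g : V → Fin P.N → ℝ := fun w x =>
    (if w ∈ T then ind (¬ (stg w = i ∧ (x : ℕ) < P.thr (pf P nb S stg i w ω))) /
      (1 - xf P nb S stg i w ω) else 1) *
    (if w ∈ T' then ind (¬ (stg w = i ∧ (x : ℕ) < P.thr (pf P nb S stg i w ω))) /
      (1 - xf P nb S stg i w ω) else 1) with hg
  have h1 : rs (stA stg i) (fun ω => (∏ w ∈ T, psi P nb S stg i w ω) *
      ∏ w ∈ T', psi P nb S stg i w ω) ω = ∏ w, ex (g w) := by
    rw [← ex_pi_prod]
    unfold rs psi
    simp only [xf_pw, prf_pw]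
    refine ex_congr (fun ω' => ?_)
    rw [hg, Finset.prod_mul_distrib, Finset.prod_ite_mem, Finset.prod_ite_mem, Finset.univ_inter,
      Finset.univ_inter]
  rw [h1]
  have h2 : ∀ w, ex (g w) ≤ if w ∈ (T ∩ T' ∩ S).filter (fun w => stg w = i) then
      Real.exp (2 * (P.β * (Real.exp P.Y * P.p0))) else 1 := by
    intro w
    by_cases hT : w ∈ T
    · by_cases hT' : w ∈ T'
      · -- both
        have hgw : ex (g w) = 1 / (1 - xf P nb S stg i w ω) := by
          have : ∀ x : Fin P.N, g w x =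
              ind (¬ (stg w = i ∧ (x : ℕ) < P.thr (pf P nb S stg i w ω))) *
                (1 / (1 - xf P nb S stg i w ω) ^ 2) := by
            intro x
            simp only [hg, hT, hT', if_true]
            rw [div_mul_div_comm, ind_mul_self, ← pow_two, mul_one_div]
          rw [ex_congr this, ex_mul_right, ex_not_prop P nb S stg hN hβ hp hY hx]
          have := (hone w).ne'
          field_simp
        rw [hgw]
        by_cases hm : w ∈ (T ∩ T' ∩ S).filter (fun w => stg w = i)
        · rw [if_pos hm]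
          have h3 := exp_le_one_sub (xf_nonneg P nb S stg hN hβ hp hY hx i w ω)
            (xf_le_half P nb S stg hN hβ hp hY hx i w ω)
          have h4 : 1 / (1 - xf P nb S stg i w ω) ≤ Real.exp (2 * xf P nb S stg i w ω) := by
            rw [Real.exp_neg] at h3
            rw [one_div]
            exact inv_le_of_inv_le₀ (Real.exp_pos _) h3
          refine h4.trans (Real.exp_le_exp.2 ?_)
          have := xf_le P nb S stg hN hβ hp hY hx i w ω
          linarith
        · rw [if_neg hm]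
          have hz : xf P nb S stg i w ω = 0 := by
            by_cases hS : w ∈ S
            · refine xf_zero_of_ne P nb S stg i w (fun hst => hm ?_) ω
              simp [hT, hT', hS, hst]
            · exact xf_zero_of_notMem P nb S stg i w hS ω
          rw [hz]; norm_num
      · have hgw : ex (g w) = 1 := by
          have : ∀ x : Fin P.N, g w x =
              ind (¬ (stg w = i ∧ (x : ℕ) < P.thr (pf P nb S stg i w ω))) *
                (1 / (1 - xf P nb S stg i w ω)) := by
            intro x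
            simp only [hg, hT, hT', if_true, if_false]
            rw [mul_one, mul_one_div]
          rw [ex_congr this, ex_mul_right, ex_not_prop P nb S stg hN hβ hp hY hx]
          exact mul_one_div_cancel (hone w).ne'
        rw [hgw]
        split_ifs
        · exact Real.one_le_exp (by positivity)
        · exact le_rfl
    · have hnm : w ∉ (T ∩ T' ∩ S).filter (fun w => stg w = i) := by simp [hT]
      rw [if_neg hnm]
      by_cases hT' : w ∈ T'
      · have hgw : ex (g w) = 1 := by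
          have : ∀ x : Fin P.N, g w x =
              ind (¬ (stg w = i ∧ (x : ℕ) < P.thr (pf P nb S stg i w ω))) *
                (1 / (1 - xf P nb S stg i w ω)) := by
            intro x
            simp only [hg, hT, hT', if_true, if_false]
            rw [one_mul, mul_one_div]
          rw [ex_congr this, ex_mul_right, ex_not_prop P nb S stg hN hβ hp hY hx]
          exact mul_one_div_cancel (hone w).ne'
        rw [hgw]
      · have : ∀ x : Fin P.N, g w x = 1 := by
          intro x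
          simp only [hg, hT, hT', if_false, mul_one]
        rw [ex_congr this, ex_const]
  have h0 : ∀ w, 0 ≤ ex (g w) := by
    intro w
    refine ex_nonneg (fun x => ?_)
    have := (hone w).le
    refine mul_nonneg ?_ ?_
    · split_ifs
      · exact div_nonneg (ind_nonneg _) this
      · norm_num
    · split_ifs
      · exact div_nonneg (ind_nonneg _) this
      · norm_num
  refine (Finset.prod_le_prod (fun w _ => h0 w) (fun w _ => h2 w)).trans (le_of_eq ?_)
  rw [Finset.prod_ite_mem, Finset.univ_inter, Finset.prod_const, ← Real.exp_nat_mul]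
  congr 1; ring

/-- one step for the weight -/
theorem rs_pf_succ (i : ℕ) (v : V) (ω : V → Fin P.N) :
    rs (stA stg i) (pf P nb S stg (i + 1) v) ω =
      pf P nb S stg i v ω * ind (¬ P.Y < yf P nb S stg (i + 1) v ω) := by
  have h1 : pf P nb S stg (i + 1) v = fun ω =>
      (pf P nb S stg i v ω * ind (¬ P.Y < yf P nb S stg (i + 1) v ω)) *
        ∏ w ∈ nb v, psi P nb S stg i w ω := funext (fun ω => pf_succ_eq P nb S stg i v ω)
  rw [h1, rs_mul_left, rs_psi_prod P nb S stg hN hβ hp hY hx, mul_one]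
  intro ω ω'
  rw [pf_pw, yf_succ_pw]

/-- one step for the product of two weights -/
theorem rs_pf_succ2 (i : ℕ) (u v : V) (ω : V → Fin P.N) :
    rs (stA stg i) (fun ω => pf P nb S stg (i + 1) u ω * pf P nb S stg (i + 1) v ω) ω ≤
      (pf P nb S stg i u ω * pf P nb S stg i v ω) *
      Real.exp (2 * (P.β * (Real.exp P.Y * P.p0)) *
        (((nb u ∩ nb v ∩ S).filter (fun w => stg w = i)).card : ℝ)) := by
  have hnn : ∀ w ω, 0 ≤ pf P nb S stg i w ω := fun w ω =>
    np_nonneg P nb S stg _ hβ hp hY hx i w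
  have hps : ∀ w ω, 0 ≤ psi P nb S stg i w ω := by
    intro w ω
    unfold psi
    have := xf_le_half P nb S stg hN hβ hp hY hx i w ω
    exact div_nonneg (ind_nonneg _) (by linarith)
  have h1 : ∀ ω, pf P nb S stg (i + 1) u ω * pf P nb S stg (i + 1) v ω ≤
      (pf P nb S stg i u ω * pf P nb S stg i v ω) *
        ((∏ w ∈ nb u, psi P nb S stg i w ω) * ∏ w ∈ nb v, psi P nb S stg i w ω) := by
    intro ω
    rw [pf_succ_eq P nb S stg i u ω, pf_succ_eq P nb S stg i v ω]
    have a1 := hnn u ω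
    have a2 := hnn v ω
    have a3 : 0 ≤ ∏ w ∈ nb u, psi P nb S stg i w ω := Finset.prod_nonneg (fun w _ => hps w ω)
    have a4 : 0 ≤ ∏ w ∈ nb v, psi P nb S stg i w ω := Finset.prod_nonneg (fun w _ => hps w ω)
    have b1 : pf P nb S stg i u ω * ind (¬ P.Y < yf P nb S stg (i + 1) u ω) *
        ∏ w ∈ nb u, psi P nb S stg i w ω ≤ pf P nb S stg i u ω *
        ∏ w ∈ nb u, psi P nb S stg i w ω := by
      refine mul_le_mul_of_nonneg_right ?_ a3
      exact mul_le_of_le_one_right a1 (ind_le_one _)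
    have b2 : pf P nb S stg i v ω * ind (¬ P.Y < yf P nb S stg (i + 1) v ω) *
        ∏ w ∈ nb v, psi P nb S stg i w ω ≤ pf P nb S stg i v ω *
        ∏ w ∈ nb v, psi P nb S stg i w ω := by
      refine mul_le_mul_of_nonneg_right ?_ a4
      exact mul_le_of_le_one_right a2 (ind_le_one _)
    refine (mul_le_mul b1 b2 ?_ (by positivity)).trans (le_of_eq (by ring))
    exact mul_nonneg (mul_nonneg a2 (ind_nonneg _)) a4
  refine (rs_mono h1 ω).trans ?_
  rw [rs_mul_left]
  · exact mul_le_mul_of_nonneg_left (rs_psi_prod2 P nb S stg hN hβ hp hY hx i _ _ ω)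
      (mul_nonneg (hnn u ω) (hnn v ω))
  · intro ω ω'
    rw [pf_pw, pf_pw]

theorem ex_pf_le (i : ℕ) (v : V) : ex (pf P nb S stg i v) ≤ P.p0 := by
  have : Nonempty (Fin P.N) := ⟨⟨0, hN⟩⟩
  induction i with
  | zero =>
    refine ex_le_of_le (fun ω => ?_)
    rw [pf, np_zero]; split_ifs <;> simp [hp]
  | succ i ih =>
    refine le_trans ?_ ih
    rw [← ex_rs (stA stg i)]
    refine ex_mono (fun ω => ?_)
    rw [rs_pf_succ P nb S stg hN hβ hp hY hx]
    exact mul_le_of_le_one_right (np_nonneg P nb S stg _ hβ hp hY hx i v) (ind_le_one _)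

omit hN hβ hp hY hx in
theorem card_filter_lt_succ (A : Finset V) (i : ℕ) :
    ((A.filter (fun w => stg w < i + 1)).card : ℝ) =
      (A.filter (fun w => stg w < i)).card + (A.filter (fun w => stg w = i)).card := by
  have h : A.filter (fun w => stg w < i + 1) =
      A.filter (fun w => stg w < i) ∪ A.filter (fun w => stg w = i) := by
    rw [← Finset.filter_or]
    exact Finset.filter_congr (fun w _ => by omega)
  rw [h, Finset.card_union_of_disjoint]
  · push_cast; rfl
  · rw [Finset.disjoint_filter]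
    intro w _ h1 h2; omega

theorem nib_pair_aux (i : ℕ) (u v : V) :
    ex (fun ω => pf P nb S stg i u ω * pf P nb S stg i v ω) ≤
      P.p0 ^ 2 * Real.exp (2 * (P.β * (Real.exp P.Y * P.p0)) *
        (((nb u ∩ nb v ∩ S).filter (fun w => stg w < i)).card : ℝ)) := by
  have : Nonempty (Fin P.N) := ⟨⟨0, hN⟩⟩
  induction i with
  | zero =>
    refine ex_le_of_le (fun ω => ?_)
    rw [pf, pf, np_zero, np_zero]
    have h1 : (1 : ℝ) ≤ Real.exp (2 * (P.β * (Real.exp P.Y * P.p0)) *
        (((nb u ∩ nb v ∩ S).filter (fun w => stg w < 0)).card : ℝ)) :=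
      Real.one_le_exp (by positivity)
    have h2 : P.p0 ^ 2 ≤ P.p0 ^ 2 * Real.exp (2 * (P.β * (Real.exp P.Y * P.p0)) *
        (((nb u ∩ nb v ∩ S).filter (fun w => stg w < 0)).card : ℝ)) :=
      le_mul_of_one_le_right (by positivity) h1
    refine le_trans ?_ h2
    split_ifs
    · rw [pow_two]
    · rw [mul_zero]; positivity
    · rw [zero_mul]; positivity
    · rw [mul_zero]; positivity
  | succ i ih =>
    rw [← ex_rs (stA stg i)]
    refine (ex_mono (rs_pf_succ2 P nb S stg hN hβ hp hY hx i u v)).trans ?_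
    rw [ex_mul_right]
    refine (mul_le_mul_of_nonneg_right ih (Real.exp_pos _).le).trans (le_of_eq ?_)
    rw [mul_assoc, ← Real.exp_add, card_filter_lt_succ]
    congr 2; ring

theorem nib_pair' (i : ℕ) (u v : V) :
    ex (fun ξ : V → Fin P.N => np P nb S stg (fun w => (ξ w : ℕ)) i u *
      np P nb S stg (fun w => (ξ w : ℕ)) i v) ≤ nB P nb S u v := by
  have hW : 0 ≤ Real.exp P.Y * P.p0 := by positivity
  unfold nB
  by_cases hc : 2 * (P.β * (Real.exp P.Y * P.p0)) * ((nb u ∩ nb v ∩ S).card : ℝ) ≤ 1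
  · refine (nib_pair_aux P nb S stg hN hβ hp hY hx i u v).trans ?_
    have h1 : Real.exp (2 * (P.β * (Real.exp P.Y * P.p0)) *
        (((nb u ∩ nb v ∩ S).filter (fun w => stg w < i)).card : ℝ)) ≤ Real.exp 1 := by
      refine Real.exp_le_exp.2 (le_trans ?_ hc)
      refine mul_le_mul_of_nonneg_left ?_ (by positivity)
      exact_mod_cast Finset.card_filter_le _ _
    have h2 : 0 ≤ 2 * P.β * Real.exp P.Y ^ 2 * P.p0 ^ 3 * ((nb u ∩ nb v ∩ S).card : ℝ) := by
      positivity
    have h3 := mul_le_mul_of_nonneg_left h1 (by positivity : (0 : ℝ) ≤ P.p0 ^ 2)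
    linarith
  · push Not at hc
    have h1 : ex (fun ω => pf P nb S stg i u ω * pf P nb S stg i v ω) ≤
        (Real.exp P.Y * P.p0) * P.p0 := by
      have h2 : ∀ ω, pf P nb S stg i u ω * pf P nb S stg i v ω ≤
          (Real.exp P.Y * P.p0) * pf P nb S stg i v ω := fun ω =>
        mul_le_mul_of_nonneg_right (np_le P nb S stg _ hβ hp hY hx i u)
          (np_nonneg P nb S stg _ hβ hp hY hx i v)
      refine (ex_mono h2).trans ?_
      rw [ex_mul_left]
      exact mul_le_mul_of_nonneg_left (ex_pf_le P nb S stg hN hβ hp hY hx i v) hW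
    refine h1.trans ?_
    have h3 : (Real.exp P.Y * P.p0) * P.p0 ≤ (Real.exp P.Y * P.p0) * P.p0 *
        (2 * (P.β * (Real.exp P.Y * P.p0)) * ((nb u ∩ nb v ∩ S).card : ℝ)) :=
      le_mul_of_one_le_right (by positivity) hc.le
    refine h3.trans ?_
    have h4 : 0 ≤ Real.exp 1 * P.p0 ^ 2 := by positivity
    nlinarith

/-- sum of weights times proposal probabilities over a neighbourhood -/
theorem ex_pf_xf (i : ℕ) (v w : V) : ex (fun ω => pf P nb S stg i v ω * xf P nb S stg i w ω) ≤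
    if w ∈ S ∧ stg w = i then P.β * nB P nb S v w else 0 := by
  have : Nonempty (Fin P.N) := ⟨⟨0, hN⟩⟩
  split_ifs with h
  · have h2 : ∀ ω, pf P nb S stg i v ω * xf P nb S stg i w ω ≤
        P.β * (pf P nb S stg i v ω * pf P nb S stg i w ω) := by
      intro ω
      have := mul_le_mul_of_nonneg_left (xf_le_pf P nb S stg hN hβ hp hY hx i w ω)
        (np_nonneg P nb S stg (fun w => (ω w : ℕ)) hβ hp hY hx i v)
      refine this.trans (le_of_eq (by ring))
    refine (ex_mono h2).trans ?_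
    rw [ex_mul_left]
    exact mul_le_mul_of_nonneg_left (nib_pair' P nb S stg hN hβ hp hY hx i v w) hβ
  · refine ex_le_of_le (fun ω => ?_)
    have : xf P nb S stg i w ω = 0 := by
      by_cases hw : w ∈ S
      · exact xf_zero_of_ne P nb S stg i w (fun h' => h ⟨hw, h'⟩) ω
      · exact xf_zero_of_notMem P nb S stg i w hw ω
    rw [this, mul_zero]

omit hN hY hx in
theorem nB_nonneg (u v : V) : 0 ≤ nB P nb S u v := by
  unfold nB; positivity

theorem nib_phi_step (hY' : 0 < P.Y) (i : ℕ) (v : V) :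
    ex (fun ω => pf P nb S stg i v ω * (1 - yf P nb S stg i v ω / P.Y)) -
      2 * P.β / P.Y * ∑ w ∈ (nb v ∩ S).filter (fun w => stg w = i), nB P nb S v w ≤
    ex (fun ω => pf P nb S stg (i + 1) v ω * (1 - yf P nb S stg (i + 1) v ω / P.Y)) := by
  have : Nonempty (Fin P.N) := ⟨⟨0, hN⟩⟩
  have h1 : ex (fun ω => pf P nb S stg (i + 1) v ω * (1 - yf P nb S stg (i + 1) v ω / P.Y)) =
      ex (fun ω => (1 - yf P nb S stg (i + 1) v ω / P.Y) *
        (pf P nb S stg i v ω * ind (¬ P.Y < yf P nb S stg (i + 1) v ω))) := by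
    rw [← ex_rs (stA stg i)]
    refine ex_congr (fun ω => ?_)
    have h2 : (fun ω => pf P nb S stg (i + 1) v ω * (1 - yf P nb S stg (i + 1) v ω / P.Y)) =
        fun ω => (1 - yf P nb S stg (i + 1) v ω / P.Y) * pf P nb S stg (i + 1) v ω :=
      funext (fun ω => mul_comm _ _)
    rw [h2, rs_mul_left, rs_pf_succ P nb S stg hN hβ hp hY hx]
    intro ω ω'
    rw [yf_succ_pw]
  rw [h1]
  have h3 : ∀ ω, pf P nb S stg i v ω * (1 - yf P nb S stg i v ω / P.Y) -
      2 / P.Y * ∑ w ∈ nb v, pf P nb S stg i v ω * xf P nb S stg i w ω ≤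
      (1 - yf P nb S stg (i + 1) v ω / P.Y) *
        (pf P nb S stg i v ω * ind (¬ P.Y < yf P nb S stg (i + 1) v ω)) := by
    intro ω
    have h4 : pf P nb S stg i v ω * (1 - yf P nb S stg i v ω / P.Y) -
      2 / P.Y * ∑ w ∈ nb v, pf P nb S stg i v ω * xf P nb S stg i w ω =
      pf P nb S stg i v ω * (1 - yf P nb S stg (i + 1) v ω / P.Y) := by
      rw [yf_succ, ← Finset.mul_sum]
      field_simp
      ring
    rw [h4]
    have h5 : 0 ≤ pf P nb S stg i v ω := np_nonneg P nb S stg _ hβ hp hY hx i v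
    by_cases hc : P.Y < yf P nb S stg (i + 1) v ω
    · rw [ind_of_not (not_not.2 hc), mul_zero, mul_zero]
      have h6 : 1 < yf P nb S stg (i + 1) v ω / P.Y := by rwa [lt_div_iff₀ hY', one_mul]
      nlinarith
    · rw [ind_of hc, mul_one, mul_comm]
  refine le_trans ?_ (ex_mono h3)
  rw [ex_sub, ex_mul_left, ex_sum]
  have h7 : ∑ w ∈ nb v, ex (fun ω => pf P nb S stg i v ω * xf P nb S stg i w ω) ≤
      P.β * ∑ w ∈ (nb v ∩ S).filter (fun w => stg w = i), nB P nb S v w := by
    refine (Finset.sum_le_sum (fun w _ => ex_pf_xf P nb S stg hN hβ hp hY hx i v w)).trans ?_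
    rw [← Finset.sum_filter, Finset.mul_sum]
    refine le_of_eq (Finset.sum_congr ?_ (fun _ _ => rfl))
    ext w; simp [and_assoc]
  have h8 : 2 / P.Y * ∑ w ∈ nb v, ex (fun ω => pf P nb S stg i v ω * xf P nb S stg i w ω) ≤
      2 * P.β / P.Y * ∑ w ∈ (nb v ∩ S).filter (fun w => stg w = i), nB P nb S v w := by
    refine (mul_le_mul_of_nonneg_left h7 (by positivity)).trans (le_of_eq ?_)
    ring
  linarith

theorem nib_phi (hY' : 0 < P.Y) (i : ℕ) (v : V) (hv : v ∈ S) :
    P.p0 - 2 * P.β / P.Y * ∑ w ∈ (nb v ∩ S).filter (fun w => stg w < i), nB P nb S v w ≤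
    ex (fun ω => pf P nb S stg i v ω * (1 - yf P nb S stg i v ω / P.Y)) := by
  have : Nonempty (Fin P.N) := ⟨⟨0, hN⟩⟩
  induction i with
  | zero =>
    have h1 : ∀ ω : V → Fin P.N, pf P nb S stg 0 v ω * (1 - yf P nb S stg 0 v ω / P.Y) = P.p0 := by
      intro ω
      rw [pf, yf, np_zero, ny_zero, if_pos hv]; simp
    rw [ex_congr h1, ex_const]
    simp
  | succ i ih =>
    refine le_trans ?_ (nib_phi_step P nb S stg hN hβ hp hY hx hY' i v)
    have h2 : ∑ w ∈ (nb v ∩ S).filter (fun w => stg w < i + 1), nB P nb S v w =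
        ∑ w ∈ (nb v ∩ S).filter (fun w => stg w < i), nB P nb S v w +
        ∑ w ∈ (nb v ∩ S).filter (fun w => stg w = i), nB P nb S v w := by
      rw [← Finset.sum_union]
      · refine Finset.sum_congr ?_ (fun _ _ => rfl)
        rw [← Finset.filter_or]
        exact Finset.filter_congr (fun w _ => by omega)
      · rw [Finset.disjoint_filter]
        intro w _ h1 h2; omega
    rw [h2, mul_add]
    linarith

theorem nib_mass' (hY' : 0 < P.Y) (i : ℕ) (v : V) (hv : v ∈ S) :
    P.p0 - 2 * P.β / P.Y * ∑ w ∈ nb v ∩ S, nB P nb S v w ≤ ex (pf P nb S stg i v) := by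
  refine le_trans ?_ ((nib_phi P nb S stg hN hβ hp hY hx hY' i v hv).trans ?_)
  · have h1 : ∑ w ∈ (nb v ∩ S).filter (fun w => stg w < i), nB P nb S v w ≤
        ∑ w ∈ nb v ∩ S, nB P nb S v w :=
      Finset.sum_le_sum_of_subset_of_nonneg (Finset.filter_subset _ _)
        (fun w _ _ => nB_nonneg P nb S hβ hp v w)
    have h2 := mul_le_mul_of_nonneg_left h1 (by positivity : 0 ≤ 2 * P.β / P.Y)
    linarith
  · refine ex_mono (fun ω => ?_)
    have h3 : 0 ≤ pf P nb S stg i v ω := np_nonneg P nb S stg _ hβ hp hY hx i v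
    have h4 : 0 ≤ yf P nb S stg i v ω / P.Y :=
      div_nonneg (ny_nonneg P nb S stg _ i v) hY
    nlinarith

/-- union bound for the cleaning -/
theorem pr_over {D : ℕ} (hdeg : ∀ v, (nb v).card ≤ D) (i : ℕ) (u : V) :
    pr (fun ω : V → Fin P.N => P.R < ((nb u).filter (fun w => @Decidable.decide
      (prf P nb S stg i w ω) (Classical.propDecidable _))).card) ≤
      (2 : ℝ) ^ (-(P.R : ℝ)) * Real.exp (D * (P.β * (Real.exp P.Y * P.p0))) := by
  classical
  have : Nonempty (Fin P.N) := ⟨⟨0, hN⟩⟩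
  have h1 : ∀ ω : V → Fin P.N, ind (P.R < ((nb u).filter (fun w => @Decidable.decide
      (prf P nb S stg i w ω) (Classical.propDecidable _))).card) ≤
      (2 : ℝ) ^ (-(P.R : ℝ)) * ∏ w ∈ nb u, (1 + ind (prf P nb S stg i w ω)) := by
    intro ω
    have h2 : ∏ w ∈ nb u, (1 + ind (prf P nb S stg i w ω)) =
        (2 : ℝ) ^ ((nb u).filter (fun w => @Decidable.decide
      (prf P nb S stg i w ω) (Classical.propDecidable _))).card := by
      rw [← Finset.prod_const, Finset.prod_filter]
      refine Finset.prod_congr rfl (fun w _ => ?_)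
      by_cases hw : prf P nb S stg i w ω
      · rw [ind_of hw, if_pos (by simpa using hw)]; norm_num
      · rw [ind_of_not hw, if_neg (by simpa using hw)]; norm_num
    rw [h2]
    by_cases hc : P.R < ((nb u).filter (fun w => @Decidable.decide
      (prf P nb S stg i w ω) (Classical.propDecidable _))).card
    · rw [ind_of hc, Real.rpow_neg (by norm_num), Real.rpow_natCast, ← div_eq_inv_mul,
        one_le_div (by positivity)]
      exact pow_le_pow_right₀ (by norm_num) hc.le
    · rw [ind_of_not hc]; positivity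
  refine (ex_mono h1).trans ?_
  rw [ex_mul_left]
  refine mul_le_mul_of_nonneg_left ?_ (by positivity)
  rw [← ex_rs (stA stg i)]
  refine ex_le_of_le (fun ω => ?_)
  have h3 : rs (stA stg i) (fun ω => ∏ w ∈ nb u, (1 + ind (prf P nb S stg i w ω))) ω =
      ∏ w ∈ nb u, (1 + xf P nb S stg i w ω) := by
    unfold rs
    simp only [prf_pw]
    rw [ex_pi_prod_on (nb u) (fun w (x : Fin P.N) =>
      1 + ind (stg w = i ∧ (x : ℕ) < P.thr (pf P nb S stg i w ω)))]
    refine Finset.prod_congr rfl (fun w _ => ?_)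
    rw [ex_add, ex_const]
    by_cases hw : stg w = i
    · rw [ex_prop P nb S stg hN hβ hp hY hx i w hw ω]
    · rw [xf_zero_of_ne P nb S stg i w hw]
      congr 1
      refine (ex_congr (fun x => ind_of_not (fun h => hw h.1))).trans (ex_const 0)
  rw [h3]
  calc ∏ w ∈ nb u, (1 + xf P nb S stg i w ω)
      ≤ ∏ w ∈ nb u, Real.exp (P.β * (Real.exp P.Y * P.p0)) := by
        refine Finset.prod_le_prod (fun w _ => ?_) (fun w _ => ?_)
        · have := xf_nonneg P nb S stg hN hβ hp hY hx i w ω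
          linarith
        · have h4 := xf_le P nb S stg hN hβ hp hY hx i w ω
          have h5 := Real.add_one_le_exp (P.β * (Real.exp P.Y * P.p0))
          linarith
    _ = Real.exp ((nb u).card * (P.β * (Real.exp P.Y * P.p0))) := by
        rw [Finset.prod_const, ← Real.exp_nat_mul]
    _ ≤ _ := by
        refine Real.exp_le_exp.2 (mul_le_mul_of_nonneg_right ?_ (by positivity))
        exact_mod_cast hdeg u

omit hN hβ hp hY hx in
theorem one_sub_sum_le_prod (A : Finset V) (x : V → ℝ) (h0 : ∀ w, 0 ≤ x w) (h1 : ∀ w, x w ≤ 1) :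
    1 - ∑ w ∈ A, x w ≤ ∏ w ∈ A, (1 - x w) := by
  induction A using Finset.induction_on with
  | empty => simp
  | insert a A ha ih =>
    rw [Finset.sum_insert ha, Finset.prod_insert ha]
    have h2 : ∏ w ∈ A, (1 - x w) ≤ 1 :=
      Finset.prod_le_one (fun w _ => by linarith [h1 w]) (fun w _ => by linarith [h0 w])
    have h3 : 0 ≤ ∏ w ∈ A, (1 - x w) := Finset.prod_nonneg (fun w _ => by linarith [h1 w])
    have h4 := h0 a
    have h5 := h1 a
    nlinarith

theorem nib_I' {D : ℕ} (hY' : 0 < P.Y) (hdeg : ∀ v, (nb v).card ≤ D)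
    (v : V) (hirr : v ∉ nb v) (hv : v ∈ S) (hst : stg v < P.T) :
    P.β * P.p0 - 2 * P.β ^ 2 / P.Y * ∑ w ∈ nb v ∩ S, nB P nb S v w
      - P.β ^ 2 * ∑ w ∈ (nb v ∩ S).filter (fun w => stg w = stg v), nB P nb S v w
      - nerr P D ≤
    pr (fun ξ : V → Fin P.N => v ∈ nI P nb S stg (fun w => (ξ w : ℕ))) := by
  classical
  have hne : Nonempty (Fin P.N) := ⟨⟨0, hN⟩⟩
  set i := stg v with hi
  -- lower bound for the indicator
  have h1 : ∀ ω : V → Fin P.N,
      ind (prf P nb S stg i v ω) * ∏ w ∈ nb v, ind (¬ prf P nb S stg i w ω) -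
      ∑ u ∈ nb v, ind (P.R < ((nb u).filter (fun w => @Decidable.decide
      (prf P nb S stg i w ω) (Classical.propDecidable _))).card) ≤
      ind (v ∈ nI P nb S stg (fun w => (ω w : ℕ))) := by
    intro ω
    by_cases hm : v ∈ nI P nb S stg (fun w => (ω w : ℕ))
    · rw [ind_of hm]
      have a1 : 0 ≤ ∑ u ∈ nb v, ind (P.R < ((nb u).filter (fun w => @Decidable.decide
        (prf P nb S stg i w ω) (Classical.propDecidable _))).card) :=
        Finset.sum_nonneg (fun _ _ => ind_nonneg _)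
      have a2 : ind (prf P nb S stg i v ω) * ∏ w ∈ nb v, ind (¬ prf P nb S stg i w ω) ≤ 1 := by
        refine mul_le_one₀ (ind_le_one _) (Finset.prod_nonneg (fun _ _ => ind_nonneg _)) ?_
        exact Finset.prod_le_one (fun _ _ => ind_nonneg _) (fun _ _ => ind_le_one _)
      linarith
    · rw [ind_of_not hm]
      by_cases b1 : prf P nb S stg i v ω
      · by_cases b2 : ∀ w ∈ nb v, ¬ prf P nb S stg i w ω
        · -- then cleaning fails
          have b3 : ∃ u ∈ nb v, P.R < ((nb u).filter (fun w => @Decidable.decide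
              (prf P nb S stg i w ω) (Classical.propDecidable _))).card := by
            by_contra hc
            push Not at hc
            exact hm ((mem_nI P nb S stg _).2 ⟨i, hst, b1, b2, hc⟩)
          obtain ⟨u, hu, hu2⟩ := b3
          have b4 : 1 ≤ ∑ u ∈ nb v, ind (P.R < ((nb u).filter (fun w => @Decidable.decide
              (prf P nb S stg i w ω) (Classical.propDecidable _))).card) := by
            have := Finset.single_le_sum (f := fun u => ind (P.R < ((nb u).filter
              (fun w => @Decidable.decide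
              (prf P nb S stg i w ω) (Classical.propDecidable _))).card))
              (fun _ _ => ind_nonneg _) hu
            rw [ind_of hu2] at this
            exact this
          have a2 : ind (prf P nb S stg i v ω) * ∏ w ∈ nb v, ind (¬ prf P nb S stg i w ω) ≤ 1 := by
            refine mul_le_one₀ (ind_le_one _) (Finset.prod_nonneg (fun _ _ => ind_nonneg _)) ?_
            exact Finset.prod_le_one (fun _ _ => ind_nonneg _) (fun _ _ => ind_le_one _)
          linarith
        · push Not at b2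
          obtain ⟨w, hw, hw2⟩ := b2
          rw [Finset.prod_eq_zero hw (ind_of_not (not_not.2 hw2)), mul_zero]
          have : 0 ≤ ∑ u ∈ nb v, ind (P.R < ((nb u).filter (fun w => @Decidable.decide
            (prf P nb S stg i w ω) (Classical.propDecidable _))).card) :=
            Finset.sum_nonneg (fun _ _ => ind_nonneg _)
          linarith
      · rw [ind_of_not b1, zero_mul]
        have : 0 ≤ ∑ u ∈ nb v, ind (P.R < ((nb u).filter (fun w => @Decidable.decide
          (prf P nb S stg i w ω) (Classical.propDecidable _))).card) :=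
          Finset.sum_nonneg (fun _ _ => ind_nonneg _)
        linarith
  refine le_trans ?_ (ex_mono h1)
  rw [ex_sub, ex_sum]
  -- cleaning
  have h2 : ∑ u ∈ nb v, ex (fun ω : V → Fin P.N => ind (P.R < ((nb u).filter
      (fun w => @Decidable.decide
      (prf P nb S stg i w ω) (Classical.propDecidable _))).card)) ≤
      D * ((2 : ℝ) ^ (-(P.R : ℝ)) * Real.exp (D * (P.β * (Real.exp P.Y * P.p0)))) := by
    refine (Finset.sum_le_card_nsmul _ _ _
      (fun u _ => pr_over P nb S stg hN hβ hp hY hx hdeg i u)).trans ?_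
    rw [nsmul_eq_mul]
    refine mul_le_mul_of_nonneg_right ?_ (by positivity)
    exact_mod_cast hdeg v
  -- main term
  have h3 : ex (fun ω : V → Fin P.N =>
      ind (prf P nb S stg i v ω) * ∏ w ∈ nb v, ind (¬ prf P nb S stg i w ω)) =
      ex (fun ω : V → Fin P.N => xf P nb S stg i v ω * ∏ w ∈ nb v, (1 - xf P nb S stg i w ω)) := by
    rw [← ex_rs (stA stg i)]
    refine ex_congr (fun ω => ?_)
    unfold rs
    simp only [prf_pw]
    have h4 := ex_pi_prod_on (insert v (nb v)) (fun w (x : Fin P.N) =>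
      if w = v then ind (stg w = i ∧ (x : ℕ) < P.thr (pf P nb S stg i w ω))
      else ind (¬ (stg w = i ∧ (x : ℕ) < P.thr (pf P nb S stg i w ω))))
    rw [Finset.prod_insert hirr] at h4
    simp only [if_true] at h4
    rw [ex_prop P nb S stg hN hβ hp hY hx i v rfl ω] at h4
    have h5 : ∏ w ∈ nb v, ex (fun x : Fin P.N =>
        if w = v then ind (stg w = i ∧ (x : ℕ) < P.thr (pf P nb S stg i w ω))
        else ind (¬ (stg w = i ∧ (x : ℕ) < P.thr (pf P nb S stg i w ω)))) =
        ∏ w ∈ nb v, (1 - xf P nb S stg i w ω) := by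
      refine Finset.prod_congr rfl (fun w hw => ?_)
      have hwv : w ≠ v := fun h => hirr (h ▸ hw)
      simp only [hwv, if_false]
      exact ex_not_prop P nb S stg hN hβ hp hY hx i w ω
    rw [h5] at h4
    rw [← h4]
    refine ex_congr (fun ω' => ?_)
    rw [Finset.prod_insert hirr]
    simp only [if_true]
    congr 1
    refine Finset.prod_congr rfl (fun w hw => ?_)
    have hwv : w ≠ v := fun h => hirr (h ▸ hw)
    simp only [hwv, if_false]
  rw [h3]
  have h6 : ∀ ω : V → Fin P.N, xf P nb S stg i v ω -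
      ∑ w ∈ nb v, P.β * (pf P nb S stg i v ω * xf P nb S stg i w ω) ≤
      xf P nb S stg i v ω * ∏ w ∈ nb v, (1 - xf P nb S stg i w ω) := by
    intro ω
    have c1 := one_sub_sum_le_prod (nb v) (fun w => xf P nb S stg i w ω)
      (fun w => xf_nonneg P nb S stg hN hβ hp hY hx i w ω)
      (fun w => (xf_le_half P nb S stg hN hβ hp hY hx i w ω).trans (by norm_num))
    have c2 := mul_le_mul_of_nonneg_left c1 (xf_nonneg P nb S stg hN hβ hp hY hx i v ω)
    refine le_trans ?_ c2
    rw [mul_sub, mul_one, Finset.mul_sum]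
    refine sub_le_sub_left (Finset.sum_le_sum (fun w _ => ?_)) _
    rw [← mul_assoc]
    exact mul_le_mul_of_nonneg_right (xf_le_pf P nb S stg hN hβ hp hY hx i v ω)
      (xf_nonneg P nb S stg hN hβ hp hY hx i w ω)
  have h7 := ex_mono h6
  rw [ex_sub, ex_sum] at h7
  have h8 : ∑ w ∈ nb v, ex (fun ω => P.β * (pf P nb S stg i v ω * xf P nb S stg i w ω)) ≤
      P.β ^ 2 * ∑ w ∈ (nb v ∩ S).filter (fun w => stg w = i), nB P nb S v w := by
    have d1 : ∀ w ∈ nb v, ex (fun ω => P.β * (pf P nb S stg i v ω * xf P nb S stg i w ω)) ≤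
        P.β * if w ∈ S ∧ stg w = i then P.β * nB P nb S v w else 0 := by
      intro w _
      rw [ex_mul_left]
      exact mul_le_mul_of_nonneg_left (ex_pf_xf P nb S stg hN hβ hp hY hx i v w) hβ
    refine (Finset.sum_le_sum d1).trans ?_
    rw [← Finset.mul_sum, ← Finset.sum_filter, ← Finset.mul_sum, ← mul_assoc, ← pow_two]
    refine le_of_eq (congrArg _ (Finset.sum_congr ?_ (fun _ _ => rfl)))
    ext w; simp [and_assoc]
  have h9 : P.β * ex (pf P nb S stg i v) - 1 / P.N ≤ ex (xf P nb S stg i v) := by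
    have e1 : ∀ ω : V → Fin P.N, P.β * pf P nb S stg i v ω - 1 / P.N ≤
        xf P nb S stg i v ω := by
      intro ω
      rw [xf_eq P nb S stg i v rfl]
      exact le_xx P hN _
    have e2 := ex_mono e1
    rw [ex_sub, ex_mul_left, ex_const] at e2
    exact e2
  have h10 := mul_le_mul_of_nonneg_left (nib_mass' P nb S stg hN hβ hp hY hx hY' i v hv) hβ
  have h11 : P.β * (P.p0 - 2 * P.β / P.Y * ∑ w ∈ nb v ∩ S, nB P nb S v w) =
      P.β * P.p0 - 2 * P.β ^ 2 / P.Y * ∑ w ∈ nb v ∩ S, nB P nb S v w := by ring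
  rw [h11] at h10
  unfold nerr
  have h12 : ex (xf P nb S stg i v) = ex (fun ω => xf P nb S stg i v ω) := rfl
  linarith

theorem nib_I_le' (v : V) :
    pr (fun ξ : V → Fin P.N => v ∈ nI P nb S stg (fun w => (ξ w : ℕ))) ≤
      P.β * (Real.exp P.Y * P.p0) := by
  have hne : Nonempty (Fin P.N) := ⟨⟨0, hN⟩⟩
  have hN' : (0 : ℝ) < P.N := by exact_mod_cast hN
  set n := ⌊(P.N : ℝ) * (P.β * (Real.exp P.Y * P.p0))⌋₊ with hn
  have hnN : n ≤ P.N := by
    have h1 : (n : ℝ) ≤ (P.N : ℝ) * (P.β * (Real.exp P.Y * P.p0)) :=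
      Nat.floor_le (by positivity)
    have h2 : (P.N : ℝ) * (P.β * (Real.exp P.Y * P.p0)) ≤ P.N := by nlinarith
    exact_mod_cast h1.trans h2
  have h1 : ∀ ξ : V → Fin P.N, v ∈ nI P nb S stg (fun w => (ξ w : ℕ)) → (ξ v : ℕ) < n := by
    intro ξ h
    rw [mem_nI] at h
    obtain ⟨i, _, ⟨_, h2⟩, _⟩ := h
    refine lt_of_lt_of_le h2 ?_
    unfold NP.thr
    refine Nat.floor_le_floor ?_
    refine mul_le_mul_of_nonneg_left (mul_le_mul_of_nonneg_left ?_ hβ) hN'.le
    exact np_le P nb S stg _ hβ hp hY hx i v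
  refine (pr_mono h1).trans ?_
  unfold pr
  rw [ex_pi_single v (fun x : Fin P.N => ind ((x : ℕ) < n)), ex_ind_lt hnN, div_le_iff₀ hN']
  have h1 : (n : ℝ) ≤ (P.N : ℝ) * (P.β * (Real.exp P.Y * P.p0)) :=
    Nat.floor_le (by positivity)
  linarith

end hyp

theorem nib_pair (hN : 0 < P.N) (hβ : 0 ≤ P.β) (hp : 0 ≤ P.p0) (hY : 0 ≤ P.Y)
    (hx : P.β * (Real.exp P.Y * P.p0) ≤ 1 / 2) (i : ℕ) (u v : V) (_hu : u ∈ S) (_hv : v ∈ S) :
    ex (fun ξ : V → Fin P.N => np P nb S stg (fun w => (ξ w : ℕ)) i u *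
      np P nb S stg (fun w => (ξ w : ℕ)) i v) ≤ nB P nb S u v :=
  nib_pair' P nb S stg hN hβ hp hY hx i u v

theorem nib_mass (hN : 0 < P.N) (hβ : 0 ≤ P.β) (hp : 0 ≤ P.p0) (hY : 0 < P.Y)
    (hx : P.β * (Real.exp P.Y * P.p0) ≤ 1 / 2) (i : ℕ) (v : V) (hv : v ∈ S) :
    P.p0 - 2 * P.β / P.Y * ∑ w ∈ nb v ∩ S, nB P nb S v w ≤
    ex (fun ξ : V → Fin P.N => np P nb S stg (fun w => (ξ w : ℕ)) i v) :=
  nib_mass' P nb S stg hN hβ hp hY.le hx hY i v hv

theorem nib_I {D : ℕ} (hN : 0 < P.N) (hβ : 0 ≤ P.β) (hp : 0 ≤ P.p0) (hY : 0 < P.Y)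
    (hx : P.β * (Real.exp P.Y * P.p0) ≤ 1 / 2) (hdeg : ∀ v, (nb v).card ≤ D)
    (v : V) (hirr : v ∉ nb v) (hv : v ∈ S) (hst : stg v < P.T) :
    P.β * P.p0 - 2 * P.β ^ 2 / P.Y * ∑ w ∈ nb v ∩ S, nB P nb S v w
      - P.β ^ 2 * ∑ w ∈ (nb v ∩ S).filter (fun w => stg w = stg v), nB P nb S v w
      - nerr P D ≤
    pr (fun ξ : V → Fin P.N => v ∈ nI P nb S stg (fun w => (ξ w : ℕ))) :=
  nib_I' P nb S stg hN hβ hp hY.le hx hY hdeg v hirr hv hst

theorem nib_I_le (hN : 0 < P.N) (hβ : 0 ≤ P.β) (hp : 0 ≤ P.p0) (hY : 0 ≤ P.Y)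
    (hx : P.β * (Real.exp P.Y * P.p0) ≤ 1 / 2) (v : V) :
    pr (fun ξ : V → Fin P.N => v ∈ nI P nb S stg (fun w => (ξ w : ℕ))) ≤
      P.β * (Real.exp P.Y * P.p0) :=
  nib_I_le' P nb S stg hN hβ hp hY hx v

end Nib

end Pool.Agent.SQ
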