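import Pool.Agent.Lib.MP_026281_co.Defs

/-!
# MP_026281_co: choice of the parameters
-/

set_option autoImplicit false
set_option linter.unusedSectionVars false

namespace Pool.Agent.SQ

open Finset Filter

/-- all numerical requirements for the squares of parameter `k`, lists of size `s` -/
structure AllNum (k s : ℕ) (r m ell M t : ℕ) (δ θ η om K κ3 lam : ℝ) (P : NP) : Prop where
  hr : 0 < r
  hm : 0 < m
  hkrm : k ≤ r * m
  hM : 0 < M
  ht : 2 ≤ t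
  hell : 0 < ell
  hs : 0 < s
  hk : 2 ≤ k ^ 2
  hsl : (s : ℝ) ≤ 8 * m * ell
  hsu : (ell : ℝ) ≤ s / (4 * m)
  hδ : 0 < δ
  hδ1 : δ ≤ 1
  hθ : 0 < θ
  hθ1 : θ ≤ 1
  hη : 0 < η
  hMηθ : 2 ≤ (M : ℝ) * η * θ
  hom : 0 < om
  hom4 : om ≤ δ / 4
  hη8 : η ≤ δ / 8
  hq : (2 * ((k ^ 2 : ℕ) : ℝ) + 1) * (2 : ℝ) ^ (-(δ * s / (16 * (m : ℝ) ^ 2))) < θ / 2
  hp0 : P.p0 = 1 / (ell * ((1 : ℝ) / (t * (M + 1 : ℕ) * r)) ^ t)
  hK : 256 * (((k ^ 2 : ℕ) : ℝ) / s) ≤ K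
  hκ : 24576 * ((1 - δ / 192) ^ t + (δ + θ / om)) * (((k ^ 2 : ℕ) : ℝ) / s) ^ 2 ≤ κ3
  hB : NumB P (k ^ 2) K κ3 (4 * s / m ^ 2) (128 * ((k ^ 2 : ℕ) : ℝ) / m) ell lam

/-- asymptotic requirements on `x = k` -/
structure Asy (ε c β W δ θ : ℝ) (t T : ℕ) (x : ℝ) : Prop where
  h8 : 8 ≤ ε * x
  hx3 : 3 ≤ x
  hr : Real.log x + 3 ≤ x ^ (1 / 100 : ℝ)
  hq : (c * (Real.log x + 3)) ^ t ≤ x ^ (1 / 100 : ℝ)
  hbad : (2 * x ^ 2 + 1) * (2 : ℝ) ^ (-(δ * ε / 64 * (Real.log x) ^ 2)) < θ / 2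
  hx : β * (16 * W / ε * x ^ (-(99 / 100) : ℝ)) ≤ 1 / 2
  herr1 : 2 * x ^ 2 / x ^ 4 ≤ β / 64
  herr2 : 2 * x ^ 4 * ((2 : ℝ) ^ (-(x ^ (3 / 2 : ℝ))) *
    Real.exp (β * (16 * W / ε) * x ^ (101 / 100 : ℝ))) ≤ β / 64
  hG : 2 * x ^ (1 / 8 : ℝ) * ((16 * W / ε) ^ 2 * (128 + 16 * T) * x ^ (-(46 / 100) : ℝ)) ≤ 1
  hGΓ : 4 * x ^ (1 / 4 : ℝ) * ((16 * W / ε) ^ 2 * (128 + 16 * T) * x ^ (-(46 / 100) : ℝ)) *
    ((16 * W / ε) ^ 2 * (128 + 8 * (β * W)) * x ^ (5 / 100 : ℝ)) ≤ 1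
  hL1 : (x ^ 2 + 1) ^ (2 * (T + 4)) *
    Real.exp (-(ε / (1024 * W) * x ^ (99 / 100 : ℝ))) ≤ 1 / 8
  hL2 : (x ^ 2 + 1) ^ (2 * (T + 4)) *
    Real.exp (-(x ^ (1 / 8 : ℝ) / 8192) + 1) ≤ 1 / 8

private theorem n_sq {m r x : ℝ} (hm : 0 < m) (hr : 0 < r) (h : m * r ≤ 2 * x) :
    m ^ 2 * r ^ 2 ≤ 4 * x ^ 2 := by
  have := pow_le_pow_left₀ (by positivity) h 2
  calc m ^ 2 * r ^ 2 = (m * r) ^ 2 := by ring
    _ ≤ (2 * x) ^ 2 := this
    _ = 4 * x ^ 2 := by ring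

private theorem n_sm {ε m r x s : ℝ} (hε : 0 < ε) (hm : 0 < m) (hs : ε * x ^ 2 ≤ s)
    (h : m ^ 2 * r ^ 2 ≤ 4 * x ^ 2) : ε / 4 * r ^ 2 ≤ s / m ^ 2 := by
  rw [le_div_iff₀ (by positivity)]
  calc ε / 4 * r ^ 2 * m ^ 2 = ε / 4 * (m ^ 2 * r ^ 2) := by ring
    _ ≤ ε / 4 * (4 * x ^ 2) := mul_le_mul_of_nonneg_left h (by positivity)
    _ = ε * x ^ 2 := by ring
    _ ≤ s := hs

private theorem n_s2 {ε x s : ℝ} (hε1 : ε ≤ 1) (hx : 1 ≤ x) (h : s < ε * x ^ 2 + 1) :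
    s ≤ 2 * x ^ 2 := by
  have h2 : ε * x ^ 2 ≤ 1 * x ^ 2 := mul_le_mul_of_nonneg_right hε1 (by positivity)
  have h3 : 1 ≤ x ^ 2 := one_le_pow₀ hx
  linarith

private theorem n_8 {ε x : ℝ} (hx : 0 < x) (h : 8 ≤ ε * x) : 8 * x ≤ ε * x ^ 2 := by
  calc 8 * x ≤ ε * x * x := mul_le_mul_of_nonneg_right h hx.le
    _ = ε * x ^ 2 := by ring

private theorem n_sl {s m ell : ℝ} (hm : 0 < m) (h1 : 1 ≤ ell) (h : s < 4 * m * (ell + 1)) :
    s ≤ 8 * m * ell := by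
  have : m * 1 ≤ m * ell := mul_le_mul_of_nonneg_left h1 hm.le
  have e : 4 * m * (ell + 1) = 4 * (m * ell) + 4 * (m * 1) := by ring
  have e2 : 8 * m * ell = 8 * (m * ell) := by ring
  rw [e] at h
  rw [e2]
  linarith

private theorem n_cap {x y m : ℝ} (hx : 0 < x) (h : x ≤ y * m) :
    128 * x ^ 2 ≤ 128 * (y * x) * m := by
  calc 128 * x ^ 2 = 128 * x * x := by ring
    _ ≤ 128 * x * (y * m) := mul_le_mul_of_nonneg_left h (by positivity)
    _ = _ := by ring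

private theorem n_tau {x y m s : ℝ} (hx : 0 < x) (h : x ≤ y * m) (hs : s ≤ 2 * x ^ 2) :
    4 * s ≤ 8 * (y * y) * m ^ 2 := by
  have h3 : x ^ 2 ≤ (y * m) ^ 2 := pow_le_pow_left₀ hx.le h 2
  calc 4 * s ≤ 8 * x ^ 2 := by linarith
    _ ≤ 8 * (y * m) ^ 2 := by linarith
    _ = _ := by ring

private theorem n_ell {x y m s : ℝ} (hx : 0 < x) (hy : 0 < y) (hm : 0 < m) (h : x ≤ y * m)
    (hs : s ≤ 2 * x ^ 2) : s ≤ y * x * (4 * m) := by
  have h3 : x * x ≤ x * (y * m) := mul_le_mul_of_nonneg_left h hx.le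
  have h4 : 0 ≤ x * (y * m) := by positivity
  calc s ≤ 2 * (x * x) := by linarith [hs, (by ring : x ^ 2 = x * x)]
    _ ≤ 4 * (x * (y * m)) := by linarith
    _ = _ := by ring

private theorem n_k {x : ℝ} {k : ℕ} (h : (k : ℝ) = x) (h3 : 3 ≤ x) : 2 ≤ k ^ 2 := by
  have : 3 ≤ k := by
    rw [← h] at h3
    exact_mod_cast h3
  calc 2 ≤ 3 ^ 2 := by norm_num
    _ ≤ k ^ 2 := Nat.pow_le_pow_left this 2

theorem exists_allNum_of_asy {ε c β W δ θ η om K κ3 Y : ℝ} {t T M : ℕ} (hε : 0 < ε) (hε1 : ε ≤ 1)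
    (hc : c = t * (M + 1 : ℕ)) (hβ : 0 < β) (hW : W = Real.exp Y)
    (hδ : 0 < δ) (hδ1 : δ ≤ 1) (hθ : 0 < θ) (hθ1 : θ ≤ 1) (hη : 0 < η) (ht : 2 ≤ t)
    (hM : 0 < M) (hMηθ : 2 ≤ (M : ℝ) * η * θ) (hom : 0 < om) (hom4 : om ≤ δ / 4)
    (hη8 : η ≤ δ / 8) (hK1 : 1 ≤ K) (hκ0 : 0 ≤ κ3) (hT : 0 < T)
    (hTK : 96 * β * K ≤ T) (hYK : 96 * β * K ≤ Y) (hκ3 : 2 * β * W ^ 2 * κ3 ≤ K / 4)
    (hleft : 49152 * K ≤ Real.exp (β / 16)) (hK : 256 * (1 / ε) ≤ K)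
    (hκ : 24576 * ((1 - δ / 192) ^ t + (δ + θ / om)) * (1 / ε) ^ 2 ≤ κ3)
    (k : ℕ) (hA : Asy ε c β W δ θ t T (k : ℝ)) :
    ∃ (r m ell : ℕ) (lam : ℝ) (P : NP),
      AllNum k ⌈ε * (k : ℝ) ^ 2⌉₊ r m ell M t δ θ η om K κ3 lam P := by
  set x : ℝ := (k : ℝ) with hx
  have hx0 : 0 < x := by have := hA.hx3; linarith
  have hx1 : 1 ≤ x := by have := hA.hx3; linarith
  have hkpos : 0 < k := by
    have : (0 : ℝ) < (k : ℝ) := hx0
    exact_mod_cast this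
  have hlog : 0 ≤ Real.log x := Real.log_nonneg hx1
  have hWpos : 0 < W := by rw [hW]; exact Real.exp_pos _
  -- r
  set r : ℕ := ⌈Real.log x⌉₊ + 1 with hrdef
  have hr1 : (1 : ℝ) ≤ r := by rw [hrdef]; push_cast; linarith [Nat.cast_nonneg (α := ℝ) ⌈Real.log x⌉₊]
  have hrlog : Real.log x ≤ r := by
    rw [hrdef]; push_cast
    have := Nat.le_ceil (Real.log x)
    linarith
  have hrle : (r : ℝ) ≤ Real.log x + 3 := by
    rw [hrdef]; push_cast
    have := Nat.ceil_lt_add_one hlog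
    linarith
  have hra : (r : ℝ) ≤ x ^ (1 / 100 : ℝ) := hrle.trans hA.hr
  have hxa : x ^ (1 / 100 : ℝ) ≤ x := by
    have := Real.rpow_le_rpow_of_exponent_le hx1 (by norm_num : (1 / 100 : ℝ) ≤ 1)
    rwa [Real.rpow_one] at this
  have hrx : (r : ℝ) ≤ x := hra.trans hxa
  have hrpos : 0 < r := by rw [hrdef]; omega
  have hr0 : (0 : ℝ) < r := by linarith
  -- m
  set m : ℕ := k / r + 1 with hmdef
  have hmpos : 0 < m := Nat.succ_pos _
  have hkrm : k ≤ r * m := by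
    rw [hmdef]
    have := Nat.lt_mul_div_succ k hrpos
    exact this.le
  have hm0 : (0 : ℝ) < m := by exact_mod_cast hmpos
  have hxrm : x ≤ r * m := by rw [hx]; exact_mod_cast hkrm
  have hm2 : (m : ℝ) * r ≤ 2 * x := by
    rw [hmdef]; push_cast
    have h1 : ((k / r : ℕ) : ℝ) ≤ x / r := by rw [hx]; exact Nat.cast_div_le
    have h2 : ((k / r : ℕ) : ℝ) * r ≤ x := by rwa [le_div_iff₀ hr0] at h1
    linarith
  have hm2x : (m : ℝ) ≤ 2 * x := by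
    have : (m : ℝ) ≤ m * r := le_mul_of_one_le_right hm0.le hr1
    linarith
  clear_value m r
  -- s
  set s : ℕ := ⌈ε * x ^ 2⌉₊ with hsdef
  have hs1 : ε * x ^ 2 ≤ s := Nat.le_ceil _
  have hεx2 : 0 < ε * x ^ 2 := by positivity
  have hs0 : (0 : ℝ) < s := lt_of_lt_of_le hεx2 hs1
  have hspos : 0 < s := by exact_mod_cast hs0
  have hs2 : (s : ℝ) ≤ 2 * x ^ 2 := by
    have h1 := Nat.ceil_lt_add_one hεx2.le
    rw [← hsdef] at h1
    exact n_s2 hε1 hx1 h1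
  -- ell
  set ell : ℕ := s / (4 * m) with helldef
  have h4m : 0 < 4 * m := by omega
  have hsu : (ell : ℝ) ≤ s / (4 * m) := by
    rw [helldef]
    have := Nat.cast_div_le (α := ℝ) (m := s) (n := 4 * m)
    push_cast at this
    exact this
  have hellpos : 0 < ell := by
    rw [helldef]
    refine Nat.div_pos ?_ h4m
    have h1 : ((4 * m : ℕ) : ℝ) ≤ s := by
      push_cast
      have h2 : 8 * x ≤ ε * x ^ 2 := n_8 hx0 hA.h8
      linarith
    exact_mod_cast h1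
  have hell0 : (0 : ℝ) < ell := by exact_mod_cast hellpos
  have hell1 : (1 : ℝ) ≤ ell := by exact_mod_cast hellpos
  have hsl : (s : ℝ) ≤ 8 * m * ell := by
    have h1 : s < 4 * m * (ell + 1) := by
      rw [helldef]
      exact Nat.lt_mul_div_succ s h4m
    have h2 : (s : ℝ) < 4 * m * (ell + 1) := by exact_mod_cast h1
    exact n_sl hm0 hell1 h2
  have helllow : ε * x * r / 16 ≤ ell := by
    rw [div_le_iff₀ (by norm_num)]
    have h1 : ε * x ^ 2 ≤ 8 * m * ell := hs1.trans hsl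
    have h2a : ε * x ^ 2 * r ≤ 8 * m * ell * r := mul_le_mul_of_nonneg_right h1 hr0.le
    have h2b : (m : ℝ) * r * ell ≤ 2 * x * ell := mul_le_mul_of_nonneg_right hm2 hell0.le
    have h3 : x * (ε * x * r) ≤ x * (ell * 16) := by
      have e1 : x * (ε * x * r) = ε * x ^ 2 * r := by ring
      have e2 : x * (ell * 16) = 8 * (2 * x * ell) := by ring
      have e3 : 8 * (m : ℝ) * ell * r = 8 * (m * r * ell) := by ring
      rw [e1, e2]
      rw [e3] at h2a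
      linarith
    exact le_of_mul_le_mul_left h3 hx0
  have helllow' : ε * x / 16 ≤ ell := by
    refine le_trans ?_ helllow
    have : ε * x ≤ ε * x * r := le_mul_of_one_le_right (by positivity) hr1
    linarith
  clear_value ell s
  -- q and p0
  set q : ℝ := (c * r) ^ t with hqdef
  have hM0 : (0 : ℝ) < (M + 1 : ℕ) := by positivity
  have ht0 : (0 : ℝ) < t := by exact_mod_cast (by omega : 0 < t)
  have hcpos : 0 < c := by rw [hc]; positivity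
  have hqpos : 0 < q := by positivity
  have hqa : q ≤ x ^ (1 / 100 : ℝ) := by
    refine le_trans ?_ hA.hq
    rw [hqdef]
    exact pow_le_pow_left₀ (by positivity) (mul_le_mul_of_nonneg_left hrle hcpos.le) t
  set p0 : ℝ := 1 / (ell * ((1 : ℝ) / (t * (M + 1 : ℕ) * r)) ^ t) with hp0def
  have hp0q : p0 = q / ell := by
    rw [hp0def, hqdef, hc, one_div_pow]
    field_simp
  have hp0pos : 0 < p0 := by rw [hp0q]; positivity
  set p : ℝ := W * p0 with hpdef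
  have hppos : 0 < p := by positivity
  have hplow : p ≤ 16 * W / ε * x ^ (-(99 / 100) : ℝ) := by
    rw [hpdef, hp0q]
    have h1 : q / ell ≤ x ^ (1 / 100 : ℝ) / (ε * x / 16) :=
      div_le_div₀ (by positivity) hqa (by positivity) helllow'
    have h2 : x ^ (1 / 100 : ℝ) / (ε * x / 16) = 16 / ε * x ^ (-(99 / 100) : ℝ) := by
      have h3 : x ^ (1 / 100 : ℝ) = x ^ (-(99 / 100) : ℝ) * x := by
        rw [← Real.rpow_add_one hx0.ne']; norm_num
      rw [h3]; field_simp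
    rw [h2] at h1
    calc W * (q / ell) ≤ W * (16 / ε * x ^ (-(99 / 100) : ℝ)) :=
          mul_le_mul_of_nonneg_left h1 hWpos.le
      _ = _ := by ring
  have hellp : ell * p = W * q := by rw [hpdef, hp0q]; field_simp
  -- the parameters
  set N : ℕ := k ^ 4 with hNdef
  set R : ℕ := ⌈x ^ (3 / 2 : ℝ)⌉₊ with hRdef
  have hR1 : x ^ (3 / 2 : ℝ) ≤ R := Nat.le_ceil _
  have hx32 : 1 ≤ x ^ (3 / 2 : ℝ) := Real.one_le_rpow hx1 (by norm_num)
  have hR2 : (R : ℝ) ≤ 2 * x ^ (3 / 2 : ℝ) := by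
    have := Nat.ceil_lt_add_one (by positivity : 0 ≤ x ^ (3 / 2 : ℝ))
    rw [← hRdef] at this
    linarith
  have hD : ((k ^ 2 : ℕ) : ℝ) = x ^ 2 := by push_cast; rw [hx]
  have hDs : x ^ 2 / s ≤ 1 / ε := by
    rw [div_le_div_iff₀ hs0 hε]; linarith
  refine ⟨r, m, ell, x ^ (1 / 8 : ℝ), ⟨T, N, R, β, p0, Y⟩, ?_⟩
  refine { hr := hrpos, hm := hmpos, hkrm := hkrm, hM := hM, ht := ht, hell := hellpos,
           hs := hspos, hk := ?_, hsl := hsl, hsu := hsu, hδ := hδ, hδ1 := hδ1, hθ := hθ,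
           hθ1 := hθ1, hη := hη, hMηθ := hMηθ, hom := hom, hom4 := hom4, hη8 := hη8, hq := ?_,
           hp0 := rfl, hK := ?_, hκ := ?_, hB := ?_ }
  · exact n_k hx.symm hA.hx3
  · -- hq
    rw [hD]
    refine lt_of_le_of_lt ?_ hA.hbad
    refine mul_le_mul_of_nonneg_left ?_ (by positivity)
    refine Real.rpow_le_rpow_of_exponent_le (by norm_num) (neg_le_neg ?_)
    have h1 : (m : ℝ) ^ 2 * r ^ 2 ≤ 4 * x ^ 2 := n_sq hm0 hr0 hm2
    have h2 : Real.log x ^ 2 ≤ (r : ℝ) ^ 2 := pow_le_pow_left₀ hlog hrlog 2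
    have h3 : ε / 4 * (r : ℝ) ^ 2 ≤ s / m ^ 2 := n_sm hε hm0 hs1 h1
    have h4 : δ * s / (16 * (m : ℝ) ^ 2) = δ / 16 * (s / m ^ 2) := by field_simp
    rw [h4]
    calc δ * ε / 64 * Real.log x ^ 2 ≤ δ * ε / 64 * (r : ℝ) ^ 2 :=
          mul_le_mul_of_nonneg_left h2 (by positivity)
      _ = δ / 16 * (ε / 4 * (r : ℝ) ^ 2) := by ring
      _ ≤ _ := mul_le_mul_of_nonneg_left h3 (by positivity)
  · -- hK
    rw [hD]
    exact (mul_le_mul_of_nonneg_left hDs (by norm_num)).trans hK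
  · -- hκ
    rw [hD]
    refine le_trans ?_ hκ
    have h1 : 0 ≤ 24576 * ((1 - δ / 192) ^ t + (δ + θ / om)) := by
      have : 0 ≤ (1 - δ / 192) ^ t := pow_nonneg (by linarith) _
      positivity
    exact mul_le_mul_of_nonneg_left (pow_le_pow_left₀ (by positivity) hDs 2) h1
  · -- NumB
    have hWe : Real.exp Y = W := hW.symm
    have hcap : 128 * ((k ^ 2 : ℕ) : ℝ) / m ≤ 128 * x ^ (101 / 100 : ℝ) := by
      rw [hD, div_le_iff₀ hm0]
      have h1 : x ^ (101 / 100 : ℝ) = x ^ (1 / 100 : ℝ) * x := by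
        rw [← Real.rpow_add_one hx0.ne']; norm_num
      rw [h1]
      have h2 : x ≤ x ^ (1 / 100 : ℝ) * m := hxrm.trans (mul_le_mul_of_nonneg_right hra hm0.le)
      exact n_cap hx0 h2
    have htau : 4 * (s : ℝ) / m ^ 2 ≤ 8 * x ^ (2 / 100 : ℝ) := by
      rw [div_le_iff₀ (by positivity)]
      have h1 : x ^ (2 / 100 : ℝ) = x ^ (1 / 100 : ℝ) * x ^ (1 / 100 : ℝ) := by
        rw [← Real.rpow_add hx0]; norm_num
      rw [h1]
      have h2 : x ≤ x ^ (1 / 100 : ℝ) * m := hxrm.trans (mul_le_mul_of_nonneg_right hra hm0.le)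
      exact n_tau hx0 h2 hs2
    have hcap0 : 0 ≤ 128 * ((k ^ 2 : ℕ) : ℝ) / m := by positivity
    have htau0 : 0 ≤ 4 * (s : ℝ) / m ^ 2 := by positivity
    have hell2 : (ell : ℝ) ≤ x ^ (101 / 100 : ℝ) := by
      refine hsu.trans ?_
      rw [div_le_iff₀ (by positivity)]
      have h1 : x ^ (101 / 100 : ℝ) = x ^ (1 / 100 : ℝ) * x := by
        rw [← Real.rpow_add_one hx0.ne']; norm_num
      rw [h1]
      have h2 : x ≤ x ^ (1 / 100 : ℝ) * m := hxrm.trans (mul_le_mul_of_nonneg_right hra hm0.le)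
      exact n_ell hx0 (by positivity) hm0 h2 hs2
    -- the two auxiliary quantities
    have hGbound : p ^ 2 * (128 * ((k ^ 2 : ℕ) : ℝ) / m + 4 * (s : ℝ) / m ^ 2 * (T * R)) ≤
        (16 * W / ε) ^ 2 * (128 + 16 * T) * x ^ (-(46 / 100) : ℝ) := by
      have h1 : p ^ 2 ≤ (16 * W / ε * x ^ (-(99 / 100) : ℝ)) ^ 2 :=
        pow_le_pow_left₀ hppos.le hplow 2
      have h2 : x ^ (101 / 100 : ℝ) ≤ x ^ (152 / 100 : ℝ) :=
        Real.rpow_le_rpow_of_exponent_le hx1 (by norm_num)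
      have h3 : x ^ (2 / 100 : ℝ) * x ^ (3 / 2 : ℝ) = x ^ (152 / 100 : ℝ) := by
        rw [← Real.rpow_add hx0]; norm_num
      have h4 : 4 * (s : ℝ) / m ^ 2 * (T * R) ≤ 16 * T * x ^ (152 / 100 : ℝ) := by
        calc 4 * (s : ℝ) / m ^ 2 * (T * R)
            ≤ 8 * x ^ (2 / 100 : ℝ) * (T * (2 * x ^ (3 / 2 : ℝ))) := by
              refine mul_le_mul htau ?_ (by positivity) (by positivity)
              exact mul_le_mul_of_nonneg_left hR2 (Nat.cast_nonneg _)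
          _ = 16 * T * (x ^ (2 / 100 : ℝ) * x ^ (3 / 2 : ℝ)) := by ring
          _ = _ := by rw [h3]
      have h5 : 128 * ((k ^ 2 : ℕ) : ℝ) / m + 4 * (s : ℝ) / m ^ 2 * (T * R) ≤
          (128 + 16 * T) * x ^ (152 / 100 : ℝ) := by
        have e : (128 + 16 * (T : ℝ)) * x ^ (152 / 100 : ℝ) =
          128 * x ^ (152 / 100 : ℝ) + 16 * T * x ^ (152 / 100 : ℝ) := by ring
        rw [e]
        linarith
      have h6 : (x ^ (-(99 / 100) : ℝ)) ^ 2 * x ^ (152 / 100 : ℝ) = x ^ (-(46 / 100) : ℝ) := by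
        rw [← Real.rpow_natCast, ← Real.rpow_mul hx0.le, ← Real.rpow_add hx0]; norm_num
      calc p ^ 2 * (128 * ((k ^ 2 : ℕ) : ℝ) / m + 4 * (s : ℝ) / m ^ 2 * (T * R))
          ≤ (16 * W / ε * x ^ (-(99 / 100) : ℝ)) ^ 2 * ((128 + 16 * T) * x ^ (152 / 100 : ℝ)) :=
            mul_le_mul h1 h5 (by positivity) (by positivity)
        _ = (16 * W / ε) ^ 2 * (128 + 16 * T) *
            ((x ^ (-(99 / 100) : ℝ)) ^ 2 * x ^ (152 / 100 : ℝ)) := by ring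
        _ = _ := by rw [h6]
    have hΓbound : p ^ 2 * (128 * ((k ^ 2 : ℕ) : ℝ) / m * ell +
        4 * (s : ℝ) / m ^ 2 * (((k ^ 2 : ℕ) : ℝ) * (ell * (β * p)))) ≤
        (16 * W / ε) ^ 2 * (128 + 8 * (β * W)) * x ^ (5 / 100 : ℝ) := by
      have h1 : p ^ 2 ≤ (16 * W / ε * x ^ (-(99 / 100) : ℝ)) ^ 2 :=
        pow_le_pow_left₀ hppos.le hplow 2
      have h2 : 128 * ((k ^ 2 : ℕ) : ℝ) / m * ell ≤ 128 * x ^ (203 / 100 : ℝ) := by
        have h3 : x ^ (101 / 100 : ℝ) * x ^ (101 / 100 : ℝ) ≤ x ^ (203 / 100 : ℝ) := by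
          rw [← Real.rpow_add hx0]
          exact Real.rpow_le_rpow_of_exponent_le hx1 (by norm_num)
        have h4 := mul_le_mul hcap hell2 hell0.le (by positivity)
        refine h4.trans ?_
        rw [mul_assoc]
        exact mul_le_mul_of_nonneg_left h3 (by norm_num)
      have h5 : ell * (β * p) ≤ β * W * x ^ (1 / 100 : ℝ) := by
        have : ell * (β * p) = β * W * q := by
          calc ell * (β * p) = β * (ell * p) := by ring
            _ = _ := by rw [hellp]; ring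
        rw [this]
        exact mul_le_mul_of_nonneg_left hqa (by positivity)
      have h6 : 4 * (s : ℝ) / m ^ 2 * (((k ^ 2 : ℕ) : ℝ) * (ell * (β * p))) ≤
          8 * (β * W) * x ^ (203 / 100 : ℝ) := by
        have h7 : x ^ (2 / 100 : ℝ) * (x ^ 2 * x ^ (1 / 100 : ℝ)) = x ^ (203 / 100 : ℝ) := by
          rw [← Real.rpow_natCast, ← Real.rpow_add hx0, ← Real.rpow_add hx0]; norm_num
        rw [hD]
        calc 4 * (s : ℝ) / m ^ 2 * (x ^ 2 * (ell * (β * p)))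
            ≤ 8 * x ^ (2 / 100 : ℝ) * (x ^ 2 * (β * W * x ^ (1 / 100 : ℝ))) := by
              refine mul_le_mul htau ?_ (by positivity) (by positivity)
              exact mul_le_mul_of_nonneg_left h5 (by positivity)
          _ = 8 * (β * W) * (x ^ (2 / 100 : ℝ) * (x ^ 2 * x ^ (1 / 100 : ℝ))) := by ring
          _ = _ := by rw [h7]
      have h8 : (x ^ (-(99 / 100) : ℝ)) ^ 2 * x ^ (203 / 100 : ℝ) = x ^ (5 / 100 : ℝ) := by
        rw [← Real.rpow_natCast, ← Real.rpow_mul hx0.le, ← Real.rpow_add hx0]; norm_num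
      calc p ^ 2 * (128 * ((k ^ 2 : ℕ) : ℝ) / m * ell +
            4 * (s : ℝ) / m ^ 2 * (((k ^ 2 : ℕ) : ℝ) * (ell * (β * p))))
          ≤ (16 * W / ε * x ^ (-(99 / 100) : ℝ)) ^ 2 *
            ((128 + 8 * (β * W)) * x ^ (203 / 100 : ℝ)) := by
            refine mul_le_mul h1 ?_ (by positivity) (by positivity)
            rw [add_mul]; exact add_le_add h2 h6
        _ = (16 * W / ε) ^ 2 * (128 + 8 * (β * W)) *
            ((x ^ (-(99 / 100) : ℝ)) ^ 2 * x ^ (203 / 100 : ℝ)) := by ring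
        _ = _ := by rw [h8]
    refine { hT := hT, hN := by positivity, hβ := hβ, hp0 := hp0pos, hK := hK1, hκ := hκ0,
             htau := htau0, hcap := hcap0, hlam := by positivity, hTK := hTK, hYK := hYK,
             hκ3 := ?_, hx := ?_, hleft := hleft, herr := ?_, hG := ?_, hLLL := ?_ }
    · show 2 * β * Real.exp Y ^ 2 * κ3 ≤ K / 4
      rw [hWe]; exact hκ3
    · show β * (Real.exp Y * p0) ≤ 1 / 2
      rw [hWe]
      exact (mul_le_mul_of_nonneg_left hplow hβ.le).trans hA.hx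
    · show ell * nerr ⟨T, N, R, β, p0, Y⟩ (k ^ 2) ≤ β / 32
      unfold nerr
      show ell * (1 / ((N : ℕ) : ℝ) + ((k ^ 2 : ℕ) : ℝ) * ((2 : ℝ) ^ (-(R : ℝ)) *
        Real.exp (((k ^ 2 : ℕ) : ℝ) * (β * (Real.exp Y * p0))))) ≤ β / 32
      rw [hWe, hD]
      have hellx : (ell : ℝ) ≤ 2 * x ^ 2 := by
        refine hsu.trans (le_trans ?_ hs2)
        refine div_le_self hs0.le ?_
        have : (1 : ℝ) ≤ m := by exact_mod_cast hmpos
        linarith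
      have hN4 : ((N : ℕ) : ℝ) = x ^ 4 := by rw [hNdef]; push_cast; rw [hx]
      have h1 : ell * (1 / ((N : ℕ) : ℝ)) ≤ β / 64 := by
        rw [hN4]
        refine le_trans ?_ hA.herr1
        rw [mul_one_div]
        exact div_le_div_of_nonneg_right hellx (by positivity)
      have h2 : ell * (x ^ 2 * ((2 : ℝ) ^ (-(R : ℝ)) * Real.exp (x ^ 2 * (β * p)))) ≤ β / 64 := by
        refine le_trans ?_ hA.herr2
        have h3 : (2 : ℝ) ^ (-(R : ℝ)) ≤ (2 : ℝ) ^ (-(x ^ (3 / 2 : ℝ))) :=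
          Real.rpow_le_rpow_of_exponent_le (by norm_num) (neg_le_neg hR1)
        have h4 : x ^ 2 * (β * p) ≤ β * (16 * W / ε) * x ^ (101 / 100 : ℝ) := by
          have h5 : x ^ (101 / 100 : ℝ) = x ^ 2 * x ^ (-(99 / 100) : ℝ) := by
            rw [← Real.rpow_natCast, ← Real.rpow_add hx0]; norm_num
          rw [h5]
          calc x ^ 2 * (β * p) ≤ x ^ 2 * (β * (16 * W / ε * x ^ (-(99 / 100) : ℝ))) :=
                mul_le_mul_of_nonneg_left (mul_le_mul_of_nonneg_left hplow hβ.le) (by positivity)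
            _ = _ := by ring
        have h6 := Real.exp_le_exp.2 h4
        calc ell * (x ^ 2 * ((2 : ℝ) ^ (-(R : ℝ)) * Real.exp (x ^ 2 * (β * p))))
            ≤ (2 * x ^ 2) * (x ^ 2 * ((2 : ℝ) ^ (-(x ^ (3 / 2 : ℝ))) *
              Real.exp (β * (16 * W / ε) * x ^ (101 / 100 : ℝ)))) := by
              refine mul_le_mul hellx ?_ (by positivity) (by positivity)
              refine mul_le_mul_of_nonneg_left ?_ (by positivity)
              exact mul_le_mul h3 h6 (Real.exp_pos _).le (by positivity)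
          _ = _ := by ring
      have : ell * (1 / ((N : ℕ) : ℝ) + x ^ 2 * ((2 : ℝ) ^ (-(R : ℝ)) *
          Real.exp (x ^ 2 * (β * (W * p0))))) =
          ell * (1 / ((N : ℕ) : ℝ)) + ell * (x ^ 2 * ((2 : ℝ) ^ (-(R : ℝ)) *
            Real.exp (x ^ 2 * (β * p)))) := by rw [hpdef]; ring
      rw [this]
      linarith
    · show 2 * x ^ (1 / 8 : ℝ) * ((Real.exp Y * p0) ^ 2 *
        (128 * ((k ^ 2 : ℕ) : ℝ) / m + 4 * (s : ℝ) / m ^ 2 * ((T : ℝ) * (R : ℝ)))) ≤ 1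
      rw [hWe]
      exact (mul_le_mul_of_nonneg_left hGbound (by positivity)).trans hA.hG
    · show (((k ^ 2 : ℕ) : ℝ) + 1) ^ (2 * (T + 4)) *
        (Real.exp (-(1 / (64 * (Real.exp Y * p0)))) +
        Real.exp (-(x ^ (1 / 8 : ℝ) * (1 / 8192)) + 4 * (x ^ (1 / 8 : ℝ)) ^ 2 *
        ((Real.exp Y * p0) ^ 2 *
          (128 * ((k ^ 2 : ℕ) : ℝ) / m + 4 * (s : ℝ) / m ^ 2 * ((T : ℝ) * (R : ℝ)))) *
        ((Real.exp Y * p0) ^ 2 *
          (128 * ((k ^ 2 : ℕ) : ℝ) / m * ell + 4 * (s : ℝ) / m ^ 2 *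
            (((k ^ 2 : ℕ) : ℝ) * (ell * (β * (Real.exp Y * p0)))))))) ≤ 1 / 4
      rw [hWe]
      have hsq : (x ^ (1 / 8 : ℝ)) ^ 2 = x ^ (1 / 4 : ℝ) := by
        rw [← Real.rpow_natCast, ← Real.rpow_mul hx0.le]; norm_num
      have h1 : 4 * (x ^ (1 / 8 : ℝ)) ^ 2 *
        (p ^ 2 *
          (128 * ((k ^ 2 : ℕ) : ℝ) / m + 4 * (s : ℝ) / m ^ 2 * ((T : ℝ) * (R : ℝ)))) *
        (p ^ 2 *
          (128 * ((k ^ 2 : ℕ) : ℝ) / m * ell + 4 * (s : ℝ) / m ^ 2 *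
            (((k ^ 2 : ℕ) : ℝ) * (ell * (β * p))))) ≤ 1 := by
        rw [hsq]
        refine le_trans ?_ hA.hGΓ
        refine mul_le_mul ?_ hΓbound (by positivity) (by positivity)
        exact mul_le_mul_of_nonneg_left hGbound (by positivity)
      have h2 : Real.exp (-(x ^ (1 / 8 : ℝ) * (1 / 8192)) + 4 * (x ^ (1 / 8 : ℝ)) ^ 2 *
        (p ^ 2 *
          (128 * ((k ^ 2 : ℕ) : ℝ) / m + 4 * (s : ℝ) / m ^ 2 * ((T : ℝ) * (R : ℝ)))) *
        (p ^ 2 *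
          (128 * ((k ^ 2 : ℕ) : ℝ) / m * ell + 4 * (s : ℝ) / m ^ 2 *
            (((k ^ 2 : ℕ) : ℝ) * (ell * (β * p)))))) ≤
          Real.exp (-(x ^ (1 / 8 : ℝ) / 8192) + 1) := by
        refine Real.exp_le_exp.2 ?_
        linarith
      have h3 : Real.exp (-(1 / (64 * p))) ≤
          Real.exp (-(ε / (1024 * W) * x ^ (99 / 100 : ℝ))) := by
        refine Real.exp_le_exp.2 (neg_le_neg ?_)
        rw [le_div_iff₀ (by positivity)]
        have h4 : x ^ (99 / 100 : ℝ) * x ^ (-(99 / 100) : ℝ) = 1 := by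
          rw [← Real.rpow_add hx0]; norm_num
        calc ε / (1024 * W) * x ^ (99 / 100 : ℝ) * (64 * p)
            ≤ ε / (1024 * W) * x ^ (99 / 100 : ℝ) *
              (64 * (16 * W / ε * x ^ (-(99 / 100) : ℝ))) := by
              refine mul_le_mul_of_nonneg_left ?_ (by positivity)
              linarith
          _ = (x ^ (99 / 100 : ℝ) * x ^ (-(99 / 100) : ℝ)) := by field_simp; ring
          _ = 1 := h4
      rw [hD]
      have h5 := hA.hL1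
      have h6 := hA.hL2
      have h7 : 0 ≤ (x ^ 2 + 1) ^ (2 * (T + 4)) := by positivity
      have h8 := mul_le_mul_of_nonneg_left h3 h7
      rw [hD] at h2
      have h9 := mul_le_mul_of_nonneg_left h2 h7
      rw [mul_add]
      linarith

end Pool.Agent.SQ
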