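import Pool.Agent.Lib.MP_026281_co.Prob

/-!
# MP_026281_co: two tail bounds for sums of independent variables in `[0, cap]`
-/

set_option autoImplicit false

namespace Pool.Agent.SQ

open Finset

theorem two_rpow_le {x : ℝ} (h0 : 0 ≤ x) (h1 : x ≤ 1) : (2 : ℝ) ^ x ≤ 1 + x := by
  have h := _root_.rpow_one_add_le_one_add_mul_self (s := (1 : ℝ)) (by norm_num) h0 h1
  have h2 : (1 : ℝ) + 1 = 2 := by norm_num
  rw [h2] at h
  linarith

theorem two_rpow_neg_le {x : ℝ} (h0 : 0 ≤ x) (h1 : x ≤ 1) : (2 : ℝ) ^ (-x) ≤ 1 - x / 2 := by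
  have h := _root_.rpow_one_add_le_one_add_mul_self (s := (-1 / 2 : ℝ)) (by norm_num) h0 h1
  have h2 : (1 : ℝ) + -1 / 2 = 2⁻¹ := by norm_num
  rw [h2] at h
  rw [Real.rpow_neg (by norm_num), ← Real.inv_rpow (by norm_num)]
  linarith

theorem rpow_sum_div {C X : Type} [Fintype C] (f : C → X → ℝ) (a : ℝ) (ω : C → X) :
    (2 : ℝ) ^ (∑ c, f c (ω c) * a) = ∏ c, (2 : ℝ) ^ (f c (ω c) * a) := by
  rw [Real.rpow_sum_of_pos (by norm_num : (0 : ℝ) < 2)]

theorem tail_up {C X : Type} [Fintype C] [DecidableEq C] [Fintype X] [Nonempty X]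
    (f : C → X → ℝ) {cap μ : ℝ} (lam : ℝ) (hcap : 0 < cap) (h0 : ∀ c x, 0 ≤ f c x)
    (h1 : ∀ c x, f c x ≤ cap) (hμ : ∑ c, ex (f c) ≤ μ) :
    pr (fun ω : C → X => 2 * μ + lam ≤ ∑ c, f c (ω c)) ≤ (2 : ℝ) ^ (-(lam / cap)) := by
  have hμ0 : 0 ≤ μ := le_trans (Finset.sum_nonneg (fun c _ => ex_nonneg (h0 c))) hμ
  -- exponential moment
  have hE : ex (fun ω : C → X => (2 : ℝ) ^ (∑ c, f c (ω c) * cap⁻¹)) ≤ Real.exp (μ / cap) := by
    have e1 : ex (fun ω : C → X => (2 : ℝ) ^ (∑ c, f c (ω c) * cap⁻¹)) =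
        ∏ c, ex (fun x => (2 : ℝ) ^ (f c x * cap⁻¹)) := by
      rw [← ex_pi_prod (fun c x => (2 : ℝ) ^ (f c x * cap⁻¹))]
      exact ex_congr (fun ω => rpow_sum_div f _ ω)
    have e2 : ∀ c, ex (fun x => (2 : ℝ) ^ (f c x * cap⁻¹)) ≤ Real.exp (ex (f c) * cap⁻¹) := by
      intro c
      have e3 : ex (fun x => (2 : ℝ) ^ (f c x * cap⁻¹)) ≤ ex (fun x => 1 + f c x * cap⁻¹) := by
        refine ex_mono (fun x => two_rpow_le ?_ ?_)
        · exact mul_nonneg (h0 c x) (inv_nonneg.2 hcap.le)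
        · rw [← div_eq_mul_inv, div_le_one hcap]; exact h1 c x
      have e4 : ex (fun x => 1 + f c x * cap⁻¹) = 1 + ex (f c) * cap⁻¹ := by
        rw [ex_add, ex_const, ex_mul_right]
      rw [e4] at e3
      refine e3.trans ?_
      have := Real.add_one_le_exp (ex (f c) * cap⁻¹)
      linarith
    rw [e1]
    refine (Finset.prod_le_prod (fun c _ => ex_nonneg (fun x => by positivity))
      (fun c _ => e2 c)).trans ?_
    rw [← Real.exp_sum, ← Finset.sum_mul, ← div_eq_mul_inv]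
    exact Real.exp_le_exp.2 (div_le_div_of_nonneg_right hμ hcap.le)
  have hpos : (0 : ℝ) < (2 : ℝ) ^ ((2 * μ + lam) * cap⁻¹) := by positivity
  have hM := pr_markov (f := fun ω : C → X => (2 : ℝ) ^ (∑ c, f c (ω c) * cap⁻¹))
    (fun ω => by positivity) hpos
  have hle : pr (fun ω : C → X => 2 * μ + lam ≤ ∑ c, f c (ω c)) ≤
      pr (fun ω : C → X => (2 : ℝ) ^ ((2 * μ + lam) * cap⁻¹) ≤
        (2 : ℝ) ^ (∑ c, f c (ω c) * cap⁻¹)) := by
    refine pr_mono (fun ω h => ?_)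
    refine Real.rpow_le_rpow_of_exponent_le (by norm_num) ?_
    rw [← Finset.sum_mul]
    exact mul_le_mul_of_nonneg_right h (inv_nonneg.2 hcap.le)
  refine hle.trans (hM.trans ?_)
  rw [div_le_iff₀ hpos]
  refine hE.trans ?_
  rw [← Real.rpow_add (by norm_num)]
  have e5 : -(lam / cap) + (2 * μ + lam) * cap⁻¹ = 2 * (μ / cap) := by
    field_simp; ring
  rw [e5, Real.rpow_mul (by norm_num)]
  have e6 : Real.exp (μ / cap) = (Real.exp 1) ^ (μ / cap) := by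
    rw [Real.exp_one_rpow]
  rw [e6]
  refine Real.rpow_le_rpow (Real.exp_pos 1).le ?_ (div_nonneg hμ0 hcap.le)
  have h3 := Real.exp_one_lt_d9
  have h4 : (2 : ℝ) ^ (2 : ℝ) = 4 := by
    rw [Real.rpow_ofNat]; norm_num
  rw [h4]
  linarith

theorem tail_low {C X : Type} [Fintype C] [DecidableEq C] [Fintype X] [Nonempty X]
    (f : C → X → ℝ) {cap μ : ℝ} (hcap : 0 < cap) (h0 : ∀ c x, 0 ≤ f c x)
    (h1 : ∀ c x, f c x ≤ cap) (hμ : μ ≤ ∑ c, ex (f c)) :
    pr (fun ω : C → X => ∑ c, f c (ω c) ≤ μ / 2) ≤ Real.exp (-(μ / (8 * cap))) := by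
  rcases lt_or_ge μ 0 with hneg | hμ0
  · refine (pr_le_one _).trans ?_
    rw [Real.one_le_exp_iff]
    have : μ / (8 * cap) ≤ 0 := div_nonpos_of_nonpos_of_nonneg hneg.le (by positivity)
    linarith
  have hE : ex (fun ω : C → X => (2 : ℝ) ^ (∑ c, f c (ω c) * (-cap⁻¹))) ≤
      Real.exp (-(μ / (2 * cap))) := by
    have e1 : ex (fun ω : C → X => (2 : ℝ) ^ (∑ c, f c (ω c) * (-cap⁻¹))) =
        ∏ c, ex (fun x => (2 : ℝ) ^ (f c x * (-cap⁻¹))) := by
      rw [← ex_pi_prod (fun c x => (2 : ℝ) ^ (f c x * (-cap⁻¹)))]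
      exact ex_congr (fun ω => rpow_sum_div f _ ω)
    have e2 : ∀ c, ex (fun x => (2 : ℝ) ^ (f c x * (-cap⁻¹))) ≤
        Real.exp (ex (f c) * (-(cap⁻¹ / 2))) := by
      intro c
      have e3 : ex (fun x => (2 : ℝ) ^ (f c x * (-cap⁻¹))) ≤
          ex (fun x => 1 + f c x * (-(cap⁻¹ / 2))) := by
        refine ex_mono (fun x => ?_)
        have := two_rpow_neg_le (x := f c x * cap⁻¹)
          (mul_nonneg (h0 c x) (inv_nonneg.2 hcap.le))
          (by rw [← div_eq_mul_inv, div_le_one hcap]; exact h1 c x)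
        have e5 : f c x * (-cap⁻¹) = -(f c x * cap⁻¹) := by ring
        rw [e5]
        refine this.trans (le_of_eq ?_)
        ring
      have e4 : ex (fun x => 1 + f c x * (-(cap⁻¹ / 2))) = 1 + ex (f c) * (-(cap⁻¹ / 2)) := by
        rw [ex_add, ex_const, ex_mul_right]
      rw [e4] at e3
      refine e3.trans ?_
      have := Real.add_one_le_exp (ex (f c) * (-(cap⁻¹ / 2)))
      linarith
    rw [e1]
    refine (Finset.prod_le_prod (fun c _ => ex_nonneg (fun x => by positivity))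
      (fun c _ => e2 c)).trans ?_
    rw [← Real.exp_sum, ← Finset.sum_mul]
    refine Real.exp_le_exp.2 ?_
    have h5 : (∑ c, ex (f c)) * (-(cap⁻¹ / 2)) ≤ μ * (-(cap⁻¹ / 2)) := by
      have : 0 ≤ cap⁻¹ / 2 := by positivity
      nlinarith
    refine h5.trans (le_of_eq ?_)
    field_simp
  have hpos : (0 : ℝ) < (2 : ℝ) ^ ((μ / 2) * (-cap⁻¹)) := by positivity
  have hM := pr_markov (f := fun ω : C → X => (2 : ℝ) ^ (∑ c, f c (ω c) * (-cap⁻¹)))
    (fun ω => by positivity) hpos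
  have hle : pr (fun ω : C → X => ∑ c, f c (ω c) ≤ μ / 2) ≤
      pr (fun ω : C → X => (2 : ℝ) ^ ((μ / 2) * (-cap⁻¹)) ≤
        (2 : ℝ) ^ (∑ c, f c (ω c) * (-cap⁻¹))) := by
    refine pr_mono (fun ω h => ?_)
    refine Real.rpow_le_rpow_of_exponent_le (by norm_num) ?_
    rw [← Finset.sum_mul]
    have : 0 < cap⁻¹ := by positivity
    nlinarith
  refine hle.trans (hM.trans ?_)
  rw [div_le_iff₀ hpos]
  refine hE.trans ?_
  have hln : Real.log 2 ≤ 3 / 4 := by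
    have := Real.log_two_lt_d9
    linarith
  have e7 : (2 : ℝ) ^ ((μ / 2) * (-cap⁻¹)) = Real.exp (Real.log 2 * ((μ / 2) * (-cap⁻¹))) := by
    rw [Real.rpow_def_of_pos (by norm_num)]
  rw [e7, ← Real.exp_add]
  refine Real.exp_le_exp.2 ?_
  have h6 : 0 ≤ μ / cap := div_nonneg hμ0 hcap.le
  have e8 : -(μ / (8 * cap)) + Real.log 2 * ((μ / 2) * (-cap⁻¹)) - -(μ / (2 * cap)) =
      (μ / cap) * (3 / 8 - Real.log 2 / 2) := by
    field_simp; ring
  have h9 : 0 ≤ (μ / cap) * (3 / 8 - Real.log 2 / 2) := mul_nonneg h6 (by linarith)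
  linarith

end Pool.Agent.SQ
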