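import Pool.Agent.Lib.MP_026281_co.Prob
import Pool.Agent.Lib.MP_026281_co.Tails

/-!
# MP_026281_co, piece P6: the probability that a vertex is bad
-/

set_option autoImplicit false

namespace Pool.Agent.SQ

open Finset

section PrBad

variable {V C : Type} [Fintype V] [DecidableEq V] [Fintype C] [DecidableEq C]
variable {m r : ℕ}

/-- `c` belongs to the current list of `w`, in terms of the order `x` of the colour `c` -/
private def qq (L : V → Finset C) (b : V → Fin r) (a : V → Fin m) (U : Finset V) (L' : V → Finset C)
    (w : V) (c : C) (x : Fin r → Fin m) : Prop :=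
  if w ∈ U then (c ∈ L w ∧ x (b w) = a w) else c ∈ L' w

omit [Fintype V] [Fintype C] in
private theorem mem_Lg (L : V → Finset C) (b : V → Fin r) (a : V → Fin m) (U : Finset V)
    (L' : V → Finset C) (J : C → Fin r → Fin m) (w : V) (c : C) :
    c ∈ Lg L b a U L' J w ↔ qq L b a U L' w c (J c) := by
  unfold Lg qq LJ
  split_ifs <;> simp

omit [Fintype V] [Fintype C] in
private theorem mem_LJ (L : V → Finset C) (b : V → Fin r) (a : V → Fin m) (U : Finset V)
    (L' : V → Finset C) (J : C → Fin r → Fin m) (w : V) (hw : w ∈ U) (c : C) :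
    c ∈ LJ L b a J w ↔ qq L b a U L' w c (J c) := by
  unfold qq LJ
  simp [hw]

private theorem ex_one_val (hm : 0 < m) (y : Fin m) :
    ex (fun x : Fin m => ind (x = y)) = 1 / m := by
  unfold ex
  have h : ∑ x : Fin m, ind (x = y) = 1 := by
    rw [Finset.sum_eq_single y]
    · exact ind_of rfl
    · intro z _ hz; exact ind_of_not hz
    · intro h; exact absurd (mem_univ y) h
  rw [h, Fintype.card_fin]

omit [Fintype V] in
/-- the probability of matching a clique -/
private theorem ex_clique (hm : 0 < m) (b : V → Fin r) (a : V → Fin m) (W : Finset V)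
    (hW : ∀ u ∈ W, ∀ v ∈ W, u ≠ v → b u = b v → a u ≠ a v) :
    ex (fun x : Fin r → Fin m => ind (∀ w ∈ W, x (b w) = a w)) ≤ (1 / (m : ℝ)) ^ W.card := by
  have : Nonempty (Fin m) := ⟨⟨0, hm⟩⟩
  set g : Fin r → Fin m → ℝ := fun i y => ∏ w ∈ W.filter (fun w => b w = i), ind (y = a w) with hg
  have h1 : ∀ x : Fin r → Fin m, ind (∀ w ∈ W, x (b w) = a w) = ∏ i, g i (x i) := by
    intro x
    rw [ind_forall, ← Finset.prod_fiberwise W b]
    refine Finset.prod_congr rfl fun i _ => Finset.prod_congr rfl fun w hw => ?_
    rw [(Finset.mem_filter.1 hw).2]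
  rw [ex_congr h1, ex_pi_prod g]
  have h2 : W.card = ∑ i : Fin r, (W.filter (fun w => b w = i)).card :=
    Finset.card_eq_sum_card_fiberwise (fun w _ => Finset.mem_univ _)
  rw [h2, ← Finset.prod_pow_eq_pow_sum]
  refine Finset.prod_le_prod (fun i _ => ex_nonneg fun y => Finset.prod_nonneg fun _ _ => ind_nonneg _)
    fun i _ => ?_
  have hm' : (0 : ℝ) < m := by exact_mod_cast hm
  rcases Nat.lt_or_ge 1 (W.filter (fun w => b w = i)).card with h3 | h3
  · obtain ⟨u, hu, v, hv, huv⟩ := Finset.one_lt_card.1 h3
    rw [Finset.mem_filter] at hu hv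
    have h4 : ∀ y : Fin m, g i y = 0 := by
      intro y
      simp only [hg]
      by_cases hy : y = a u
      · refine Finset.prod_eq_zero (Finset.mem_filter.2 hv) (ind_of_not ?_)
        rw [hy]
        exact hW u hu.1 v hv.1 huv (hu.2.trans hv.2.symm)
      · exact Finset.prod_eq_zero (Finset.mem_filter.2 hu) (ind_of_not hy)
    rw [ex_congr h4, ex_const]
    positivity
  · rcases Nat.le_one_iff_eq_zero_or_eq_one.1 h3 with h4 | h4
    · have h5 : ∀ y : Fin m, g i y = 1 := by
        intro y
        simp only [hg]
        rw [Finset.card_eq_zero.1 h4, Finset.prod_empty]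
      rw [h4, ex_congr h5, ex_const, pow_zero]
    · obtain ⟨w, hw⟩ := Finset.card_eq_one.1 h4
      have h5 : ∀ y : Fin m, g i y = ind (y = a w) := by
        intro y
        simp only [hg]
        rw [hw, Finset.prod_singleton]
      rw [h4, ex_congr h5, ex_one_val hm, pow_one]

omit [Fintype V] in
private theorem sum_clique (hm : 0 < m) (L : V → Finset C) (b : V → Fin r) (a : V → Fin m) (U : Finset V)
    (L' : V → Finset C) (W : Finset V) (hW : ∀ u ∈ W, ∀ v ∈ W, u ≠ v → b u = b v → a u ≠ a v)
    (S : Finset C) (hS : ∀ c, (∀ w ∈ W, c ∈ (if w ∈ U then L w else L' w)) → c ∈ S) :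
    ∑ c, ex (fun x : Fin r → Fin m => ind (∀ w ∈ W, qq L b a U L' w c x)) ≤
      S.card * (1 / (m : ℝ)) ^ (W.filter (fun w => w ∈ U)).card := by
  have h1 : ∀ c, ex (fun x : Fin r → Fin m => ind (∀ w ∈ W, qq L b a U L' w c x)) ≤
      ind (c ∈ S) * (1 / (m : ℝ)) ^ (W.filter (fun w => w ∈ U)).card := by
    intro c
    have h2 : ∀ x : Fin r → Fin m, ind (∀ w ∈ W, qq L b a U L' w c x) ≤
        ind (c ∈ S) * ind (∀ w ∈ W.filter (fun w => w ∈ U), x (b w) = a w) := by
      intro x
      rw [← ind_and]
      refine ind_mono fun h => ⟨hS c fun w hw => ?_, fun w hw => ?_⟩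
      · have := h w hw
        unfold qq at this
        split_ifs with hwU
        · rw [if_pos hwU] at this; exact this.1
        · rw [if_neg hwU] at this; exact this
      · rw [Finset.mem_filter] at hw
        have := h w hw.1
        unfold qq at this
        rw [if_pos hw.2] at this
        exact this.2
    refine (ex_mono h2).trans ?_
    rw [ex_mul_left]
    refine mul_le_mul_of_nonneg_left (ex_clique hm b a _ ?_) (ind_nonneg _)
    intro u hu v hv
    exact hW u (Finset.mem_filter.1 hu).1 v (Finset.mem_filter.1 hv).1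
  refine (Finset.sum_le_sum fun c _ => h1 c).trans ?_
  rw [← Finset.sum_mul]
  refine mul_le_mul_of_nonneg_right (le_of_eq ?_) (by positivity)
  have h3 : ∀ c, ind (c ∈ S) = if c ∈ S then 1 else 0 := by
    intro c
    by_cases h : c ∈ S
    · rw [ind_of h, if_pos h]
    · rw [ind_of_not h, if_neg h]
  simp only [h3]
  simp

/-- piece P6: the probability that a vertex is bad -/
theorem prBad {V C : Type} [Fintype V] [DecidableEq V] [Fintype C] [DecidableEq C]
    (nb : V → Finset V) {D s m r ell : ℕ} (L : V → Finset C) (b : V → Fin r) (a : V → Fin m)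
    {δ : ℝ} (hD : 0 < D) (hm : 0 < m) (hs : 0 < s)
    (hδ : 0 < δ) (hδ1 : δ ≤ 1) (hell : (ell : ℝ) ≤ s / (4 * m))
    (hsymm : ∀ u v, v ∈ nb u → u ∈ nb v) (hdeg : ∀ v, (nb v).card ≤ D)
    (hprop : ∀ u v, v ∈ nb u → b u = b v → a u ≠ a v)
    (hL : ∀ v, (L v).card = s) (U : Finset V) (L' : V → Finset C)
    (hL' : ∀ v, v ∉ U → (L' v).card = ell)
    (hpair : ∀ u v, v ∈ nb u → u ∉ U → v ∉ U → ((L' u ∩ L' v).card : ℝ) ≤ 4 * s / m ^ 2)
    (v : V) (hv : v ∈ U) :
    pr (fun J : C → Fin r → Fin m => BadJ nb D s ell L b a δ U L' J v) ≤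
      (2 * D + 1) * (2 : ℝ) ^ (-(δ * s / (16 * (m : ℝ) ^ 2))) := by
  have : Nonempty (Fin m) := ⟨⟨0, hm⟩⟩
  have hm' : (0 : ℝ) < m := by exact_mod_cast hm
  have hm1 : (1 : ℝ) ≤ m := by exact_mod_cast hm
  have hs' : (0 : ℝ) < s := by exact_mod_cast hs
  have hD' : (0 : ℝ) < D := by exact_mod_cast hD
  have hirr : ∀ w, w ∉ nb w := fun w hw => hprop w w hw rfl rfl
  set B : ℝ := (2 : ℝ) ^ (-(δ * s / (16 * (m : ℝ) ^ 2))) with hB
  have hB0 : 0 < B := Real.rpow_pos_of_pos two_pos _
  -- cliques
  have hadj2 : ∀ u ∈ nb v, ∀ p ∈ ({v, u} : Finset V), ∀ q ∈ ({v, u} : Finset V), p ≠ q →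
      b p = b q → a p ≠ a q := by
    intro u hu p hp q hq hpq
    simp only [Finset.mem_insert, Finset.mem_singleton] at hp hq
    rcases hp with rfl | rfl <;> rcases hq with rfl | rfl
    · exact absurd rfl hpq
    · exact hprop _ _ hu
    · exact hprop _ _ (hsymm _ _ hu)
    · exact absurd rfl hpq
  have hadj3 : ∀ u ∈ nb v, ∀ y ∈ nb u ∩ nb v, ∀ p ∈ ({v, u, y} : Finset V), ∀ q ∈ ({v, u, y} : Finset V),
      p ≠ q → b p = b q → a p ≠ a q := by
    intro u hu y hy p hp q hq hpq
    rw [Finset.mem_inter] at hy
    simp only [Finset.mem_insert, Finset.mem_singleton] at hp hq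
    rcases hp with rfl | rfl | rfl <;> rcases hq with rfl | rfl | rfl
    · exact absurd rfl hpq
    · exact hprop _ _ hu
    · exact hprop _ _ hy.2
    · exact hprop _ _ (hsymm _ _ hu)
    · exact absurd rfl hpq
    · exact hprop _ _ hy.1
    · exact hprop _ _ (hsymm _ _ hy.2)
    · exact hprop _ _ (hsymm _ _ hy.1)
    · exact absurd rfl hpq
  -- event 1: short list
  have hE1 : pr (fun J : C → Fin r → Fin m => (LJ L b a J v).card < ell) ≤ B := by
    have hmu : (s : ℝ) / m ≤ ∑ c : C, ex (fun x : Fin r → Fin m => ind (c ∈ L v) * ind (x (b v) = a v)) := by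
      have h1 : ∀ c : C, ex (fun x : Fin r → Fin m => ind (c ∈ L v) * ind (x (b v) = a v)) =
          ind (c ∈ L v) * (1 / m) := by
        intro c
        rw [ex_mul_left, ex_pi_single (b v) (fun y : Fin m => ind (y = a v)), ex_one_val hm]
      rw [Finset.sum_congr rfl fun c _ => h1 c, ← Finset.sum_mul]
      have h3 : ∑ c : C, ind (c ∈ L v) = s := by
        rw [← hL v]
        have h3 : ∀ c, ind (c ∈ L v) = if c ∈ L v then 1 else 0 := by
          intro c
          by_cases h : c ∈ L v
          · rw [ind_of h, if_pos h]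
          · rw [ind_of_not h, if_neg h]
        simp only [h3]
        simp
      rw [h3]
      apply le_of_eq
      ring
    have h2 := tail_low (fun (c : C) (x : Fin r → Fin m) => ind (c ∈ L v) * ind (x (b v) = a v))
      (cap := 1) (μ := (s : ℝ) / m) one_pos (fun c x => mul_nonneg (ind_nonneg _) (ind_nonneg _))
      (fun c x => mul_le_one₀ (ind_le_one _) (ind_nonneg _) (ind_le_one _)) hmu
    refine le_trans (pr_mono ?_) (h2.trans ?_)
    · intro J hJ
      have h3 : ∑ c : C, ind (c ∈ L v) * ind (J c (b v) = a v) = ((LJ L b a J v).card : ℝ) := by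
        have h4 : ∀ c, ind (c ∈ L v) * ind (J c (b v) = a v) = if c ∈ LJ L b a J v then (1 : ℝ) else 0 := by
          intro c
          rw [← ind_and]
          by_cases h : c ∈ LJ L b a J v
          · rw [if_pos h]
            exact ind_of (by simpa [LJ] using h)
          · rw [if_neg h]
            exact ind_of_not (by simpa [LJ] using h)
        simp only [h4]
        simp
      rw [h3]
      have h5 : ((LJ L b a J v).card : ℝ) ≤ ell := by exact_mod_cast hJ.le
      refine h5.trans (hell.trans ?_)
      rw [div_div]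
      apply div_le_div_of_nonneg_left hs'.le (by positivity)
      nlinarith
    · rw [hB, Real.rpow_def_of_pos two_pos]
      apply Real.exp_le_exp.2
      have hlog : Real.log 2 ≤ 1 := by
        have := Real.log_two_lt_d9
        linarith
      have hlog0 : 0 < Real.log 2 := Real.log_pos one_lt_two
      have h6 : δ * s / (16 * (m : ℝ) ^ 2) ≤ (s : ℝ) / m / 8 := by
        rw [div_div, div_le_div_iff₀ (by positivity) (by positivity)]
        have : δ * (m * 8) ≤ 16 * (m : ℝ) ^ 2 := by nlinarith
        nlinarith
      have h7 : Real.log 2 * (δ * s / (16 * (m : ℝ) ^ 2)) ≤ 1 * (δ * s / (16 * (m : ℝ) ^ 2)) :=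
        mul_le_mul_of_nonneg_right hlog (by positivity)
      have h8 : (s : ℝ) / m / (8 * 1) = (s : ℝ) / m / 8 := by ring
      rw [h8]
      linarith
  -- event 2: large pair overlap
  have hE2 : ∀ u ∈ nb v, pr (fun J : C → Fin r → Fin m =>
      4 * (s : ℝ) / m ^ 2 < ((LJ L b a J v ∩ Lg L b a U L' J u).card : ℝ)) ≤ B := by
    intro u hu
    have huv : v ≠ u := fun h => hirr v (by rw [← h] at hu; exact hu)
    have hmu : ∑ c : C, ex (fun x : Fin r → Fin m => ind (∀ w ∈ ({v, u} : Finset V), qq L b a U L' w c x)) ≤
        s / (m : ℝ) ^ 2 := by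
      by_cases huU : u ∈ U
      · refine (sum_clique hm L b a U L' {v, u} (hadj2 u hu) (L v) ?_).trans ?_
        · intro c hc
          simpa [hv] using hc v (by simp)
        · have h1 : (({v, u} : Finset V).filter (fun w => w ∈ U)).card = 2 := by
            rw [Finset.filter_true_of_mem (by
              intro w hw
              simp only [Finset.mem_insert, Finset.mem_singleton] at hw
              rcases hw with rfl | rfl
              · exact hv
              · exact huU), Finset.card_pair huv]
          rw [h1, hL v]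
          apply le_of_eq
          field_simp
      · refine (sum_clique hm L b a U L' {v, u} (hadj2 u hu) (L' u) ?_).trans ?_
        · intro c hc
          simpa [huU] using hc u (by simp)
        · have h1 : ({v, u} : Finset V).filter (fun w => w ∈ U) = {v} := by
            ext w
            simp only [Finset.mem_filter, Finset.mem_insert, Finset.mem_singleton]
            constructor
            · rintro ⟨rfl | rfl, h⟩
              · rfl
              · exact absurd h huU
            · rintro rfl
              exact ⟨Or.inl rfl, hv⟩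
          rw [h1, hL' u huU, Finset.card_singleton, pow_one]
          calc (ell : ℝ) * (1 / m) ≤ s / (4 * m) * (1 / m) := mul_le_mul_of_nonneg_right hell (by positivity)
            _ = (1 / 4) * (s / (m : ℝ) ^ 2) := by field_simp
            _ ≤ 1 * (s / (m : ℝ) ^ 2) := mul_le_mul_of_nonneg_right (by norm_num) (by positivity)
            _ = _ := one_mul _
    have h2 := tail_up (fun (c : C) (x : Fin r → Fin m) =>
      ind (∀ w ∈ ({v, u} : Finset V), qq L b a U L' w c x))
      (cap := 1) (μ := s / (m : ℝ) ^ 2) (2 * (s / (m : ℝ) ^ 2)) one_pos (fun c x => ind_nonneg _)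
      (fun c x => ind_le_one _) hmu
    refine le_trans (pr_mono ?_) (h2.trans ?_)
    · intro J hJ
      have h3 : ∑ c : C, ind (∀ w ∈ ({v, u} : Finset V), qq L b a U L' w c (J c)) =
          ((LJ L b a J v ∩ Lg L b a U L' J u).card : ℝ) := by
        have h4 : ∀ c, ind (∀ w ∈ ({v, u} : Finset V), qq L b a U L' w c (J c)) =
            if c ∈ LJ L b a J v ∩ Lg L b a U L' J u then (1 : ℝ) else 0 := by
          intro c
          have h5 : (∀ w ∈ ({v, u} : Finset V), qq L b a U L' w c (J c)) ↔
              c ∈ LJ L b a J v ∩ Lg L b a U L' J u := by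
            rw [Finset.mem_inter, mem_LJ L b a U L' J v hv, mem_Lg]
            simp
          rw [ind_congr h5]
          by_cases h : c ∈ LJ L b a J v ∩ Lg L b a U L' J u
          · rw [if_pos h, ind_of h]
          · rw [if_neg h, ind_of_not h]
        rw [Finset.sum_congr rfl fun c _ => h4 c, Finset.sum_ite_mem, Finset.univ_inter,
          Finset.sum_const, nsmul_eq_mul, mul_one]
      rw [h3]
      refine le_trans (le_of_eq ?_) hJ.le
      ring
    · rw [hB]
      apply Real.rpow_le_rpow_of_exponent_le one_le_two
      apply neg_le_neg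
      have : (2 * (s / (m : ℝ) ^ 2)) / 1 = (32 * s) / (16 * (m : ℝ) ^ 2) := by
        field_simp
        norm_num
      rw [this]
      apply div_le_div_of_nonneg_right _ (by positivity)
      nlinarith
  -- event 3: large truncated triangle sum
  have hE3 : ∀ u ∈ nb v, pr (fun J : C → Fin r → Fin m =>
      tbd nb D s m δ u v < ∑ c ∈ LJ L b a J v ∩ Lg L b a U L' J u,
      min (128 * (D : ℝ) / m)
        (((nb u ∩ nb v).filter (fun x => c ∈ Lg L b a U L' J x)).card : ℝ)) ≤ B := by
    intro u hu
    have huv : v ≠ u := fun h => hirr v (by rw [← h] at hu; exact hu)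
    have hone : ∀ y ∈ nb u ∩ nb v,
        ∑ c : C, ex (fun x : Fin r → Fin m => ind (∀ w ∈ ({v, u, y} : Finset V), qq L b a U L' w c x)) ≤
        4 * s / (m : ℝ) ^ 3 := by
      intro y hy
      have hy' := Finset.mem_inter.1 hy
      have hyu : u ≠ y := fun h => hirr u (by rw [← h] at hy'; exact hy'.1)
      have hyv : v ≠ y := fun h => hirr v (by rw [← h] at hy'; exact hy'.2)
      by_cases huU : u ∈ U <;> by_cases hyU : y ∈ U
      · refine (sum_clique hm L b a U L' {v, u, y} (hadj3 u hu y hy) (L v) ?_).trans ?_
        · intro c hc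
          simpa [hv] using hc v (by simp)
        · have h1 : (({v, u, y} : Finset V).filter (fun w => w ∈ U)).card = 3 := by
            rw [Finset.filter_true_of_mem (by
              intro w hw
              simp only [Finset.mem_insert, Finset.mem_singleton] at hw
              rcases hw with rfl | rfl | rfl
              · exact hv
              · exact huU
              · exact hyU)]
            exact Finset.card_eq_three.2 ⟨v, u, y, huv, hyv, hyu, rfl⟩
          rw [h1, hL v]
          calc (s : ℝ) * (1 / m) ^ 3 = 1 * (s / (m : ℝ) ^ 3) := by field_simp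
            _ ≤ 4 * (s / (m : ℝ) ^ 3) := mul_le_mul_of_nonneg_right (by norm_num) (by positivity)
            _ = _ := by ring
      · refine (sum_clique hm L b a U L' {v, u, y} (hadj3 u hu y hy) (L' y) ?_).trans ?_
        · intro c hc
          simpa [hyU] using hc y (by simp)
        · have h1 : ({v, u, y} : Finset V).filter (fun w => w ∈ U) = {v, u} := by
            ext w
            simp only [Finset.mem_filter, Finset.mem_insert, Finset.mem_singleton]
            constructor
            · rintro ⟨rfl | rfl | rfl, h⟩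
              · exact Or.inl rfl
              · exact Or.inr rfl
              · exact absurd h hyU
            · rintro (rfl | rfl)
              · exact ⟨Or.inl rfl, hv⟩
              · exact ⟨Or.inr (Or.inl rfl), huU⟩
          rw [h1, hL' y hyU, Finset.card_pair huv]
          calc (ell : ℝ) * (1 / m) ^ 2 ≤ s / (4 * m) * (1 / m) ^ 2 :=
                mul_le_mul_of_nonneg_right hell (by positivity)
            _ = (1 / 4) * (s / (m : ℝ) ^ 3) := by field_simp
            _ ≤ 4 * (s / (m : ℝ) ^ 3) := mul_le_mul_of_nonneg_right (by norm_num) (by positivity)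
            _ = _ := by ring
      · refine (sum_clique hm L b a U L' {v, u, y} (hadj3 u hu y hy) (L' u) ?_).trans ?_
        · intro c hc
          simpa [huU] using hc u (by simp)
        · have h1 : ({v, u, y} : Finset V).filter (fun w => w ∈ U) = {v, y} := by
            ext w
            simp only [Finset.mem_filter, Finset.mem_insert, Finset.mem_singleton]
            constructor
            · rintro ⟨rfl | rfl | rfl, h⟩
              · exact Or.inl rfl
              · exact absurd h huU
              · exact Or.inr rfl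
            · rintro (rfl | rfl)
              · exact ⟨Or.inl rfl, hv⟩
              · exact ⟨Or.inr (Or.inr rfl), hyU⟩
          rw [h1, hL' u huU, Finset.card_pair hyv]
          calc (ell : ℝ) * (1 / m) ^ 2 ≤ s / (4 * m) * (1 / m) ^ 2 :=
                mul_le_mul_of_nonneg_right hell (by positivity)
            _ = (1 / 4) * (s / (m : ℝ) ^ 3) := by field_simp
            _ ≤ 4 * (s / (m : ℝ) ^ 3) := mul_le_mul_of_nonneg_right (by norm_num) (by positivity)
            _ = _ := by ring
      · refine (sum_clique hm L b a U L' {v, u, y} (hadj3 u hu y hy) (L' u ∩ L' y) ?_).trans ?_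
        · intro c hc
          rw [Finset.mem_inter]
          exact ⟨by simpa [huU] using hc u (by simp), by simpa [hyU] using hc y (by simp)⟩
        · have h1 : ({v, u, y} : Finset V).filter (fun w => w ∈ U) = {v} := by
            ext w
            simp only [Finset.mem_filter, Finset.mem_insert, Finset.mem_singleton]
            constructor
            · rintro ⟨rfl | rfl | rfl, h⟩
              · rfl
              · exact absurd h huU
              · exact absurd h hyU
            · rintro rfl
              exact ⟨Or.inl rfl, hv⟩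
          rw [h1, Finset.card_singleton, pow_one]
          calc ((L' u ∩ L' y).card : ℝ) * (1 / m) ≤ 4 * s / m ^ 2 * (1 / m) :=
                mul_le_mul_of_nonneg_right (hpair u y hy'.1 huU hyU) (by positivity)
            _ = _ := by field_simp
    have hcard : ∀ (J : C → Fin r → Fin m) (c : C),
        (((nb u ∩ nb v).filter (fun x => c ∈ Lg L b a U L' J x)).card : ℝ) =
        ∑ y ∈ nb u ∩ nb v, ind (qq L b a U L' y c (J c)) := by
      intro J c
      rw [Finset.card_filter]
      push_cast
      refine Finset.sum_congr rfl fun y _ => ?_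
      rw [ind_congr (mem_Lg L b a U L' J y c).symm]
      by_cases h : c ∈ Lg L b a U L' J y
      · rw [if_pos h, ind_of h]
      · rw [if_neg h, ind_of_not h]
    set f : C → (Fin r → Fin m) → ℝ := fun c x =>
      ind (∀ w ∈ ({v, u} : Finset V), qq L b a U L' w c x) *
        min (128 * (D : ℝ) / m) (∑ y ∈ nb u ∩ nb v, ind (qq L b a U L' y c x)) with hf
    have hf0 : ∀ c x, 0 ≤ f c x := fun c x => mul_nonneg (ind_nonneg _)
      (le_min (by positivity) (Finset.sum_nonneg fun _ _ => ind_nonneg _))
    have hf1 : ∀ c x, f c x ≤ 128 * (D : ℝ) / m := by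
      intro c x
      have h1 : f c x ≤ 1 * (128 * (D : ℝ) / m) := by
        refine mul_le_mul (ind_le_one _) (min_le_left _ _)
          (le_min (by positivity) (Finset.sum_nonneg fun _ _ => ind_nonneg _)) zero_le_one
      linarith
    have hmu : ∑ c, ex (f c) ≤ ((nb u ∩ nb v).card : ℝ) * (4 * s / (m : ℝ) ^ 3) := by
      have h1 : ∀ c, ex (f c) ≤ ∑ y ∈ nb u ∩ nb v,
          ex (fun x : Fin r → Fin m => ind (∀ w ∈ ({v, u, y} : Finset V), qq L b a U L' w c x)) := by
        intro c
        rw [← ex_sum]
        refine ex_mono fun x => ?_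
        calc f c x ≤ ind (∀ w ∈ ({v, u} : Finset V), qq L b a U L' w c x) *
              ∑ y ∈ nb u ∩ nb v, ind (qq L b a U L' y c x) :=
              mul_le_mul_of_nonneg_left (min_le_right _ _) (ind_nonneg _)
          _ = ∑ y ∈ nb u ∩ nb v, ind (∀ w ∈ ({v, u, y} : Finset V), qq L b a U L' w c x) := by
              rw [Finset.mul_sum]
              refine Finset.sum_congr rfl fun y _ => ?_
              rw [← ind_and]
              apply ind_congr
              simp only [Finset.mem_insert, Finset.mem_singleton, forall_eq_or_imp, forall_eq]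
              tauto
      calc ∑ c, ex (f c) ≤ ∑ c, ∑ y ∈ nb u ∩ nb v,
            ex (fun x : Fin r → Fin m => ind (∀ w ∈ ({v, u, y} : Finset V), qq L b a U L' w c x)) :=
            Finset.sum_le_sum fun c _ => h1 c
        _ = ∑ y ∈ nb u ∩ nb v, ∑ c,
            ex (fun x : Fin r → Fin m => ind (∀ w ∈ ({v, u, y} : Finset V), qq L b a U L' w c x)) :=
            Finset.sum_comm
        _ ≤ ∑ y ∈ nb u ∩ nb v, 4 * s / (m : ℝ) ^ 3 := Finset.sum_le_sum hone
        _ = _ := by rw [Finset.sum_const, nsmul_eq_mul]
    have h2 := tail_up f (cap := 128 * (D : ℝ) / m) (8 * δ * D * s / (m : ℝ) ^ 3) (by positivity) hf0 hf1 hmu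
    refine le_trans (pr_mono ?_) (h2.trans ?_)
    · intro J hJ
      have h3 : ∑ c ∈ LJ L b a J v ∩ Lg L b a U L' J u,
          min (128 * (D : ℝ) / m)
            (((nb u ∩ nb v).filter (fun x => c ∈ Lg L b a U L' J x)).card : ℝ) = ∑ c, f c (J c) := by
        rw [← Finset.sum_subset (Finset.subset_univ (LJ L b a J v ∩ Lg L b a U L' J u))]
        · refine Finset.sum_congr rfl fun c hc => ?_
          have h5 : ∀ w ∈ ({v, u} : Finset V), qq L b a U L' w c (J c) := by
            rw [Finset.mem_inter, mem_LJ L b a U L' J v hv, mem_Lg] at hc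
            simpa using hc
          simp only [hf]
          rw [ind_of h5, one_mul, hcard]
        · intro c _ hc
          have h5 : ¬ ∀ w ∈ ({v, u} : Finset V), qq L b a U L' w c (J c) := by
            intro h
            apply hc
            rw [Finset.mem_inter, mem_LJ L b a U L' J v hv, mem_Lg]
            simpa using h
          simp only [hf]
          rw [ind_of_not h5, zero_mul]
      rw [← h3]
      refine le_trans (le_of_eq ?_) hJ.le
      unfold tbd
      ring
    · rw [hB]
      apply le_of_eq
      congr 1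
      field_simp
      ring
  -- union bound
  have hU1 : pr (fun J : C → Fin r → Fin m => BadJ nb D s ell L b a δ U L' J v) ≤
      B + ∑ u ∈ nb v, (B + B) := by
    refine (pr_or_le _ _).trans (add_le_add hE1 ?_)
    refine (pr_exists_le (nb v) _).trans (Finset.sum_le_sum fun u hu => ?_)
    exact (pr_or_le _ _).trans (add_le_add (hE2 u hu) (hE3 u hu))
  refine hU1.trans ?_
  rw [Finset.sum_const, nsmul_eq_mul]
  have : ((nb v).card : ℝ) ≤ D := by exact_mod_cast hdeg v
  nlinarith

end PrBad

end Pool.Agent.SQ
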