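import Pool.Agent.Lib.MP_026281_co.Prob
import Pool.Agent.Lib.MP_026281_co.LevelStep
import Pool.Agent.Lib.MP_026281_co.PrBad

/-!
# MP_026281_co, P7: the level construction
-/

set_option autoImplicit false

namespace Pool.Agent.SQ

open Finset

/-- invariant of the level construction: `A` = centres not yet dropped, `U` = objects not yet
settled, `g` = number of levels so far -/
structure PAInv {V C : Type} [Fintype V] [DecidableEq V] [DecidableEq C]
    (nb : V → Finset V) (D s m r ell M : ℕ) (b : V → Fin r) (L : V → Finset C)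
    (δ θ η : ℝ) (g : ℕ) (A U : Finset V) (o h : V → ℕ) (L' : V → Finset C) : Prop where
  oo : ∀ v, v ∉ U → o v < g
  hh : ∀ z, z ∉ A → h z < g
  sub : ∀ v, v ∉ U → L' v ⊆ L v
  card : ∀ v, v ∉ U → (L' v).card = ell
  disj : ∀ u v, v ∈ nb u → u ∉ U → v ∉ U → o u = o v → b u = b v → Disjoint (L' u) (L' v)
  pair : ∀ u v, v ∈ nb u → u ∉ U → v ∉ U → ((L' u ∩ L' v).card : ℝ) ≤ 4 * s / m ^ 2
  trip : ∀ u v, v ∈ nb u → u ∉ U → v ∉ U → o u ≤ o v →
    ∑ c ∈ L' v ∩ L' u, min (128 * (D : ℝ) / m)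
      (((nb u ∩ nb v).filter (fun x => x ∉ U ∧ o x ≤ o v ∧ c ∈ L' x)).card : ℝ) ≤
        tbd nb D s m δ u v
  off : ∀ z, z ∉ A → (((nb z).filter (fun v => v ∈ U ∨ h z < o v)).card : ℝ) ≤ θ * D
  poor : ∀ v, v ∉ U → (((nb v).filter (fun z => (z ∈ A ∨ o v < h z) ∧
    (((nb z).filter (fun w => w ∉ U ∧ o w = o v)).card : ℝ) < D / M)).card : ℝ) ≤ η * D

section PA

variable {V C : Type} [Fintype V] [DecidableEq V] [Fintype C] [DecidableEq C]
    {nb : V → Finset V} {D s m r ell M : ℕ} {L : V → Finset C} {b : V → Fin r} {a : V → Fin m}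
    {δ θ η : ℝ}

/-- choice of the order and of the dropped centres and settled objects of one level -/
theorem pa_choice (hD : 0 < D) (hm : 0 < m) (hs : 0 < s) (hM : 0 < M)
    (hδ : 0 < δ) (hδ1 : δ ≤ 1) (hθ : 0 < θ) (hθ1 : θ ≤ 1) (hη : 0 < η)
    (hMηθ : 2 ≤ (M : ℝ) * η * θ) (hell : (ell : ℝ) ≤ s / (4 * m))
    (hsymm : ∀ u v, v ∈ nb u → u ∈ nb v) (hdeg : ∀ v, (nb v).card ≤ D)
    (hprop : ∀ u v, v ∈ nb u → b u = b v → a u ≠ a v)
    (hL : ∀ v, (L v).card = s)
    (hq : (2 * D + 1) * (2 : ℝ) ^ (-(δ * s / (16 * (m : ℝ) ^ 2))) < θ / 2)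
    (A U : Finset V) (L' : V → Finset C)
    (hL' : ∀ v, v ∉ U → (L' v).card = ell)
    (hpair : ∀ u v, v ∈ nb u → u ∉ U → v ∉ U → ((L' u ∩ L' v).card : ℝ) ≤ 4 * s / m ^ 2)
    (hne : 0 < A.card + U.card) :
    ∃ (J : C → Fin r → Fin m) (A' R : Finset V), A' ⊆ A ∧ R ⊆ U ∧
      (∀ v ∈ R, ¬ BadJ nb D s ell L b a δ U L' J v) ∧
      (∀ v ∈ R, (((nb v ∩ A').filter (fun z => ((nb z ∩ R).card : ℝ) < D / M)).card : ℝ) ≤ η * D) ∧
      (∀ x ∈ A \ A', ((nb x ∩ (U \ R)).card : ℝ) < θ * D) ∧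
      A'.card + (U \ R).card < A.card + U.card := by
  classical
  have : Nonempty (Fin m) := ⟨⟨0, hm⟩⟩
  set q : ℝ := (2 * D + 1) * (2 : ℝ) ^ (-(δ * s / (16 * (m : ℝ) ^ 2))) with hqdef
  have hq0 : 0 ≤ q := by positivity
  have hbad : ∀ v ∈ U, pr (fun J : C → Fin r → Fin m => BadJ nb D s ell L b a δ U L' J v) ≤ q :=
    fun v hv => prBad nb L b a hD hm hs hδ hδ1 hell hsymm hdeg hprop hL U L' hL' hpair v hv
  have hcard : ∀ (J : C → Fin r → Fin m) (S : Finset V), S ⊆ U →
      ((S ∩ U.filter (fun v => BadJ nb D s ell L b a δ U L' J v)).card : ℝ) =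
        ∑ v ∈ S, ind (BadJ nb D s ell L b a δ U L' J v) := by
    intro J S hS
    have h1 : S ∩ U.filter (fun v => BadJ nb D s ell L b a δ U L' J v) =
        S.filter (fun v => BadJ nb D s ell L b a δ U L' J v) := by
      ext v
      simp only [mem_inter, mem_filter]
      exact ⟨fun h => ⟨h.1, h.2.2⟩, fun h => ⟨h.1, hS h.1, h.2⟩⟩
    rw [h1, card_filter]
    push_cast
    refine sum_congr rfl fun v _ => ?_
    unfold ind
    rfl
  rcases A.eq_empty_or_nonempty with rfl | hA
  · -- no centres left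
    have hU : 0 < U.card := by simpa using hne
    obtain ⟨J, hJ⟩ := exists_le_ex (fun J : C → Fin r → Fin m =>
      ∑ v ∈ U, ind (BadJ nb D s ell L b a δ U L' J v))
    rw [ex_sum] at hJ
    have h1 : ∑ v ∈ U, ex (fun J : C → Fin r → Fin m => ind (BadJ nb D s ell L b a δ U L' J v)) ≤
        U.card * q := by
      rw [← nsmul_eq_mul]
      exact sum_le_card_nsmul _ _ _ (fun v hv => hbad v hv)
    rw [← hcard J U (subset_refl U)] at hJ
    set B := U.filter (fun v => BadJ nb D s ell L b a δ U L' J v) with hB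
    refine ⟨J, ∅, U \ B, subset_refl _, sdiff_subset, ?_, ?_, ?_, ?_⟩
    · intro v hv hb
      rw [mem_sdiff] at hv
      exact hv.2 (mem_filter.2 ⟨hv.1, hb⟩)
    · intro v _
      simp only [inter_empty, filter_empty, card_empty, Nat.cast_zero]
      positivity
    · intro x hx
      simp at hx
    · have h2 : U \ (U \ B) = U ∩ B := by
        rw [sdiff_sdiff_right_self]; rfl
      rw [h2]
      simp only [card_empty, zero_add]
      have h3 : ((U ∩ B).card : ℝ) < U.card := by
        have hU' : (0 : ℝ) < U.card := by exact_mod_cast hU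
        nlinarith
      exact_mod_cast h3
  · -- some centres left
    have hA' : 0 < A.card := hA.card_pos
    obtain ⟨J, hJ⟩ := exists_le_ex (fun J : C → Fin r → Fin m =>
      ∑ x ∈ A, ∑ v ∈ nb x ∩ U, ind (BadJ nb D s ell L b a δ U L' J v))
    rw [ex_sum] at hJ
    simp only [ex_sum] at hJ
    have h1 : ∑ x ∈ A, ∑ v ∈ nb x ∩ U,
        ex (fun J : C → Fin r → Fin m => ind (BadJ nb D s ell L b a δ U L' J v)) ≤
        A.card * (D * q) := by
      rw [← nsmul_eq_mul]
      refine sum_le_card_nsmul _ _ _ (fun x _ => ?_)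
      calc ∑ v ∈ nb x ∩ U,
          ex (fun J : C → Fin r → Fin m => ind (BadJ nb D s ell L b a δ U L' J v))
          ≤ (nb x ∩ U).card • q :=
            sum_le_card_nsmul _ _ _ (fun v hv => hbad v (mem_of_mem_inter_right hv))
        _ = ((nb x ∩ U).card : ℝ) * q := by rw [nsmul_eq_mul]
        _ ≤ D * q := by
            refine mul_le_mul_of_nonneg_right ?_ hq0
            exact_mod_cast (card_le_card inter_subset_left).trans (hdeg x)
    set B := U.filter (fun v => BadJ nb D s ell L b a δ U L' J v) with hB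
    obtain ⟨A', hAA, R, hR, c1, c2, c3⟩ := levelstep nb hD hsymm hdeg hθ hη
      (show (0 : ℝ) < M by exact_mod_cast hM) hMηθ A U B
    refine ⟨J, A', R, hAA, hR.trans sdiff_subset, ?_, c1, c2, ?_⟩
    · intro v hv hb
      have h2 := hR hv
      rw [mem_sdiff] at h2
      exact h2.2 (mem_filter.2 ⟨h2.1, hb⟩)
    · have h2 : ∀ x ∈ A, ((nb x ∩ (U ∩ B)).card : ℝ) =
          ∑ v ∈ nb x ∩ U, ind (BadJ nb D s ell L b a δ U L' J v) := by
        intro x _
        rw [← hcard J (nb x ∩ U) inter_subset_right, ← inter_assoc]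
      rw [sum_congr rfl h2] at c3
      have hD' : (0 : ℝ) < D := by exact_mod_cast hD
      have hA'' : (0 : ℝ) < A.card := by exact_mod_cast hA'
      have h3 : (A'.card : ℝ) * (θ * D) ≤ 2 * (A.card * (D * q)) :=
        c3.trans (mul_le_mul_of_nonneg_left (hJ.trans h1) (by norm_num))
      have h4 : (A'.card : ℝ) * (θ * D) < A.card * (θ * D) := by
        refine lt_of_le_of_lt h3 ?_
        have : q * (A.card * D) < θ / 2 * (A.card * D) :=
          mul_lt_mul_of_pos_right hq (by positivity)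
        nlinarith
      have h5 : (A'.card : ℝ) < A.card := lt_of_mul_lt_mul_right h4 (by positivity)
      have h6 : A'.card < A.card := by exact_mod_cast h5
      have h7 : (U \ R).card ≤ U.card := card_le_card sdiff_subset
      omega

/-- one level -/
theorem pa_step (hD : 0 < D) (hm : 0 < m) (hs : 0 < s) (hM : 0 < M)
    (hδ : 0 < δ) (hδ1 : δ ≤ 1) (hθ : 0 < θ) (hθ1 : θ ≤ 1) (hη : 0 < η)
    (hMηθ : 2 ≤ (M : ℝ) * η * θ) (hell : (ell : ℝ) ≤ s / (4 * m))
    (hsymm : ∀ u v, v ∈ nb u → u ∈ nb v) (hdeg : ∀ v, (nb v).card ≤ D)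
    (hprop : ∀ u v, v ∈ nb u → b u = b v → a u ≠ a v)
    (hL : ∀ v, (L v).card = s)
    (hq : (2 * D + 1) * (2 : ℝ) ^ (-(δ * s / (16 * (m : ℝ) ^ 2))) < θ / 2)
    {g : ℕ} {A U : Finset V} {o h : V → ℕ} {L' : V → Finset C}
    (hI : PAInv nb D s m r ell M b L δ θ η g A U o h L') (hne : 0 < A.card + U.card) :
    ∃ (A₁ U₁ : Finset V) (o₁ h₁ : V → ℕ) (L₁ : V → Finset C),
      PAInv nb D s m r ell M b L δ θ η (g + 1) A₁ U₁ o₁ h₁ L₁ ∧
        A₁.card + U₁.card < A.card + U.card := by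
  classical
  obtain ⟨J, A', R, hAA, hRU, hnb, c1, c2, c3⟩ := pa_choice (M := M) (a := a) hD hm hs hM hδ hδ1 hθ
    hθ1 hη hMηθ hell hsymm hdeg hprop hL hq A U L' hI.card hI.pair hne
  have hsub : ∀ v ∈ R, ∃ T ⊆ LJ L b a J v, T.card = ell := by
    intro v hv
    have h1 := hnb v hv
    unfold BadJ at h1
    push Not at h1
    exact exists_subset_card_eq h1.1
  choose! T hT1 hT2 using hsub
  set L₁ : V → Finset C := fun v => if v ∈ R then T v else L' v with hL₁
  set o₁ : V → ℕ := fun v => if v ∈ R then g else o v with ho₁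
  set h₁ : V → ℕ := fun z => if z ∈ A \ A' then g else h z with hh₁
  have e1 : ∀ v ∈ R, o₁ v = g := fun v hv => by simp only [ho₁, if_pos hv]
  have e2 : ∀ v, v ∉ R → o₁ v = o v := fun v hv => by simp only [ho₁, if_neg hv]
  have e3 : ∀ v ∈ R, L₁ v = T v := fun v hv => by simp only [hL₁, if_pos hv]
  have e4 : ∀ v, v ∉ R → L₁ v = L' v := fun v hv => by simp only [hL₁, if_neg hv]
  have e5 : ∀ z ∈ A \ A', h₁ z = g := fun v hv => by simp only [hh₁, if_pos hv]
  have e6 : ∀ z, z ∉ A \ A' → h₁ z = h z := fun v hv => by simp only [hh₁, if_neg hv]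
  have hU1 : ∀ v, v ∉ U \ R → v ∈ R ∨ v ∉ U := by
    intro v hv
    rw [mem_sdiff, not_and_or, not_not] at hv
    exact hv.symm
  have hnR : ∀ v, v ∉ U → v ∉ R := fun v hv hR => hv (hRU hR)
  -- the new lists are contained in the candidate lists
  have hLg : ∀ v, v ∉ U \ R → L₁ v ⊆ Lg L b a U L' J v := by
    intro v hv
    unfold Lg
    rcases hU1 v hv with h1 | h1
    · rw [e3 v h1, if_pos (hRU h1)]
      exact hT1 v h1
    · rw [e4 v (hnR v h1), if_neg h1]
  have hLJ : ∀ v ∈ R, L₁ v ⊆ LJ L b a J v := fun v hv => by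
    rw [e3 v hv]; exact hT1 v hv
  have hlow : ∀ v, v ∉ U → o₁ v < g := fun v hv => by
    rw [e2 v (hnR v hv)]; exact hI.oo v hv
  have hRiff : ∀ v, v ∉ U \ R → (v ∈ R ↔ o₁ v = g) := by
    intro v hv
    constructor
    · exact e1 v
    · intro h1
      rcases hU1 v hv with h2 | h2
      · exact h2
      · have := hlow v h2
        omega
  refine ⟨A', U \ R, o₁, h₁, L₁, ⟨?_, ?_, ?_, ?_, ?_, ?_, ?_, ?_, ?_⟩, c3⟩
  · intro v hv
    rcases hU1 v hv with h1 | h1
    · rw [e1 v h1]; exact Nat.lt_succ_self g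
    · have := hlow v h1
      omega
  · intro z hz
    by_cases hzA : z ∈ A
    · rw [e5 z (mem_sdiff.2 ⟨hzA, hz⟩)]; exact Nat.lt_succ_self g
    · rw [e6 z (fun h1 => hzA (mem_sdiff.1 h1).1)]
      have := hI.hh z hzA
      omega
  · intro v hv
    rcases hU1 v hv with h1 | h1
    · exact (hLJ v h1).trans (filter_subset _ _)
    · rw [e4 v (hnR v h1)]; exact hI.sub v h1
  · intro v hv
    rcases hU1 v hv with h1 | h1
    · rw [e3 v h1]; exact hT2 v h1
    · rw [e4 v (hnR v h1)]; exact hI.card v h1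
  · intro u v huv hu hv ho hb
    rcases hU1 u hu with hu1 | hu1
    · have hv1 : v ∈ R := (hRiff v hv).2 (by rw [← ho]; exact e1 u hu1)
      rw [disjoint_left]
      intro c hc hc'
      have h1 := (mem_filter.1 (hLJ u hu1 hc)).2
      have h2 := (mem_filter.1 (hLJ v hv1 hc')).2
      rw [hb] at h1
      exact hprop u v huv hb (h1.symm.trans h2)
    · have hv1 : v ∉ U := by
        rcases hU1 v hv with h1 | h1
        · have h2 := hlow u hu1
          rw [ho, e1 v h1] at h2
          exact absurd h2 (lt_irrefl _)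
        · exact h1
      rw [e2 u (hnR u hu1), e2 v (hnR v hv1)] at ho
      rw [e4 u (hnR u hu1), e4 v (hnR v hv1)]
      exact hI.disj u v huv hu1 hv1 ho hb
  · -- pair
    have key : ∀ u v, v ∈ nb u → u ∉ U \ R → v ∈ R →
        ((L₁ u ∩ L₁ v).card : ℝ) ≤ 4 * s / m ^ 2 := by
      intro u v huv hu hv
      have h1 := hnb v hv
      unfold BadJ at h1
      push Not at h1
      refine le_trans ?_ (h1.2 u (hsymm u v huv)).1
      rw [inter_comm]
      exact_mod_cast card_le_card (inter_subset_inter (hLJ v hv) (hLg u hu))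
    intro u v huv hu hv
    rcases hU1 v hv with hv1 | hv1
    · exact key u v huv hu hv1
    · rcases hU1 u hu with hu1 | hu1
      · rw [inter_comm]
        exact key v u (hsymm u v huv) hv hu1
      · rw [e4 u (hnR u hu1), e4 v (hnR v hv1)]
        exact hI.pair u v huv hu1 hv1
  · -- trip
    intro u v huv hu hv ho
    rcases hU1 v hv with hv1 | hv1
    · have h1 := hnb v hv1
      unfold BadJ at h1
      push Not at h1
      refine le_trans ?_ (h1.2 u (hsymm u v huv)).2
      have hss : L₁ v ∩ L₁ u ⊆ LJ L b a J v ∩ Lg L b a U L' J u :=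
        inter_subset_inter (hLJ v hv1) (hLg u hu)
      refine le_trans (sum_le_sum (fun c _ => ?_)) (sum_le_sum_of_subset_of_nonneg hss
        (fun c _ _ => le_min (by positivity) (Nat.cast_nonneg _)))
      refine min_le_min le_rfl ?_
      have : (nb u ∩ nb v).filter (fun x => x ∉ U \ R ∧ o₁ x ≤ o₁ v ∧ c ∈ L₁ x) ⊆
          (nb u ∩ nb v).filter (fun x => c ∈ Lg L b a U L' J x) := by
        intro x hx
        rw [mem_filter] at hx ⊢
        exact ⟨hx.1, hLg x hx.2.1 hx.2.2.2⟩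
      exact_mod_cast card_le_card this
    · have h1 := hlow v hv1
      have hu1 : u ∉ U := by
        rcases hU1 u hu with h2 | h2
        · rw [e1 u h2] at ho; omega
        · exact h2
      rw [e4 u (hnR u hu1), e4 v (hnR v hv1), e2 v (hnR v hv1)]
      rw [e2 u (hnR u hu1), e2 v (hnR v hv1)] at ho
      rw [e2 v (hnR v hv1)] at h1
      refine le_trans (sum_le_sum (fun c _ => min_le_min le_rfl ?_))
        (hI.trip u v huv hu1 hv1 ho)
      have : (nb u ∩ nb v).filter (fun x => x ∉ U \ R ∧ o₁ x ≤ o v ∧ c ∈ L₁ x) ⊆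
          (nb u ∩ nb v).filter (fun x => x ∉ U ∧ o x ≤ o v ∧ c ∈ L' x) := by
        intro x hx
        rw [mem_filter] at hx ⊢
        have hx1 : x ∉ U := by
          rcases hU1 x hx.2.1 with h2 | h2
          · have h3 := hx.2.2.1
            rw [e1 x h2] at h3
            omega
          · exact h2
        have h3 := hx.2.2
        rw [e2 x (hnR x hx1), e4 x (hnR x hx1)] at h3
        exact ⟨hx.1, hx1, h3⟩
      exact_mod_cast card_le_card this
  · -- off
    intro z hz
    by_cases hzA : z ∈ A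
    · have hz1 : z ∈ A \ A' := mem_sdiff.2 ⟨hzA, hz⟩
      refine le_trans ?_ (c2 z hz1).le
      have : (nb z).filter (fun v => v ∈ U \ R ∨ h₁ z < o₁ v) ⊆ nb z ∩ (U \ R) := by
        intro v hv
        rw [mem_filter] at hv
        rw [mem_inter]
        refine ⟨hv.1, ?_⟩
        by_contra hc
        rcases hv.2 with h1 | h1
        · exact hc h1
        · rw [e5 z hz1] at h1
          rcases hU1 v hc with h2 | h2
          · rw [e1 v h2] at h1; omega
          · have := hlow v h2; omega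
      exact_mod_cast card_le_card this
    · have hz1 : z ∉ A \ A' := fun h1 => hzA (mem_sdiff.1 h1).1
      refine le_trans ?_ (hI.off z hzA)
      have : (nb z).filter (fun v => v ∈ U \ R ∨ h₁ z < o₁ v) ⊆
          (nb z).filter (fun v => v ∈ U ∨ h z < o v) := by
        intro v hv
        rw [mem_filter] at hv ⊢
        refine ⟨hv.1, ?_⟩
        by_cases hvU : v ∈ U
        · exact Or.inl hvU
        · right
          rcases hv.2 with h1 | h1
          · exact absurd (mem_sdiff.1 h1).1 hvU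
          · rw [e6 z hz1, e2 v (hnR v hvU)] at h1
            exact h1
      exact_mod_cast card_le_card this
  · -- poor
    intro v hv
    rcases hU1 v hv with hv1 | hv1
    · refine le_trans ?_ (c1 v hv1)
      have : (nb v).filter (fun z => (z ∈ A' ∨ o₁ v < h₁ z) ∧
          (((nb z).filter (fun w => w ∉ U \ R ∧ o₁ w = o₁ v)).card : ℝ) < D / M) ⊆
          (nb v ∩ A').filter (fun z => ((nb z ∩ R).card : ℝ) < D / M) := by
        intro z hz
        rw [mem_filter] at hz ⊢
        obtain ⟨hz1, hz2, hz3⟩ := hz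
        refine ⟨mem_inter.2 ⟨hz1, ?_⟩, lt_of_le_of_lt ?_ hz3⟩
        · by_contra hc
          rcases hz2 with h1 | h1
          · exact hc h1
          · rw [e1 v hv1] at h1
            by_cases hzA : z ∈ A
            · rw [e5 z (mem_sdiff.2 ⟨hzA, hc⟩)] at h1; omega
            · rw [e6 z (fun h2 => hzA (mem_sdiff.1 h2).1)] at h1
              have := hI.hh z hzA
              omega
        · have : nb z ∩ R ⊆ (nb z).filter (fun w => w ∉ U \ R ∧ o₁ w = o₁ v) := by
            intro w hw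
            rw [mem_inter] at hw
            rw [mem_filter]
            refine ⟨hw.1, fun h1 => (mem_sdiff.1 h1).2 hw.2, ?_⟩
            rw [e1 w hw.2, e1 v hv1]
          exact_mod_cast card_le_card this
      exact_mod_cast card_le_card this
    · refine le_trans ?_ (hI.poor v hv1)
      have hlv : o v < g := hI.oo v hv1
      have : (nb v).filter (fun z => (z ∈ A' ∨ o₁ v < h₁ z) ∧
          (((nb z).filter (fun w => w ∉ U \ R ∧ o₁ w = o₁ v)).card : ℝ) < D / M) ⊆
          (nb v).filter (fun z => (z ∈ A ∨ o v < h z) ∧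
          (((nb z).filter (fun w => w ∉ U ∧ o w = o v)).card : ℝ) < D / M) := by
        intro z hz
        rw [mem_filter] at hz ⊢
        obtain ⟨hz1, hz2, hz3⟩ := hz
        refine ⟨hz1, ?_, lt_of_le_of_lt ?_ hz3⟩
        · rcases hz2 with h1 | h1
          · exact Or.inl (hAA h1)
          · by_cases hzA : z ∈ A
            · exact Or.inl hzA
            · right
              rw [e6 z (fun h2 => hzA (mem_sdiff.1 h2).1), e2 v (hnR v hv1)] at h1
              exact h1
        · have : (nb z).filter (fun w => w ∉ U ∧ o w = o v) ⊆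
              (nb z).filter (fun w => w ∉ U \ R ∧ o₁ w = o₁ v) := by
            intro w hw
            rw [mem_filter] at hw ⊢
            refine ⟨hw.1, fun h1 => hw.2.1 (mem_sdiff.1 h1).1, ?_⟩
            rw [e2 w (hnR w hw.2.1), e2 v (hnR v hv1)]
            exact hw.2.2
          exact_mod_cast card_le_card this
      exact_mod_cast card_le_card this

theorem pa_loop (hD : 0 < D) (hm : 0 < m) (hs : 0 < s) (hM : 0 < M)
    (hδ : 0 < δ) (hδ1 : δ ≤ 1) (hθ : 0 < θ) (hθ1 : θ ≤ 1) (hη : 0 < η)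
    (hMηθ : 2 ≤ (M : ℝ) * η * θ) (hell : (ell : ℝ) ≤ s / (4 * m))
    (hsymm : ∀ u v, v ∈ nb u → u ∈ nb v) (hdeg : ∀ v, (nb v).card ≤ D)
    (hprop : ∀ u v, v ∈ nb u → b u = b v → a u ≠ a v)
    (hL : ∀ v, (L v).card = s)
    (hq : (2 * D + 1) * (2 : ℝ) ^ (-(δ * s / (16 * (m : ℝ) ^ 2))) < θ / 2) (n : ℕ) :
    ∀ {g : ℕ} {A U : Finset V} {o h : V → ℕ} {L' : V → Finset C},
      PAInv nb D s m r ell M b L δ θ η g A U o h L' → A.card + U.card ≤ n →
    ∃ (g₁ : ℕ) (o₁ h₁ : V → ℕ) (L₁ : V → Finset C),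
      PAInv nb D s m r ell M b L δ θ η g₁ ∅ ∅ o₁ h₁ L₁ := by
  induction n with
  | zero =>
    intro g A U o h L' hI hn
    have hA : A = ∅ := card_eq_zero.1 (by omega)
    have hU : U = ∅ := card_eq_zero.1 (by omega)
    subst hA; subst hU
    exact ⟨g, o, h, L', hI⟩
  | succ n ih =>
    intro g A U o h L' hI hn
    by_cases h0 : A.card + U.card = 0
    · exact ih hI (by omega)
    · obtain ⟨A₁, U₁, o₁, h₁, L₁, hI₁, hlt⟩ := pa_step (a := a) hD hm hs hM hδ hδ1 hθ hθ1 hη hMηθ
        hell hsymm hdeg hprop hL hq hI (Nat.pos_of_ne_zero h0)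
      exact ih hI₁ (by omega)

end PA

theorem partA {V C : Type} [Fintype V] [DecidableEq V] [Fintype C] [DecidableEq C]
    (nb : V → Finset V) {D s m r ell M : ℕ} (L : V → Finset C) (b : V → Fin r) (a : V → Fin m)
    {δ θ η : ℝ} (hD : 0 < D) (hm : 0 < m) (hs : 0 < s) (hM : 0 < M)
    (hδ : 0 < δ) (hδ1 : δ ≤ 1) (hθ : 0 < θ) (hθ1 : θ ≤ 1) (hη : 0 < η)
    (hMηθ : 2 ≤ (M : ℝ) * η * θ) (hell : (ell : ℝ) ≤ s / (4 * m))
    (hsymm : ∀ u v, v ∈ nb u → u ∈ nb v) (hdeg : ∀ v, (nb v).card ≤ D)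
    (hprop : ∀ u v, v ∈ nb u → b u = b v → a u ≠ a v)
    (hL : ∀ v, (L v).card = s)
    (hq : (2 * D + 1) * (2 : ℝ) ^ (-(δ * s / (16 * (m : ℝ) ^ 2))) < θ / 2) :
    Nonempty (Str nb D s m r ell M b L δ θ η) := by
  have h0 : PAInv nb D s m r ell M b L δ θ η 0 univ univ (fun _ => 0) (fun _ => 0)
      (fun _ => ∅) := by
    refine ⟨?_, ?_, ?_, ?_, ?_, ?_, ?_, ?_, ?_⟩
    all_goals intros
    all_goals simp_all
  obtain ⟨g, o, h, L', hI⟩ := pa_loop (a := a) hD hm hs hM hδ hδ1 hθ hθ1 hη hMηθ hell hsymm hdeg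
    hprop hL hq _ h0 le_rfl
  refine ⟨⟨o, h, L', fun v => hI.sub v (notMem_empty v), fun v => hI.card v (notMem_empty v),
    fun u v huv => hI.disj u v huv (notMem_empty u) (notMem_empty v),
    fun u v huv => hI.pair u v huv (notMem_empty u) (notMem_empty v),
    fun u v huv ho => ?_, fun z => ?_, fun v => ?_⟩⟩
  · have h1 := hI.trip u v huv (notMem_empty u) (notMem_empty v) ho
    simpa using h1
  · have h1 := hI.off z (notMem_empty z)
    simpa using h1
  · have h1 := hI.poor v (notMem_empty v)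
    simpa using h1

end Pool.Agent.SQ
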