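import Pool.Agent.Lib.MP_026281_co.Main

/-!
# MP_026281_co: squares of graphs, the degree bound and greedy list colouring
-/

set_option autoImplicit false

namespace Pool.Agent.SQ

open Finset

/-- the square of a graph, as in the frozen statement -/
def sqG {V : Type} (G : SimpleGraph V) : SimpleGraph V :=
  SimpleGraph.fromRel (fun u w => G.Adj u w ∨ ∃ x, G.Adj u x ∧ G.Adj x w)

lemma sqG_adj_iff {V : Type} (G : SimpleGraph V) (u w : V) :
    (sqG G).Adj u w ↔ u ≠ w ∧ (G.Adj u w ∨ ∃ x, G.Adj u x ∧ G.Adj x w) := by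
  rw [sqG, SimpleGraph.fromRel_adj]
  constructor
  · rintro ⟨hne, h | h⟩
    · exact ⟨hne, h⟩
    · refine ⟨hne, ?_⟩
      rcases h with h | ⟨x, h1, h2⟩
      · exact Or.inl h.symm
      · exact Or.inr ⟨x, h2.symm, h1.symm⟩
  · rintro ⟨hne, h⟩
    exact ⟨hne, Or.inl h⟩

/-- closed neighbourhoods are cliques of the square -/
lemma sqG_clique {V : Type} (G : SimpleGraph V) {v x y : V} (hx : x = v ∨ G.Adj v x)
    (hy : y = v ∨ G.Adj v y) (hne : x ≠ y) : (sqG G).Adj x y := by
  rw [sqG_adj_iff]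
  refine ⟨hne, ?_⟩
  rcases hx with rfl | hx
  · rcases hy with rfl | hy
    · exact absurd rfl hne
    · exact Or.inl hy
  · rcases hy with rfl | hy
    · exact Or.inl hx.symm
    · exact Or.inr ⟨v, hx.symm, hy⟩

/-- the degree bound: if the square is properly coloured by `φ < n`, its degrees are at most `n²` -/
lemma sqG_degree {V : Type} (G : SimpleGraph V) {n : ℕ} (φ : V → ℕ) (hφ : ∀ v, φ v < n)
    (hprop : ∀ u v, (sqG G).Adj u v → φ u ≠ φ v) (v : V) (s : Finset V)
    (hs : ∀ w ∈ s, (sqG G).Adj v w) : s.card ≤ n ^ 2 := by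
  classical
  have hmid : ∀ w : V, ∃ x : V, w ∈ s → (x = v ∨ G.Adj v x) ∧ (w = x ∨ G.Adj x w) := by
    intro w
    by_cases hw : w ∈ s
    · rcases ((sqG_adj_iff G v w).1 (hs w hw)).2 with h | ⟨x, h1, h2⟩
      · exact ⟨v, fun _ => ⟨Or.inl rfl, Or.inr h⟩⟩
      · exact ⟨x, fun _ => ⟨Or.inr h1, Or.inr h2⟩⟩
    · exact ⟨v, fun h => absurd h hw⟩
  choose mid hmid using hmid
  have hinj : Set.InjOn (fun w => (φ (mid w), φ w)) (s : Set V) := by
    intro w hw w' hw' h
    simp only [Prod.mk.injEq] at h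
    have hw1 := hmid w hw
    have hw2 := hmid w' hw'
    have hm : mid w = mid w' := by
      by_contra hne
      exact hprop _ _ (sqG_clique G hw1.1 hw2.1 hne) h.1
    by_contra hne
    refine hprop _ _ (sqG_clique G (v := mid w) hw1.2 ?_ hne) h.2
    rw [hm]
    exact hw2.2
  have hmaps : ∀ w ∈ s, (fun w => (φ (mid w), φ w)) w ∈ (range n) ×ˢ (range n) := by
    intro w _
    simp only [mem_product, mem_range]
    exact ⟨hφ _, hφ _⟩
  calc s.card ≤ ((range n) ×ˢ (range n)).card := Finset.card_le_card_of_injOn _ hmaps hinj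
    _ = n ^ 2 := by rw [card_product, card_range, sq]

/-- greedy list colouring -/
lemma greedy_list {V : Type} [Fintype V] (H : SimpleGraph V) (d : ℕ)
    (hd : ∀ v (s : Finset V), (∀ w ∈ s, H.Adj v w) → s.card ≤ d)
    (L : V → Finset ℕ) (hL : ∀ v, d + 1 ≤ (L v).card) :
    ∃ c : V → ℕ, (∀ v, c v ∈ L v) ∧ ∀ u v, H.Adj u v → c u ≠ c v := by
  classical
  suffices h : ∀ T : Finset V, ∃ c : V → ℕ, (∀ v ∈ T, c v ∈ L v) ∧
      ∀ u ∈ T, ∀ v ∈ T, H.Adj u v → c u ≠ c v by
    obtain ⟨c, h1, h2⟩ := h univ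
    exact ⟨c, fun v => h1 v (mem_univ v), fun u v => h2 u (mem_univ u) v (mem_univ v)⟩
  intro T
  induction T using Finset.induction_on with
  | empty => exact ⟨fun _ => 0, by simp, by simp⟩
  | insert v T hv ih =>
    obtain ⟨c, h1, h2⟩ := ih
    have hcard : ((T.filter (fun w => H.Adj v w)).image c).card < (L v).card := by
      calc ((T.filter (fun w => H.Adj v w)).image c).card
          ≤ (T.filter (fun w => H.Adj v w)).card := card_image_le
        _ ≤ d := hd v _ (fun w hw => (mem_filter.1 hw).2)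
        _ < (L v).card := hL v
    obtain ⟨x, hx1, hx2⟩ := Finset.exists_mem_notMem_of_card_lt_card hcard
    have hx : ∀ w ∈ T, H.Adj v w → c w ≠ x := by
      intro w hw hadj h
      exact hx2 (mem_image.2 ⟨w, mem_filter.2 ⟨hw, hadj⟩, h⟩)
    refine ⟨Function.update c v x, ?_, ?_⟩
    · intro w hw
      by_cases hwv : w = v
      · subst hwv; rw [Function.update_self]; exact hx1
      · rw [Function.update_of_ne hwv]
        exact h1 w ((mem_insert.1 hw).resolve_left hwv)
    · intro u hu w hw hadj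
      by_cases huv : u = v
      · by_cases hwv : w = v
        · rw [huv, hwv] at hadj
          exact absurd hadj (H.irrefl)
        · have hwT : w ∈ T := (mem_insert.1 hw).resolve_left hwv
          rw [huv, Function.update_self, Function.update_of_ne hwv]
          rw [huv] at hadj
          exact (hx w hwT hadj).symm
      · have huT : u ∈ T := (mem_insert.1 hu).resolve_left huv
        by_cases hwv : w = v
        · rw [hwv, Function.update_self, Function.update_of_ne huv]
          rw [hwv] at hadj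
          exact hx u huT hadj.symm
        · have hwT : w ∈ T := (mem_insert.1 hw).resolve_left hwv
          rw [Function.update_of_ne hwv, Function.update_of_ne huv]
          exact h2 u huT w hwT hadj

/-- a finite graph is properly coloured by the values below its chromatic number -/
lemma exists_phi {V : Type} [Fintype V] (H : SimpleGraph V) :
    ∃ φ : V → ℕ, (∀ v, φ v < H.chromaticNumber.toNat) ∧ ∀ u v, H.Adj u v → φ u ≠ φ v := by
  have hne : H.chromaticNumber ≠ ⊤ :=
    SimpleGraph.chromaticNumber_ne_top_iff_exists.2 ⟨_, H.colorable_of_fintype⟩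
  obtain ⟨c⟩ := SimpleGraph.colorable_of_chromaticNumber_ne_top hne
  exact ⟨fun v => (c v : ℕ), fun v => (c v).2, fun u v h hh => c.valid h (Fin.ext hh)⟩

/-- the numbers `t` such that lists of size `t` suffice for all squares of chromatic number `n` -/
def goodT (n : ℕ) : Set ℕ :=
  {t : ℕ | ∀ (V : Type) [Fintype V] (G : SimpleGraph V) (L : V → Finset ℕ),
    (sqG G).chromaticNumber.toNat = n → (∀ v, t ≤ (L v).card) →
    ∃ c : V → ℕ, (∀ v, c v ∈ L v) ∧ ∀ u w, (sqG G).Adj u w → c u ≠ c w}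

lemma goodT_nonempty (n : ℕ) : (goodT n).Nonempty := by
  refine ⟨n ^ 2 + 1, fun V _ G L hn hL => ?_⟩
  obtain ⟨φ, h1, h2⟩ := exists_phi (sqG G)
  rw [hn] at h1
  exact greedy_list (sqG G) (n ^ 2) (fun v s hs => sqG_degree G φ h1 h2 v s hs) L hL

lemma goodT_small {ε : ℝ} (hε : 0 < ε) (hε1 : ε ≤ 1) :
    ∃ k0 : ℕ, ∀ n ≥ k0, ⌈ε * (n : ℝ) ^ 2⌉₊ ∈ goodT n := by
  obtain ⟨k0, hk0⟩ := theoremA hε hε1
  refine ⟨k0, fun n hn V _ G L hχ hL => ?_⟩
  obtain ⟨φ, h1, h2⟩ := exists_phi (sqG G)
  rw [hχ] at h1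
  exact hk0 n hn V (sqG G) (fun v s hs => sqG_degree G φ h1 h2 v s hs) φ h1 h2 L hL

end Pool.Agent.SQ
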